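import Mathlib

/-!
# Combinatorial part of the upper bound for sums of `kap`
-/

set_option autoImplicit false

namespace Pool.Agent.Helper48

open Finset

/-- Partial sums of a vector `b` indexed by `Fin J`. -/
def pre {J : ℕ} (b : Fin J → ℕ) (h : ℕ) : ℕ := ∑ i ∈ univ.filter (fun i : Fin J => (i : ℕ) < h), b i

/-- Maximal excess `max_h (B_h - h)` (truncated subtraction). -/
def uu {J : ℕ} (b : Fin J → ℕ) : ℕ := (range (J + 1)).sup (fun h => pre b h - h)

/-- Last place where the maximal excess is attained. -/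
def js {J : ℕ} (b : Fin J → ℕ) : ℕ := Nat.findGreatest (fun h => pre b h = h + uu b) J

lemma pre_zero {J : ℕ} (b : Fin J → ℕ) : pre b 0 = 0 := by simp [pre]

lemma pre_le_add_uu {J : ℕ} (b : Fin J → ℕ) {h : ℕ} (hh : h ≤ J) : pre b h ≤ h + uu b := by
  have : pre b h - h ≤ uu b := by
    unfold uu
    exact Finset.le_sup (f := fun h => pre b h - h) (by simp; omega)
  omega

lemma js_le {J : ℕ} (b : Fin J → ℕ) : js b ≤ J := Nat.findGreatest_le _

lemma pre_js {J : ℕ} (b : Fin J → ℕ) : pre b (js b) = js b + uu b := by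
  have hex : ∃ h, h ≤ J ∧ pre b h = h + uu b := by
    obtain ⟨h, hh, he⟩ := Finset.exists_mem_eq_sup (range (J + 1)) (by simp) (fun h => pre b h - h)
    simp only [mem_range] at hh
    have hu : uu b = pre b h - h := he
    rcases Nat.lt_or_ge (pre b h) h with hlt | hge
    · refine ⟨0, by omega, ?_⟩
      rw [pre_zero]; omega
    · exact ⟨h, by omega, by omega⟩
  obtain ⟨h, hh, he⟩ := hex
  exact Nat.findGreatest_spec (P := fun h => pre b h = h + uu b) hh he

lemma pre_lt_of_js_lt {J : ℕ} (b : Fin J → ℕ) {h : ℕ} (h1 : js b < h) (h2 : h ≤ J) :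
    pre b h < h + uu b := by
  have h3 := pre_le_add_uu b h2
  have h4 : ¬ (pre b h = h + uu b) :=
    Nat.findGreatest_is_greatest (P := fun h => pre b h = h + uu b) h1 h2
  omega

/-- Remove one unit from the coordinate `i`. -/
def dec {J : ℕ} (b : Fin J → ℕ) (i : Fin J) : Fin J → ℕ := Function.update b i (b i - 1)

lemma pre_dec_of_le {J : ℕ} (b : Fin J → ℕ) (i : Fin J) {h : ℕ} (hi : h ≤ (i : ℕ)) :
    pre (dec b i) h = pre b h := by
  unfold pre dec
  apply Finset.sum_congr rfl
  intro x hx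
  simp only [mem_filter, mem_univ, true_and] at hx
  rw [Function.update_of_ne]
  intro hxi
  rw [hxi] at hx
  omega

lemma pre_dec_of_lt {J : ℕ} (b : Fin J → ℕ) (i : Fin J) {h : ℕ} (hi : (i : ℕ) < h) (hb : 1 ≤ b i) :
    pre (dec b i) h + 1 = pre b h := by
  unfold pre dec
  have hmem : i ∈ univ.filter (fun i : Fin J => (i : ℕ) < h) := by simp [hi]
  rw [← Finset.add_sum_erase _ _ hmem, ← Finset.add_sum_erase _ b hmem]
  have : ∑ x ∈ (univ.filter (fun i : Fin J => (i : ℕ) < h)).erase i, Function.update b i (b i - 1) x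
      = ∑ x ∈ (univ.filter (fun i : Fin J => (i : ℕ) < h)).erase i, b x := by
    apply Finset.sum_congr rfl
    intro x hx
    rw [Function.update_of_ne (Finset.ne_of_mem_erase hx)]
  rw [this, Function.update_self]
  omega

lemma dec_recover {J : ℕ} (b : Fin J → ℕ) (i : Fin J) (hi : (i : ℕ) < js b) (hb : 1 ≤ b i) :
    Nat.findGreatest (fun h => h + uu b ≤ pre (dec b i) h + 1) J = js b := by
  rw [Nat.findGreatest_eq_iff]
  refine ⟨js_le b, ?_, ?_⟩
  · intro _
    rw [pre_dec_of_lt b i hi hb, pre_js]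
  · intro h h1 h2
    rw [pre_dec_of_lt b i (by omega) hb]
    have := pre_lt_of_js_lt b h1 h2
    omega

lemma inc_dec {J : ℕ} (b : Fin J → ℕ) (i : Fin J) (hb : 1 ≤ b i) :
    Function.update (dec b i) i (dec b i i + 1) = b := by
  unfold dec
  ext x
  by_cases hx : x = i
  · subst hx; simp; omega
  · simp [Function.update_of_ne hx]

/-- The encoding of pairs `(b, i)`. -/
def enc {J : ℕ} (z : (Fin J → ℕ) × Fin J) : ℕ × ℕ × (Fin J → ℕ) :=
  (uu z.1, js z.1 - 1 - (z.2 : ℕ), dec z.1 z.2)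

lemma enc_injOn {J : ℕ} :
    Set.InjOn (enc (J := J)) {z | (z.2 : ℕ) < js z.1 ∧ 1 ≤ z.1 z.2} := by
  rintro ⟨b, i⟩ ⟨hi, hb⟩ ⟨c, l⟩ ⟨hl, hc⟩ h
  simp only [enc, Prod.mk.injEq] at h
  obtain ⟨h1, h2, h3⟩ := h
  have hj : js b = js c := by
    rw [← dec_recover b i hi hb, ← dec_recover c l hl hc, h1, h3]
  have hil : i = l := by
    apply Fin.ext
    simp only at hi hl
    omega
  subst hil
  have : b = c := by
    rw [← inc_dec b i hb, ← inc_dec c i hc, h3]
  rw [this]

/-- Poisson-type weight. -/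
noncomputable def wt {J : ℕ} (lam : Fin J → ℝ) (b : Fin J → ℕ) : ℝ :=
  ∏ i, lam i ^ b i / ((b i).factorial : ℝ)

lemma wt_nonneg {J : ℕ} {lam : Fin J → ℝ} (hl : ∀ i, 0 ≤ lam i) (b : Fin J → ℕ) : 0 ≤ wt lam b :=
  Finset.prod_nonneg fun i _ => div_nonneg (pow_nonneg (hl i) _) (by positivity)

lemma wt_mul_coord {J : ℕ} (lam : Fin J → ℝ) (b : Fin J → ℕ) (i : Fin J) (hb : 1 ≤ b i) :
    wt lam b * b i = lam i * wt lam (dec b i) := by
  unfold wt
  rw [← Finset.mul_prod_erase univ _ (mem_univ i), ← Finset.mul_prod_erase univ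
    (fun x => lam x ^ (dec b i x) / ((dec b i x).factorial : ℝ)) (mem_univ i)]
  have h1 : ∏ x ∈ univ.erase i, lam x ^ (dec b i x) / ((dec b i x).factorial : ℝ)
      = ∏ x ∈ univ.erase i, lam x ^ (b x) / ((b x).factorial : ℝ) := by
    apply Finset.prod_congr rfl
    intro x hx
    have : dec b i x = b x := by
      unfold dec; rw [Function.update_of_ne (Finset.ne_of_mem_erase hx)]
    rw [this]
  rw [h1]
  have h2 : dec b i i = b i - 1 := by unfold dec; simp
  rw [h2]
  obtain ⟨m, hm⟩ : ∃ m, b i = m + 1 := ⟨b i - 1, by omega⟩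
  rw [hm]
  simp only [Nat.add_sub_cancel, Nat.factorial_succ, Nat.cast_mul, pow_succ]
  have h3 : ((m + 1 : ℕ) : ℝ) ≠ 0 := by positivity
  have h4 : ((m.factorial : ℕ) : ℝ) ≠ 0 := by positivity
  field_simp

/-- vectors with entries at most `K`. -/
def box (J K : ℕ) : Finset (Fin J → ℕ) := Fintype.piFinset (fun _ => range (K + 1))

lemma mem_box {J K : ℕ} {b : Fin J → ℕ} : b ∈ box J K ↔ ∀ i, b i ≤ K := by
  simp [box, Fintype.mem_piFinset]

/-- Sum of weights over vectors with excess at most `u`. -/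
noncomputable def HH {J : ℕ} (K : ℕ) (lam : Fin J → ℝ) (u : ℕ) : ℝ :=
  ∑ b ∈ (box J K).filter (fun b => uu b ≤ u), wt lam b

lemma uu_mono {J : ℕ} {b c : Fin J → ℕ} (h : ∀ i, b i ≤ c i) : uu b ≤ uu c := by
  unfold uu
  apply Finset.sup_mono_fun
  intro x _
  have : pre b x ≤ pre c x := Finset.sum_le_sum fun i _ => h i
  omega

lemma dec_le {J : ℕ} (b : Fin J → ℕ) (i : Fin J) (j : Fin J) : dec b i j ≤ b j := by
  unfold dec
  by_cases h : j = i
  · subst h; simp
  · rw [Function.update_of_ne h]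

lemma uu_le_of_box {J K : ℕ} {b : Fin J → ℕ} (hb : b ∈ box J K) : uu b ≤ J * K := by
  unfold uu
  apply Finset.sup_le
  intro h _
  have h1 : pre b h ≤ ∑ i : Fin J, K := by
    unfold pre
    calc _ ≤ ∑ i ∈ univ.filter (fun i : Fin J => (i : ℕ) < h), K :=
          Finset.sum_le_sum fun i _ => mem_box.1 hb i
      _ ≤ ∑ i : Fin J, K := Finset.sum_le_sum_of_subset (Finset.filter_subset _ _)
  simp at h1
  omega

/-- The key bound: a function `φ` dominated by `min_j` is controlled by the sums `HH`. -/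
theorem sum_phi_le {J K : ℕ} (hJ : 1 ≤ J) (lam : Fin J → ℝ) (hl : ∀ i, 0 ≤ lam i) (Lam : ℝ)
    (hL : ∀ i, lam i ≤ Lam) (φ : (Fin J → ℕ) → ℝ)
    (hφ : ∀ b, ∀ j ≤ J, φ b ≤
      (1 + ∑ i ∈ univ.filter (fun i : Fin J => (i : ℕ) < j), (b i : ℝ) * 2 ^ ((i : ℕ) + 1)) /
        2 ^ (pre b j)) :
    ∑ b ∈ box J K, wt lam b * φ b ≤
      (1 + 2 * Lam) * ∑ u ∈ range (J * K + 1), (1 / 2 : ℝ) ^ u * HH K lam u := by
  rcases Nat.eq_zero_or_pos J with hJ0 | hJpos
  · exact absurd hJ0 (by omega)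
  have hLam : 0 ≤ Lam := (hl ⟨0, hJpos⟩).trans (hL ⟨0, hJpos⟩)
  -- pointwise bound
  have hpt : ∀ b : Fin J → ℕ, φ b ≤ (1 / 2 : ℝ) ^ (uu b) +
      ∑ i ∈ univ.filter (fun i : Fin J => (i : ℕ) < js b),
        (b i : ℝ) * ((1 / 2 : ℝ) ^ (uu b) * (1 / 2 : ℝ) ^ (js b - 1 - (i : ℕ))) := by
    intro b
    refine (hφ b (js b) (js_le b)).trans ?_
    rw [pre_js, add_div]
    have e1 : (1 : ℝ) / 2 ^ (js b + uu b) ≤ (1 / 2 : ℝ) ^ (uu b) := by
      rw [one_div_pow]
      apply one_div_le_one_div_of_le (by positivity)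
      exact pow_le_pow_right₀ (by norm_num) (by omega)
    refine add_le_add e1 ?_
    rw [Finset.sum_div]
    apply Finset.sum_le_sum
    intro i hi
    simp only [mem_filter, mem_univ, true_and] at hi
    have e2 : (2 : ℝ) ^ ((i : ℕ) + 1) / 2 ^ (js b + uu b) =
        (1 / 2 : ℝ) ^ (uu b) * (1 / 2 : ℝ) ^ (js b - 1 - (i : ℕ)) := by
      have : js b + uu b = ((i : ℕ) + 1) + (uu b + (js b - 1 - (i : ℕ))) := by omega
      rw [← pow_add, one_div_pow, this, pow_add (2 : ℝ) ((i : ℕ) + 1)]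
      field_simp
    rw [mul_div_assoc, e2]
  -- split
  have h1 : ∑ b ∈ box J K, wt lam b * φ b ≤
      ∑ b ∈ box J K, wt lam b * (1 / 2 : ℝ) ^ (uu b) +
      ∑ b ∈ box J K, ∑ i ∈ univ.filter (fun i : Fin J => (i : ℕ) < js b),
        wt lam b * ((b i : ℝ) * ((1 / 2 : ℝ) ^ (uu b) * (1 / 2 : ℝ) ^ (js b - 1 - (i : ℕ)))) := by
    rw [← Finset.sum_add_distrib]
    apply Finset.sum_le_sum
    intro b _
    rw [← Finset.mul_sum, ← mul_add]
    exact mul_le_mul_of_nonneg_left (hpt b) (wt_nonneg hl b)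
  have h2 : ∑ b ∈ box J K, wt lam b * (1 / 2 : ℝ) ^ (uu b) ≤
      ∑ u ∈ range (J * K + 1), (1 / 2 : ℝ) ^ u * HH K lam u := by
    have e : ∑ b ∈ box J K, wt lam b * (1 / 2 : ℝ) ^ (uu b) =
        ∑ u ∈ range (J * K + 1), ∑ b ∈ (box J K).filter (fun b => uu b = u),
          wt lam b * (1 / 2 : ℝ) ^ (uu b) := by
      rw [Finset.sum_fiberwise_of_maps_to]
      intro b hb
      simp only [mem_range]
      have := uu_le_of_box hb
      omega
    rw [e]
    apply Finset.sum_le_sum
    intro u _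
    unfold HH
    rw [Finset.mul_sum]
    calc ∑ b ∈ (box J K).filter (fun b => uu b = u), wt lam b * (1 / 2 : ℝ) ^ (uu b)
        = ∑ b ∈ (box J K).filter (fun b => uu b = u), (1 / 2 : ℝ) ^ u * wt lam b := by
          apply Finset.sum_congr rfl
          intro b hb
          simp only [mem_filter] at hb
          rw [hb.2, mul_comm]
      _ ≤ _ := by
          apply Finset.sum_le_sum_of_subset_of_nonneg
          · intro b hb
            simp only [mem_filter] at hb ⊢
            exact ⟨hb.1, hb.2.le⟩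
          · intro b _ _
            exact mul_nonneg (by positivity) (wt_nonneg hl b)
  have h3 : ∑ b ∈ box J K, ∑ i ∈ univ.filter (fun i : Fin J => (i : ℕ) < js b),
        wt lam b * ((b i : ℝ) * ((1 / 2 : ℝ) ^ (uu b) * (1 / 2 : ℝ) ^ (js b - 1 - (i : ℕ)))) ≤
      2 * Lam * ∑ u ∈ range (J * K + 1), (1 / 2 : ℝ) ^ u * HH K lam u := by
    -- rewrite as a sum over pairs
    set Z : Finset ((Fin J → ℕ) × Fin J) :=
      ((box J K) ×ˢ (univ : Finset (Fin J))).filter
        (fun z => (z.2 : ℕ) < js z.1 ∧ 1 ≤ z.1 z.2) with hZ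
    set T : Finset (ℕ × ℕ × (Fin J → ℕ)) :=
      ((range (J * K + 1)) ×ˢ ((range J) ×ˢ (box J K))).filter (fun t => uu t.2.2 ≤ t.1) with hT
    set g : ℕ × ℕ × (Fin J → ℕ) → ℝ := fun t =>
      Lam * wt lam t.2.2 * ((1 / 2 : ℝ) ^ t.1 * (1 / 2 : ℝ) ^ t.2.1) with hg
    have hgnn : ∀ t, 0 ≤ g t := fun t =>
      mul_nonneg (mul_nonneg hLam (wt_nonneg hl _)) (by positivity)
    have e1 : ∑ b ∈ box J K, ∑ i ∈ univ.filter (fun i : Fin J => (i : ℕ) < js b),
        wt lam b * ((b i : ℝ) * ((1 / 2 : ℝ) ^ (uu b) * (1 / 2 : ℝ) ^ (js b - 1 - (i : ℕ))))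
        = ∑ z ∈ Z, wt lam z.1 * ((z.1 z.2 : ℝ) * ((1 / 2 : ℝ) ^ (uu z.1) *
            (1 / 2 : ℝ) ^ (js z.1 - 1 - (z.2 : ℕ)))) := by
      have : ∀ b ∈ box J K, ∑ i ∈ univ.filter (fun i : Fin J => (i : ℕ) < js b),
          wt lam b * ((b i : ℝ) * ((1 / 2 : ℝ) ^ (uu b) * (1 / 2 : ℝ) ^ (js b - 1 - (i : ℕ))))
          = ∑ i : Fin J, if ((i : ℕ) < js b ∧ 1 ≤ b i) then
          wt lam b * ((b i : ℝ) * ((1 / 2 : ℝ) ^ (uu b) * (1 / 2 : ℝ) ^ (js b - 1 - (i : ℕ)))) else 0 := by
        intro b _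
        rw [Finset.sum_filter]
        apply Finset.sum_congr rfl
        intro i _
        by_cases h : (i : ℕ) < js b
        · by_cases h' : 1 ≤ b i
          · simp [h, h']
          · have : b i = 0 := by omega
            simp [this]
        · simp [h]
      rw [Finset.sum_congr rfl this, hZ, Finset.sum_filter, Finset.sum_product]
    have e2 : ∀ z ∈ Z, wt lam z.1 * ((z.1 z.2 : ℝ) * ((1 / 2 : ℝ) ^ (uu z.1) *
            (1 / 2 : ℝ) ^ (js z.1 - 1 - (z.2 : ℕ)))) ≤ g (enc z) := by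
      rintro ⟨b, i⟩ hz
      simp only [hZ, mem_filter, mem_product, mem_univ, and_true] at hz
      obtain ⟨hb, hi, hbi⟩ := hz
      simp only [hg, enc]
      rw [← mul_assoc (wt lam b), wt_mul_coord lam b i hbi]
      exact mul_le_mul_of_nonneg_right
        (mul_le_mul_of_nonneg_right (hL i) (wt_nonneg hl _)) (by positivity)
    have hmaps : ∀ z ∈ Z, enc z ∈ T := by
      rintro ⟨b, i⟩ hz
      simp only [hZ, mem_filter, mem_product, mem_univ, and_true] at hz
      obtain ⟨hb, hi, hbi⟩ := hz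
      simp only [hT, enc, mem_filter, mem_product, mem_range]
      refine ⟨⟨?_, ?_, ?_⟩, uu_mono (dec_le b i)⟩
      · have := uu_le_of_box hb; omega
      · have := js_le b; omega
      · rw [mem_box] at hb ⊢
        intro j
        exact (dec_le b i j).trans (hb j)
    have hinj : Set.InjOn (enc (J := J)) (Z : Set ((Fin J → ℕ) × Fin J)) := by
      apply enc_injOn.mono
      intro z hz
      simp only [hZ, coe_filter, mem_product, mem_univ, and_true, Set.mem_ofPred_eq] at hz
      exact hz.2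
    rw [e1]
    calc ∑ z ∈ Z, wt lam z.1 * ((z.1 z.2 : ℝ) * ((1 / 2 : ℝ) ^ (uu z.1) *
            (1 / 2 : ℝ) ^ (js z.1 - 1 - (z.2 : ℕ))))
        ≤ ∑ z ∈ Z, g (enc z) := Finset.sum_le_sum e2
      _ = ∑ t ∈ Z.image enc, g t := (Finset.sum_image hinj).symm
      _ ≤ ∑ t ∈ T, g t := by
          apply Finset.sum_le_sum_of_subset_of_nonneg
          · intro t ht
            obtain ⟨z, hz, rfl⟩ := Finset.mem_image.1 ht
            exact hmaps z hz
          · intro t _ _; exact hgnn t
      _ = ∑ u ∈ range (J * K + 1), ∑ i ∈ range J, ∑ b ∈ (box J K).filter (fun b => uu b ≤ u),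
            Lam * wt lam b * ((1 / 2 : ℝ) ^ u * (1 / 2 : ℝ) ^ i) := by
          rw [hT, Finset.sum_filter, Finset.sum_product]
          apply Finset.sum_congr rfl
          intro u _
          rw [Finset.sum_product]
          apply Finset.sum_congr rfl
          intro i _
          rw [Finset.sum_filter]
      _ = ∑ u ∈ range (J * K + 1), (∑ i ∈ range J, (1 / 2 : ℝ) ^ i) * (Lam * ((1 / 2 : ℝ) ^ u * HH K lam u)) := by
          apply Finset.sum_congr rfl
          intro u _
          rw [Finset.sum_mul]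
          apply Finset.sum_congr rfl
          intro i _
          unfold HH
          rw [Finset.mul_sum, Finset.mul_sum, Finset.mul_sum]
          apply Finset.sum_congr rfl
          intro b _
          ring
      _ ≤ ∑ u ∈ range (J * K + 1), 2 * (Lam * ((1 / 2 : ℝ) ^ u * HH K lam u)) := by
          apply Finset.sum_le_sum
          intro u _
          apply mul_le_mul_of_nonneg_right
          · have := geom_sum_eq (x := (1/2 : ℝ)) (by norm_num) J
            rw [this]
            have h0 : (0 : ℝ) ≤ (1/2 : ℝ) ^ J := by positivity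
            have : ((1/2 : ℝ) ^ J - 1) / (1 / 2 - 1) = 2 * (1 - (1/2 : ℝ) ^ J) := by ring
            rw [this]; linarith
          · exact mul_nonneg hLam (mul_nonneg (by positivity)
              (Finset.sum_nonneg fun b _ => wt_nonneg hl b))
      _ = _ := by
          rw [Finset.mul_sum]
          apply Finset.sum_congr rfl
          intro u _
          ring
  calc _ ≤ _ := h1
    _ ≤ _ := add_le_add h2 h3
    _ = _ := by ring

lemma wt_add {J : ℕ} (mu nu : Fin J → ℝ) (b : Fin J → ℕ) :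
    wt (fun i => mu i + nu i) b =
      ∑ m ∈ Fintype.piFinset (fun i => range (b i + 1)), wt nu m * wt mu (fun i => b i - m i) := by
  unfold wt
  have h : ∀ i, (mu i + nu i) ^ b i / ((b i).factorial : ℝ) =
      ∑ m ∈ range (b i + 1), (nu i ^ m / (m.factorial : ℝ)) *
        (mu i ^ (b i - m) / ((b i - m).factorial : ℝ)) := by
    intro i
    rw [add_comm, add_pow, Finset.sum_div]
    apply Finset.sum_congr rfl
    intro m hm
    simp only [mem_range] at hm
    have hm' : m ≤ b i := by omega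
    rw [Nat.cast_choose ℝ hm']
    have h1 : ((b i).factorial : ℝ) ≠ 0 := by positivity
    have h2 : ((m).factorial : ℝ) ≠ 0 := by positivity
    have h3 : ((b i - m).factorial : ℝ) ≠ 0 := by positivity
    field_simp
  rw [Finset.prod_congr rfl (fun i _ => h i), Finset.prod_univ_sum]
  apply Finset.sum_congr rfl
  intro m _
  rw [Finset.prod_mul_distrib]

theorem HH_thin {J K : ℕ} (mu nu : Fin J → ℝ) (hm : ∀ i, 0 ≤ mu i) (hn : ∀ i, 0 ≤ nu i) (u : ℕ) :
    HH K (fun i => mu i + nu i) u ≤ Real.exp (∑ i, nu i) * HH K mu u := by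
  have h1 : ∑ m ∈ box J K, wt nu m ≤ Real.exp (∑ i, nu i) := by
    unfold box wt
    rw [← Finset.prod_univ_sum (fun _ => range (K + 1)) (fun i m => nu i ^ m / (m.factorial : ℝ)),
      Real.exp_sum]
    apply Finset.prod_le_prod
    · intro i _
      exact Finset.sum_nonneg fun m _ => div_nonneg (pow_nonneg (hn i) _) (by positivity)
    · intro i _
      exact Real.sum_le_exp_of_nonneg (hn i) _
  have h2 : HH K (fun i => mu i + nu i) u ≤ (∑ m ∈ box J K, wt nu m) * HH K mu u := by
    unfold HH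
    rw [Finset.sum_mul_sum, ← Finset.sum_product']
    rw [Finset.sum_congr rfl (fun b _ => wt_add mu nu b)]
    rw [Finset.sum_sigma']
    rw [← Finset.sum_image (s := ((box J K).filter (fun b => uu b ≤ u)).sigma
      (fun b => Fintype.piFinset (fun i => range (b i + 1))))
      (g := fun z : (_ : Fin J → ℕ) × (Fin J → ℕ) => ((z.2, fun i => z.1 i - z.2 i) :
        (Fin J → ℕ) × (Fin J → ℕ)))
      (f := fun t => wt nu t.1 * wt mu t.2)]
    · apply Finset.sum_le_sum_of_subset_of_nonneg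
      · intro t ht
        obtain ⟨⟨b, m⟩, hz, rfl⟩ := Finset.mem_image.1 ht
        simp only [mem_sigma, mem_filter, Fintype.mem_piFinset, mem_range] at hz
        obtain ⟨⟨hb, hu⟩, hmb⟩ := hz
        simp only [mem_product, mem_filter]
        rw [mem_box] at hb
        refine ⟨mem_box.2 fun i => ?_, mem_box.2 fun i => ?_, ?_⟩
        · have := hmb i; have := hb i; omega
        · have := hb i; omega
        · exact (uu_mono fun i => Nat.sub_le _ _).trans hu
      · intro t _ _
        exact mul_nonneg (wt_nonneg hn _) (wt_nonneg hm _)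
    · rintro ⟨b, m⟩ hz ⟨c, n⟩ hz' h
      simp only [coe_sigma, Set.mem_sigma_iff, mem_coe, mem_filter, Fintype.mem_piFinset,
        mem_range] at hz hz'
      simp only [Prod.mk.injEq] at h
      obtain ⟨h1, h2⟩ := h
      subst h1
      have : b = c := by
        funext i
        have e : b i - m i = c i - m i := congrFun h2 i
        have := hz.2 i
        have := hz'.2 i
        omega
      subst this
      rfl
  exact h2.trans (mul_le_mul_of_nonneg_right h1 (Finset.sum_nonneg fun b _ => wt_nonneg hm b))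

end Pool.Agent.Helper48
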