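import Mathlib
import Pool.Agent.Helper44.Defs
import Pool.Agent.Helper48.KUComb

/-!
# Number-theoretic ingredients for the upper bound for sums of `kap`
-/

set_option autoImplicit false

namespace Pool.Agent.Helper48

open Finset Pool.Agent.Helper44

/-! ### Properties of `kap` -/

lemma log_mul_cases {a b : ℕ} (ha : a ≠ 0) (hb : b ≠ 0) :
    Nat.log 2 (a * b) = Nat.log 2 a + Nat.log 2 b ∨
      Nat.log 2 (a * b) = Nat.log 2 a + Nat.log 2 b + 1 := by
  have h1 := Nat.pow_log_le_self 2 ha
  have h2 := Nat.pow_log_le_self 2 hb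
  have h3 := Nat.lt_pow_succ_log_self (b := 2) (by norm_num) a
  have h4 := Nat.lt_pow_succ_log_self (b := 2) (by norm_num) b
  have hab : a * b ≠ 0 := Nat.mul_ne_zero ha hb
  have h5 : 2 ^ (Nat.log 2 a + Nat.log 2 b) ≤ a * b := by
    rw [pow_add]; exact Nat.mul_le_mul h1 h2
  have h6 : a * b < 2 ^ (Nat.log 2 a + Nat.log 2 b + 2) := by
    have : a * b < 2 ^ (Nat.log 2 a).succ * 2 ^ (Nat.log 2 b).succ := Nat.mul_lt_mul'' h3 h4
    calc a * b < _ := this
      _ = _ := by rw [← pow_add]; congr 1; omega
  have h7 : Nat.log 2 a + Nat.log 2 b ≤ Nat.log 2 (a * b) :=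
    Nat.le_log_of_pow_le (by norm_num) h5
  have h8 : Nat.log 2 (a * b) < Nat.log 2 a + Nat.log 2 b + 2 :=
    Nat.log_lt_of_lt_pow hab h6
  omega

lemma kap_mul_le (M N : ℕ) (hM : M ≠ 0) (hN : N ≠ 0) :
    kap (M * N) ≤ 2 * N.divisors.card * kap M := by
  classical
  unfold kap
  have hsub : (M * N).divisors.image (Nat.log 2) ⊆
      N.divisors.biUnion (fun d => ((M.divisors.image (Nat.log 2)).image (fun a => a + Nat.log 2 d)) ∪
        ((M.divisors.image (Nat.log 2)).image (fun a => a + Nat.log 2 d + 1))) := by
    intro x hx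
    obtain ⟨d, hd, rfl⟩ := Finset.mem_image.1 hx
    rw [Nat.mem_divisors] at hd
    obtain ⟨d1, d2, h1, h2, rfl⟩ := (Nat.dvd_mul.1 hd.1)
    have hd1 : d1 ≠ 0 := fun h => hM (by rw [h] at h1; exact Nat.eq_zero_of_zero_dvd h1)
    have hd2 : d2 ≠ 0 := fun h => hN (by rw [h] at h2; exact Nat.eq_zero_of_zero_dvd h2)
    rw [Finset.mem_biUnion]
    refine ⟨d2, Nat.mem_divisors.2 ⟨h2, hN⟩, ?_⟩
    rw [Finset.mem_union]
    have hmem : Nat.log 2 d1 ∈ M.divisors.image (Nat.log 2) :=
      Finset.mem_image_of_mem _ (Nat.mem_divisors.2 ⟨h1, hM⟩)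
    rcases log_mul_cases hd1 hd2 with h | h
    · left; rw [h]; exact Finset.mem_image_of_mem (fun a => a + Nat.log 2 d2) hmem
    · right; rw [h]; exact Finset.mem_image_of_mem (fun a => a + Nat.log 2 d2 + 1) hmem
  refine (Finset.card_le_card hsub).trans ?_
  refine Finset.card_biUnion_le.trans ?_
  calc ∑ d ∈ N.divisors, (((M.divisors.image (Nat.log 2)).image (fun a => a + Nat.log 2 d)) ∪
        ((M.divisors.image (Nat.log 2)).image (fun a => a + Nat.log 2 d + 1))).card
      ≤ ∑ d ∈ N.divisors, 2 * (M.divisors.image (Nat.log 2)).card := by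
        apply Finset.sum_le_sum
        intro d _
        refine (Finset.card_union_le _ _).trans ?_
        have e1 : ((M.divisors.image (Nat.log 2)).image (fun a => a + Nat.log 2 d)).card ≤
          (M.divisors.image (Nat.log 2)).card := Finset.card_image_le
        have e2 : ((M.divisors.image (Nat.log 2)).image (fun a => a + Nat.log 2 d + 1)).card ≤
          (M.divisors.image (Nat.log 2)).card := Finset.card_image_le
        omega
    _ = _ := by rw [Finset.sum_const, smul_eq_mul]; ring

lemma kap_le_log (M : ℕ) : kap M ≤ Nat.log 2 M + 1 := by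
  unfold kap
  have : M.divisors.image (Nat.log 2) ⊆ range (Nat.log 2 M + 1) := by
    intro x hx
    obtain ⟨d, hd, rfl⟩ := Finset.mem_image.1 hx
    rw [Nat.mem_divisors] at hd
    rw [mem_range]
    exact Nat.lt_succ_of_le (Nat.log_mono_right (Nat.le_of_dvd (Nat.pos_of_ne_zero hd.2) hd.1))
  simpa using Finset.card_le_card this

lemma card_divisors_of_squarefree {N : ℕ} (hN : Squarefree N) :
    N.divisors.card = 2 ^ N.primeFactors.card := by
  rw [Nat.card_divisors hN.ne_zero]
  rw [Finset.prod_congr rfl (g := fun _ => 2)]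
  · rw [Finset.prod_const]
  · intro q hq
    have : N.factorization q = 1 := by
      have h1 := hN.natFactorization_le_one q
      have h2 : N.factorization q ≠ 0 := by
        rw [← Finsupp.mem_support_iff, Nat.support_factorization]; exact hq
      omega
    rw [this]

/-! ### An Euler product bound -/

lemma euler_bound (P : Finset ℕ) (A : ℕ → Finset ℕ) (h : ℕ → ℕ → ℝ) (hh : ∀ q a, 0 ≤ h q a)
    (T : Finset ℕ) (hT : ∀ M ∈ T, M ≠ 0 ∧ M.primeFactors ⊆ P ∧ ∀ q ∈ P, M.factorization q ∈ A q) :
    ∑ M ∈ T, ∏ q ∈ P, h q (M.factorization q) ≤ ∏ q ∈ P, ∑ a ∈ A q, h q a := by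
  classical
  rw [← Finset.prod_coe_sort P (fun q => ∑ a ∈ A q, h q a)]
  rw [Finset.prod_univ_sum (fun q : P => A q) (fun q a => h q a)]
  have e1 : ∀ M ∈ T, ∏ q ∈ P, h q (M.factorization q) =
      (fun e : P → ℕ => ∏ q : P, h q (e q)) ((fun M : ℕ => fun q : P => M.factorization q) M) := by
    intro M _
    rw [← Finset.prod_coe_sort P (fun q => h q (M.factorization q))]
  rw [Finset.sum_congr rfl e1]
  have hinj : Set.InjOn (fun M : ℕ => fun q : P => M.factorization q) (T : Set ℕ) := by
    intro M hM N hN he
    apply Nat.eq_of_factorization_eq (hT M hM).1 (hT N hN).1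
    intro q
    by_cases hq : q ∈ P
    · exact congrFun he ⟨q, hq⟩
    · have h1 : M.factorization q = 0 := by
        rw [← Finsupp.notMem_support_iff, Nat.support_factorization]
        exact fun hc => hq ((hT M hM).2.1 hc)
      have h2 : N.factorization q = 0 := by
        rw [← Finsupp.notMem_support_iff, Nat.support_factorization]
        exact fun hc => hq ((hT N hN).2.1 hc)
      rw [h1, h2]
  rw [← Finset.sum_image (f := fun e : P → ℕ => ∏ q : P, h q (e q)) hinj]
  apply Finset.sum_le_sum_of_subset_of_nonneg
  · intro e he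
    obtain ⟨M, hM, rfl⟩ := Finset.mem_image.1 he
    rw [Fintype.mem_piFinset]
    intro q
    exact (hT M hM).2.2 q q.2
  · intro e _ _
    exact Finset.prod_nonneg fun q _ => hh _ _

/-! ### Elementary symmetric sums -/

lemma esymm_le (D : Finset ℕ) (x : ℕ → ℝ) (hx : ∀ q, 0 ≤ x q) (k : ℕ) :
    ∑ Q ∈ D.powersetCard k, ∏ q ∈ Q, x q ≤ (∑ q ∈ D, x q) ^ k / (k.factorial : ℝ) := by
  classical
  induction D using Finset.induction_on generalizing k with
  | empty =>
    rcases k with _ | k
    · simp
    · rw [Finset.powersetCard_eq_empty.2 (by simp)]; simp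
  | insert a D ha ih =>
    rcases k with _ | k
    · simp
    · have hs : 0 ≤ ∑ q ∈ D, x q := Finset.sum_nonneg fun q _ => hx q
      rw [Finset.powersetCard_succ_insert ha, Finset.sum_union, Finset.sum_image, Finset.sum_insert ha]
      · have e1 : ∑ Q ∈ D.powersetCard k, ∏ q ∈ insert a Q, x q =
            x a * ∑ Q ∈ D.powersetCard k, ∏ q ∈ Q, x q := by
          rw [Finset.mul_sum]
          apply Finset.sum_congr rfl
          intro Q hQ
          rw [Finset.prod_insert]
          intro h
          exact ha ((Finset.mem_powersetCard.1 hQ).1 h)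
        rw [e1]
        have h1 := ih (k + 1)
        have h2 := mul_le_mul_of_nonneg_left (ih k) (hx a)
        refine (add_le_add h1 h2).trans ?_
        set s := ∑ q ∈ D, x q with hs'
        have h3 : s ^ (k + 1) + (k + 1 : ℕ) * (x a * s ^ k) ≤ (x a + s) ^ (k + 1) := by
          have hb : ∀ n : ℕ, s ^ n + n * (x a * s ^ (n - 1)) ≤ (x a + s) ^ n := by
            intro n
            induction n with
            | zero => simp
            | succ n ihn =>
              rcases n with _ | n
              · simp; linarith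
              · have hxa := hx a
                have e : (x a + s) ^ (n + 1 + 1) = (x a + s) ^ (n + 1) * (x a + s) := pow_succ _ _
                rw [e]
                have := mul_le_mul_of_nonneg_right ihn (add_nonneg hxa hs)
                refine le_trans ?_ this
                simp only [Nat.add_sub_cancel]
                push_cast
                have h0 : 0 ≤ s ^ n := pow_nonneg hs n
                have h00 : (0:ℝ) ≤ n := by positivity
                have : (s ^ (n + 1) + (n + 1) * (x a * s ^ n)) * (x a + s) -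
                  (s ^ (n + 1 + 1) + (n + 1 + 1) * (x a * s ^ (n + 1))) =
                    (n + 1) * (x a * x a * s ^ n) := by ring
                have h5 : 0 ≤ (n + 1 : ℝ) * (x a * x a * s ^ n) := by positivity
                linarith
          have := hb (k + 1)
          simpa using this
        rw [Nat.factorial_succ]
        push_cast
        have hk : (0 : ℝ) < k.factorial := by positivity
        have hk1 : (0 : ℝ) < (k : ℝ) + 1 := by positivity
        rw [← sub_nonneg] at h3 ⊢
        have : (x a + s) ^ (k + 1) / (((k : ℝ) + 1) * k.factorial) -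
            (s ^ (k + 1) / (((k : ℝ) + 1) * k.factorial) + x a * (s ^ k / k.factorial)) =
            ((x a + s) ^ (k + 1) - (s ^ (k + 1) + ((k + 1 : ℕ) : ℝ) * (x a * s ^ k))) /
              (((k : ℝ) + 1) * k.factorial) := by
          push_cast
          field_simp
        rw [this]
        positivity
      · intro Q hQ R hR h
        have hQ' : a ∉ Q := fun h => ha ((Finset.mem_powersetCard.1 hQ).1 h)
        have hR' : a ∉ R := fun h => ha ((Finset.mem_powersetCard.1 hR).1 h)
        have := congrArg (fun s => s.erase a) h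
        simpa [Finset.erase_insert hQ', Finset.erase_insert hR'] using this
      · rw [Finset.disjoint_left]
        intro Q hQ hQ2
        obtain ⟨R, _, rfl⟩ := Finset.mem_image.1 hQ2
        exact ha ((Finset.mem_powersetCard.1 hQ).1 (Finset.mem_insert_self a R))

end Pool.Agent.Helper48
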