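import Pool.Agent.Helper44.MertensProd
import Pool.Agent.Helper48.KUPrime

/-!
# An upper bound for smooth numbers
-/

set_option autoImplicit false

namespace Pool.Agent.Helper48.Cov

open Finset Pool.Agent.Helper44
open scoped ArithmeticFunction.vonMangoldt

/-- positive integers up to `t` all of whose prime factors are at most `y` -/
def Sm (y t : ℕ) : Finset ℕ := (Finset.Ioc 0 t).filter (fun n => ∀ q ∈ n.primeFactors, q ≤ y)

lemma mem_Sm {y t n : ℕ} : n ∈ Sm y t ↔ (0 < n ∧ n ≤ t) ∧ ∀ q ∈ n.primeFactors, q ≤ y := by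
  unfold Sm; rw [mem_filter, mem_Ioc]

/-- the Euler product over primes up to `y` -/
noncomputable def EP (y : ℕ) (β : ℝ) : ℝ :=
  ∏ q ∈ primesUpTo y, (1 - (q : ℝ) ^ (-β))⁻¹

lemma rpow_neg_lt_one {q : ℕ} (hq : 2 ≤ q) {β : ℝ} (hβ : 0 < β) : (q : ℝ) ^ (-β) < 1 := by
  have h1 : (1 : ℝ) < q := by exact_mod_cast hq
  exact Real.rpow_lt_one_of_one_lt_of_neg h1 (by linarith)

lemma sum_rpow_le (y : ℕ) {β : ℝ} (hβ : 0 < β) (T : Finset ℕ)
    (hT : ∀ n ∈ T, n ≠ 0 ∧ ∀ q ∈ n.primeFactors, q ≤ y) :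
    ∑ n ∈ T, (n : ℝ) ^ (-β) ≤ EP y β := by
  classical
  set K : ℕ := T.sup id + 1 with hK
  have hfac : ∀ n ∈ T, ∀ q, n.factorization q < K := by
    intro n hn q
    have h1 : n.factorization q < n := Nat.factorization_lt q (hT n hn).1
    have h2 : n ≤ T.sup id := Finset.le_sup (f := id) hn
    omega
  have hprime : ∀ q ∈ primesUpTo (y : ℝ), q.Prime := fun q hq =>
    ((mem_primesUpTo (by positivity)).1 hq).1
  have h1 : ∀ n ∈ T, (n : ℝ) ^ (-β) =
      ∏ q ∈ primesUpTo (y : ℝ), ((q : ℝ) ^ (-β)) ^ (n.factorization q) := by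
    intro n hn
    have hn0 := (hT n hn).1
    have e1 : (n : ℝ) = ∏ q ∈ primesUpTo (y : ℝ), (q : ℝ) ^ (n.factorization q) := by
      have e2 : ∏ q ∈ primesUpTo (y : ℝ), q ^ (n.factorization q) = n := by
        conv_rhs => rw [← Nat.prod_factorization_pow_eq_self hn0]
        rw [Finsupp.prod]
        symm
        apply Finset.prod_subset
        · intro q hq
          rw [Nat.support_factorization] at hq
          rw [mem_primesUpTo (by positivity)]
          exact ⟨Nat.prime_of_mem_primeFactors hq, by exact_mod_cast (hT n hn).2 q hq⟩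
        · intro q _ hq
          rw [Finsupp.notMem_support_iff] at hq
          rw [hq, pow_zero]
      exact_mod_cast e2.symm
    rw [e1, ← Real.finset_prod_rpow _ _ (fun q _ => by positivity)]
    apply Finset.prod_congr rfl
    intro q _
    rw [← Real.rpow_natCast, ← Real.rpow_natCast, ← Real.rpow_mul (by positivity),
      ← Real.rpow_mul (by positivity), mul_comm]
  rw [Finset.sum_congr rfl h1]
  refine (euler_bound (primesUpTo (y : ℝ)) (fun _ => range K)
    (fun q a => ((q : ℝ) ^ (-β)) ^ a) (fun q a => by positivity) T ?_).trans ?_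
  · intro n hn
    refine ⟨(hT n hn).1, ?_, ?_⟩
    · intro q hq
      rw [mem_primesUpTo (by positivity)]
      exact ⟨Nat.prime_of_mem_primeFactors hq, by exact_mod_cast (hT n hn).2 q hq⟩
    · intro q _
      rw [mem_range]; exact hfac n hn q
  · unfold EP
    apply Finset.prod_le_prod
    · intro q _; exact Finset.sum_nonneg fun a _ => by positivity
    · intro q hq
      have h2 := rpow_neg_lt_one (hprime q hq).two_le hβ
      exact (Summable.sum_le_tsum _ (fun a _ => by positivity)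
        (summable_geometric_of_lt_one (by positivity) h2)).trans_eq
        (tsum_geometric_of_lt_one (by positivity) h2)

lemma one_sub_ge_exp3 {x : ℝ} (h0 : 0 ≤ x) (h1 : x ≤ 2 / 3) :
    Real.exp (-(x + 3 * x ^ 2)) ≤ 1 - x := by
  have h2 : (x + 3 * x ^ 2) + 1 ≤ Real.exp (x + 3 * x ^ 2) := Real.add_one_le_exp _
  have h3 : 0 < Real.exp (x + 3 * x ^ 2) := Real.exp_pos _
  rw [Real.exp_neg, inv_le_comm₀ h3 (by linarith)]
  refine le_trans ?_ h2
  rw [inv_le_iff_one_le_mul₀ (by linarith)]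
  nlinarith [mul_nonneg (mul_nonneg h0 h0) (by linarith : 0 ≤ 2 / 3 - x)]

lemma exp_mul_le_convex {A s : ℝ} (hs0 : 0 ≤ s) (hs1 : s ≤ 1) :
    Real.exp (A * s) ≤ 1 + (Real.exp A - 1) * s := by
  have h := convexOn_exp.2 (Set.mem_univ (0 : ℝ)) (Set.mem_univ A) (by linarith : 0 ≤ 1 - s) hs0
    (by ring)
  simp only [smul_eq_mul, mul_zero, zero_add, Real.exp_zero] at h
  have e : s * A = A * s := mul_comm _ _
  rw [e] at h
  linarith

/-- bound for the Euler product at `1 - A/log y` -/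
lemma EP_le (A : ℝ) (hA : 0 ≤ A) : ∃ C : ℝ, 0 < C ∧ ∃ y0 : ℕ, 2 ≤ y0 ∧ ∀ y : ℕ, y0 ≤ y →
    3 / 4 ≤ 1 - A / Real.log y ∧ EP y (1 - A / Real.log y) ≤ C * Real.log y := by
  obtain ⟨C1, hC1, hS⟩ := sum_primesUpTo_bounds
  obtain ⟨C2, hC2, hM⟩ := mertens_first
  have hsum : Summable (fun n : ℕ => ((n : ℝ) ^ (3 / 2 : ℝ))⁻¹) :=
    Real.summable_nat_rpow_inv.mpr (by norm_num)
  set C3 := ∑' n : ℕ, ((n : ℝ) ^ (3 / 2 : ℝ))⁻¹ with hC3
  set E := Real.exp A - 1 with hE
  have hE0 : 0 ≤ E := by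
    have := Real.add_one_le_exp A
    linarith
  have hlog : Filter.Tendsto (fun y : ℕ => Real.log (y : ℝ)) Filter.atTop Filter.atTop :=
    Real.tendsto_log_atTop.comp tendsto_natCast_atTop_atTop
  obtain ⟨y0, hy0⟩ := Filter.eventually_atTop.1 (hlog.eventually_ge_atTop (4 * A + 1))
  refine ⟨Real.exp (C1 + E * (1 + C2) + 3 * C3), Real.exp_pos _, max y0 3, by omega, ?_⟩
  intro y hy
  have hy1 := hy0 y (le_trans (le_max_left _ _) hy)
  have hy3 : 3 ≤ y := le_trans (le_max_right _ _) hy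
  have hly : 0 < Real.log y := by linarith
  have hly1 : 1 ≤ Real.log y := by linarith
  set β := 1 - A / Real.log y with hβ
  have hβ1 : A / Real.log y ≤ 1 / 4 := by
    rw [div_le_div_iff₀ hly (by norm_num)]; linarith
  have hβ34 : 3 / 4 ≤ β := by rw [hβ]; linarith
  have hβle : β ≤ 1 := by
    rw [hβ]
    have : 0 ≤ A / Real.log y := by positivity
    linarith
  refine ⟨hβ34, ?_⟩
  have hp : ∀ q ∈ primesUpTo (y : ℝ), q.Prime ∧ (q : ℝ) ≤ y := fun q hq =>
    (mem_primesUpTo (by positivity)).1 hq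
  have h23 : ∀ q ∈ primesUpTo (y : ℝ), (q : ℝ) ^ (-β) ≤ 2 / 3 := by
    intro q hq
    have h2 : (2 : ℝ) ≤ q := by exact_mod_cast (hp q hq).1.two_le
    calc (q : ℝ) ^ (-β) ≤ (2 : ℝ) ^ (-β) :=
          Real.rpow_le_rpow_of_nonpos (by norm_num) h2 (by linarith)
      _ ≤ (2 : ℝ) ^ (-(3 / 4 : ℝ)) := Real.rpow_le_rpow_of_exponent_le (by norm_num) (by linarith)
      _ ≤ 2 / 3 := by
          rw [Real.rpow_neg (by norm_num), inv_le_comm₀ (by positivity) (by norm_num)]
          -- `(3/2)^4 ≤ 2^3`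
          have h3 : ((3 / 2 : ℝ)) ^ (4 : ℕ) ≤ ((2 : ℝ) ^ (3 / 4 : ℝ)) ^ (4 : ℕ) := by
            rw [← Real.rpow_natCast ((2 : ℝ) ^ (3 / 4 : ℝ)), ← Real.rpow_mul (by norm_num)]
            norm_num
          have h4 := (pow_le_pow_iff_left₀ (by norm_num) (by positivity) (by norm_num)).1 h3
          linarith
  have h1 : EP y β ≤ Real.exp (∑ q ∈ primesUpTo (y : ℝ),
      ((q : ℝ) ^ (-β) + 3 * ((q : ℝ) ^ (-β)) ^ 2)) := by
    unfold EP
    rw [Real.exp_sum]
    apply Finset.prod_le_prod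
    · intro q hq
      have := h23 q hq
      rw [inv_nonneg]
      linarith
    · intro q hq
      have h2 := h23 q hq
      have h3 : 0 ≤ (q : ℝ) ^ (-β) := by positivity
      have h4 := one_sub_ge_exp3 h3 h2
      rw [Real.exp_neg] at h4
      exact inv_le_of_inv_le₀ (Real.exp_pos _) h4
  refine h1.trans ?_
  have h2 : ∑ q ∈ primesUpTo (y : ℝ), ((q : ℝ) ^ (-β) + 3 * ((q : ℝ) ^ (-β)) ^ 2) ≤
      Real.log (Real.log y) + (C1 + E * (1 + C2) + 3 * C3) := by
    rw [Finset.sum_add_distrib, ← Finset.mul_sum]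
    have h3 : ∑ q ∈ primesUpTo (y : ℝ), ((q : ℝ) ^ (-β)) ^ 2 ≤ C3 := by
      calc ∑ q ∈ primesUpTo (y : ℝ), ((q : ℝ) ^ (-β)) ^ 2
          ≤ ∑ q ∈ primesUpTo (y : ℝ), ((q : ℝ) ^ (3 / 2 : ℝ))⁻¹ := by
            apply Finset.sum_le_sum
            intro q hq
            have h4 : (1 : ℝ) ≤ q := by exact_mod_cast (hp q hq).1.one_lt.le
            rw [← Real.rpow_natCast, ← Real.rpow_mul (by positivity),
              ← Real.rpow_neg (by positivity)]
            apply Real.rpow_le_rpow_of_exponent_le h4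
            push_cast
            linarith
        _ ≤ C3 := hsum.sum_le_tsum _ (fun n _ => by positivity)
    have h4 : ∑ q ∈ primesUpTo (y : ℝ), (q : ℝ) ^ (-β) ≤
        ∑ q ∈ primesUpTo (y : ℝ), ((1 : ℝ) / q + (E / Real.log y) * (Real.log q / q)) := by
      apply Finset.sum_le_sum
      intro q hq
      obtain ⟨hqp, hqy⟩ := hp q hq
      have h4 : (1 : ℝ) ≤ q := by exact_mod_cast hqp.one_lt.le
      have hq0 : (0 : ℝ) < q := by linarith
      have e1 : (q : ℝ) ^ (-β) = (1 / q) * Real.exp (A * (Real.log q / Real.log y)) := by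
        rw [Real.rpow_def_of_pos hq0, one_div, ← Real.exp_log (inv_pos.2 hq0), ← Real.exp_add,
          Real.log_inv]
        congr 1
        rw [hβ]
        ring
      rw [e1]
      have h5 : Real.log q / Real.log y ≤ 1 := by
        rw [div_le_one hly]
        exact Real.log_le_log hq0 hqy
      have h6 : 0 ≤ Real.log q / Real.log y := div_nonneg (Real.log_nonneg h4) hly.le
      have h7 := exp_mul_le_convex (A := A) h6 h5
      calc (1 / (q : ℝ)) * Real.exp (A * (Real.log q / Real.log y))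
          ≤ (1 / (q : ℝ)) * (1 + (Real.exp A - 1) * (Real.log q / Real.log y)) := by gcongr
        _ = _ := by rw [hE]; field_simp
    have h5 : ∑ q ∈ primesUpTo (y : ℝ), ((1 : ℝ) / q + (E / Real.log y) * (Real.log q / q)) ≤
        Real.log (Real.log y) + C1 + E * (1 + C2) := by
      rw [Finset.sum_add_distrib, ← Finset.mul_sum]
      have h6 := (abs_le.1 (hS y (by exact_mod_cast (by omega : 2 ≤ y)))).2
      have h7 : ∑ q ∈ primesUpTo (y : ℝ), Real.log q / q ≤ Real.log y + C2 := by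
        have h8 := (abs_le.1 (hM y (by omega))).2
        unfold primesUpTo
        rw [Nat.floor_natCast]
        linarith
      have h8 : (E / Real.log y) * ∑ q ∈ primesUpTo (y : ℝ), Real.log q / q ≤ E * (1 + C2) := by
        calc (E / Real.log y) * ∑ q ∈ primesUpTo (y : ℝ), Real.log q / q
            ≤ (E / Real.log y) * (Real.log y + C2) := by gcongr
          _ = E * (1 + C2 / Real.log y) := by field_simp
          _ ≤ E * (1 + C2) := by
              apply mul_le_mul_of_nonneg_left _ hE0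
              have : C2 / Real.log y ≤ C2 := div_le_self hC2.le hly1
              linarith
      linarith
    linarith
  calc Real.exp (∑ q ∈ primesUpTo (y : ℝ), ((q : ℝ) ^ (-β) + 3 * ((q : ℝ) ^ (-β)) ^ 2))
      ≤ Real.exp (Real.log (Real.log y) + (C1 + E * (1 + C2) + 3 * C3)) := Real.exp_le_exp.2 h2
    _ = _ := by rw [Real.exp_add, Real.exp_log hly]; ring

/-- the sum of `Λ` over smooth integers -/
lemma sum_vonMangoldt_smooth_le {A : ℝ} (hA : 0 ≤ A) {y : ℕ} (hy : 2 ≤ y) {K : ℝ} (hK : 0 ≤ K)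
    (hKK : ∀ x : ℝ, Chebyshev.psi x - Chebyshev.theta x ≤ K * Real.sqrt x)
    (hβ : 3 / 4 ≤ 1 - A / Real.log y) (u : ℕ) (hu : 1 ≤ u) :
    ∑ d ∈ Sm y u, Λ d ≤ (6 * Real.exp A + K) * (u : ℝ) ^ (1 - A / Real.log y) := by
  set β := 1 - A / Real.log y with hβdef
  have hu1 : (1 : ℝ) ≤ u := by exact_mod_cast hu
  have hy0 : (0 : ℝ) < y := by exact_mod_cast (by omega : 0 < y)
  have hly : 0 < Real.log y := Real.log_pos (by exact_mod_cast (by omega : 1 < y))
  have h1 : ∑ d ∈ Sm y u, Λ d ≤ ∑ d ∈ Finset.Ioc 0 (min u y), Λ d +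
      ∑ d ∈ (Finset.Ioc 0 u).filter (fun d => ¬ d.Prime), Λ d := by
    rw [← Finset.sum_filter_add_sum_filter_not (Sm y u) (fun d => d ≤ y)]
    apply add_le_add
    · apply Finset.sum_le_sum_of_subset_of_nonneg
      · intro d hd
        rw [mem_filter, mem_Sm] at hd
        rw [mem_Ioc]
        exact ⟨hd.1.1.1, le_min hd.1.1.2 hd.2⟩
      · intro d _ _; exact ArithmeticFunction.vonMangoldt_nonneg
    · apply Finset.sum_le_sum_of_subset_of_nonneg
      · intro d hd
        rw [mem_filter, mem_Sm] at hd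
        rw [mem_filter, mem_Ioc]
        refine ⟨hd.1.1, ?_⟩
        intro hp
        have := hd.1.2 d (by rw [Nat.Prime.primeFactors hp]; exact mem_singleton_self d)
        exact hd.2 this
      · intro d _ _; exact ArithmeticFunction.vonMangoldt_nonneg
  have h2 : ∑ d ∈ Finset.Ioc 0 (min u y), Λ d ≤ 6 * ((min u y : ℕ) : ℝ) := by
    have h3 : Chebyshev.psi ((min u y : ℕ) : ℝ) = ∑ d ∈ Finset.Ioc 0 (min u y), Λ d := by
      unfold Chebyshev.psi
      rw [Nat.floor_natCast]
    rw [← h3]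
    refine (Chebyshev.psi_le_const_mul_self (by positivity)).trans ?_
    have h4 : Real.log 4 ≤ 2 := by
      have : Real.log 4 = 2 * Real.log 2 := by
        rw [show (4 : ℝ) = 2 ^ 2 by norm_num, Real.log_pow]; push_cast; ring
      have := Real.log_two_lt_d9
      linarith
    gcongr
    linarith
  have h3 : ∑ d ∈ (Finset.Ioc 0 u).filter (fun d => ¬ d.Prime), Λ d ≤ K * Real.sqrt u := by
    have h4 : Chebyshev.psi (u : ℝ) = ∑ d ∈ Finset.Ioc 0 u, Λ d := by
      simp [Chebyshev.psi]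
    have h5 : Chebyshev.theta (u : ℝ) = ∑ d ∈ (Finset.Ioc 0 u).filter Nat.Prime, Λ d := by
      unfold Chebyshev.theta
      rw [Nat.floor_natCast]
      apply Finset.sum_congr rfl
      intro p hp
      rw [mem_filter] at hp
      rw [ArithmeticFunction.vonMangoldt_apply_prime hp.2]
    have h6 := hKK u
    rw [h4, h5, ← Finset.sum_filter_add_sum_filter_not (Finset.Ioc 0 u) Nat.Prime] at h6
    linarith
  have h4 : ((min u y : ℕ) : ℝ) ≤ Real.exp A * (u : ℝ) ^ β := by
    have h5 : ((min u y : ℕ) : ℝ) ≤ (u : ℝ) := by exact_mod_cast min_le_left _ _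
    have h6 : ((min u y : ℕ) : ℝ) ≤ (y : ℝ) := by exact_mod_cast min_le_right _ _
    have h7 : (0 : ℝ) < ((min u y : ℕ) : ℝ) := by
      have : 0 < min u y := by omega
      exact_mod_cast this
    have h8 : 0 ≤ A / Real.log y := by positivity
    calc ((min u y : ℕ) : ℝ) = ((min u y : ℕ) : ℝ) ^ (A / Real.log y) * ((min u y : ℕ) : ℝ) ^ β := by
          rw [← Real.rpow_add h7]
          have : A / Real.log y + β = 1 := by rw [hβdef]; ring
          rw [this, Real.rpow_one]
      _ ≤ (y : ℝ) ^ (A / Real.log y) * (u : ℝ) ^ β := by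
          apply mul_le_mul
          · exact Real.rpow_le_rpow h7.le h6 h8
          · exact Real.rpow_le_rpow h7.le h5 (by linarith)
          · positivity
          · positivity
      _ = Real.exp A * (u : ℝ) ^ β := by
          rw [Real.rpow_def_of_pos hy0]
          congr 2
          field_simp
  have h5 : Real.sqrt u ≤ (u : ℝ) ^ β := by
    rw [Real.sqrt_eq_rpow]
    exact Real.rpow_le_rpow_of_exponent_le hu1 (by linarith)
  calc ∑ d ∈ Sm y u, Λ d ≤ 6 * ((min u y : ℕ) : ℝ) + K * Real.sqrt u := by linarith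
    _ ≤ 6 * (Real.exp A * (u : ℝ) ^ β) + K * (u : ℝ) ^ β := by gcongr
    _ = _ := by ring

lemma sum_log_smooth_le (y t : ℕ) :
    ∑ n ∈ Sm y t, Real.log n ≤ ∑ m ∈ Sm y t, ∑ d ∈ Sm y (t / m), Λ d := by
  have h1 : ∑ n ∈ Sm y t, Real.log n = ∑ n ∈ Sm y t, ∑ d ∈ n.divisors, Λ d := by
    apply Finset.sum_congr rfl
    intro n _
    rw [ArithmeticFunction.vonMangoldt_sum]
  rw [h1, Finset.sum_sigma', Finset.sum_sigma']
  have h2 : ∑ x ∈ (Sm y t).sigma (fun n => n.divisors), Λ x.2 =
      ∑ x ∈ ((Sm y t).sigma (fun n => n.divisors)).image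
        (fun x => (⟨x.1 / x.2, x.2⟩ : (_ : ℕ) × ℕ)), Λ x.2 := by
    rw [Finset.sum_image]
    rintro ⟨n, d⟩ h ⟨n', d'⟩ h' he
    simp only [Finset.mem_coe, mem_sigma, Nat.mem_divisors] at h h'
    simp only [Sigma.mk.injEq, heq_eq_eq] at he
    obtain ⟨h3, h4⟩ := he
    subst h4
    have h5 := Nat.div_mul_cancel h.2.1
    have h6 := Nat.div_mul_cancel h'.2.1
    rw [h3, h6] at h5
    subst h5
    rfl
  rw [h2]
  apply Finset.sum_le_sum_of_subset_of_nonneg
  · rintro ⟨m, d⟩ hx
    rw [mem_image] at hx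
    obtain ⟨⟨n, d'⟩, h3, h4⟩ := hx
    simp only [mem_sigma, Nat.mem_divisors] at h3
    simp only [Sigma.mk.injEq, heq_eq_eq] at h4
    obtain ⟨h4, h5⟩ := h4
    subst h5
    obtain ⟨h6, h7, h8⟩ := h3
    rw [mem_Sm] at h6
    have hd0 : 0 < d' := Nat.pos_of_dvd_of_pos h7 h6.1.1
    have hmd : m * d' = n := by rw [← h4]; exact Nat.div_mul_cancel h7
    have hm0 : 0 < m := by
      rcases Nat.eq_zero_or_pos m with h | h
      · rw [h, zero_mul] at hmd; omega
      · exact h
    rw [mem_sigma, mem_Sm, mem_Sm]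
    refine ⟨⟨⟨hm0, ?_⟩, ?_⟩, ⟨hd0, ?_⟩, ?_⟩
    · calc m = m * 1 := (mul_one m).symm
        _ ≤ m * d' := Nat.mul_le_mul_left _ hd0
        _ = n := hmd
        _ ≤ t := h6.1.2
    · intro q hq
      apply h6.2 q
      exact Nat.primeFactors_mono (Dvd.intro _ hmd) (by omega) hq
    · simp only
      rw [Nat.le_div_iff_mul_le hm0, mul_comm, hmd]
      exact h6.1.2
    · intro q hq
      apply h6.2 q
      exact Nat.primeFactors_mono h7 (by omega) hq
  · intro x _ _
    exact ArithmeticFunction.vonMangoldt_nonneg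

/-- Rankin bound without loss. -/
theorem smooth_bound (A : ℝ) (hA : 0 ≤ A) : ∃ C : ℝ, 0 < C ∧ ∃ y0 : ℕ, 2 ≤ y0 ∧ ∀ y : ℕ, y0 ≤ y →
    ∀ t : ℕ, 1 ≤ t → ((Sm y t).card : ℝ) ≤ C * t * Real.exp (-(A * Real.log t / Real.log y)) := by
  obtain ⟨C1, hC1, y0, hy02, hEP⟩ := EP_le A hA
  obtain ⟨K, hK⟩ := Chebyshev.psi_sub_theta_le_mul_sqrt
  have hK' : ∀ x : ℝ, Chebyshev.psi x - Chebyshev.theta x ≤ max K 0 * Real.sqrt x := by
    intro x
    refine (hK x).trans ?_
    exact mul_le_mul_of_nonneg_right (le_max_left _ _) (Real.sqrt_nonneg _)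
  set K' := max K 0 with hK'def
  have hK0 : 0 ≤ K' := le_max_right _ _
  set C2 := (2 + (6 * Real.exp A + K')) * C1 with hC2
  have hC2pos : 0 < C2 := by
    have := Real.exp_pos A
    positivity
  refine ⟨max C2 (Real.exp A), lt_of_lt_of_le hC2pos (le_max_left _ _), y0, hy02, ?_⟩
  intro y hy t ht
  obtain ⟨hβ, hE⟩ := hEP y hy
  set β := 1 - A / Real.log y with hβdef
  have hy2 : 2 ≤ y := by omega
  have ht1 : (1 : ℝ) ≤ t := by exact_mod_cast ht
  have ht0 : (0 : ℝ) < t := by linarith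
  have hly : 0 < Real.log y := Real.log_pos (by exact_mod_cast (by omega : 1 < y))
  have etβ : (t : ℝ) ^ β = t * Real.exp (-(A * Real.log t / Real.log y)) := by
    rw [Real.rpow_def_of_pos ht0]
    nth_rewrite 2 [← Real.exp_log ht0]
    rw [← Real.exp_add]
    congr 1
    rw [hβdef]; ring
  rw [mul_assoc, ← etβ]
  by_cases hty : t < y
  · -- trivial bound
    have h1 : ((Sm y t).card : ℝ) ≤ t := by
      have : (Sm y t).card ≤ t := by
        unfold Sm
        refine (Finset.card_filter_le _ _).trans ?_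
        rw [Nat.card_Ioc]; omega
      exact_mod_cast this
    have h2 : (t : ℝ) ≤ Real.exp A * (t : ℝ) ^ β := by
      rw [etβ]
      have h3 : Real.log t ≤ Real.log y := Real.log_le_log ht0 (by exact_mod_cast hty.le)
      have h4 : A * Real.log t / Real.log y ≤ A := by
        rw [div_le_iff₀ hly]; exact mul_le_mul_of_nonneg_left h3 hA
      calc (t : ℝ) = t * 1 := (mul_one _).symm
        _ ≤ t * (Real.exp A * Real.exp (-(A * Real.log t / Real.log y))) := by
            apply mul_le_mul_of_nonneg_left _ ht0.le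
            rw [← Real.exp_add]
            apply Real.one_le_exp
            linarith
        _ = _ := by ring
    calc ((Sm y t).card : ℝ) ≤ t := h1
      _ ≤ Real.exp A * (t : ℝ) ^ β := h2
      _ ≤ _ := by gcongr; exact le_max_right _ _
  · push Not at hty
    have hlt : Real.log y ≤ Real.log t := Real.log_le_log (by positivity) (by exact_mod_cast hty)
    have hlt0 : 0 < Real.log t := by linarith
    have hnpos : ∀ n ∈ Sm y t, (0 : ℝ) < n := fun n hn => by
      rw [mem_Sm] at hn; exact_mod_cast hn.1.1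
    have hdivβ : ∀ n ∈ Sm y t, ((t : ℝ) / n) ^ β = (t : ℝ) ^ β * (n : ℝ) ^ (-β) := by
      intro n hn
      rw [Real.div_rpow ht0.le (hnpos n hn).le, Real.rpow_neg (hnpos n hn).le]
      rfl
    have hRank : ∑ n ∈ Sm y t, (n : ℝ) ^ (-β) ≤ C1 * Real.log y := by
      refine (sum_rpow_le y (by linarith) (Sm y t) ?_).trans hE
      intro n hn
      rw [mem_Sm] at hn
      exact ⟨by omega, hn.2⟩
    have hsum : ∑ n ∈ Sm y t, ((t : ℝ) / n) ^ β ≤ (t : ℝ) ^ β * (C1 * Real.log y) := by
      rw [Finset.sum_congr rfl hdivβ, ← Finset.mul_sum]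
      gcongr
    have h1 : ((Sm y t).card : ℝ) * Real.log t ≤
        (2 + (6 * Real.exp A + K')) * ((t : ℝ) ^ β * (C1 * Real.log y)) := by
      have e1 : ((Sm y t).card : ℝ) * Real.log t = ∑ n ∈ Sm y t, Real.log ((t : ℝ) / n) +
          ∑ n ∈ Sm y t, Real.log n := by
        rw [← Finset.sum_add_distrib, ← nsmul_eq_mul, ← Finset.sum_const]
        apply Finset.sum_congr rfl
        intro n hn
        rw [Real.log_div ht0.ne' (hnpos n hn).ne']
        ring
      rw [e1, add_mul]
      apply add_le_add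
      · calc ∑ n ∈ Sm y t, Real.log ((t : ℝ) / n) ≤ ∑ n ∈ Sm y t, 2 * ((t : ℝ) / n) ^ β := by
              apply Finset.sum_le_sum
              intro n hn
              have h2 := Real.log_le_rpow_div (show 0 ≤ (t : ℝ) / n by positivity)
                (show 0 < β by linarith)
              refine h2.trans ?_
              rw [div_le_iff₀ (by linarith)]
              have h3 : 0 ≤ ((t : ℝ) / n) ^ β := by positivity
              nlinarith
          _ = 2 * ∑ n ∈ Sm y t, ((t : ℝ) / n) ^ β := by rw [Finset.mul_sum]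
          _ ≤ _ := by gcongr
      · refine (sum_log_smooth_le y t).trans ?_
        calc ∑ m ∈ Sm y t, ∑ d ∈ Sm y (t / m), Λ d
            ≤ ∑ m ∈ Sm y t, (6 * Real.exp A + K') * ((t : ℝ) / m) ^ β := by
              apply Finset.sum_le_sum
              intro m hm
              have hm' := hm
              rw [mem_Sm] at hm'
              have h2 : 1 ≤ t / m := (Nat.one_le_div_iff hm'.1.1).2 hm'.1.2
              refine (sum_vonMangoldt_smooth_le hA hy2 hK0 hK' hβ (t / m) h2).trans ?_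
              have h3 : 0 ≤ 6 * Real.exp A + K' := by have := Real.exp_pos A; positivity
              apply mul_le_mul_of_nonneg_left _ h3
              apply Real.rpow_le_rpow (by positivity) Nat.cast_div_le
              linarith
          _ = (6 * Real.exp A + K') * ∑ m ∈ Sm y t, ((t : ℝ) / m) ^ β := by rw [Finset.mul_sum]
          _ ≤ _ := by
              have h3 : 0 ≤ 6 * Real.exp A + K' := by have := Real.exp_pos A; positivity
              gcongr
    have h2 : ((Sm y t).card : ℝ) * Real.log t ≤ (C2 * (t : ℝ) ^ β) * Real.log t := by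
      refine h1.trans ?_
      have h3 : (2 + (6 * Real.exp A + K')) * ((t : ℝ) ^ β * (C1 * Real.log y)) =
          (C2 * (t : ℝ) ^ β) * Real.log y := by rw [hC2]; ring
      rw [h3]
      gcongr
    have h3 := le_of_mul_le_mul_right h2 hlt0
    refine h3.trans ?_
    gcongr
    exact le_max_left _ _

end Pool.Agent.Helper48.Cov
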