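import Mathlib
import Pool.Agent.Helper44.Defs
import Pool.Agent.Helper48.KUPrime

/-!
# Prime boxes
-/

set_option autoImplicit false

namespace Pool.Agent.Helper48

open Finset Pool.Agent.Helper44

/-- Endpoints of the boxes. -/
noncomputable def yj (B : ℝ) (j : ℕ) : ℝ := Real.exp (2 ^ j + B)

/-- The `j`-th box of primes. -/
noncomputable def DD (B : ℝ) (j : ℕ) : Finset ℕ := (Ioc ⌊yj B j⌋₊ ⌊yj B (j + 1)⌋₊).filter Nat.Prime

lemma yj_pos (B : ℝ) (j : ℕ) : 0 < yj B j := Real.exp_pos _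

lemma yj_mono (B : ℝ) {i j : ℕ} (h : i ≤ j) : yj B i ≤ yj B j := by
  unfold yj
  apply Real.exp_le_exp.2
  have : (2 : ℝ) ^ i ≤ 2 ^ j := pow_le_pow_right₀ (by norm_num) h
  linarith

lemma mem_DD {B : ℝ} {j q : ℕ} : q ∈ DD B j ↔ (yj B j < q ∧ (q : ℝ) ≤ yj B (j + 1)) ∧ q.Prime := by
  unfold DD
  rw [mem_filter, mem_Ioc, Nat.floor_lt (yj_pos B j).le, Nat.le_floor_iff (yj_pos B (j + 1)).le]

lemma DD_disjoint {B : ℝ} {i j : ℕ} (h : i ≠ j) : Disjoint (DD B i) (DD B j) := by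
  wlog hij : i < j generalizing i j
  · exact (this h.symm (by omega)).symm
  rw [Finset.disjoint_left]
  intro q h1 h2
  rw [mem_DD] at h1 h2
  have := yj_mono B (i := i + 1) (j := j) (by omega)
  linarith [h1.1.2, h2.1.1]

/-- Hypothesis: Mertens on intervals. -/
def MertensHyp (C : ℝ) : Prop := 0 < C ∧ ∀ x y : ℝ, 2 ≤ x → x ≤ y →
    |∑ q ∈ (Finset.Ioc ⌊x⌋₊ ⌊y⌋₊).filter Nat.Prime, (1:ℝ)/q - Real.log (Real.log y / Real.log x)| ≤
      C / Real.log x

lemma sum_DD_le {C B : ℝ} (hC : MertensHyp C) (hB : 2 * C ≤ B) (j : ℕ) :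
    ∑ q ∈ DD B j, (1 : ℝ) / q ≤ Real.log 2 := by
  obtain ⟨hC0, hM⟩ := hC
  set z : ℝ := 2 ^ j + B with hz
  have hB0 : 0 < B := by linarith
  have h2j : (1 : ℝ) ≤ 2 ^ j := one_le_pow₀ (by norm_num)
  have hz0 : 0 < z := by positivity
  have h2 : (2 : ℝ) ≤ yj B j := by
    unfold yj
    have := Real.add_one_le_exp ((2 : ℝ) ^ j + B)
    linarith
  have h := hM (yj B j) (yj B (j + 1)) h2 (yj_mono B (Nat.le_succ j))
  have hl1 : Real.log (yj B j) = z := by unfold yj; rw [Real.log_exp]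
  have hl2 : Real.log (yj B (j + 1)) = 2 * z - B := by
    unfold yj; rw [Real.log_exp, pow_succ]; rw [hz]; ring
  rw [hl1, hl2] at h
  have h3 := (abs_le.1 h).2
  have h4 : Real.log ((2 * z - B) / z) ≤ Real.log 2 - B / (2 * z) := by
    have e : (2 * z - B) / z = 2 * (1 - B / (2 * z)) := by field_simp
    have hBz : B / (2 * z) < 1 := by
      rw [div_lt_one (by positivity)]; rw [hz]; linarith
    rw [e, Real.log_mul (by norm_num) (by linarith)]
    have := Real.log_le_sub_one_of_pos (x := 1 - B / (2 * z)) (by linarith)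
    linarith
  have h5 : C / z ≤ B / (2 * z) := by
    rw [div_le_div_iff₀ hz0 (by positivity)]
    nlinarith
  unfold DD
  linarith

/-- Number of prime factors of `M` in the `i`-th box. -/
noncomputable def bv (B : ℝ) (J M : ℕ) : Fin J → ℕ := fun i => (M.primeFactors ∩ DD B i).card

/-- `M` is squarefree with all prime factors in the first `J` boxes. -/
def Good (B : ℝ) (J M : ℕ) : Prop := Squarefree M ∧ ∀ q ∈ M.primeFactors, ∃ i : Fin J, q ∈ DD B i

lemma Good.biUnion {B : ℝ} {J M : ℕ} (h : Good B J M) :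
    M.primeFactors = (univ : Finset (Fin J)).biUnion (fun i => M.primeFactors ∩ DD B i) := by
  ext q
  simp only [mem_biUnion, mem_univ, true_and, mem_inter]
  constructor
  · intro hq
    obtain ⟨i, hi⟩ := h.2 q hq
    exact ⟨i, hq, hi⟩
  · rintro ⟨i, hq, _⟩
    exact hq

lemma inter_disjoint (B : ℝ) (J M : ℕ) :
    ((univ : Finset (Fin J)) : Set (Fin J)).PairwiseDisjoint (fun i => M.primeFactors ∩ DD B i) := by
  intro i _ j _ hij
  have h : (i : ℕ) ≠ j := fun h => hij (Fin.ext h)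
  exact (DD_disjoint h).mono Finset.inter_subset_right Finset.inter_subset_right

lemma Good.prod_eq {B : ℝ} {J M : ℕ} (h : Good B J M) (f : ℕ → ℝ) :
    ∏ q ∈ M.primeFactors, f q = ∏ i : Fin J, ∏ q ∈ M.primeFactors ∩ DD B i, f q := by
  conv_lhs => rw [h.biUnion]
  rw [Finset.prod_biUnion (inter_disjoint B J M)]

lemma Good.one_div {B : ℝ} {J M : ℕ} (h : Good B J M) :
    (1 : ℝ) / M = ∏ i : Fin J, ∏ q ∈ M.primeFactors ∩ DD B i, (1 : ℝ) / q := by
  rw [← h.prod_eq (fun q => (1 : ℝ) / q)]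
  conv_lhs => rw [← Nat.prod_primeFactors_of_squarefree h.1]
  rw [Nat.cast_prod, Finset.prod_div_distrib, Finset.prod_const_one]

lemma fiber_sum {C B : ℝ} (hC : MertensHyp C) (hB : 2 * C ≤ B) (J : ℕ) (b : Fin J → ℕ)
    (T : Finset ℕ) (hT : ∀ M ∈ T, Good B J M ∧ bv B J M = b) :
    ∑ M ∈ T, (1 : ℝ) / M ≤ ∏ i, (Real.log 2) ^ b i / ((b i).factorial : ℝ) := by
  classical
  have hlog : 0 ≤ Real.log 2 := Real.log_nonneg (by norm_num)
  have h1 : ∏ i : Fin J, ∑ Q ∈ (DD B (i : ℕ)).powersetCard (b i), ∏ q ∈ Q, (1 : ℝ) / q ≤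
      ∏ i, (Real.log 2) ^ b i / ((b i).factorial : ℝ) := by
    apply Finset.prod_le_prod
    · intro i _
      exact Finset.sum_nonneg fun Q _ => Finset.prod_nonneg fun q _ => by positivity
    · intro i _
      refine (esymm_le (DD B i) (fun q => (1 : ℝ) / q) (fun q => by positivity) (b i)).trans ?_
      apply div_le_div_of_nonneg_right _ (by positivity)
      exact pow_le_pow_left₀ (Finset.sum_nonneg fun q _ => by positivity) (sum_DD_le hC hB i) _
  refine le_trans ?_ h1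
  rw [Finset.prod_univ_sum (fun i : Fin J => (DD B (i : ℕ)).powersetCard (b i))
    (fun i Q => ∏ q ∈ Q, (1 : ℝ) / q)]
  have e1 : ∀ M ∈ T, (1 : ℝ) / M = (fun Q : Fin J → Finset ℕ => ∏ i, ∏ q ∈ Q i, (1 : ℝ) / q)
      ((fun M : ℕ => fun i : Fin J => M.primeFactors ∩ DD B i) M) := by
    intro M hM
    exact (hT M hM).1.one_div
  rw [Finset.sum_congr rfl e1]
  have hinj : Set.InjOn (fun M : ℕ => fun i : Fin J => M.primeFactors ∩ DD B i) (T : Set ℕ) := by
    intro M hM N hN he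
    have hMg := (hT M hM).1
    have hNg := (hT N hN).1
    have : M.primeFactors = N.primeFactors := by
      rw [hMg.biUnion, hNg.biUnion]
      apply Finset.biUnion_congr rfl
      intro i _
      exact congrFun he i
    rw [← Nat.prod_primeFactors_of_squarefree hMg.1, ← Nat.prod_primeFactors_of_squarefree hNg.1, this]
  rw [← Finset.sum_image (f := fun Q : Fin J → Finset ℕ => ∏ i, ∏ q ∈ Q i, (1 : ℝ) / q) hinj]
  apply Finset.sum_le_sum_of_subset_of_nonneg
  · intro Q hQ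
    obtain ⟨M, hM, rfl⟩ := Finset.mem_image.1 hQ
    rw [Fintype.mem_piFinset]
    intro i
    rw [Finset.mem_powersetCard]
    refine ⟨Finset.inter_subset_right, ?_⟩
    have := congrFun (hT M hM).2 i
    exact this
  · intro Q _ _
    exact Finset.prod_nonneg fun i _ => Finset.prod_nonneg fun q _ => by positivity

lemma bv_le {B : ℝ} {J M : ℕ} (hM : M ≠ 0) (i : Fin J) : bv B J M i ≤ M := by
  unfold bv
  refine (Finset.card_le_card Finset.inter_subset_left).trans ?_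
  refine (Finset.card_le_card (t := Finset.Icc 1 M) ?_).trans (by simp)
  intro q hq
  rw [mem_Icc]
  have hp := Nat.prime_of_mem_primeFactors hq
  exact ⟨hp.one_lt.le, Nat.le_of_dvd (Nat.pos_of_ne_zero hM) (Nat.dvd_of_mem_primeFactors hq)⟩

/-- Sum over squarefree numbers sorted by box vectors. -/
lemma sum_good_le {C B : ℝ} (hC : MertensHyp C) (hB : 2 * C ≤ B) (J : ℕ)
    (T : Finset ℕ) (hT : ∀ M ∈ T, Good B J M) (F : (Fin J → ℕ) → ℝ) (hF : ∀ b, 0 ≤ F b) :
    ∃ K : ℕ, ∑ M ∈ T, F (bv B J M) * (1 / (M : ℝ)) ≤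
      ∑ b ∈ box J K, F b * ∏ i, (Real.log 2) ^ b i / ((b i).factorial : ℝ) := by
  classical
  refine ⟨T.sup id, ?_⟩
  have hmaps : ∀ M ∈ T, bv B J M ∈ box J (T.sup id) := by
    intro M hM
    rw [mem_box]
    intro i
    exact (bv_le (hT M hM).1.ne_zero i).trans (Finset.le_sup (f := id) hM)
  rw [← Finset.sum_fiberwise_of_maps_to hmaps]
  apply Finset.sum_le_sum
  intro b _
  have e1 : ∑ M ∈ T with bv B J M = b, F (bv B J M) * (1 / (M : ℝ)) =
      F b * ∑ M ∈ T with bv B J M = b, (1 / (M : ℝ)) := by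
    rw [Finset.mul_sum]
    apply Finset.sum_congr rfl
    intro M hM
    rw [(mem_filter.1 hM).2]
  rw [e1]
  apply mul_le_mul_of_nonneg_left _ (hF b)
  apply fiber_sum hC hB J b
  intro M hM
  rw [mem_filter] at hM
  exact ⟨hT M hM.1, hM.2⟩

end Pool.Agent.Helper48
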