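import Mathlib
import Pool.Agent.Helper44.Defs
import Pool.Agent.Helper48.KUComb

/-!
# Combinatorial part of the upper bound, using the ballot bound
-/

set_option autoImplicit false

namespace Pool.Agent.Helper48

open Finset Pool.Agent.Helper44

/-- Extend a vector by zero. -/
def ext0 {J : ℕ} (b : Fin J → ℕ) : ℕ → ℕ := fun i => if h : i < J then b ⟨i, h⟩ else 0

lemma ext0_inj {J : ℕ} : Function.Injective (ext0 (J := J)) := by
  intro b c h
  funext i
  have := congrFun h (i : ℕ)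
  simpa [ext0] using this

lemma sum_range_ext0 {J : ℕ} (b : Fin J → ℕ) {h : ℕ} (hh : h ≤ J) :
    ∑ i ∈ range h, ext0 b i = pre b h := by
  unfold pre
  symm
  apply Finset.sum_bij (fun (i : Fin J) _ => (i : ℕ))
  · intro i hi
    simpa using hi
  · intro i _ j _ hij
    exact Fin.ext hij
  · intro i hi
    simp only [mem_range] at hi
    exact ⟨⟨i, by omega⟩, by simpa using hi, rfl⟩
  · intro i _
    simp [ext0]

lemma prod_range_ext0 {J : ℕ} (b : Fin J → ℕ) :
    ∏ i ∈ range J, (1 : ℝ) / ((ext0 b i).factorial : ℝ) = ∏ i : Fin J, (1 : ℝ) / ((b i).factorial : ℝ) := by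
  rw [Finset.prod_range]
  apply Finset.prod_congr rfl
  intro i _
  simp [ext0]

lemma pre_J {J : ℕ} (b : Fin J → ℕ) : pre b J = ∑ i, b i := by
  unfold pre
  rw [Finset.filter_true_of_mem]
  intro i _
  exact i.2

theorem HH_le_ballot {J K : ℕ} (x : ℝ) (hx : 0 ≤ x) (u : ℕ) :
    HH (J := J) K (fun _ => x) u ≤ ∑ k ∈ range (J + u + 1), x ^ k * ballotSum J k u := by
  unfold HH
  have hfib : ∑ b ∈ (box J K).filter (fun b => uu b ≤ u), wt (fun _ => x) b
      = ∑ k ∈ range (J + u + 1), ∑ b ∈ ((box J K).filter (fun b => uu b ≤ u)).filter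
        (fun b => ∑ i, b i = k), wt (fun _ => x) b := by
    rw [Finset.sum_fiberwise_of_maps_to]
    intro b hb
    simp only [mem_filter] at hb
    simp only [mem_range]
    have := pre_le_add_uu b (le_refl J)
    rw [pre_J] at this
    omega
  rw [hfib]
  apply Finset.sum_le_sum
  intro k _
  have h1 : ∀ b ∈ ((box J K).filter (fun b => uu b ≤ u)).filter (fun b => ∑ i, b i = k),
      wt (fun _ => x) b = x ^ k * ∏ i ∈ range J, (1 : ℝ) / ((ext0 b i).factorial : ℝ) := by
    intro b hb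
    simp only [mem_filter] at hb
    rw [prod_range_ext0]
    unfold wt
    rw [← hb.2, ← Finset.prod_pow_eq_pow_sum, ← Finset.prod_mul_distrib]
    apply Finset.prod_congr rfl
    intro i _
    rw [mul_one_div]
  rw [Finset.sum_congr rfl h1, ← Finset.mul_sum]
  apply mul_le_mul_of_nonneg_left _ (pow_nonneg hx k)
  unfold ballotSum
  classical
  have himg : ∑ b ∈ ((box J K).filter (fun b => uu b ≤ u)).filter (fun b => ∑ i, b i = k),
      ∏ i ∈ range J, (1 : ℝ) / ((ext0 b i).factorial : ℝ) =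
      ∑ c ∈ (((box J K).filter (fun b => uu b ≤ u)).filter (fun b => ∑ i, b i = k)).image ext0,
        ∏ i ∈ range J, (1 : ℝ) / ((c i).factorial : ℝ) :=
    (Finset.sum_image (f := fun c : ℕ → ℕ => ∏ i ∈ range J, (1 : ℝ) / ((c i).factorial : ℝ))
      (g := ext0) (by intro b _ c _ h; exact ext0_inj h)).symm
  rw [himg]
  apply Finset.sum_le_sum_of_subset_of_nonneg
  · intro c hc
    obtain ⟨b, hb, rfl⟩ := Finset.mem_image.1 hc
    simp only [mem_filter] at hb
    obtain ⟨⟨hb1, hb2⟩, hb3⟩ := hb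
    unfold ballotSet
    simp only [mem_filter, Finset.mem_piAntidiag, mem_Icc]
    refine ⟨⟨?_, ?_⟩, ?_⟩
    · rw [sum_range_ext0 b le_rfl, pre_J, hb3]
    · intro i hi
      simp only [mem_range]
      by_contra hcon
      apply hi
      simp [ext0, hcon]
    · intro h hh
      rw [sum_range_ext0 b hh.2]
      have := pre_le_add_uu b hh.2
      omega
  · intro c _ _
    exact Finset.prod_nonneg fun i _ => by positivity

lemma pow_div_factorial_le (J k : ℕ) :
    (J : ℝ) ^ k / (k.factorial : ℝ) ≤ (J : ℝ) ^ J / (J.factorial : ℝ) := by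
  rw [div_le_div_iff₀ (by positivity) (by positivity)]
  rcases le_total k J with h | h
  · have h1 : J.factorial ≤ k.factorial * J ^ (J - k) := by
      have e := Nat.factorial_mul_descFactorial (n := J) (k := J - k) (by omega)
      have e2 : J - (J - k) = k := by omega
      rw [e2] at e
      rw [← e]
      exact Nat.mul_le_mul_left _ (Nat.descFactorial_le_pow _ _)
    have h2 : J ^ k * J.factorial ≤ J ^ J * k.factorial := by
      calc J ^ k * J.factorial ≤ J ^ k * (k.factorial * J ^ (J - k)) := Nat.mul_le_mul_left _ h1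
        _ = J ^ (k + (J - k)) * k.factorial := by rw [pow_add]; ring
        _ = _ := by rw [Nat.add_sub_cancel' h]
    exact_mod_cast h2
  · have h1 : J.factorial * J ^ (k - J) ≤ k.factorial := by
      have := Nat.factorial_mul_pow_le_factorial (m := J) (n := k - J)
      rw [Nat.add_sub_cancel' h] at this
      exact (Nat.mul_le_mul_left _ (Nat.pow_le_pow_left (Nat.le_succ J) _)).trans this
    have h2 : J ^ k * J.factorial ≤ J ^ J * k.factorial := by
      calc J ^ k * J.factorial = J ^ (J + (k - J)) * J.factorial := by rw [Nat.add_sub_cancel' h]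
        _ = J ^ J * (J.factorial * J ^ (k - J)) := by rw [pow_add]; ring
        _ ≤ _ := Nat.mul_le_mul_left _ h1
    exact_mod_cast h2

/-- `∑ (1+t)^3 r^t` is bounded. -/
lemma exists_sum_bound (r : ℝ) (hr0 : 0 ≤ r) (hr1 : r < 1) :
    ∃ S : ℝ, 0 < S ∧ ∀ n : ℕ, ∑ t ∈ range n, r ^ t * (1 + (t : ℝ)) ^ 3 ≤ S := by
  have hs : Summable (fun t : ℕ => r ^ t * (1 + (t : ℝ)) ^ 3) := by
    have h3 := summable_pow_mul_geometric_of_norm_lt_one (R := ℝ) 3 (r := r)
      (by rw [Real.norm_of_nonneg hr0]; exact hr1)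
    have h2 := summable_pow_mul_geometric_of_norm_lt_one (R := ℝ) 2 (r := r)
      (by rw [Real.norm_of_nonneg hr0]; exact hr1)
    have h1 := summable_pow_mul_geometric_of_norm_lt_one (R := ℝ) 1 (r := r)
      (by rw [Real.norm_of_nonneg hr0]; exact hr1)
    have h0 := summable_pow_mul_geometric_of_norm_lt_one (R := ℝ) 0 (r := r)
      (by rw [Real.norm_of_nonneg hr0]; exact hr1)
    refine (((h3.add (h2.mul_left 3)).add (h1.mul_left 3)).add h0).congr ?_
    intro t
    ring
  refine ⟨∑' t : ℕ, r ^ t * (1 + (t : ℝ)) ^ 3 + 1, ?_, ?_⟩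
  · have : 0 ≤ ∑' t : ℕ, r ^ t * (1 + (t : ℝ)) ^ 3 := tsum_nonneg fun t => by positivity
    linarith
  · intro n
    have := hs.sum_le_tsum (range n) (fun t _ => by positivity)
    linarith

theorem HH_bound (hG : ∃ C : ℝ, 0 < C ∧ ∀ (J k u : ℕ), 1 ≤ J → ballotSum J k u ≤
      C * (1 + u + |(J:ℝ) - k|)^3 / J * ((J:ℝ)^k / k.factorial)) (x : ℝ) (hx : 1 < x) :
    ∃ C : ℝ, 0 < C ∧ ∀ (J K u : ℕ), 1 ≤ J →
      HH (J := J) K (fun _ => x) u ≤ C * (x ^ (J + u) * (1 + 2 * (u : ℝ)) ^ 3) *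
        (1 / J * ((J : ℝ) ^ J / J.factorial)) := by
  obtain ⟨C, hC, hball⟩ := hG
  obtain ⟨S, hS, hSb⟩ := exists_sum_bound (1 / x) (by positivity) (by rw [div_lt_one (by linarith)]; exact hx)
  refine ⟨C * S, by positivity, ?_⟩
  intro J K u hJ
  have hx0 : 0 < x := by linarith
  have hJ0 : (0 : ℝ) < J := by exact_mod_cast hJ
  refine (HH_le_ballot x hx0.le u).trans ?_
  set A : ℝ := 1 / J * ((J : ℝ) ^ J / J.factorial) with hA
  have hA0 : 0 ≤ A := by positivity
  have h1 : ∀ k ∈ range (J + u + 1), x ^ k * ballotSum J k u ≤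
      C * A * (x ^ k * (1 + u + |(J:ℝ) - k|) ^ 3) := by
    intro k _
    have e1 := hball J k u hJ
    have e2 := pow_div_factorial_le J k
    have e3 : ballotSum J k u ≤ C * (1 + u + |(J:ℝ) - k|)^3 / J * ((J : ℝ) ^ J / J.factorial) :=
      e1.trans (mul_le_mul_of_nonneg_left e2 (by positivity))
    calc x ^ k * ballotSum J k u ≤ x ^ k * (C * (1 + u + |(J:ℝ) - k|)^3 / J * ((J : ℝ) ^ J / J.factorial)) :=
          mul_le_mul_of_nonneg_left e3 (by positivity)
      _ = _ := by rw [hA]; ring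
  refine (Finset.sum_le_sum h1).trans ?_
  rw [← Finset.mul_sum]
  have h2 : ∑ k ∈ range (J + u + 1), x ^ k * (1 + (u:ℝ) + |(J:ℝ) - k|) ^ 3 ≤
      x ^ (J + u) * (1 + 2 * (u : ℝ)) ^ 3 * S := by
    rw [← Finset.sum_range_reflect]
    calc ∑ t ∈ range (J + u + 1), x ^ (J + u + 1 - 1 - t) *
          (1 + (u:ℝ) + |(J:ℝ) - ((J + u + 1 - 1 - t : ℕ) : ℝ)|) ^ 3
        ≤ ∑ t ∈ range (J + u + 1), (x ^ (J + u) * (1 + 2 * (u : ℝ)) ^ 3) *
            ((1 / x) ^ t * (1 + (t : ℝ)) ^ 3) := by
          apply Finset.sum_le_sum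
          intro t ht
          simp only [mem_range] at ht
          have ht' : t ≤ J + u := by omega
          have e1 : x ^ (J + u + 1 - 1 - t) = x ^ (J + u) * (1 / x) ^ t := by
            have : J + u + 1 - 1 - t = J + u - t := by omega
            rw [this, pow_sub₀ _ hx0.ne' ht', one_div, inv_pow]
          have e2 : ((J + u + 1 - 1 - t : ℕ) : ℝ) = J + u - t := by
            have : J + u + 1 - 1 - t = J + u - t := by omega
            rw [this, Nat.cast_sub ht']
            push_cast; ring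
          have e3 : (1 + (u:ℝ) + |(J:ℝ) - ((J + u + 1 - 1 - t : ℕ) : ℝ)|) ≤
              (1 + 2 * (u : ℝ)) * (1 + t) := by
            rw [e2]
            have : |(J : ℝ) - (J + u - t)| ≤ u + t := by
              rw [abs_le]; constructor
              · have : (0:ℝ) ≤ t := by positivity
                linarith
              · have : (0:ℝ) ≤ u := by positivity
                linarith
            have h0 : (0:ℝ) ≤ (u : ℝ) * t := by positivity
            nlinarith
          rw [e1]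
          have e4 : (1 + (u:ℝ) + |(J:ℝ) - ((J + u + 1 - 1 - t : ℕ) : ℝ)|) ^ 3 ≤
              ((1 + 2 * (u : ℝ)) * (1 + t)) ^ 3 := pow_le_pow_left₀ (by positivity) e3 3
          calc _ ≤ x ^ (J + u) * (1 / x) ^ t * ((1 + 2 * (u : ℝ)) * (1 + t)) ^ 3 :=
                mul_le_mul_of_nonneg_left e4 (by positivity)
            _ = _ := by ring
      _ = x ^ (J + u) * (1 + 2 * (u : ℝ)) ^ 3 * ∑ t ∈ range (J + u + 1),
            ((1 / x) ^ t * (1 + (t : ℝ)) ^ 3) := by rw [← Finset.mul_sum]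
      _ ≤ _ := mul_le_mul_of_nonneg_left (hSb _) (by positivity)
  calc C * A * ∑ k ∈ range (J + u + 1), x ^ k * (1 + (u:ℝ) + |(J:ℝ) - k|) ^ 3
      ≤ C * A * (x ^ (J + u) * (1 + 2 * (u : ℝ)) ^ 3 * S) :=
        mul_le_mul_of_nonneg_left h2 (by positivity)
    _ = _ := by ring

/-- The final combinatorial estimate (U3). -/
theorem comb_upper (hG : ∃ C : ℝ, 0 < C ∧ ∀ (J k u : ℕ), 1 ≤ J → ballotSum J k u ≤
      C * (1 + u + |(J:ℝ) - k|)^3 / J * ((J:ℝ)^k / k.factorial)) (x c : ℝ) (hx : 1 < x) (hx2 : x < 2)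
      (hc : 0 ≤ c) :
    ∃ C : ℝ, 0 < C ∧ ∀ (J K : ℕ), 1 ≤ J → ∀ φ : (Fin J → ℕ) → ℝ,
      (∀ b, ∀ j ≤ J, φ b ≤
      (1 + ∑ i ∈ univ.filter (fun i : Fin J => (i : ℕ) < j), (b i : ℝ) * 2 ^ ((i : ℕ) + 1)) /
        2 ^ (pre b j)) →
      ∑ b ∈ box J K, wt (fun i => x * Real.exp (c * 2 ^ (i : ℕ) / 2 ^ J)) b * φ b ≤
        C * (x ^ J / J * ((J : ℝ) ^ J / J.factorial)) := by
  obtain ⟨C, hC, hHH⟩ := HH_bound hG x hx
  obtain ⟨S, hS, hSb⟩ := exists_sum_bound (x / 2) (by positivity) (by linarith)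
  refine ⟨(1 + 2 * (x * Real.exp c)) * (Real.exp (x * (c * Real.exp c)) * (C * (8 * S))), by positivity, ?_⟩
  intro J K hJ φ hφ
  have hx0 : 0 < x := by linarith
  have hJ0 : (0 : ℝ) < J := by exact_mod_cast hJ
  set lam : Fin J → ℝ := fun i => x * Real.exp (c * 2 ^ (i : ℕ) / 2 ^ J) with hlam
  have hfrac : ∀ i : Fin J, (2 : ℝ) ^ (i : ℕ) / 2 ^ J ≤ 1 := by
    intro i
    rw [div_le_one (by positivity)]
    exact pow_le_pow_right₀ (by norm_num) i.2.le
  have hl : ∀ i, 0 ≤ lam i := fun i => by simp only [hlam]; positivity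
  have hL : ∀ i, lam i ≤ x * Real.exp c := by
    intro i
    simp only [hlam]
    apply mul_le_mul_of_nonneg_left _ hx0.le
    apply Real.exp_le_exp.2
    rw [mul_div_assoc]
    exact mul_le_of_le_one_right hc (hfrac i)
  refine (sum_phi_le hJ lam hl (x * Real.exp c) hL φ hφ).trans ?_
  rw [mul_assoc (1 + 2 * (x * Real.exp c))]
  apply mul_le_mul_of_nonneg_left _ (by positivity)
  -- thinning
  set nu : Fin J → ℝ := fun i => lam i - x with hnu
  have hnu0 : ∀ i, 0 ≤ nu i := by
    intro i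
    simp only [hnu, hlam]
    have : 1 ≤ Real.exp (c * 2 ^ (i : ℕ) / 2 ^ J) := Real.one_le_exp (by positivity)
    nlinarith
  have hnusum : ∑ i, nu i ≤ x * (c * Real.exp c) := by
    have h1 : ∀ i, nu i ≤ x * (c * Real.exp c) * (2 ^ (i : ℕ) / 2 ^ J) := by
      intro i
      simp only [hnu, hlam]
      set t : ℝ := c * 2 ^ (i : ℕ) / 2 ^ J with ht
      have ht0 : 0 ≤ t := by positivity
      have htc : t ≤ c := by
        rw [ht, mul_div_assoc]; exact mul_le_of_le_one_right hc (hfrac i)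
      -- exp t - 1 <= t exp t
      have h2 : Real.exp t - 1 ≤ t * Real.exp t := by
        have := Real.add_one_le_exp (-t)
        have h3 : Real.exp (-t) * Real.exp t = 1 := by rw [← Real.exp_add]; simp
        have h4 : 0 < Real.exp t := Real.exp_pos t
        nlinarith
      have h5 : t * Real.exp t ≤ t * Real.exp c :=
        mul_le_mul_of_nonneg_left (Real.exp_le_exp.2 htc) ht0
      calc x * Real.exp t - x = x * (Real.exp t - 1) := by ring
        _ ≤ x * (t * Real.exp c) := mul_le_mul_of_nonneg_left (h2.trans h5) hx0.le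
        _ = _ := by rw [ht]; ring
    refine (Finset.sum_le_sum fun i _ => h1 i).trans ?_
    rw [← Finset.mul_sum]
    apply mul_le_of_le_one_right (by positivity)
    rw [← Finset.sum_div, div_le_one (by positivity)]
    rw [← Finset.sum_range (fun i => (2:ℝ) ^ i)]
    have := geom_sum_eq (x := (2 : ℝ)) (by norm_num) J
    rw [this]
    have : (0:ℝ) < 2 ^ J := by positivity
    norm_num
  have hHb : ∀ u : ℕ, HH K lam u ≤ Real.exp (x * (c * Real.exp c)) *
      (C * (x ^ (J + u) * (1 + 2 * (u : ℝ)) ^ 3) * (1 / J * ((J : ℝ) ^ J / J.factorial))) := by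
    intro u
    have h1 := HH_thin (K := K) (fun _ => x) nu (fun _ => hx0.le) hnu0 u
    have h2 : (fun i : Fin J => (fun _ => x) i + nu i) = lam := by
      funext i; simp [hnu]
    rw [h2] at h1
    refine h1.trans ?_
    apply mul_le_mul (Real.exp_le_exp.2 hnusum) (hHH J K u hJ)
    · exact Finset.sum_nonneg fun b _ => wt_nonneg (fun _ => hx0.le) b
    · positivity
  calc ∑ u ∈ range (J * K + 1), (1 / 2 : ℝ) ^ u * HH K lam u
      ≤ ∑ u ∈ range (J * K + 1), (1 / 2 : ℝ) ^ u * (Real.exp (x * (c * Real.exp c)) *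
      (C * (x ^ (J + u) * (1 + 2 * (u : ℝ)) ^ 3) * (1 / J * ((J : ℝ) ^ J / J.factorial)))) :=
        Finset.sum_le_sum fun u _ => mul_le_mul_of_nonneg_left (hHb u) (by positivity)
    _ ≤ ∑ u ∈ range (J * K + 1), (Real.exp (x * (c * Real.exp c)) * (C * 8) *
          (x ^ J / J * ((J : ℝ) ^ J / J.factorial))) * ((x / 2) ^ u * (1 + (u : ℝ)) ^ 3) := by
        apply Finset.sum_le_sum
        intro u _
        have h1 : (1 + 2 * (u : ℝ)) ^ 3 ≤ 8 * (1 + (u : ℝ)) ^ 3 := by
          have : (1 + 2 * (u : ℝ)) ≤ 2 * (1 + u) := by linarith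
          calc (1 + 2 * (u : ℝ)) ^ 3 ≤ (2 * (1 + u)) ^ 3 := pow_le_pow_left₀ (by positivity) this 3
            _ = _ := by ring
        calc _ = (Real.exp (x * (c * Real.exp c)) * C *
          (x ^ J / J * ((J : ℝ) ^ J / J.factorial))) * ((x / 2) ^ u * (1 + 2 * (u : ℝ)) ^ 3) := by
              rw [pow_add, div_pow, div_pow, one_pow]; ring
          _ ≤ (Real.exp (x * (c * Real.exp c)) * C *
          (x ^ J / J * ((J : ℝ) ^ J / J.factorial))) * ((x / 2) ^ u * (8 * (1 + (u : ℝ)) ^ 3)) := by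
              apply mul_le_mul_of_nonneg_left _ (by positivity)
              exact mul_le_mul_of_nonneg_left h1 (by positivity)
          _ = _ := by ring
    _ = (Real.exp (x * (c * Real.exp c)) * (C * 8) *
          (x ^ J / J * ((J : ℝ) ^ J / J.factorial))) *
            ∑ u ∈ range (J * K + 1), ((x / 2) ^ u * (1 + (u : ℝ)) ^ 3) := by rw [← Finset.mul_sum]
    _ ≤ (Real.exp (x * (c * Real.exp c)) * (C * 8) *
          (x ^ J / J * ((J : ℝ) ^ J / J.factorial))) * S :=
        mul_le_mul_of_nonneg_left (hSb _) (by positivity)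
    _ = _ := by ring

end Pool.Agent.Helper48
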