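import Mathlib
import Pool.Agent.Helper44.Defs
import Pool.Agent.Helper48.KUBox
import Pool.Agent.Helper48.KUComb2

/-!
# The sum over squarefree numbers with large prime factors
-/

set_option autoImplicit false

namespace Pool.Agent.Helper48

open Finset Pool.Agent.Helper44

/-- the quantity for one cut `j` -/
noncomputable def cutv {J : ℕ} (b : Fin J → ℕ) (j : ℕ) : ℝ :=
  (1 + ∑ i ∈ univ.filter (fun i : Fin J => (i : ℕ) < j), (b i : ℝ) * 2 ^ ((i : ℕ) + 1)) / 2 ^ (pre b j)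

/-- the minimum over all cuts -/
noncomputable def phi {J : ℕ} (b : Fin J → ℕ) : ℝ :=
  (range (J + 1)).inf' ⟨0, by simp⟩ (fun j => cutv b j)

lemma phi_le {J : ℕ} (b : Fin J → ℕ) (j : ℕ) (hj : j ≤ J) : phi b ≤ cutv b j :=
  Finset.inf'_le _ (by simp; omega)

lemma cutv_nonneg {J : ℕ} (b : Fin J → ℕ) (j : ℕ) : 0 ≤ cutv b j := by
  unfold cutv; positivity

lemma phi_nonneg {J : ℕ} (b : Fin J → ℕ) : 0 ≤ phi b := by
  unfold phi
  rw [Finset.le_inf'_iff]
  intro j _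
  exact cutv_nonneg b j

lemma log_le_of_mem_DD {B : ℝ} {i q : ℕ} (h : q ∈ DD B i) : Real.log q ≤ 2 ^ (i + 1) + B := by
  rw [mem_DD] at h
  have h1 : (0 : ℝ) < q := (yj_pos B i).trans h.1.1
  have := Real.log_le_log h1 h.1.2
  unfold yj at this
  rwa [Real.log_exp] at this

lemma sum_log_le {B : ℝ} {J M : ℕ} (s : Finset (Fin J)) :
    ∑ i ∈ s, ∑ q ∈ M.primeFactors ∩ DD B i, Real.log q ≤
      ∑ i ∈ s, (bv B J M i : ℝ) * (2 ^ ((i : ℕ) + 1) + B) := by
  apply Finset.sum_le_sum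
  intro i _
  calc ∑ q ∈ M.primeFactors ∩ DD B i, Real.log q ≤
        ∑ q ∈ M.primeFactors ∩ DD B i, ((2 : ℝ) ^ ((i : ℕ) + 1) + B) := by
        apply Finset.sum_le_sum
        intro q hq
        exact log_le_of_mem_DD (Finset.mem_inter.1 hq).2
    _ = _ := by rw [Finset.sum_const, nsmul_eq_mul]; rfl

lemma log_prod_biUnion {B : ℝ} {J M : ℕ} (s : Finset (Fin J)) :
    Real.log ((∏ q ∈ s.biUnion (fun i => M.primeFactors ∩ DD B i), q : ℕ) : ℝ) ≤
      ∑ i ∈ s, (bv B J M i : ℝ) * (2 ^ ((i : ℕ) + 1) + B) := by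
  refine le_trans (le_of_eq ?_) (sum_log_le s)
  rw [Nat.cast_prod, Real.log_prod]
  · rw [Finset.sum_biUnion]
    intro i hi j hj hij
    exact inter_disjoint B J M (Finset.mem_coe.2 (mem_univ i)) (Finset.mem_coe.2 (mem_univ j)) hij
  · intro q hq
    rw [Finset.mem_biUnion] at hq
    obtain ⟨i, _, hq⟩ := hq
    have := Nat.pos_of_mem_primeFactors (Finset.mem_inter.1 hq).1
    positivity

lemma kap_good_cut {B : ℝ} (hB : 0 ≤ B) {J M : ℕ} (h : Good B J M) (j : ℕ) :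
    (kap M : ℝ) ≤ (2 * ((1 + B) / Real.log 2)) * 2 ^ (∑ i, bv B J M i) * cutv (bv B J M) j := by
  classical
  have hlog2 : 0 < Real.log 2 := Real.log_pos (by norm_num)
  have hlog2' : Real.log 2 ≤ 1 := by
    have := Real.log_two_lt_d9; linarith
  set s1 := univ.filter (fun i : Fin J => (i : ℕ) < j) with hs1
  set s2 := univ.filter (fun i : Fin J => ¬ (i : ℕ) < j) with hs2
  set P1 := s1.biUnion (fun i => M.primeFactors ∩ DD B i) with hP1
  set P2 := s2.biUnion (fun i => M.primeFactors ∩ DD B i) with hP2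
  have hdis : Disjoint P1 P2 := by
    rw [hP1, hP2, Finset.disjoint_biUnion_left]
    intro i hi
    rw [Finset.disjoint_biUnion_right]
    intro l hl
    have hil : i ≠ l := by
      rintro rfl
      simp only [hs1, hs2, mem_filter, mem_univ, true_and] at hi hl
      exact hl hi
    exact inter_disjoint B J M (Finset.mem_coe.2 (mem_univ i)) (Finset.mem_coe.2 (mem_univ l)) hil
  have hunion : M.primeFactors = P1 ∪ P2 := by
    conv_lhs => rw [h.biUnion]
    rw [hP1, hP2, ← Finset.union_biUnion]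
    congr 1
    rw [hs1, hs2, Finset.filter_union_filter_not_eq]
  set M1 : ℕ := ∏ q ∈ P1, q with hM1
  set M2 : ℕ := ∏ q ∈ P2, q with hM2
  have hprod : M = M1 * M2 := by
    rw [hM1, hM2, ← Finset.prod_union hdis, ← hunion, Nat.prod_primeFactors_of_squarefree h.1]
  have hM0 : M ≠ 0 := h.1.ne_zero
  have hM10 : M1 ≠ 0 := fun hc => hM0 (by rw [hprod, hc, zero_mul])
  have hM20 : M2 ≠ 0 := fun hc => hM0 (by rw [hprod, hc, mul_zero])
  have hP2prime : ∀ q ∈ P2, q.Prime := by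
    intro q hq
    apply Nat.prime_of_mem_primeFactors (n := M)
    rw [hunion]; exact Finset.mem_union_right _ hq
  have hpf2 : M2.primeFactors = P2 := Nat.primeFactors_prod hP2prime
  have hsq2 : Squarefree M2 := h.1.squarefree_of_dvd ⟨M1, by rw [hprod, mul_comm]⟩
  have htau : M2.divisors.card = 2 ^ P2.card := by
    rw [card_divisors_of_squarefree hsq2, hpf2]
  have hcard2 : P2.card = ∑ i ∈ s2, bv B J M i := by
    rw [hP2, Finset.card_biUnion]
    · rfl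
    · intro i _ l _ hil
      exact inter_disjoint B J M (Finset.mem_coe.2 (mem_univ i)) (Finset.mem_coe.2 (mem_univ l)) hil
  have hk : ∑ i, bv B J M i = pre (bv B J M) j + P2.card := by
    rw [hcard2]; unfold pre
    rw [← Finset.sum_filter_add_sum_filter_not univ (fun i : Fin J => (i : ℕ) < j)]
  have hkap : kap M ≤ 2 * 2 ^ P2.card * kap M1 := by
    have := kap_mul_le M1 M2 hM10 hM20
    rw [← hprod, htau] at this
    exact this
  -- logarithm bound
  have hlogM1 : (Nat.log 2 M1 : ℝ) ≤ (1 + B) / Real.log 2 *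
      ∑ i ∈ s1, (bv B J M i : ℝ) * 2 ^ ((i : ℕ) + 1) := by
    have h1 := Nat.pow_log_le_self 2 hM10
    have h2 : ((2 : ℝ) ^ Nat.log 2 M1) ≤ M1 := by exact_mod_cast h1
    have h3 : (Nat.log 2 M1 : ℝ) * Real.log 2 ≤ Real.log M1 := by
      rw [← Real.log_pow]
      exact Real.log_le_log (by positivity) h2
    have h4 := log_prod_biUnion (B := B) (M := M) s1
    rw [← hP1, ← hM1] at h4
    have h5 : ∑ i ∈ s1, (bv B J M i : ℝ) * (2 ^ ((i : ℕ) + 1) + B) ≤
        (1 + B) * ∑ i ∈ s1, (bv B J M i : ℝ) * 2 ^ ((i : ℕ) + 1) := by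
      rw [Finset.mul_sum]
      apply Finset.sum_le_sum
      intro i _
      have : (1 : ℝ) ≤ 2 ^ ((i : ℕ) + 1) := one_le_pow₀ (by norm_num)
      have hb : (0 : ℝ) ≤ (bv B J M i : ℝ) := by positivity
      have : (2 : ℝ) ^ ((i : ℕ) + 1) + B ≤ (1 + B) * 2 ^ ((i : ℕ) + 1) := by nlinarith
      calc (bv B J M i : ℝ) * (2 ^ ((i : ℕ) + 1) + B) ≤
            (bv B J M i : ℝ) * ((1 + B) * 2 ^ ((i : ℕ) + 1)) := mul_le_mul_of_nonneg_left this hb
        _ = _ := by ring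
    rw [div_mul_eq_mul_div, le_div_iff₀ hlog2]
    linarith
  have hge1 : 1 ≤ (1 + B) / Real.log 2 := by
    rw [le_div_iff₀ hlog2]; linarith
  have hkapM1 : (kap M1 : ℝ) ≤ (1 + B) / Real.log 2 *
      (1 + ∑ i ∈ s1, (bv B J M i : ℝ) * 2 ^ ((i : ℕ) + 1)) := by
    have h1 : (kap M1 : ℝ) ≤ (Nat.log 2 M1 : ℝ) + 1 := by exact_mod_cast kap_le_log M1
    calc (kap M1 : ℝ) ≤ (Nat.log 2 M1 : ℝ) + 1 := h1
      _ ≤ (1 + B) / Real.log 2 * ∑ i ∈ s1, (bv B J M i : ℝ) * 2 ^ ((i : ℕ) + 1) + (1 + B) / Real.log 2 :=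
          add_le_add hlogM1 hge1
      _ = _ := by ring
  have hpow : (2 : ℝ) ^ P2.card = 2 ^ (∑ i, bv B J M i) / 2 ^ (pre (bv B J M) j) := by
    rw [hk, pow_add]; field_simp
  calc (kap M : ℝ) ≤ 2 * 2 ^ P2.card * (kap M1 : ℝ) := by exact_mod_cast hkap
    _ ≤ 2 * 2 ^ P2.card * ((1 + B) / Real.log 2 *
      (1 + ∑ i ∈ s1, (bv B J M i : ℝ) * 2 ^ ((i : ℕ) + 1))) :=
        mul_le_mul_of_nonneg_left hkapM1 (by positivity)
    _ = _ := by
        rw [hpow]; unfold cutv; rw [← hs1]; ring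

lemma kap_good {B : ℝ} (hB : 0 ≤ B) {J M : ℕ} (h : Good B J M) :
    (kap M : ℝ) ≤ (2 * ((1 + B) / Real.log 2)) * 2 ^ (∑ i, bv B J M i) * phi (bv B J M) := by
  obtain ⟨j, _, hj⟩ := Finset.exists_mem_eq_inf' (s := range (J + 1)) ⟨0, by simp⟩
    (fun j => cutv (bv B J M) j)
  have : phi (bv B J M) = cutv (bv B J M) j := hj
  rw [this]
  exact kap_good_cut hB h j

lemma rpow_good {B : ℝ} (hB : 0 ≤ B) {J M : ℕ} (h : Good B J M) {L : ℝ} (hL : 2 ^ J / 2 ≤ L) :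
    (M : ℝ) ^ (1 / L) ≤ ∏ i : Fin J, Real.exp (4 * (1 + B) * 2 ^ (i : ℕ) / 2 ^ J) ^ (bv B J M i) := by
  have hM0 : (0 : ℝ) < M := by exact_mod_cast Nat.pos_of_ne_zero h.1.ne_zero
  have h2J : (0 : ℝ) < 2 ^ J := by positivity
  have hL0 : 0 < L := by linarith [half_pos h2J]
  rw [Real.rpow_def_of_pos hM0]
  have e : ∏ i : Fin J, Real.exp (4 * (1 + B) * 2 ^ (i : ℕ) / 2 ^ J) ^ (bv B J M i) =
      Real.exp (∑ i : Fin J, (bv B J M i : ℝ) * (4 * (1 + B) * 2 ^ (i : ℕ) / 2 ^ J)) := by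
    rw [Real.exp_sum]
    apply Finset.prod_congr rfl
    intro i _
    rw [← Real.exp_nat_mul]
  rw [e]
  apply Real.exp_le_exp.2
  have h1 := log_prod_biUnion (B := B) (M := M) (univ : Finset (Fin J))
  rw [← h.biUnion, Nat.prod_primeFactors_of_squarefree h.1] at h1
  calc Real.log M * (1 / L) ≤ (∑ i : Fin J, (bv B J M i : ℝ) * (2 ^ ((i : ℕ) + 1) + B)) * (1 / L) :=
        mul_le_mul_of_nonneg_right h1 (by positivity)
    _ ≤ (∑ i : Fin J, (bv B J M i : ℝ) * (2 ^ ((i : ℕ) + 1) + B)) * (2 / 2 ^ J) := by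
        apply mul_le_mul_of_nonneg_left
        · rw [div_le_div_iff₀ hL0 h2J]; linarith
        · apply Finset.sum_nonneg; intro i _; positivity
    _ ≤ _ := by
        rw [Finset.sum_mul]
        apply Finset.sum_le_sum
        intro i _
        have : (1 : ℝ) ≤ 2 ^ ((i : ℕ) + 1) := one_le_pow₀ (by norm_num)
        have h3 : (2 : ℝ) ^ ((i : ℕ) + 1) + B ≤ (1 + B) * 2 ^ ((i : ℕ) + 1) := by nlinarith
        have hb : (0 : ℝ) ≤ (bv B J M i : ℝ) := by positivity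
        calc (bv B J M i : ℝ) * (2 ^ ((i : ℕ) + 1) + B) * (2 / 2 ^ J)
            ≤ (bv B J M i : ℝ) * ((1 + B) * 2 ^ ((i : ℕ) + 1)) * (2 / 2 ^ J) := by
              apply mul_le_mul_of_nonneg_right _ (by positivity)
              exact mul_le_mul_of_nonneg_left h3 hb
          _ = _ := by rw [pow_succ]; ring

/-- Bound for the sum over good squarefree numbers. -/
theorem good_sum_bound (hG : ∃ C : ℝ, 0 < C ∧ ∀ (J k u : ℕ), 1 ≤ J → ballotSum J k u ≤
      C * (1 + u + |(J:ℝ) - k|)^3 / J * ((J:ℝ)^k / k.factorial)) {C₀ B : ℝ} (hC : MertensHyp C₀)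
      (hB : 2 * C₀ ≤ B) :
    ∃ C : ℝ, 0 < C ∧ ∀ (J : ℕ), 1 ≤ J → ∀ L : ℝ, 2 ^ J / 2 ≤ L → ∀ T : Finset ℕ,
      (∀ M ∈ T, Good B J M) →
      ∑ M ∈ T, (kap M : ℝ) * (M : ℝ) ^ (1 / L) / M ≤
        C * ((2 * Real.log 2) ^ J / J * ((J : ℝ) ^ J / J.factorial)) := by
  have hB0 : 0 ≤ B := by have := hC.1; linarith
  have hl2 : 0 < Real.log 2 := Real.log_pos (by norm_num)
  have hx1 : 1 < 2 * Real.log 2 := by have := Real.log_two_gt_d9; linarith
  have hx2 : 2 * Real.log 2 < 2 := by have := Real.log_two_lt_d9; linarith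
  obtain ⟨C, hC1, hcomb⟩ := comb_upper hG (2 * Real.log 2) (4 * (1 + B)) hx1 hx2 (by positivity)
  refine ⟨(2 * ((1 + B) / Real.log 2)) * C, by positivity, ?_⟩
  intro J hJ L hL T hT
  set F : (Fin J → ℕ) → ℝ := fun b => (2 * ((1 + B) / Real.log 2)) * 2 ^ (∑ i, b i) * phi b *
    ∏ i : Fin J, Real.exp (4 * (1 + B) * 2 ^ (i : ℕ) / 2 ^ J) ^ (b i) with hF
  have hF0 : ∀ b, 0 ≤ F b := by
    intro b
    simp only [hF]
    have := phi_nonneg b
    positivity
  have h1 : ∑ M ∈ T, (kap M : ℝ) * (M : ℝ) ^ (1 / L) / M ≤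
      ∑ M ∈ T, F (bv B J M) * (1 / (M : ℝ)) := by
    apply Finset.sum_le_sum
    intro M hM
    have e1 := kap_good hB0 (hT M hM)
    have e2 := rpow_good hB0 (hT M hM) hL
    have e3 : (kap M : ℝ) * (M : ℝ) ^ (1 / L) ≤ F (bv B J M) := by
      simp only [hF]
      apply mul_le_mul e1 e2 (by positivity)
      have := phi_nonneg (bv B J M)
      positivity
    rw [div_eq_mul_one_div]
    exact mul_le_mul_of_nonneg_right e3 (by positivity)
  obtain ⟨K, hK⟩ := sum_good_le hC hB J T hT F hF0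
  refine h1.trans (hK.trans ?_)
  have h2 : ∀ b ∈ box J K, F b * ∏ i, (Real.log 2) ^ b i / ((b i).factorial : ℝ) =
      (2 * ((1 + B) / Real.log 2)) *
        (wt (fun i => (2 * Real.log 2) * Real.exp (4 * (1 + B) * 2 ^ (i : ℕ) / 2 ^ J)) b * phi b) := by
    intro b _
    simp only [hF]
    unfold wt
    have e : (2 : ℝ) ^ (∑ i, b i) * (∏ i : Fin J, Real.exp (4 * (1 + B) * 2 ^ (i : ℕ) / 2 ^ J) ^ (b i)) *
        ∏ i, (Real.log 2) ^ b i / ((b i).factorial : ℝ) =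
        ∏ i : Fin J, (2 * Real.log 2 * Real.exp (4 * (1 + B) * 2 ^ (i : ℕ) / 2 ^ J)) ^ b i / ((b i).factorial : ℝ) := by
      rw [← Finset.prod_pow_eq_pow_sum, ← Finset.prod_mul_distrib, ← Finset.prod_mul_distrib]
      apply Finset.prod_congr rfl
      intro i _
      rw [mul_pow, mul_pow]
      ring
    rw [← e]
    ring
  rw [Finset.sum_congr rfl h2, ← Finset.mul_sum, mul_assoc (2 * ((1 + B) / Real.log 2))]
  apply mul_le_mul_of_nonneg_left _ (by positivity)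
  exact hcomb J K hJ phi (fun b j hj => phi_le b j hj)

end Pool.Agent.Helper48
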