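import Mathlib
import Pool.Agent.Helper44.Defs
import Pool.Agent.Helper48.KUPrime
import Pool.Agent.Helper48.KUComb2

/-!
# Splitting off the smooth and squarefull part
-/

set_option autoImplicit false

namespace Pool.Agent.Helper48

open Finset Pool.Agent.Helper44

/-- `q^(-7/8)` -/
noncomputable def tq (q : ℕ) : ℝ := (q : ℝ) ^ (-(7 / 8 : ℝ))

lemma tq_nonneg (q : ℕ) : 0 ≤ tq q := by unfold tq; positivity

lemma tq_le {q : ℕ} (hq : 2 ≤ q) : tq q ≤ (2 : ℝ) ^ (-(7 / 8 : ℝ)) := by
  unfold tq
  apply Real.rpow_le_rpow_of_nonpos (by norm_num) (by exact_mod_cast hq) (by norm_num)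

lemma two_rpow_lt_one : (2 : ℝ) ^ (-(7 / 8 : ℝ)) < 1 :=
  Real.rpow_lt_one_of_one_lt_of_neg (by norm_num) (by norm_num)

lemma tq_sq_summable : Summable (fun q : ℕ => tq q ^ 2) := by
  have h := (Real.summable_nat_rpow (p := -(7 / 4 : ℝ))).2 (by norm_num)
  refine h.congr ?_
  intro q
  unfold tq
  rw [← Real.rpow_natCast, ← Real.rpow_mul (by positivity)]
  norm_num

/-- The sum over numbers whose large prime factors appear at least squared. -/
theorem squarefull_bound (Y : ℕ) : ∃ C : ℝ, 0 < C ∧ ∀ T : Finset ℕ,
    (∀ M ∈ T, M ≠ 0 ∧ ∀ q, Y < q → M.factorization q ≠ 1) →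
    ∑ M ∈ T, (M.divisors.card : ℝ) * (M : ℝ) ^ (-(7 / 8 : ℝ)) ≤ C := by
  classical
  set r : ℝ := (2 : ℝ) ^ (-(7 / 8 : ℝ)) with hr
  have hr0 : 0 < r := by rw [hr]; positivity
  have hr1 : r < 1 := two_rpow_lt_one
  obtain ⟨S, hS, hSb⟩ := exists_sum_bound r hr0.le hr1
  set Z : ℝ := ∑' q : ℕ, tq q ^ 2 with hZ
  have hS1 : 1 ≤ S := by
    have := hSb 1
    simpa using this
  refine ⟨S ^ (Y + 1) * Real.exp (3 * S * Z), by positivity, ?_⟩
  intro T hT
  set P : Finset ℕ := T.biUnion (fun M => M.primeFactors) with hP
  set K : ℕ := T.sup id with hK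
  set A : ℕ → Finset ℕ := fun q => if q ≤ Y then range (K + 1) else (range (K + 1)).filter (fun a => a ≠ 1)
    with hA
  set h : ℕ → ℕ → ℝ := fun q a => ((a : ℝ) + 1) * tq q ^ a with hh
  have hprime : ∀ q ∈ P, q.Prime := by
    intro q hq
    rw [hP, Finset.mem_biUnion] at hq
    obtain ⟨M, _, hq⟩ := hq
    exact Nat.prime_of_mem_primeFactors hq
  have hsub : ∀ M ∈ T, M.primeFactors ⊆ P := by
    intro M hM
    rw [hP]
    exact Finset.subset_biUnion_of_mem (fun M => M.primeFactors) hM
  have hfac : ∀ M ∈ T, ∀ q, M.factorization q < K + 1 := by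
    intro M hM q
    have h1 : M.factorization q < M := Nat.factorization_lt q (hT M hM).1
    have h2 : M ≤ K := Finset.le_sup (f := id) hM
    omega
  have hval : ∀ M ∈ T, (M.divisors.card : ℝ) * (M : ℝ) ^ (-(7 / 8 : ℝ)) =
      ∏ q ∈ P, h q (M.factorization q) := by
    intro M hM
    have hM0 := (hT M hM).1
    simp only [hh]
    rw [Finset.prod_mul_distrib]
    congr 1
    · rw [Nat.card_divisors hM0, Nat.cast_prod]
      rw [Finset.prod_subset (hsub M hM)]
      · apply Finset.prod_congr rfl; intro q _; push_cast; rfl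
      · intro q _ hq
        have : M.factorization q = 0 := by
          rw [← Finsupp.notMem_support_iff, Nat.support_factorization]; exact hq
        rw [this]; simp
    · have e : (M : ℝ) = ∏ q ∈ P, (q : ℝ) ^ (M.factorization q) := by
        conv_lhs => rw [← Nat.prod_factorization_pow_eq_self hM0]
        rw [Finsupp.prod, Nat.cast_prod, Nat.support_factorization]
        rw [Finset.prod_subset (hsub M hM)]
        · apply Finset.prod_congr rfl; intro q _; push_cast; rfl
        · intro q _ hq
          have : M.factorization q = 0 := by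
            rw [← Finsupp.notMem_support_iff, Nat.support_factorization]; exact hq
          rw [this]; simp
      rw [e, ← Real.finsetProd_rpow]
      · apply Finset.prod_congr rfl
        intro q _
        unfold tq
        rw [← Real.rpow_natCast, ← Real.rpow_natCast, ← Real.rpow_mul (by positivity),
          ← Real.rpow_mul (by positivity), mul_comm]
      · intro q _; positivity
  rw [Finset.sum_congr rfl hval]
  refine (euler_bound P A h (fun q a => by simp only [hh]; have := tq_nonneg q; positivity) T ?_).trans ?_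
  · intro M hM
    refine ⟨(hT M hM).1, hsub M hM, ?_⟩
    intro q _
    simp only [hA]
    split_ifs with hq
    · rw [mem_range]; exact hfac M hM q
    · rw [mem_filter, mem_range]
      exact ⟨hfac M hM q, (hT M hM).2 q (by omega)⟩
  -- bound each factor
  have hloc : ∀ q ∈ P, ∑ a ∈ A q, h q a ≤ (if q ≤ Y then S else 1) * Real.exp (3 * S * tq q ^ 2) := by
    intro q hq
    have hq2 : 2 ≤ q := (hprime q hq).two_le
    have ht := tq_le hq2
    have ht0 := tq_nonneg q
    have hexp : 1 + 3 * S * tq q ^ 2 ≤ Real.exp (3 * S * tq q ^ 2) := by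
      have := Real.add_one_le_exp (3 * S * tq q ^ 2); linarith
    simp only [hA]
    split_ifs with hqY
    · have h1 : ∑ a ∈ range (K + 1), h q a ≤ S := by
        refine le_trans ?_ (hSb (K + 1))
        apply Finset.sum_le_sum
        intro a _
        simp only [hh]
        have e1 : tq q ^ a ≤ r ^ a := pow_le_pow_left₀ ht0 ht a
        have ha : (1 : ℝ) ≤ 1 + a := by have : (0:ℝ) ≤ a := by positivity
                                        linarith
        have e2 : (a : ℝ) + 1 ≤ (1 + a) ^ 3 := by nlinarith [mul_le_mul ha ha zero_le_one (by linarith)]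
        calc ((a : ℝ) + 1) * tq q ^ a ≤ (1 + a) ^ 3 * r ^ a :=
              mul_le_mul e2 e1 (by positivity) (by positivity)
          _ = _ := by ring
      have h2 : (1 : ℝ) ≤ Real.exp (3 * S * tq q ^ 2) := Real.one_le_exp (by positivity)
      calc _ ≤ S := h1
        _ ≤ S * Real.exp (3 * S * tq q ^ 2) := by
          exact le_mul_of_one_le_right hS.le h2
    · rw [one_mul]
      refine le_trans ?_ hexp
      -- split off a = 0 and shift by 2
      have hsub2 : (range (K + 1)).filter (fun a => a ≠ 1) ⊆
          insert 0 ((range K).image (fun b => b + 2)) := by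
        intro a ha
        rw [mem_filter, mem_range] at ha
        rw [Finset.mem_insert]
        rcases Nat.eq_zero_or_pos a with h0 | h0
        · left; exact h0
        · right
          rw [Finset.mem_image]
          exact ⟨a - 2, by rw [mem_range]; omega, by omega⟩
      have hnn : ∀ a, 0 ≤ h q a := fun a => by simp only [hh]; positivity
      calc ∑ a ∈ (range (K + 1)).filter (fun a => a ≠ 1), h q a
          ≤ ∑ a ∈ insert 0 ((range K).image (fun b => b + 2)), h q a :=
            Finset.sum_le_sum_of_subset_of_nonneg hsub2 (fun a _ _ => hnn a)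
        _ = h q 0 + ∑ a ∈ (range K).image (fun b => b + 2), h q a := by
            rw [Finset.sum_insert]
            simp
        _ = 1 + ∑ b ∈ range K, h q (b + 2) := by
            rw [Finset.sum_image]
            · simp [hh]
            · intro a _ b _ hab; simpa using hab
        _ ≤ 1 + ∑ b ∈ range K, 3 * tq q ^ 2 * (r ^ b * (1 + (b : ℝ)) ^ 3) := by
            gcongr with b _
            simp only [hh]
            have e1 : tq q ^ b ≤ r ^ b := pow_le_pow_left₀ ht0 ht b
            have hb0 : (0 : ℝ) ≤ b := by positivity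
            have e2 : ((b + 2 : ℕ) : ℝ) + 1 ≤ 3 * (1 + (b:ℝ)) ^ 3 := by
              push_cast
              nlinarith [mul_nonneg hb0 hb0, mul_nonneg (mul_nonneg hb0 hb0) hb0]
            calc (((b + 2 : ℕ) : ℝ) + 1) * tq q ^ (b + 2)
                = (((b + 2 : ℕ) : ℝ) + 1) * tq q ^ b * tq q ^ 2 := by rw [pow_add]; ring
              _ ≤ (3 * (1 + (b:ℝ)) ^ 3) * r ^ b * tq q ^ 2 := by
                  apply mul_le_mul_of_nonneg_right _ (by positivity)
                  exact mul_le_mul e2 e1 (by positivity) (by positivity)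
              _ = _ := by ring
        _ = 1 + 3 * tq q ^ 2 * ∑ b ∈ range K, (r ^ b * (1 + (b : ℝ)) ^ 3) := by
            rw [← Finset.mul_sum]
        _ ≤ 1 + 3 * tq q ^ 2 * S := by
            have := hSb K
            gcongr
        _ = _ := by ring
  refine (Finset.prod_le_prod (fun q _ => Finset.sum_nonneg fun a _ => by
    simp only [hh]; have := tq_nonneg q; positivity) hloc).trans ?_
  rw [Finset.prod_mul_distrib]
  apply mul_le_mul
  · rw [Finset.prod_ite, Finset.prod_const, Finset.prod_const_one, mul_one]
    apply pow_le_pow_right₀ hS1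
    have : P.filter (fun q => q ≤ Y) ⊆ range (Y + 1) := by
      intro q hq
      rw [mem_filter] at hq
      rw [mem_range]; omega
    simpa using Finset.card_le_card this
  · rw [← Real.exp_sum]
    apply Real.exp_le_exp.2
    rw [← Finset.mul_sum]
    apply mul_le_mul_of_nonneg_left _ (by positivity)
    exact tq_sq_summable.sum_le_tsum P (fun q _ => by positivity)
  · positivity
  · positivity

end Pool.Agent.Helper48
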