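import Mathlib
import Pool.Agent.Helper44.Defs
import Pool.Agent.Helper44.MertensInterval
import Pool.Agent.Helper48.KUGood
import Pool.Agent.Helper48.KUSplit

/-!
# Upper bound for the sum of `kap M * M^(1/log y - 1)` over `y`-smooth `M`
-/

set_option autoImplicit false

namespace Pool.Agent.Helper48

open Finset Pool.Agent.Helper44

/-- primes `q > Y` dividing `M` exactly once -/
def P1 (Y M : ℕ) : Finset ℕ := M.primeFactors.filter (fun q => Y < q ∧ M.factorization q = 1)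

/-- their product -/
def M1 (Y M : ℕ) : ℕ := ∏ q ∈ P1 Y M, q

lemma P1_prime {Y M q : ℕ} (h : q ∈ P1 Y M) : q.Prime := by
  unfold P1 at h
  rw [mem_filter] at h
  exact Nat.prime_of_mem_primeFactors h.1

lemma M1_primeFactors (Y M : ℕ) : (M1 Y M).primeFactors = P1 Y M :=
  Nat.primeFactors_prod fun _ hq => P1_prime hq

lemma M1_ne_zero (Y M : ℕ) : M1 Y M ≠ 0 := by
  unfold M1
  rw [Finset.prod_ne_zero_iff]
  intro q hq
  exact (P1_prime hq).ne_zero

lemma M1_squarefree (Y M : ℕ) : Squarefree (M1 Y M) := by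
  have h := Nat.prod_primeFactors_dvd M
  rw [Nat.squarefree_iff_factorization_le_one (M1_ne_zero Y M)]
  intro q
  unfold M1
  rw [Nat.factorization_prod (fun q hq => (P1_prime hq).ne_zero)]
  rw [Finsupp.finsetSum_apply]
  rw [Finset.sum_congr rfl (g := fun x => if x = q then 1 else 0)]
  · rw [Finset.sum_ite_eq']
    split_ifs <;> omega
  · intro x hx
    rw [(P1_prime hx).factorization, Finsupp.single_apply]

lemma M1_dvd (Y M : ℕ) : M1 Y M ∣ M := by
  have h1 : M1 Y M ∣ ∏ q ∈ M.primeFactors, q := by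
    unfold M1 P1
    exact Finset.prod_dvd_prod_of_subset _ _ _ (Finset.filter_subset _ _)
  exact h1.trans (Nat.prod_primeFactors_dvd M)

lemma fac_M2 {Y M : ℕ} (_hM : M ≠ 0) (q : ℕ) (hq : Y < q) : (M / M1 Y M).factorization q ≠ 1 := by
  rw [Nat.factorization_div (M1_dvd Y M)]
  rw [Finsupp.coe_tsub, Pi.sub_apply]
  by_cases h : q ∈ P1 Y M
  · have h1 : M.factorization q = 1 := by
      unfold P1 at h
      rw [mem_filter] at h
      exact h.2.2
    have h3 : (M1 Y M).factorization q ≠ 0 := by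
      rw [← Finsupp.mem_support_iff, Nat.support_factorization, M1_primeFactors]
      exact h
    omega
  · have h2 : (M1 Y M).factorization q = 0 := by
      rw [← Finsupp.notMem_support_iff, Nat.support_factorization, M1_primeFactors]
      exact h
    rw [h2, Nat.sub_zero]
    intro hc
    apply h
    unfold P1
    rw [mem_filter]
    refine ⟨?_, hq, hc⟩
    rw [← Nat.support_factorization, Finsupp.mem_support_iff, hc]
    norm_num

lemma pt_bound (M a b : ℕ) (h1 : a ≠ 0) (h2 : b ≠ 0) (hprod : a * b = M) (L : ℝ) (hL8 : 8 ≤ L) :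
    (kap M : ℝ) * (M:ℝ)^(1/L) / M ≤ 2 * ((b.divisors.card : ℝ) * (b : ℝ) ^ (-(7 / 8 : ℝ))) *
        ((kap a : ℝ) * (a : ℝ) ^ (1 / L) / a) := by
  have ha0 : (0 : ℝ) < a := by exact_mod_cast Nat.pos_of_ne_zero h1
  have hb0 : (0 : ℝ) < b := by exact_mod_cast Nat.pos_of_ne_zero h2
  have hb1' : (1 : ℝ) ≤ b := by exact_mod_cast Nat.one_le_iff_ne_zero.2 h2
  have hk : (kap M : ℝ) ≤ 2 * b.divisors.card * kap a := by
    have := kap_mul_le a b h1 h2
    rw [hprod] at this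
    exact_mod_cast this
  have hcast : (M : ℝ) = a * b := by rw [← hprod]; push_cast; rfl
  have hbpow : (b : ℝ) ^ (1 / L) / b ≤ (b : ℝ) ^ (-(7 / 8 : ℝ)) := by
    rw [div_eq_mul_inv, ← Real.rpow_neg_one, ← Real.rpow_add hb0]
    apply Real.rpow_le_rpow_of_exponent_le hb1'
    have : 1 / L ≤ 1 / 8 := one_div_le_one_div_of_le (by norm_num) hL8
    linarith
  calc (kap M : ℝ) * (M:ℝ)^(1/L) / M
      ≤ (2 * b.divisors.card * kap a) * (M:ℝ)^(1/L) / M := by gcongr
    _ = 2 * (b.divisors.card * ((b : ℝ) ^ (1 / L) / b)) * ((kap a : ℝ) * (a : ℝ) ^ (1 / L) / a) := by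
        rw [hcast, Real.mul_rpow ha0.le hb0.le]
        field_simp
    _ ≤ _ := by gcongr

theorem kap_upper_of (hG : ∃ C : ℝ, 0 < C ∧ ∀ (J k u : ℕ), 1 ≤ J → ballotSum J k u ≤
      C * (1 + u + |(J:ℝ) - k|)^3 / J * ((J:ℝ)^k / k.factorial)) :
    ∃ C > (0:ℝ), ∃ y₀ : ℝ, ∀ y : ℝ, y₀ ≤ y → ∀ S : Finset ℕ,
      (∀ M ∈ S, M ≠ 0 ∧ ∀ q : ℕ, q.Prime → q ∣ M → (q:ℝ) ≤ y) →
      ∑ M ∈ S, (kap M : ℝ) * (M:ℝ)^(1/Real.log y) / M ≤
        C * (Real.log y)^(2 - del) / (Real.log (Real.log y))^(3/2:ℝ) := by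
  classical
  obtain ⟨C₀, hC₀, hM₀⟩ := mertens_interval
  have hMer : MertensHyp C₀ := ⟨hC₀, hM₀⟩
  set B : ℝ := 2 * C₀ with hB
  have hB0 : 0 < B := by positivity
  obtain ⟨Cg, hCg, hgood⟩ := good_sum_bound hG hMer (B := B) le_rfl
  set Y : ℕ := ⌊yj B 0⌋₊ with hY
  obtain ⟨Cs, hCs, hsqf⟩ := squarefull_bound Y
  have hl2 : 0 < Real.log 2 := Real.log_pos (by norm_num)
  have hl2' : Real.log 2 < 1 := by have := Real.log_two_lt_d9; linarith
  have hl2'' : 1 / 2 < Real.log 2 := by have := Real.log_two_gt_d9; linarith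
  refine ⟨2 * Cs * Cg * ((2 : ℝ) ^ (2 - del) * 2 ^ (3 / 2 : ℝ)), by positivity,
    Real.exp (max 8 ((B + 2) ^ 2)), ?_⟩
  intro y hy S hS
  set L : ℝ := Real.log y with hL
  have hy0 : 0 < y := (Real.exp_pos _).trans_le hy
  have hLge : max 8 ((B + 2) ^ 2) ≤ L := by
    have := Real.log_le_log (Real.exp_pos _) hy
    rwa [Real.log_exp] at this
  have hL8 : 8 ≤ L := (le_max_left _ _).trans hLge
  have hLB : (B + 2) ^ 2 ≤ L := (le_max_right _ _).trans hLge
  have hL0 : 0 < L := by linarith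
  have hyexp : y = Real.exp L := by rw [hL, Real.exp_log hy0]
  -- choice of J
  have hex : ∃ j : ℕ, L ≤ 2 ^ j + B := by
    obtain ⟨j, hj⟩ := pow_unbounded_of_one_lt L (by norm_num : (1:ℝ) < 2)
    exact ⟨j, by linarith⟩
  set J : ℕ := Nat.find hex with hJ
  have hJs : L ≤ 2 ^ J + B := Nat.find_spec hex
  have hJ1 : 1 ≤ J := by
    rw [Nat.one_le_iff_ne_zero]
    intro h0
    rw [h0] at hJs
    norm_num at hJs
    nlinarith
  have hJmin : 2 ^ (J - 1) + B < L := by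
    have := Nat.find_min hex (m := J - 1) (by omega)
    push Not at this
    exact this
  have h2J : (2 : ℝ) ^ J = 2 * 2 ^ (J - 1) := by
    rw [← pow_succ']; congr 1; omega
  have hJL : (2 : ℝ) ^ J / 2 ≤ L := by rw [h2J]; linarith
  have hJL2 : (2 : ℝ) ^ J ≤ 2 * L := by linarith
  have hYf : ∀ q : ℕ, Y < q ↔ yj B 0 < q := fun q => by
    rw [hY, Nat.floor_lt (yj_pos B 0).le]
  -- good part
  have hGood : ∀ M ∈ S, Good B J (M1 Y M) := by
    intro M hM
    refine ⟨M1_squarefree Y M, ?_⟩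
    intro q hq
    rw [M1_primeFactors] at hq
    have hqp := P1_prime hq
    unfold P1 at hq
    rw [mem_filter] at hq
    have hqy : (q : ℝ) ≤ y := (hS M hM).2 q hqp (Nat.dvd_of_mem_primeFactors hq.1)
    have hq0 : yj B 0 < q := (hYf q).1 hq.2.1
    have hqJ : (q : ℝ) ≤ yj B J := by
      refine hqy.trans ?_
      rw [hyexp]; unfold yj
      exact Real.exp_le_exp.2 hJs
    -- find the box
    have hexi : ∃ i : ℕ, (q : ℝ) ≤ yj B (i + 1) := ⟨J - 1, by rw [Nat.sub_add_cancel hJ1]; exact hqJ⟩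
    set i := Nat.find hexi with hi
    have hi1 : (q : ℝ) ≤ yj B (i + 1) := Nat.find_spec hexi
    have hi2 : i ≤ J - 1 := Nat.find_min' hexi (by rw [Nat.sub_add_cancel hJ1]; exact hqJ)
    refine ⟨⟨i, by omega⟩, ?_⟩
    rw [mem_DD]
    refine ⟨⟨?_, hi1⟩, hqp⟩
    rcases Nat.eq_zero_or_pos i with h0 | h0
    · simp only [h0]; exact hq0
    · have := Nat.find_min hexi (m := i - 1) (by omega)
      rw [Nat.sub_add_cancel h0] at this
      push Not at this
      exact this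
  set T1 : Finset ℕ := S.image (M1 Y) with hT1
  set T2 : Finset ℕ := S.image (fun M => M / M1 Y M) with hT2
  have hM2ne : ∀ M ∈ S, M / M1 Y M ≠ 0 := by
    intro M hM
    have := Nat.div_mul_cancel (M1_dvd Y M)
    intro hc
    rw [hc, zero_mul] at this
    exact (hS M hM).1 this.symm
  have hb1 : ∑ M ∈ T1, (kap M : ℝ) * (M : ℝ) ^ (1 / L) / M ≤
        Cg * ((2 * Real.log 2) ^ J / J * ((J : ℝ) ^ J / J.factorial)) := by
    apply hgood J hJ1 L hJL T1
    intro M hM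
    rw [hT1, Finset.mem_image] at hM
    obtain ⟨N, hN, rfl⟩ := hM
    exact hGood N hN
  have hb2 : ∑ M ∈ T2, (M.divisors.card : ℝ) * (M : ℝ) ^ (-(7 / 8 : ℝ)) ≤ Cs := by
    apply hsqf
    intro M hM
    rw [hT2, Finset.mem_image] at hM
    obtain ⟨N, hN, rfl⟩ := hM
    exact ⟨hM2ne N hN, fun q hq => fac_M2 (hS N hN).1 q hq⟩
  -- pointwise
  have hpt : ∀ M ∈ S, (kap M : ℝ) * (M:ℝ)^(1/L) / M ≤
      (fun t : ℕ × ℕ => 2 * ((t.2.divisors.card : ℝ) * (t.2 : ℝ) ^ (-(7 / 8 : ℝ))) *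
        ((kap t.1 : ℝ) * (t.1 : ℝ) ^ (1 / L) / t.1)) ((fun M => (M1 Y M, M / M1 Y M)) M) := by
    intro M hM
    exact pt_bound M (M1 Y M) (M / M1 Y M) (M1_ne_zero Y M) (hM2ne M hM)
      (Nat.mul_div_cancel' (M1_dvd Y M)) L hL8
  have hinj : Set.InjOn (fun M => (M1 Y M, M / M1 Y M)) (S : Set ℕ) := by
    intro M _ N _ h
    simp only [Prod.mk.injEq] at h
    rw [← Nat.mul_div_cancel' (M1_dvd Y M), ← Nat.mul_div_cancel' (M1_dvd Y N), h.1]
    rw [h.1] at h
    rw [h.2]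
  have hsum : ∑ M ∈ S, (kap M : ℝ) * (M:ℝ)^(1/L) / M ≤
      2 * Cs * (Cg * ((2 * Real.log 2) ^ J / J * ((J : ℝ) ^ J / J.factorial))) := by
    calc ∑ M ∈ S, (kap M : ℝ) * (M:ℝ)^(1/L) / M ≤ _ := Finset.sum_le_sum hpt
      _ = ∑ t ∈ S.image (fun M => (M1 Y M, M / M1 Y M)),
          2 * ((t.2.divisors.card : ℝ) * (t.2 : ℝ) ^ (-(7 / 8 : ℝ))) *
          ((kap t.1 : ℝ) * (t.1 : ℝ) ^ (1 / L) / t.1) := (Finset.sum_image
            (f := fun t : ℕ × ℕ => 2 * ((t.2.divisors.card : ℝ) * (t.2 : ℝ) ^ (-(7 / 8 : ℝ))) *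
        ((kap t.1 : ℝ) * (t.1 : ℝ) ^ (1 / L) / t.1)) hinj).symm
      _ ≤ ∑ t ∈ T1 ×ˢ T2, 2 * ((t.2.divisors.card : ℝ) * (t.2 : ℝ) ^ (-(7 / 8 : ℝ))) *
          ((kap t.1 : ℝ) * (t.1 : ℝ) ^ (1 / L) / t.1) := by
          apply Finset.sum_le_sum_of_subset_of_nonneg
          · intro t ht
            obtain ⟨M, hM, rfl⟩ := Finset.mem_image.1 ht
            rw [mem_product]
            exact ⟨Finset.mem_image_of_mem _ hM, Finset.mem_image_of_mem (fun M => M / M1 Y M) hM⟩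
          · intro t _ _
            exact mul_nonneg (mul_nonneg (by norm_num) (mul_nonneg (Nat.cast_nonneg _)
              (Real.rpow_nonneg (Nat.cast_nonneg _) _))) (div_nonneg (mul_nonneg (Nat.cast_nonneg _)
              (Real.rpow_nonneg (Nat.cast_nonneg _) _)) (Nat.cast_nonneg _))
      _ = 2 * (∑ b ∈ T2, (b.divisors.card : ℝ) * (b : ℝ) ^ (-(7 / 8 : ℝ))) *
          (∑ a ∈ T1, (kap a : ℝ) * (a : ℝ) ^ (1 / L) / a) := by
          rw [Finset.sum_product, Finset.mul_sum, Finset.mul_sum]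
          apply Finset.sum_congr rfl
          intro a _
          rw [Finset.sum_mul]
      _ ≤ 2 * Cs * (Cg * ((2 * Real.log 2) ^ J / J * ((J : ℝ) ^ J / J.factorial))) := by
          have : 0 ≤ ∑ a ∈ T1, (kap a : ℝ) * (a : ℝ) ^ (1 / L) / a :=
            Finset.sum_nonneg fun a _ => by positivity
          gcongr
  refine hsum.trans ?_
  -- final analytic estimate
  have hJ0 : (0 : ℝ) < J := by exact_mod_cast hJ1
  have hst : (J : ℝ) ^ J / J.factorial ≤ Real.exp J / J ^ (1 / 2 : ℝ) := by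
    have h := Stirling.le_factorial_stirling J
    have h1 : √(J : ℝ) ≤ √(2 * Real.pi * J) := by
      apply Real.sqrt_le_sqrt
      have := Real.pi_gt_three
      nlinarith
    have h2 : √(J : ℝ) * ((J : ℝ) / Real.exp 1) ^ J ≤ (J.factorial : ℝ) :=
      (mul_le_mul_of_nonneg_right h1 (by positivity)).trans h
    rw [div_pow, ← Real.exp_nat_mul, mul_one] at h2
    rw [div_le_div_iff₀ (by positivity) (by positivity), ← Real.sqrt_eq_rpow]
    have hE : 0 < Real.exp (J : ℝ) := Real.exp_pos _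
    have h3 : √(J : ℝ) * ((J : ℝ) ^ J / Real.exp J) * Real.exp J ≤ (J.factorial : ℝ) * Real.exp J :=
      mul_le_mul_of_nonneg_right h2 hE.le
    have h4 : √(J : ℝ) * ((J : ℝ) ^ J / Real.exp J) * Real.exp J = (J : ℝ) ^ J * √J := by
      field_simp
    rw [h4] at h3
    linarith
  have hpow : (2 * Real.log 2) ^ J * Real.exp J = ((2 : ℝ) ^ J) ^ (2 - del) := by
    rw [← Real.rpow_natCast, ← Real.rpow_natCast, ← Real.rpow_mul (by norm_num),
      Real.rpow_def_of_pos (by positivity), Real.rpow_def_of_pos (by norm_num), ← Real.exp_add]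
    congr 1
    rw [Real.log_mul (by norm_num) hl2.ne']
    unfold del
    field_simp
    ring
  have hdel : 0 ≤ 2 - del := by
    unfold del
    have h1 : -(1 / 2) ≤ Real.log (Real.log 2) := by
      have h2 : (1 : ℝ) - 1 / Real.log 2 ≤ Real.log (Real.log 2) := by
        have := Real.one_sub_inv_le_log_of_pos hl2
        rwa [one_div]
      have h3 : 1 / Real.log 2 ≤ 1.4427 := by
        rw [div_le_iff₀ hl2]
        have := Real.log_two_gt_d9
        nlinarith
      linarith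
    have h4 : 0 ≤ (1 + Real.log (Real.log 2)) / Real.log 2 := by
      apply div_nonneg _ hl2.le; linarith
    linarith
  have hlogL : 0 < Real.log L := Real.log_pos (by linarith)
  have hJlow : Real.log L / 2 ≤ J := by
    have h1 : √L ≤ L - B := by
      have h2 : B + 2 ≤ √L := by
        rw [show B + 2 = √((B + 2) ^ 2) by rw [Real.sqrt_sq (by linarith)]]
        exact Real.sqrt_le_sqrt hLB
      have h3 : √L * √L = L := Real.mul_self_sqrt hL0.le
      nlinarith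
    have h2 : √L ≤ 2 ^ J := by linarith
    have h3 : Real.log (√L) ≤ J * Real.log 2 := by
      rw [← Real.log_pow]
      exact Real.log_le_log (Real.sqrt_pos.2 hL0) h2
    rw [Real.log_sqrt hL0.le] at h3
    nlinarith
  have hmain : (2 * Real.log 2) ^ J / J * ((J : ℝ) ^ J / J.factorial) ≤
      ((2 : ℝ) ^ (2 - del) * 2 ^ (3 / 2 : ℝ)) * (L ^ (2 - del) / (Real.log L) ^ (3/2:ℝ)) := by
    have hJ32 : (J : ℝ) * (J : ℝ) ^ (1 / 2 : ℝ) = (J : ℝ) ^ (3 / 2 : ℝ) := by
      rw [← Real.rpow_one_add' hJ0.le (by norm_num)]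
      norm_num
    calc (2 * Real.log 2) ^ J / J * ((J : ℝ) ^ J / J.factorial)
        ≤ (2 * Real.log 2) ^ J / J * (Real.exp J / J ^ (1 / 2 : ℝ)) := by gcongr
      _ = ((2 : ℝ) ^ J) ^ (2 - del) / (J : ℝ) ^ (3 / 2 : ℝ) := by
          rw [← hpow, ← hJ32]; field_simp
      _ ≤ (2 * L) ^ (2 - del) / (Real.log L / 2) ^ (3 / 2 : ℝ) := by
          gcongr
      _ = _ := by
          rw [Real.mul_rpow (by norm_num) hL0.le, Real.div_rpow hlogL.le (by norm_num)]
          field_simp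
  calc 2 * Cs * (Cg * ((2 * Real.log 2) ^ J / J * ((J : ℝ) ^ J / J.factorial)))
      ≤ 2 * Cs * (Cg * (((2 : ℝ) ^ (2 - del) * 2 ^ (3 / 2 : ℝ)) * (L ^ (2 - del) / (Real.log L) ^ (3/2:ℝ)))) := by
        gcongr
    _ = _ := by ring

end Pool.Agent.Helper48
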