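import Mathlib
import Pool.Agent.Helper40.Ballot
import Pool.Agent.Helper48.KapUpper

/-!
# Upper bound for sums of `kap`, unconditional form
-/

set_option autoImplicit false

namespace Pool.Agent.Helper48

open Pool.Agent.Helper44

theorem kap_upper : ∃ C > (0:ℝ), ∃ y₀ : ℝ, ∀ y : ℝ, y₀ ≤ y → ∀ S : Finset ℕ,
    (∀ M ∈ S, M ≠ 0 ∧ ∀ q : ℕ, q.Prime → q ∣ M → (q:ℝ) ≤ y) →
    ∑ M ∈ S, (kap M : ℝ) * (M:ℝ)^(1/Real.log y) / M ≤
      C * (Real.log y)^(2 - del) / (Real.log (Real.log y))^(3/2:ℝ) :=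
  kap_upper_of Pool.Agent.Helper40.Ballot.ballot_bound

end Pool.Agent.Helper48
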