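import Mathlib

/-!
# Choice of parameters
-/

set_option autoImplicit false

namespace Pool.Agent.Helper48.Cov

open Finset Filter

lemma poly_le_four_pow (C : ℝ) (a : ℕ) : ∃ n0 : ℕ, ∀ n : ℕ, n0 ≤ n →
    C * ((n : ℝ) + 1) ^ a ≤ 4 ^ n := by
  have h := tendsto_pow_const_div_const_pow_of_one_lt a (show (1 : ℝ) < 4 by norm_num)
  have h2 := (tendsto_add_atTop_iff_nat 1).2 h
  have h3 : Tendsto (fun n : ℕ => (4 * (|C| + 1)) * ((((n + 1 : ℕ) : ℝ)) ^ a / 4 ^ (n + 1))) atTop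
      (nhds ((4 * (|C| + 1)) * 0)) := h2.const_mul _
  rw [mul_zero] at h3
  have h4 := h3.eventually (gt_mem_nhds (show (0 : ℝ) < 1 by norm_num))
  obtain ⟨n0, hn0⟩ := eventually_atTop.1 h4
  refine ⟨n0, fun n hn => ?_⟩
  have h5 := hn0 n hn
  rw [← mul_div_assoc, div_lt_one (by positivity)] at h5
  push_cast at h5
  have h6 : C ≤ |C| + 1 := by have := le_abs_self C; linarith
  have h7 : (0 : ℝ) ≤ ((n : ℝ) + 1) ^ a := by positivity
  have h8 : C * ((n : ℝ) + 1) ^ a ≤ (|C| + 1) * ((n : ℝ) + 1) ^ a := by gcongr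
  have h9 : (4 : ℝ) ^ (n + 1) = 4 * 4 ^ n := by ring
  rw [h9] at h5
  linarith

noncomputable def RR (X : ℕ) : ℕ := Nat.log 64 ⌊Real.log X⌋₊
noncomputable def ii (X : ℕ) : ℕ := Nat.sqrt (RR X)
noncomputable def w0 (X : ℕ) : ℕ := 4 ^ (8 * ii X)
noncomputable def yy (A : ℝ) (X : ℕ) : ℕ := ⌊Real.exp (A * Real.log X / Real.log (RR X))⌋₊

/-- the parameters are in the good range -/
structure Good (A : ℝ) (n0 : ℕ) (X : ℕ) : Prop where
  hi : n0 ≤ ii X
  hi2 : 2 ≤ ii X
  h1 : (64 : ℝ) ^ (RR X) ≤ Real.log X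
  h2 : Real.log X < 64 ^ (RR X + 1)
  h3 : Real.log (Real.log X) ≤ 5 * (RR X + 1)
  h4 : Real.log (yy A X) ≤ A * Real.log X / Real.log (RR X)
  h5 : A * Real.log X / (2 * Real.log (RR X)) ≤ Real.log (yy A X)
  h6 : (yy A X) ^ 4 ≤ X
  h7 : 4 ^ (8 * RR X) ≤ yy A X
  h8 : n0 ≤ X

lemma RR_tendsto : Tendsto RR atTop atTop := by
  rw [tendsto_atTop]
  intro b
  have hlog : Tendsto (fun X : ℕ => Real.log (X : ℝ)) atTop atTop :=
    Real.tendsto_log_atTop.comp tendsto_natCast_atTop_atTop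
  filter_upwards [hlog.eventually_ge_atTop ((64 : ℝ) ^ b)] with X hX
  unfold RR
  apply Nat.le_log_of_pow_le (by norm_num)
  apply Nat.le_floor
  push_cast
  exact hX

lemma ii_tendsto : Tendsto ii atTop atTop := by
  rw [tendsto_atTop]
  intro b
  filter_upwards [RR_tendsto.eventually_ge_atTop (b * b)] with X hX
  unfold ii
  exact Nat.le_sqrt.2 hX

theorem eventually_good (A : ℝ) (hA : 1 ≤ A) (n0 : ℕ) : ∀ᶠ X : ℕ in atTop, Good A n0 X := by
  have hlog : Tendsto (fun X : ℕ => Real.log (X : ℝ)) atTop atTop :=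
    Real.tendsto_log_atTop.comp tendsto_natCast_atTop_atTop
  have hRlog : Tendsto (fun X : ℕ => Real.log (RR X : ℝ)) atTop atTop :=
    hlog.comp RR_tendsto
  obtain ⟨n1, hn1⟩ := poly_le_four_pow 200 2
  filter_upwards [ii_tendsto.eventually_ge_atTop (max n0 2), hlog.eventually_ge_atTop 64,
    hRlog.eventually_ge_atTop (4 * A + 4), eventually_ge_atTop n0, eventually_ge_atTop 3,
    RR_tendsto.eventually_ge_atTop (max n1 2)] with X hii hL hRl hn hX3 hRn
  set L := Real.log (X : ℝ) with hLdef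
  set R := RR X with hR
  have hL0 : 0 < L := by linarith
  have hX0 : (0 : ℝ) < X := by exact_mod_cast (by omega : 0 < X)
  have hfl : 64 ≤ ⌊L⌋₊ := Nat.le_floor (by exact_mod_cast hL)
  have h1 : (64 : ℝ) ^ R ≤ L := by
    have h := Nat.pow_log_le_self 64 (by omega : ⌊L⌋₊ ≠ 0)
    calc (64 : ℝ) ^ R = ((64 ^ R : ℕ) : ℝ) := by push_cast; rfl
      _ ≤ (⌊L⌋₊ : ℝ) := by exact_mod_cast h
      _ ≤ L := Nat.floor_le hL0.le
  have h2 : L < 64 ^ (R + 1) := by
    have h := Nat.lt_pow_succ_log_self (b := 64) (by norm_num) ⌊L⌋₊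
    have h' : ⌊L⌋₊ + 1 ≤ 64 ^ (R + 1) := h
    calc L < ⌊L⌋₊ + 1 := Nat.lt_floor_add_one L
      _ ≤ ((64 ^ (R + 1) : ℕ) : ℝ) := by exact_mod_cast h'
      _ = _ := by push_cast; rfl
  have hl64 : Real.log 64 ≤ 5 := by
    have : Real.log 64 = 6 * Real.log 2 := by
      rw [show (64 : ℝ) = 2 ^ 6 by norm_num, Real.log_pow]; push_cast; ring
    have := Real.log_two_lt_d9
    linarith
  have h3 : Real.log L ≤ 5 * (R + 1) := by
    have h := Real.log_le_log hL0 h2.le
    rw [Real.log_pow] at h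
    push_cast at h
    have : (0 : ℝ) ≤ (R : ℝ) + 1 := by positivity
    nlinarith
  have hR2 : 2 ≤ R := le_trans (le_max_right _ _) hRn
  have hRR : (2 : ℝ) ≤ R := by exact_mod_cast hR2
  have hlR : 0 < Real.log R := by linarith
  have hlRle : Real.log R ≤ R := (Real.log_le_sub_one_of_pos (by linarith)).trans (by linarith)
  -- size of `L / log R`
  have hbig : 100 * ((R : ℝ) + 1) ≤ L / (2 * Real.log R) := by
    have h5 := hn1 R (le_trans (le_max_left _ _) hRn)
    have h6 : (4 : ℝ) ^ R ≤ 64 ^ R := pow_le_pow_left₀ (by norm_num) (by norm_num) _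
    rw [le_div_iff₀ (by positivity)]
    nlinarith
  have hbig2 : 100 * ((R : ℝ) + 1) ≤ A * L / (2 * Real.log R) := by
    refine hbig.trans ?_
    apply div_le_div_of_nonneg_right _ (by positivity)
    nlinarith
  set u := A * L / Real.log R with hu
  have hu2 : A * L / (2 * Real.log R) = u / 2 := by rw [hu]; field_simp
  have hu1 : 200 * ((R : ℝ) + 1) ≤ u := by linarith
  have hexp1 : Real.exp (u / 2) ≤ (⌊Real.exp u⌋₊ : ℝ) := by
    have h5 : Real.exp u < ⌊Real.exp u⌋₊ + 1 := Nat.lt_floor_add_one _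
    have h6 : Real.exp (u / 2) + 1 ≤ Real.exp u := by
      have e : Real.exp u = Real.exp (u / 2) * Real.exp (u / 2) := by
        rw [← Real.exp_add]; ring_nf
      have h7 := Real.add_one_le_exp (u / 2)
      rw [e]
      nlinarith
    linarith
  have hy0 : (0 : ℝ) < (⌊Real.exp u⌋₊ : ℝ) := lt_of_lt_of_le (Real.exp_pos _) hexp1
  have hyle : (⌊Real.exp u⌋₊ : ℝ) ≤ Real.exp u := Nat.floor_le (Real.exp_pos _).le
  refine ⟨le_trans (le_max_left _ _) hii, le_trans (le_max_right _ _) hii, h1, h2, h3, ?_, ?_, ?_,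
    ?_, hn⟩
  · show Real.log (⌊Real.exp u⌋₊ : ℝ) ≤ u
    calc Real.log (⌊Real.exp u⌋₊ : ℝ) ≤ Real.log (Real.exp u) := Real.log_le_log hy0 hyle
      _ = u := Real.log_exp u
  · show A * L / (2 * Real.log R) ≤ Real.log (⌊Real.exp u⌋₊ : ℝ)
    rw [hu2, ← Real.log_exp (u / 2)]
    exact Real.log_le_log (Real.exp_pos _) hexp1
  · show ⌊Real.exp u⌋₊ ^ 4 ≤ X
    have h5 : 4 * u ≤ L := by
      rw [hu, ← mul_div_assoc, div_le_iff₀ hlR]
      nlinarith
    have h6 : ((⌊Real.exp u⌋₊ : ℝ)) ^ 4 ≤ X := by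
      calc ((⌊Real.exp u⌋₊ : ℝ)) ^ 4 ≤ Real.exp u ^ 4 := pow_le_pow_left₀ hy0.le hyle 4
        _ = Real.exp (4 * u) := by rw [← Real.exp_nat_mul]; norm_num
        _ ≤ Real.exp L := Real.exp_le_exp.2 h5
        _ = X := by rw [hLdef]; exact Real.exp_log hX0
    exact_mod_cast h6
  · show 4 ^ (8 * R) ≤ ⌊Real.exp u⌋₊
    apply Nat.le_floor
    push_cast
    have hl4 : Real.log 4 ≤ 2 := by
      have : Real.log 4 = 2 * Real.log 2 := by
        rw [show (4 : ℝ) = 2 ^ 2 by norm_num, Real.log_pow]; push_cast; ring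
      have := Real.log_two_lt_d9
      linarith
    calc (4 : ℝ) ^ (8 * R) = Real.exp ((8 * R : ℕ) * Real.log 4) := by
          rw [Real.exp_nat_mul, Real.exp_log (by norm_num)]
      _ ≤ Real.exp u := by
          apply Real.exp_le_exp.2
          push_cast
          have : (0 : ℝ) ≤ R := by positivity
          nlinarith

section facts

variable {A : ℝ} {n0 X : ℕ}

lemma Good.mono {n1 : ℕ} (h : Good A n0 X) (hn : n1 ≤ n0) : Good A n1 X :=
  ⟨hn.trans h.hi, h.hi2, h.h1, h.h2, h.h3, h.h4, h.h5, h.h6, h.h7, hn.trans h.h8⟩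

lemma ii_sq_le (X : ℕ) : ii X * ii X ≤ RR X := Nat.sqrt_le _

lemma RR_lt (X : ℕ) : RR X < (ii X + 1) * (ii X + 1) := Nat.sqrt_lt.1 (Nat.lt_succ_self _)

lemma Good.RR_ge (h : Good A n0 X) : n0 ≤ RR X := by
  have h1 := ii_sq_le X
  have h2 := h.hi
  have h3 := h.hi2
  nlinarith

lemma Good.RR4 (h : Good A n0 X) : 4 ≤ RR X := by
  have h1 := ii_sq_le X
  have h3 := h.hi2
  nlinarith

lemma Good.ii_le (h : Good A n0 X) : ii X ≤ RR X := by
  have h1 := ii_sq_le X
  have h3 := h.hi2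
  nlinarith

lemma Good.L_pos (h : Good A n0 X) : 0 < Real.log X := lt_of_lt_of_le (by positivity) h.h1

lemma Good.L_ge (h : Good A n0 X) : (4096 : ℝ) ≤ Real.log X := by
  refine le_trans ?_ h.h1
  calc (4096 : ℝ) = 64 ^ 2 := by norm_num
    _ ≤ 64 ^ RR X := pow_le_pow_right₀ (by norm_num) (by have := h.RR4; omega)

lemma Good.X_pos (h : Good A n0 X) : 0 < X := by
  rcases Nat.eq_zero_or_pos X with h0 | h0
  · have := h.L_pos
    rw [h0] at this
    simp at this
  · exact h0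

lemma Good.logR_pos (h : Good A n0 X) : 1 < Real.log (RR X) := by
  have h1 := h.RR4
  have h2 : (4 : ℝ) ≤ RR X := by exact_mod_cast h1
  calc (1 : ℝ) < Real.log 4 := by
        have : Real.log 4 = 2 * Real.log 2 := by
          rw [show (4 : ℝ) = 2 ^ 2 by norm_num, Real.log_pow]; push_cast; ring
        have := Real.log_two_gt_d9
        linarith
    _ ≤ _ := Real.log_le_log (by norm_num) h2

lemma Good.logR_le (h : Good A n0 X) : Real.log (RR X) ≤ RR X := by
  have h1 := h.RR4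
  have h2 : (4 : ℝ) ≤ RR X := by exact_mod_cast h1
  exact (Real.log_le_sub_one_of_pos (by linarith)).trans (by linarith)

lemma Good.y_pos (h : Good A n0 X) : 0 < yy A X := lt_of_lt_of_le (by positivity) h.h7

lemma Good.w_le_y (h : Good A n0 X) {i : ℕ} (hi : i ≤ RR X) : 4 ^ (8 * i) ≤ yy A X :=
  le_trans (Nat.pow_le_pow_right (by norm_num) (by omega)) h.h7

lemma Good.logy_pos (h : Good A n0 X) : 0 < Real.log (yy A X) := by
  apply Real.log_pos
  have h1 := h.h7
  have h2 : 4 ^ 1 ≤ 4 ^ (8 * RR X) := Nat.pow_le_pow_right (by norm_num) (by have := h.RR4; omega)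
  have : 1 < yy A X := by omega
  exact_mod_cast this

lemma log_four_le : Real.log 4 ≤ 1.4 := by
  have : Real.log 4 = 2 * Real.log 2 := by
    rw [show (4 : ℝ) = 2 ^ 2 by norm_num, Real.log_pow]; push_cast; ring
  have := Real.log_two_lt_d9
  linarith

lemma log_four_ge : 1.38 ≤ Real.log 4 := by
  have : Real.log 4 = 2 * Real.log 2 := by
    rw [show (4 : ℝ) = 2 ^ 2 by norm_num, Real.log_pow]; push_cast; ring
  have := Real.log_two_gt_d9
  linarith

lemma log_w (i : ℕ) : Real.log ((4 ^ (8 * i) : ℕ) : ℝ) = 8 * i * Real.log 4 := by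
  push_cast
  rw [Real.log_pow]
  push_cast
  ring

lemma log_w_le (i : ℕ) : Real.log ((4 ^ (8 * i) : ℕ) : ℝ) ≤ 12 * i := by
  rw [log_w]
  have := log_four_le
  have : (0 : ℝ) ≤ i := by positivity
  nlinarith

lemma log_w_ge (i : ℕ) : 11 * i ≤ Real.log ((4 ^ (8 * i) : ℕ) : ℝ) := by
  rw [log_w]
  have := log_four_ge
  have : (0 : ℝ) ≤ i := by positivity
  nlinarith

/-- `1 / log y` is at most `2 log R / L` -/
lemma Good.inv_logy (h : Good A n0 X) (hA : 1 ≤ A) :
    1 / Real.log (yy A X) ≤ 2 * Real.log (RR X) / Real.log X := by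
  have h1 := h.h5
  have hL := h.L_pos
  have hR := h.logR_pos
  have h2 : Real.log X / (2 * Real.log (RR X)) ≤ Real.log (yy A X) := by
    refine le_trans ?_ h1
    apply div_le_div_of_nonneg_right _ (by linarith)
    nlinarith
  rw [div_le_div_iff₀ h.logy_pos hL]
  rw [div_le_iff₀ (by linarith)] at h2
  linarith

end facts

end Pool.Agent.Helper48.Cov
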