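import Mathlib

/-!
# Averages over residue classes

`Av l F a` is the average of `F` over all choices of the coordinates in the list `l`
(the coordinate `ℓ` ranging over `0, ..., ℓ - 1`), the other coordinates being those of `a`.
-/

set_option autoImplicit false

namespace Pool.Agent.Helper48.Cov

open Finset

/-- Average over the coordinates in `l`. -/
noncomputable def Av : List ℕ → ((ℕ → ℕ) → ℝ) → (ℕ → ℕ) → ℝ
  | [], F, a => F a
  | ℓ :: l, F, a => (∑ r ∈ range ℓ, Av l F (Function.update a ℓ r)) / ℓ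

lemma Av_nil (F : (ℕ → ℕ) → ℝ) (a : ℕ → ℕ) : Av [] F a = F a := rfl

lemma Av_cons (ℓ : ℕ) (l : List ℕ) (F : (ℕ → ℕ) → ℝ) (a : ℕ → ℕ) :
    Av (ℓ :: l) F a = (∑ r ∈ range ℓ, Av l F (Function.update a ℓ r)) / ℓ := rfl

lemma Av_append (l1 l2 : List ℕ) (F : (ℕ → ℕ) → ℝ) (a : ℕ → ℕ) :
    Av (l1 ++ l2) F a = Av l1 (fun b => Av l2 F b) a := by
  induction l1 generalizing a with
  | nil => rfl
  | cons ℓ l1 ih =>
    rw [List.cons_append, Av_cons, Av_cons]
    congr 1
    exact Finset.sum_congr rfl fun r _ => ih _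

lemma Av_mono {l : List ℕ} {F G : (ℕ → ℕ) → ℝ} (h : ∀ a, F a ≤ G a) (a : ℕ → ℕ) :
    Av l F a ≤ Av l G a := by
  induction l generalizing a with
  | nil => exact h a
  | cons ℓ l ih =>
    rw [Av_cons, Av_cons]
    exact div_le_div_of_nonneg_right (Finset.sum_le_sum fun r _ => ih _) (by positivity)

lemma Av_congr {l : List ℕ} {F G : (ℕ → ℕ) → ℝ} (h : ∀ a, F a = G a) (a : ℕ → ℕ) :
    Av l F a = Av l G a := by
  have : F = G := funext h
  rw [this]

lemma Av_add (l : List ℕ) (F G : (ℕ → ℕ) → ℝ) (a : ℕ → ℕ) :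
    Av l (fun b => F b + G b) a = Av l F a + Av l G a := by
  induction l generalizing a with
  | nil => rfl
  | cons ℓ l ih =>
    rw [Av_cons, Av_cons, Av_cons, ← add_div, ← Finset.sum_add_distrib]
    congr 1
    exact Finset.sum_congr rfl fun r _ => ih _

lemma Av_smul (l : List ℕ) (c : ℝ) (F : (ℕ → ℕ) → ℝ) (a : ℕ → ℕ) :
    Av l (fun b => c * F b) a = c * Av l F a := by
  induction l generalizing a with
  | nil => rfl
  | cons ℓ l ih =>
    rw [Av_cons, Av_cons, ← mul_div_assoc, Finset.mul_sum]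
    congr 1
    exact Finset.sum_congr rfl fun r _ => ih _

lemma Av_zero (l : List ℕ) (a : ℕ → ℕ) : Av l (fun _ => 0) a = 0 := by
  have := Av_smul l 0 (fun _ => 0) a
  simpa using this

lemma Av_sub (l : List ℕ) (F G : (ℕ → ℕ) → ℝ) (a : ℕ → ℕ) :
    Av l (fun b => F b - G b) a = Av l F a - Av l G a := by
  have h1 : ∀ b, F b - G b = F b + (-1) * G b := fun b => by ring
  rw [Av_congr h1, Av_add, Av_smul]; ring

lemma Av_sum {ι : Type*} (l : List ℕ) (s : Finset ι) (F : ι → (ℕ → ℕ) → ℝ) (a : ℕ → ℕ) :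
    Av l (fun b => ∑ i ∈ s, F i b) a = ∑ i ∈ s, Av l (F i) a := by
  classical
  induction s using Finset.induction_on with
  | empty => simp [Av_zero]
  | insert i s hi ih =>
    rw [Finset.sum_insert hi, ← ih, ← Av_add]
    apply Av_congr
    intro b
    rw [Finset.sum_insert hi]

lemma Av_nonneg {l : List ℕ} {F : (ℕ → ℕ) → ℝ} (h : ∀ a, 0 ≤ F a) (a : ℕ → ℕ) : 0 ≤ Av l F a := by
  rw [← Av_zero l a]
  exact Av_mono h a

/-- `F` does not depend on the coordinates in `l`. -/
def Indep (l : List ℕ) (F : (ℕ → ℕ) → ℝ) : Prop :=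
  ∀ a b : ℕ → ℕ, (∀ i, i ∉ l → a i = b i) → F a = F b

lemma Av_mul_indep {l : List ℕ} (_hl : ∀ ℓ ∈ l, 0 < ℓ) {F G : (ℕ → ℕ) → ℝ} (hF : Indep l F)
    (a : ℕ → ℕ) : Av l (fun b => F b * G b) a = F a * Av l G a := by
  induction l generalizing a with
  | nil => rfl
  | cons ℓ l ih =>
    rw [Av_cons, Av_cons, ← mul_div_assoc, Finset.mul_sum]
    congr 1
    apply Finset.sum_congr rfl
    intro r _
    rw [ih (fun x hx => _hl x (List.mem_cons_of_mem _ hx))
      (fun a b h => hF a b (fun i hi => h i (fun hc => hi (List.mem_cons_of_mem _ hc))))]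
    congr 1
    apply hF
    intro i hi
    rw [Function.update_of_ne]
    rintro rfl
    exact hi List.mem_cons_self

lemma Av_const {l : List ℕ} (hl : ∀ ℓ ∈ l, 0 < ℓ) (c : ℝ) (a : ℕ → ℕ) :
    Av l (fun _ => c) a = c := by
  induction l generalizing a with
  | nil => rfl
  | cons ℓ l ih =>
    rw [Av_cons]
    rw [Finset.sum_congr rfl (fun r _ => ih (fun x hx => hl x (List.mem_cons_of_mem _ hx)) _)]
    rw [Finset.sum_const, card_range, nsmul_eq_mul]
    have : (0 : ℝ) < ℓ := by exact_mod_cast hl ℓ List.mem_cons_self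
    field_simp

lemma Av_indep {l : List ℕ} (hl : ∀ ℓ ∈ l, 0 < ℓ) {F : (ℕ → ℕ) → ℝ} (hF : Indep l F)
    (a : ℕ → ℕ) : Av l F a = F a := by
  have h := Av_mul_indep hl hF (G := fun _ => 1) a
  rw [Av_const hl] at h
  simpa using h

lemma exists_le_Av {l : List ℕ} (hl : ∀ ℓ ∈ l, 0 < ℓ) (hnd : l.Nodup) (F : (ℕ → ℕ) → ℝ)
    (a : ℕ → ℕ) : ∃ b : ℕ → ℕ, (∀ i, i ∉ l → b i = a i) ∧ (∀ ℓ ∈ l, b ℓ < ℓ) ∧ F b ≤ Av l F a := by
  induction l generalizing a with
  | nil => exact ⟨a, fun _ _ => rfl, fun _ h => absurd h (by simp), le_rfl⟩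
  | cons ℓ l ih =>
    have hℓ : 0 < ℓ := hl ℓ List.mem_cons_self
    have hex : ∃ r ∈ range ℓ, Av l F (Function.update a ℓ r) ≤ Av (ℓ :: l) F a := by
      by_contra hcon
      push Not at hcon
      have h1 : ∑ r ∈ range ℓ, Av (ℓ :: l) F a < ∑ r ∈ range ℓ, Av l F (Function.update a ℓ r) :=
        Finset.sum_lt_sum_of_nonempty ⟨0, by simpa using hℓ⟩ hcon
      rw [Finset.sum_const, card_range, nsmul_eq_mul, Av_cons] at h1
      have : (0 : ℝ) < ℓ := by exact_mod_cast hℓ
      rw [mul_div_cancel₀ _ this.ne'] at h1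
      exact lt_irrefl _ h1
    obtain ⟨r, hr, hle⟩ := hex
    obtain ⟨b, h1, h2, h3⟩ := ih (fun x hx => hl x (List.mem_cons_of_mem _ hx))
      (List.nodup_cons.1 hnd).2 (Function.update a ℓ r)
    have hℓl : ℓ ∉ l := (List.nodup_cons.1 hnd).1
    refine ⟨b, ?_, ?_, h3.trans hle⟩
    · intro i hi
      rw [List.mem_cons, not_or] at hi
      rw [h1 i hi.2, Function.update_of_ne hi.1]
    · intro x hx
      rcases List.mem_cons.1 hx with rfl | hx
      · rw [h1 x hℓl, Function.update_self]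
        simpa using hr
      · exact h2 x hx

/-! ### Survival probabilities -/

/-- number of residues mod `ℓ` occupied by `T` -/
def nr (ℓ : ℕ) (T : Finset ℕ) : ℕ := (T.image (fun t => t % ℓ)).card

/-- `T` avoids the classes `a ℓ` for all `ℓ ∈ l` -/
def Avoid (l : List ℕ) (T : Finset ℕ) (a : ℕ → ℕ) : Prop := ∀ ℓ ∈ l, ∀ t ∈ T, t % ℓ ≠ a ℓ

instance (l : List ℕ) (T : Finset ℕ) (a : ℕ → ℕ) : Decidable (Avoid l T a) := by
  unfold Avoid; infer_instance

/-- indicator of `Avoid` -/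
noncomputable def ind (l : List ℕ) (T : Finset ℕ) (a : ℕ → ℕ) : ℝ := if Avoid l T a then 1 else 0

lemma ind_nonneg (l : List ℕ) (T : Finset ℕ) (a : ℕ → ℕ) : 0 ≤ ind l T a := by
  unfold ind; split_ifs <;> norm_num

lemma ind_cons (ℓ : ℕ) (l : List ℕ) (T : Finset ℕ) (a : ℕ → ℕ) :
    ind (ℓ :: l) T a = ind [ℓ] T a * ind l T a := by
  unfold ind Avoid
  by_cases h1 : ∀ x ∈ [ℓ], ∀ t ∈ T, t % x ≠ a x <;> by_cases h2 : ∀ x ∈ l, ∀ t ∈ T, t % x ≠ a x
  · rw [if_pos, if_pos h1, if_pos h2]; · norm_num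
    intro x hx
    rcases List.mem_cons.1 hx with rfl | hx
    · exact h1 x (by simp)
    · exact h2 x hx
  · rw [if_neg, if_neg h2]; · norm_num
    intro hc
    exact h2 fun x hx => hc x (List.mem_cons_of_mem _ hx)
  · rw [if_neg, if_neg h1]; · norm_num
    intro hc
    apply h1
    intro x hx
    simp only [List.mem_singleton] at hx
    subst hx
    exact hc _ List.mem_cons_self
  · rw [if_neg, if_neg h1]; · norm_num
    intro hc
    exact h2 fun x hx => hc x (List.mem_cons_of_mem _ hx)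

lemma ind_append (l1 l2 : List ℕ) (T : Finset ℕ) (a : ℕ → ℕ) :
    ind (l1 ++ l2) T a = ind l1 T a * ind l2 T a := by
  induction l1 with
  | nil =>
    have : ind [] T a = 1 := by unfold ind Avoid; simp
    rw [List.nil_append, this, one_mul]
  | cons ℓ l1 ih =>
    rw [List.cons_append, ind_cons, ih, ind_cons ℓ l1]; ring

/-- product of survival probabilities -/
noncomputable def pr (l : List ℕ) (T : Finset ℕ) : ℝ := (l.map (fun ℓ => 1 - (nr ℓ T : ℝ) / ℓ)).prod

lemma ind_single (ℓ : ℕ) (T : Finset ℕ) (a : ℕ → ℕ) :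
    ind [ℓ] T a = if a ℓ ∉ T.image (fun t => t % ℓ) then 1 else 0 := by
  unfold ind Avoid
  congr 1
  simp only [List.mem_singleton, forall_eq, Finset.mem_image, not_exists, not_and]

theorem Av_ind {l : List ℕ} (hl : ∀ ℓ ∈ l, 0 < ℓ) (hnd : l.Nodup) (T : Finset ℕ) (a : ℕ → ℕ) :
    Av l (ind l T) a = pr l T := by
  induction l generalizing a with
  | nil => simp [Av_nil, ind, Avoid, pr]
  | cons ℓ l ih =>
    have hℓ : 0 < ℓ := hl ℓ List.mem_cons_self
    have hℓ' : (0 : ℝ) < ℓ := by exact_mod_cast hℓ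
    have hl' : ∀ x ∈ l, 0 < x := fun x hx => hl x (List.mem_cons_of_mem _ hx)
    have hℓl : ℓ ∉ l := (List.nodup_cons.1 hnd).1
    rw [Av_cons]
    have e1 : ∀ r ∈ range ℓ, Av l (ind (ℓ :: l) T) (Function.update a ℓ r) =
        (if r ∉ T.image (fun t => t % ℓ) then 1 else 0) * pr l T := by
      intro r _
      have h1 : ∀ b, ind (ℓ :: l) T b = ind [ℓ] T b * ind l T b := ind_cons ℓ l T
      rw [Av_congr h1, Av_mul_indep hl', ih hl' (List.nodup_cons.1 hnd).2, ind_single,
        Function.update_self]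
      intro b c h
      rw [ind_single, ind_single, h ℓ hℓl]
    rw [Finset.sum_congr rfl e1, ← Finset.sum_mul]
    have e2 : ∑ r ∈ range ℓ, (if r ∉ T.image (fun t => t % ℓ) then (1 : ℝ) else 0) =
        ℓ - nr ℓ T := by
      have hsub : T.image (fun t => t % ℓ) ⊆ range ℓ := by
        intro r hr
        obtain ⟨t, _, rfl⟩ := Finset.mem_image.1 hr
        simpa using Nat.mod_lt t hℓ
      rw [← Finset.sum_filter, Finset.sum_const, nsmul_eq_mul, mul_one]
      have : (range ℓ).filter (fun r => r ∉ T.image (fun t => t % ℓ)) =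
          range ℓ \ T.image (fun t => t % ℓ) := by
        ext r; simp only [mem_filter, mem_sdiff]
      rw [this, Finset.card_sdiff_of_subset hsub, card_range, Nat.cast_sub]
      · rfl
      · simpa using Finset.card_le_card hsub
    rw [e2]
    unfold pr
    rw [List.map_cons, List.prod_cons]
    field_simp

end Pool.Agent.Helper48.Cov
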