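import Mathlib

/-!
# Blocks inside residue classes and the greedy choice
-/

set_option autoImplicit false

namespace Pool.Agent.Helper48.Cov

open Finset

/-- A family of disjoint `k`-subsets of `V`, each inside one class mod `p`, covering all but at
most `p k` elements of `V`. -/
structure IsBlocks (p k : ℕ) (V : Finset ℕ) (B : Finset (Finset ℕ)) : Prop where
  sub : ∀ T ∈ B, T ⊆ V
  card : ∀ T ∈ B, T.card = k
  cls : ∀ T ∈ B, ∀ t ∈ T, ∀ t' ∈ T, t % p = t' % p
  disj : ∀ T ∈ B, ∀ T' ∈ B, T ≠ T' → Disjoint T T'
  big : V.card ≤ B.card * k + p * k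

theorem exists_blocks (p k : ℕ) (hp : 0 < p) (hk : 0 < k) (V : Finset ℕ) :
    ∃ B, IsBlocks p k V B := by
  classical
  induction h : V.card using Nat.strong_induction_on generalizing V with
  | _ n ih =>
    by_cases hc : ∃ c ∈ range p, k ≤ (V.filter (fun t => t % p = c)).card
    · obtain ⟨c, _, hc⟩ := hc
      obtain ⟨T, hT, hTk⟩ := Finset.exists_subset_card_eq hc
      have hTV : T ⊆ V := hT.trans (filter_subset _ _)
      have hcard : (V \ T).card = n - k := by rw [card_sdiff_of_subset hTV, hTk, h]
      have hkn : k ≤ n := by rw [← h, ← hTk]; exact card_le_card hTV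
      obtain ⟨B, hB⟩ := ih (V \ T).card (by omega) (V \ T) rfl
      have hTB : T ∉ B := by
        intro hmem
        obtain ⟨t, ht⟩ : T.Nonempty := by rw [← card_pos, hTk]; exact hk
        have := hB.sub T hmem ht
        rw [mem_sdiff] at this
        exact this.2 ht
      refine ⟨insert T B, ?_, ?_, ?_, ?_, ?_⟩
      · intro S hS
        rcases mem_insert.1 hS with rfl | hS
        · exact hTV
        · exact (hB.sub S hS).trans sdiff_subset
      · intro S hS
        rcases mem_insert.1 hS with rfl | hS
        · exact hTk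
        · exact hB.card S hS
      · intro S hS t ht t' ht'
        rcases mem_insert.1 hS with rfl | hS
        · have h1 := hT ht
          have h2 := hT ht'
          rw [mem_filter] at h1 h2
          rw [h1.2, h2.2]
        · exact hB.cls S hS t ht t' ht'
      · have hd : ∀ S ∈ B, Disjoint T S := by
          intro S hS
          rw [Finset.disjoint_left]
          intro t ht ht'
          have := hB.sub S hS ht'
          rw [mem_sdiff] at this
          exact this.2 ht
        intro S hS S' hS' hne
        rcases mem_insert.1 hS with h1 | h1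
        · rcases mem_insert.1 hS' with h2 | h2
          · exact absurd (h1.trans h2.symm) hne
          · rw [h1]; exact hd S' h2
        · rcases mem_insert.1 hS' with h2 | h2
          · rw [h2]; exact (hd S h1).symm
          · exact hB.disj S h1 S' h2 hne
      · rw [card_insert_of_notMem hTB]
        have := hB.big
        rw [hcard] at this
        rw [h]
        have e : (B.card + 1) * k = B.card * k + k := by ring
        rw [e]
        omega
    · push Not at hc
      refine ⟨∅, by simp, by simp, by simp, by simp, ?_⟩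
      have h1 : V.card = ∑ c ∈ range p, (V.filter (fun t => t % p = c)).card := by
        apply Finset.card_eq_sum_card_fiberwise
        intro t _
        simpa using Nat.mod_lt t hp
      rw [h1]
      calc ∑ c ∈ range p, (V.filter (fun t => t % p = c)).card ≤ ∑ c ∈ range p, k :=
            Finset.sum_le_sum fun c hc' => (hc c hc').le
        _ = p * k := by rw [sum_const, card_range, smul_eq_mul]
        _ ≤ _ := by simp

/-- indicator that `m` lies in a member of the family -/
noncomputable def hitI (Fm : Finset (Finset ℕ)) (m : ℕ) : ℝ := if ∃ T ∈ Fm, m ∈ T then 1 else 0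

lemma hitI_nonneg (Fm : Finset (Finset ℕ)) (m : ℕ) : 0 ≤ hitI Fm m := by
  unfold hitI; split_ifs <;> norm_num

lemma hitI_le_one (Fm : Finset (Finset ℕ)) (m : ℕ) : hitI Fm m ≤ 1 := by
  unfold hitI; split_ifs <;> norm_num

lemma sum_mem_eq_hitI {Fm : Finset (Finset ℕ)}
    (hd : ∀ T ∈ Fm, ∀ T' ∈ Fm, T ≠ T' → Disjoint T T') (m : ℕ) :
    ∑ T ∈ Fm, (if m ∈ T then (1 : ℝ) else 0) = hitI Fm m := by
  unfold hitI
  split_ifs with h
  · obtain ⟨T, hT, hmT⟩ := h
    rw [Finset.sum_eq_single T]
    · rw [if_pos hmT]
    · intro T' hT' hne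
      rw [if_neg]
      intro hm'
      exact Finset.disjoint_left.1 (hd T' hT' T hT hne) hm' hmT
    · intro hT'; exact absurd hT hT'
  · apply Finset.sum_eq_zero
    intro T hT
    rw [if_neg]
    intro hm
    exact h ⟨T, hT, hm⟩

theorem greedy {ι : Type*} [DecidableEq ι] (P : Finset ι) (Fm : ι → Finset (Finset ℕ))
    (hd : ∀ p ∈ P, ∀ T ∈ Fm p, ∀ T' ∈ Fm p, T ≠ T' → Disjoint T T') (D : Finset ℕ) :
    ∃ ch : ι → Finset ℕ, (∀ p ∈ P, ch p ∈ Fm p ∨ ch p = ∅) ∧
      ((D.filter (fun m => ∀ p ∈ P, m ∉ ch p)).card : ℝ) ≤
        ∑ m ∈ D, ∏ p ∈ P, (1 - hitI (Fm p) m / (Fm p).card) := by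
  classical
  induction P using Finset.induction_on generalizing D with
  | empty => exact ⟨fun _ => ∅, by simp, by simp⟩
  | insert q P hq ih =>
    have hd' : ∀ p ∈ P, ∀ T ∈ Fm p, ∀ T' ∈ Fm p, T ≠ T' → Disjoint T T' :=
      fun p hp => hd p (mem_insert_of_mem hp)
    set W : ℕ → ℝ := fun m => ∏ p ∈ P, (1 - hitI (Fm p) m / (Fm p).card) with hW
    -- choose the block for `q`
    have hchoice : ∃ T : Finset ℕ, (T ∈ Fm q ∨ T = ∅) ∧
        ∑ m ∈ D \ T, W m ≤ ∑ m ∈ D, (1 - hitI (Fm q) m / (Fm q).card) * W m := by
      rcases (Fm q).eq_empty_or_nonempty with he | hne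
      · refine ⟨∅, Or.inr rfl, ?_⟩
        rw [sdiff_empty]
        apply le_of_eq
        apply Finset.sum_congr rfl
        intro m _
        have : hitI (Fm q) m = 0 := by unfold hitI; rw [if_neg]; simp [he]
        rw [this]; simp
      · have hc : (0 : ℝ) < (Fm q).card := by exact_mod_cast hne.card_pos
        have hex : ∃ T ∈ Fm q, ∑ m ∈ D \ T, W m ≤
            ∑ m ∈ D, (1 - hitI (Fm q) m / (Fm q).card) * W m := by
          apply Finset.exists_le_of_sum_le hne
          rw [Finset.sum_const, nsmul_eq_mul, Finset.mul_sum]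
          have e1 : ∀ T ∈ Fm q, ∑ m ∈ D \ T, W m =
              ∑ m ∈ D, (1 - (if m ∈ T then (1 : ℝ) else 0)) * W m := by
            intro T _
            rw [← Finset.sum_filter_add_sum_filter_not D (fun m => m ∈ T)
              (fun m => (1 - (if m ∈ T then (1 : ℝ) else 0)) * W m)]
            have e2 : ∑ m ∈ D.filter (fun m => m ∈ T), (1 - (if m ∈ T then (1 : ℝ) else 0)) * W m
                = 0 := by
              apply Finset.sum_eq_zero
              intro m hm
              rw [mem_filter] at hm
              rw [if_pos hm.2]; ring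
            rw [e2, zero_add]
            have e3 : D \ T = D.filter (fun m => m ∉ T) := by
              ext m; simp [mem_sdiff, mem_filter]
            rw [e3]
            apply Finset.sum_congr rfl
            intro m hm
            rw [mem_filter] at hm
            rw [if_neg hm.2]; ring
          rw [Finset.sum_congr rfl e1, Finset.sum_comm]
          apply le_of_eq
          apply Finset.sum_congr rfl
          intro m _
          rw [← Finset.sum_mul, Finset.sum_sub_distrib,
            sum_mem_eq_hitI (hd q (mem_insert_self _ _)) m, Finset.sum_const, nsmul_eq_mul]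
          field_simp
        obtain ⟨T, hT, hle⟩ := hex
        exact ⟨T, Or.inl hT, hle⟩
    obtain ⟨T, hT, hTle⟩ := hchoice
    obtain ⟨ch, hch, hle⟩ := ih hd' (D \ T)
    refine ⟨Function.update ch q T, ?_, ?_⟩
    · intro p hp
      rcases mem_insert.1 hp with h1 | h1
      · rw [h1, Function.update_self]; exact hT
      · rw [Function.update_of_ne (fun hc : p = q => hq (hc ▸ h1))]
        exact hch p h1
    · have e1 : D.filter (fun m => ∀ p ∈ insert q P, m ∉ Function.update ch q T p) =
          (D \ T).filter (fun m => ∀ p ∈ P, m ∉ ch p) := by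
        ext m
        simp only [mem_filter, mem_sdiff]
        constructor
        · rintro ⟨h1, h2⟩
          refine ⟨⟨h1, ?_⟩, ?_⟩
          · have := h2 q (mem_insert_self _ _)
            rwa [Function.update_self] at this
          · intro p hp
            have := h2 p (mem_insert_of_mem hp)
            rwa [Function.update_of_ne (fun hc : p = q => hq (hc ▸ hp))] at this
        · rintro ⟨⟨h1, h2⟩, h3⟩
          refine ⟨h1, ?_⟩
          intro p hp
          rcases mem_insert.1 hp with h4 | h4
          · rwa [h4, Function.update_self]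
          · rw [Function.update_of_ne (fun hc : p = q => hq (hc ▸ h4))]
            exact h3 p h4
      rw [e1]
      refine hle.trans (hTle.trans (le_of_eq ?_))
      apply Finset.sum_congr rfl
      intro m _
      rw [Finset.prod_insert hq]

theorem greedy_exp {ι : Type*} [DecidableEq ι] (P : Finset ι) (Fm : ι → Finset (Finset ℕ))
    (hd : ∀ p ∈ P, ∀ T ∈ Fm p, ∀ T' ∈ Fm p, T ≠ T' → Disjoint T T') (D : Finset ℕ) :
    ∃ ch : ι → Finset ℕ, (∀ p ∈ P, ch p ∈ Fm p ∨ ch p = ∅) ∧
      ((D.filter (fun m => ∀ p ∈ P, m ∉ ch p)).card : ℝ) ≤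
        ∑ m ∈ D, Real.exp (-∑ p ∈ P, hitI (Fm p) m / (Fm p).card) := by
  obtain ⟨ch, h1, h2⟩ := greedy P Fm hd D
  refine ⟨ch, h1, h2.trans ?_⟩
  apply Finset.sum_le_sum
  intro m _
  rw [← Finset.sum_neg_distrib, Real.exp_sum]
  apply Finset.prod_le_prod
  · intro p _
    rw [sub_nonneg]
    unfold hitI
    split_ifs with h
    · obtain ⟨T, hT, _⟩ := h
      have : (1 : ℝ) ≤ (Fm p).card := by
        exact_mod_cast Finset.card_pos.2 ⟨T, hT⟩
      rw [div_le_one (by linarith)]; exact this
    · simp
  · intro p _
    have := Real.add_one_le_exp (-(hitI (Fm p) m / (Fm p).card))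
    linarith

end Pool.Agent.Helper48.Cov
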