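import Pool.Agent.Helper44.BrunHooley
import Pool.Agent.Helper44.MertensProd

/-!
# Primes in a residue class: a crude upper bound by the pure Brun sieve
-/

set_option autoImplicit false

namespace Pool.Agent.Helper48.Cov

open Finset Pool.Agent.Helper44

lemma card_modEq_near (X m v : ℕ) (hm : 0 < m) :
    |(((Finset.Ioc 0 X).filter (fun n => n ≡ v [MOD m])).card : ℝ) - (X : ℝ) / m| ≤ 1 := by
  have h := Nat.Ioc_filter_modEq_card 0 X hm v
  have hm' : (0 : ℚ) < m := by exact_mod_cast hm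
  set a : ℤ := ⌊((X : ℚ) - v) / m⌋ with ha
  set b : ℤ := ⌊(((0 : ℕ) : ℚ) - v) / m⌋ with hb
  have hb2 : ((((0 : ℕ) : ℚ) - v) / m) < b + 1 := Int.lt_floor_add_one _
  have hb1 : (b : ℚ) ≤ (((0 : ℕ) : ℚ) - v) / m := Int.floor_le _
  have ha2 : (((X : ℚ) - v) / m) < a + 1 := Int.lt_floor_add_one _
  have ha1 : (a : ℚ) ≤ ((X : ℚ) - v) / m := Int.floor_le _
  have hab : b ≤ a := by
    apply Int.floor_le_floor
    apply div_le_div_of_nonneg_right _ hm'.le
    have : (0 : ℚ) ≤ X := by positivity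
    push_cast
    linarith
  rw [max_eq_left (by linarith)] at h
  have e : (((Finset.Ioc 0 X).filter (fun n => n ≡ v [MOD m])).card : ℚ) = (a : ℚ) - b := by
    exact_mod_cast h
  have key : ((X : ℚ) - v) / m - (((0 : ℕ) : ℚ) - v) / m = (X : ℚ) / m := by
    push_cast
    field_simp
    ring
  have h1 : |(((Finset.Ioc 0 X).filter (fun n => n ≡ v [MOD m])).card : ℚ) - (X : ℚ) / m| ≤ 1 := by
    rw [e, abs_le]
    constructor <;> linarith
  have h2 := (Rat.cast_le (K := ℝ)).2 h1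
  push_cast at h2
  exact h2

lemma card_class_dvd (X r : ℕ) (E I : Finset ℕ) (hE : ∀ q ∈ E, q.Prime) (hI : ∀ q ∈ I, q.Prime)
    (hd : Disjoint E I) :
    |(((Finset.Ioc 0 X).filter (fun n => n % (∏ ℓ ∈ E, ℓ) = r % (∏ ℓ ∈ E, ℓ))).filter
      (fun n => ∀ q ∈ I, q ∣ n)).card - (X : ℝ) / (∏ ℓ ∈ E, (ℓ : ℝ)) * ∏ q ∈ I, ((1 : ℝ) / q)| ≤
      1 := by
  set e := ∏ ℓ ∈ E, ℓ with he
  set d := ∏ ℓ ∈ I, ℓ with hdd
  have he0 : 0 < e := Finset.prod_pos fun q hq => (hE q hq).pos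
  have hd0 : 0 < d := Finset.prod_pos fun q hq => (hI q hq).pos
  have hcop : e.Coprime d := by
    apply Nat.Coprime.prod_left
    intro q hq
    apply Nat.Coprime.prod_right
    intro q' hq'
    rw [Nat.coprime_primes (hE q hq) (hI q' hq')]
    rintro rfl
    exact Finset.disjoint_left.1 hd hq hq'
  obtain ⟨v, hv1, hv2⟩ := Nat.chineseRemainder hcop r 0
  have hset : ((Finset.Ioc 0 X).filter (fun n => n % e = r % e)).filter (fun n => ∀ q ∈ I, q ∣ n) =
      (Finset.Ioc 0 X).filter (fun n => n ≡ v [MOD e * d]) := by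
    ext n
    rw [mem_filter, mem_filter, mem_filter]
    have h1 : (∀ q ∈ I, q ∣ n) ↔ n ≡ 0 [MOD d] := by
      rw [Nat.modEq_zero_iff_dvd]
      constructor
      · intro h
        apply Finset.prod_primes_dvd
        · intro q hq; exact (hI q hq).prime
        · exact h
      · intro h q hq
        exact (Finset.dvd_prod_of_mem _ hq).trans h
    rw [h1, ← Nat.modEq_and_modEq_iff_modEq_mul hcop]
    constructor
    · rintro ⟨⟨h2, h3⟩, h4⟩
      refine ⟨h2, ?_, ?_⟩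
      · exact (show n ≡ r [MOD e] from h3).trans hv1.symm
      · exact h4.trans hv2.symm
    · rintro ⟨h2, h3, h4⟩
      refine ⟨⟨h2, ?_⟩, ?_⟩
      · exact h3.trans hv1
      · exact h4.trans hv2
  rw [hset]
  have h := card_modEq_near X (e * d) v (Nat.mul_pos he0 hd0)
  have e1 : (X : ℝ) / (∏ ℓ ∈ E, (ℓ : ℝ)) * ∏ q ∈ I, ((1 : ℝ) / q) = (X : ℝ) / ((e * d : ℕ) : ℝ) := by
    rw [Finset.prod_div_distrib, Finset.prod_const_one]
    simp only [he, hdd]
    push_cast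
    have : (0 : ℝ) < ∏ ℓ ∈ E, (ℓ : ℝ) := Finset.prod_pos fun q hq => by
      exact_mod_cast (hE q hq).pos
    have : (0 : ℝ) < ∏ ℓ ∈ I, (ℓ : ℝ) := Finset.prod_pos fun q hq => by
      exact_mod_cast (hI q hq).pos
    field_simp
  rw [e1]
  exact h

/-- the sieve bound with explicit parameters -/
lemma sieve_class (X r : ℕ) (E : Finset ℕ) (hE : ∀ q ∈ E, q.Prime) (z : ℝ) (hz : 2 ≤ z)
    (m : ℕ) (hm : Even m) :
    (((Finset.Ioc 0 X).filter (fun p => p.Prime ∧ p % (∏ ℓ ∈ E, ℓ) = r % (∏ ℓ ∈ E, ℓ))).card : ℝ) ≤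
      (X : ℝ) / (∏ ℓ ∈ E, (ℓ : ℝ)) * (2 ^ E.card * ∏ q ∈ primesUpTo z, (1 - (1 : ℝ) / q) +
        (∑ q ∈ primesUpTo z, (1 : ℝ) / q) ^ (m + 1) / (m + 1).factorial) +
      z ^ (m + 1) + z := by
  classical
  have hz0 : 0 ≤ z := by linarith
  set e := ∏ ℓ ∈ E, ℓ with he
  set B := primesUpTo z \ E with hB
  have hBp : ∀ q ∈ B, q.Prime := fun q hq => ((mem_primesUpTo hz0).1 (mem_sdiff.1 hq).1).1
  have hdisj : Disjoint E B := Finset.disjoint_sdiff
  set Ω := (Finset.Ioc 0 X).filter (fun n => n % e = r % e) with hΩ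
  have hcard1 : (B.card : ℝ) + 1 ≤ z := by
    have h1 : B.card + 1 ≤ ⌊z⌋₊ := by
      have h2 : B ⊆ Finset.Ioc 1 ⌊z⌋₊ := by
        intro q hq
        have h3 := (mem_sdiff.1 hq).1
        unfold primesUpTo at h3
        rw [mem_filter, mem_Ioc] at h3
        rw [mem_Ioc]
        exact ⟨h3.2.one_lt, h3.1.2⟩
      have h3 := Finset.card_le_card h2
      rw [Nat.card_Ioc] at h3
      have h4 : 2 ≤ ⌊z⌋₊ := Nat.le_floor (by exact_mod_cast hz)
      omega
    calc (B.card : ℝ) + 1 = ((B.card + 1 : ℕ) : ℝ) := by push_cast; ring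
      _ ≤ (⌊z⌋₊ : ℝ) := by exact_mod_cast h1
      _ ≤ z := Nat.floor_le hz0
  have hbr := (brun_hooley_raw (t := 1) Ω (fun (q : ℕ) (n : ℕ) => q ∣ n) (fun _ => B)
    (fun i j hij => absurd (Subsingleton.elim i j) hij) (fun q => (1 : ℝ) / q)
    ((X : ℝ) / (∏ ℓ ∈ E, (ℓ : ℝ))) 1 (by norm_num) (by
      intro I hI
      rw [evCount_eq]
      apply card_class_dvd X r E I hE
      · intro q hq
        have h1 := hI hq
        rw [mem_biUnion] at h1
        obtain ⟨_, _, h1⟩ := h1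
        exact hBp q h1
      · apply Finset.disjoint_of_subset_right _ hdisj
        intro q hq
        have h1 := hI hq
        rw [mem_biUnion] at h1
        obtain ⟨_, _, h1⟩ := h1
        exact h1) (fun _ => m) (fun _ => hm)).1
  simp only [Finset.univ_unique, Finset.prod_singleton, one_mul] at hbr
  rw [evCount_eq] at hbr
  -- the primes
  have hsub : (Finset.Ioc 0 X).filter (fun p => p.Prime ∧ p % e = r % e) ⊆
      Ω.filter (fun n => ∀ j : Fin 1, ∀ q ∈ B, ¬ q ∣ n) ∪ primesUpTo z := by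
    intro p hp
    rw [mem_filter] at hp
    rw [mem_union, mem_filter]
    by_cases hpz : (p : ℝ) ≤ z
    · right
      rw [mem_primesUpTo hz0]
      exact ⟨hp.2.1, hpz⟩
    · left
      rw [hΩ, mem_filter]
      refine ⟨⟨hp.1, hp.2.2⟩, ?_⟩
      intro _ q hq hdvd
      have h1 := (Nat.prime_dvd_prime_iff_eq (hBp q hq) hp.2.1).1 hdvd
      have h2 := ((mem_primesUpTo hz0).1 (mem_sdiff.1 hq).1).2
      rw [h1] at h2
      exact hpz h2
  have h1 : (((Finset.Ioc 0 X).filter (fun p => p.Prime ∧ p % e = r % e)).card : ℝ) ≤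
      ((Ω.filter (fun n => ∀ j : Fin 1, ∀ q ∈ B, ¬ q ∣ n)).card : ℝ) + (primesUpTo z).card := by
    exact_mod_cast (Finset.card_le_card hsub).trans (Finset.card_union_le _ _)
  have h2 : ((primesUpTo z).card : ℝ) ≤ z := by
    have h3 : (primesUpTo z).card ≤ ⌊z⌋₊ := by
      unfold primesUpTo
      refine (Finset.card_filter_le _ _).trans ?_
      rw [Nat.card_Ioc]; omega
    calc ((primesUpTo z).card : ℝ) ≤ ⌊z⌋₊ := by exact_mod_cast h3
      _ ≤ z := Nat.floor_le hz0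
  have hx01 : ∀ q ∈ B, 0 ≤ (1 : ℝ) / q ∧ (1 : ℝ) / q ≤ 1 := by
    intro q hq
    have h3 : (1 : ℝ) ≤ q := by exact_mod_cast (hBp q hq).one_lt.le
    exact ⟨by positivity, by rw [div_le_one (by linarith)]; exact h3⟩
  have h3 := tr_even_le B (fun q => (1 : ℝ) / q) hx01 m hm
  have h4 := es_le_pow_div_factorial B (fun q => (1 : ℝ) / q) (fun q hq => (hx01 q hq).1) (m + 1)
  have h5 : ∏ q ∈ B, (1 - (1 : ℝ) / q) ≤ 2 ^ E.card * ∏ q ∈ primesUpTo z, (1 - (1 : ℝ) / q) := by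
    have e1 : ∏ q ∈ primesUpTo z, (1 - (1 : ℝ) / q) =
        (∏ q ∈ primesUpTo z ∩ E, (1 - (1 : ℝ) / q)) * ∏ q ∈ B, (1 - (1 : ℝ) / q) := by
      rw [hB, ← Finset.prod_union]
      · congr 1
        ext q
        simp only [mem_union, mem_inter, mem_sdiff]
        tauto
      · rw [Finset.disjoint_left]
        intro q h6 h7
        rw [mem_inter] at h6
        rw [mem_sdiff] at h7
        exact h7.2 h6.2
    have h6 : (1 / 2 : ℝ) ^ E.card ≤ ∏ q ∈ primesUpTo z ∩ E, (1 - (1 : ℝ) / q) := by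
      calc (1 / 2 : ℝ) ^ E.card ≤ (1 / 2 : ℝ) ^ (primesUpTo z ∩ E).card := by
            apply pow_le_pow_of_le_one (by norm_num) (by norm_num)
            exact Finset.card_le_card Finset.inter_subset_right
        _ = ∏ q ∈ primesUpTo z ∩ E, (1 / 2 : ℝ) := by rw [Finset.prod_const]
        _ ≤ _ := by
            apply Finset.prod_le_prod
            · intro _ _; norm_num
            · intro q hq
              have h7 := (hE q (mem_inter.1 hq).2).two_le
              have h8 : (2 : ℝ) ≤ q := by exact_mod_cast h7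
              have h9 : (1 : ℝ) / q ≤ 1 / 2 := by
                rw [div_le_div_iff₀ (by linarith) (by norm_num)]; linarith
              linarith
    have h7 : 0 ≤ ∏ q ∈ B, (1 - (1 : ℝ) / q) := Finset.prod_nonneg fun q hq => by
      linarith [(hx01 q hq).2]
    rw [e1]
    have h8 : (2 : ℝ) ^ E.card * (1 / 2 : ℝ) ^ E.card = 1 := by
      rw [← mul_pow]; norm_num
    have h9 : (1 : ℝ) ≤ 2 ^ E.card * ∏ q ∈ primesUpTo z ∩ E, (1 - (1 : ℝ) / q) := by
      calc (1 : ℝ) = 2 ^ E.card * (1 / 2 : ℝ) ^ E.card := h8.symm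
        _ ≤ _ := mul_le_mul_of_nonneg_left h6 (by positivity)
    calc ∏ q ∈ B, (1 - (1 : ℝ) / q) = 1 * ∏ q ∈ B, (1 - (1 : ℝ) / q) := by rw [one_mul]
      _ ≤ (2 ^ E.card * ∏ q ∈ primesUpTo z ∩ E, (1 - (1 : ℝ) / q)) *
          ∏ q ∈ B, (1 - (1 : ℝ) / q) := by gcongr
      _ = _ := by ring
  have h6 : (∑ q ∈ B, (1 : ℝ) / q) ^ (m + 1) / (m + 1).factorial ≤
      (∑ q ∈ primesUpTo z, (1 : ℝ) / q) ^ (m + 1) / (m + 1).factorial := by
    apply div_le_div_of_nonneg_right _ (by positivity)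
    apply pow_le_pow_left₀ (Finset.sum_nonneg fun q hq => (hx01 q hq).1)
    apply Finset.sum_le_sum_of_subset_of_nonneg Finset.sdiff_subset
    intro q _ _
    positivity
  have h7 : (X : ℝ) / (∏ ℓ ∈ E, (ℓ : ℝ)) * tr B m (fun q => (1 : ℝ) / q) ≤
      (X : ℝ) / (∏ ℓ ∈ E, (ℓ : ℝ)) * (2 ^ E.card * ∏ q ∈ primesUpTo z, (1 - (1 : ℝ) / q) +
        (∑ q ∈ primesUpTo z, (1 : ℝ) / q) ^ (m + 1) / (m + 1).factorial) := by
    apply mul_le_mul_of_nonneg_left _ (by positivity)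
    linarith
  have h8 : ((B.card : ℝ) + 1) ^ (m + 1) ≤ z ^ (m + 1) := by
    apply pow_le_pow_left₀ (by positivity) hcard1
  linarith

lemma pow_div_factorial_le_exp_neg {S : ℝ} (hS : 0 ≤ S) (n : ℕ) (hn : 8 * S ≤ n) :
    S ^ n / (n.factorial : ℝ) ≤ Real.exp (-n) := by
  rcases Nat.eq_zero_or_pos n with h0 | h0
  · subst h0; simp
  have hn0 : (0 : ℝ) < n := by exact_mod_cast h0
  have hfac : (0 : ℝ) < n.factorial := by exact_mod_cast n.factorial_pos
  -- `n! ≥ (n/e)^n`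
  have h1 : (n : ℝ) ^ n / n.factorial ≤ Real.exp n := Real.pow_div_factorial_le_exp _ hn0.le n
  have h2 : (n : ℝ) ^ n ≤ Real.exp n * n.factorial := by
    rwa [div_le_iff₀ hfac] at h1
  have he : Real.exp 2 ≤ 8 := by
    have h3 := Real.exp_one_lt_d9
    have h4 : Real.exp 2 = Real.exp 1 * Real.exp 1 := by rw [← Real.exp_add]; norm_num
    rw [h4]
    nlinarith [Real.exp_pos 1]
  have h3 : S * Real.exp 2 ≤ n := by nlinarith
  have h4 : S ^ n * Real.exp (2 * n) ≤ (n : ℝ) ^ n := by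
    have e1 : Real.exp (2 * n) = Real.exp 2 ^ n := by
      rw [← Real.exp_nat_mul]; ring_nf
    rw [e1, ← mul_pow]
    apply pow_le_pow_left₀ (by positivity) h3
  rw [div_le_iff₀ hfac]
  have h5 : S ^ n * Real.exp (2 * n) ≤ Real.exp n * n.factorial := h4.trans h2
  have e2 : Real.exp (2 * (n : ℝ)) = Real.exp n * Real.exp n := by rw [← Real.exp_add]; ring_nf
  rw [e2] at h5
  have h6 : S ^ n * Real.exp n ≤ n.factorial := by
    have := Real.exp_pos (n : ℝ)
    have h7 : (S ^ n * Real.exp n) * Real.exp n ≤ (n.factorial : ℝ) * Real.exp n := by linarith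
    exact le_of_mul_le_mul_right h7 this
  rw [Real.exp_neg, inv_mul_eq_div, le_div_iff₀ (Real.exp_pos _)]
  exact h6

/-- Crude bound for primes in a residue class. -/
theorem prime_class : ∃ C : ℝ, 0 < C ∧ ∃ X0 : ℕ, ∀ X : ℕ, X0 ≤ X →
    ∀ E : Finset ℕ, (∀ q ∈ E, q.Prime) → ∀ r : ℕ,
    (((Finset.Ioc 0 X).filter (fun p => p.Prime ∧ p % (∏ ℓ ∈ E, ℓ) = r)).card : ℝ) ≤
      (C * (Real.log (Real.log X)) ^ 2 * X / Real.log X) * 2 ^ E.card / ∏ ℓ ∈ E, (ℓ : ℝ) +
      (X : ℝ) ^ (1 / 2 : ℝ) := by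
  obtain ⟨c1, C1, hc1, hC1, hM⟩ := mertens_prod
  obtain ⟨C2, hC2, hS⟩ := sum_primesUpTo_bounds
  -- asymptotic conditions
  have hL : Filter.Tendsto (fun X : ℕ => Real.log (Real.log X)) Filter.atTop Filter.atTop :=
    (Real.tendsto_log_atTop.comp Real.tendsto_log_atTop).comp tendsto_natCast_atTop_atTop
  have hev1 : ∀ᶠ X : ℕ in Filter.atTop, max 10 (100 * (C2 + 1)) ≤ Real.log (Real.log X) :=
    hL.eventually_ge_atTop _
  have hev3 : ∀ᶠ t : ℝ in Filter.atTop, t ^ 2 * 4 ≤ Real.exp t := by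
    have := Real.tendsto_exp_div_pow_atTop 2
    filter_upwards [this.eventually_ge_atTop 4, Filter.eventually_gt_atTop 0] with t ht ht0
    rw [le_div_iff₀ (by positivity)] at ht
    linarith
  have hev4 := hL.eventually hev3
  obtain ⟨X0, hX0⟩ := Filter.eventually_atTop.1 (hev1.and (hev4.and (Filter.eventually_ge_atTop 16)))
  refine ⟨C1 + 1, by linarith, X0, ?_⟩
  intro X hX E hE r
  obtain ⟨h1, h2, h16⟩ := hX0 X hX
  set L1 := Real.log X with hL1
  set L2 := Real.log L1 with hL2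
  have h10 : 10 ≤ L2 := le_trans (le_max_left _ _) h1
  have h100 : 100 * (C2 + 1) ≤ L2 := le_trans (le_max_right _ _) h1
  have hX0' : (0 : ℝ) < X := by
    have : 0 < X := by omega
    exact_mod_cast this
  have hX16 : (16 : ℝ) ≤ X := by exact_mod_cast h16
  have hL1pos : 0 < L1 := Real.log_pos (by linarith)
  have hexpL2 : Real.exp L2 = L1 := Real.exp_log hL1pos
  have hL1big : L2 ^ 2 * 4 ≤ L1 := by rw [← hexpL2]; exact h2
  set z := Real.exp (L1 / L2 ^ 2) with hz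
  have hlogz : Real.log z = L1 / L2 ^ 2 := Real.log_exp _
  have hz4 : 4 ≤ L1 / L2 ^ 2 := by
    rw [le_div_iff₀ (by positivity)]; linarith
  have hz2 : 2 ≤ z := by
    have := Real.add_one_le_exp (L1 / L2 ^ 2)
    linarith
  -- the sum of reciprocals
  set S := ∑ q ∈ primesUpTo z, (1 : ℝ) / q with hSdef
  have hS0 : 0 ≤ S := Finset.sum_nonneg fun q _ => by positivity
  have hSle : S ≤ L2 + C2 := by
    have h3 := abs_le.1 (hS z hz2)
    have h4 : Real.log (Real.log z) ≤ L2 := by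
      rw [hlogz]
      apply Real.log_le_log (by positivity)
      rw [div_le_iff₀ (by positivity)]
      exact le_mul_of_one_le_right hL1pos.le (by nlinarith)
    linarith [h3.2]
  set m : ℕ := 2 * ⌈4 * (L2 + C2)⌉₊ with hm
  have hmE : Even m := even_two_mul _
  have hm1 : 8 * (L2 + C2) ≤ m := by
    rw [hm]
    push_cast
    have := Nat.le_ceil (4 * (L2 + C2))
    linarith
  have hm2 : (m : ℝ) ≤ 8 * (L2 + C2) + 2 := by
    rw [hm]
    push_cast
    have := Nat.ceil_lt_add_one (show 0 ≤ 4 * (L2 + C2) by positivity)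
    linarith
  have hsv := sieve_class X r E hE z hz2 m hmE
  have hpow : S ^ (m + 1) / ((m + 1).factorial : ℝ) ≤ 1 / L1 := by
    have h3 := pow_div_factorial_le_exp_neg hS0 (m + 1) (by push_cast; linarith)
    refine h3.trans ?_
    rw [one_div, ← hexpL2, ← Real.exp_neg]
    apply Real.exp_le_exp.2
    push_cast
    linarith
  have hMz := (hM z hz2).2
  rw [hlogz] at hMz
  have hMz' : ∏ q ∈ primesUpTo z, (1 - (1 : ℝ) / q) ≤ C1 * L2 ^ 2 / L1 := by
    refine hMz.trans (le_of_eq ?_)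
    field_simp
  have hzm : z ^ (m + 1) + z ≤ (X : ℝ) ^ (1 / 2 : ℝ) := by
    have e1 : z ^ (m + 1) = Real.exp ((m + 1) * (L1 / L2 ^ 2)) := by
      rw [hz, ← Real.exp_nat_mul]; push_cast; ring_nf
    have h3 : z ≤ z ^ (m + 1) := by
      calc z = z ^ 1 := (pow_one z).symm
        _ ≤ z ^ (m + 1) := pow_le_pow_right₀ (by linarith) (by omega)
    have h4 : z ^ (m + 1) + z ≤ z * z ^ (m + 1) := by nlinarith [pow_pos (by linarith : 0 < z) (m + 1)]
    refine h4.trans ?_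
    rw [e1, hz, ← Real.exp_add, Real.rpow_def_of_pos hX0']
    apply Real.exp_le_exp.2
    have h5 : (L1 / L2 ^ 2 + ((m : ℝ) + 1) * (L1 / L2 ^ 2)) = L1 * ((m + 2) / L2 ^ 2) := by ring
    rw [h5]
    apply mul_le_mul_of_nonneg_left _ hL1pos.le
    rw [div_le_iff₀ (by positivity)]
    nlinarith
  have hEpos : (0 : ℝ) < ∏ ℓ ∈ E, (ℓ : ℝ) := Finset.prod_pos fun q hq => by
    exact_mod_cast (hE q hq).pos
  have hsub : (Finset.Ioc 0 X).filter (fun p => p.Prime ∧ p % (∏ ℓ ∈ E, ℓ) = r) ⊆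
      (Finset.Ioc 0 X).filter (fun p => p.Prime ∧ p % (∏ ℓ ∈ E, ℓ) = r % (∏ ℓ ∈ E, ℓ)) := by
    intro p hp
    rw [mem_filter] at hp ⊢
    refine ⟨hp.1, hp.2.1, ?_⟩
    rw [← hp.2.2, Nat.mod_mod]
  have h3 : (((Finset.Ioc 0 X).filter (fun p => p.Prime ∧ p % (∏ ℓ ∈ E, ℓ) = r)).card : ℝ) ≤
      (((Finset.Ioc 0 X).filter
        (fun p => p.Prime ∧ p % (∏ ℓ ∈ E, ℓ) = r % (∏ ℓ ∈ E, ℓ))).card : ℝ) := by
    exact_mod_cast Finset.card_le_card hsub
  have h2E : (1 : ℝ) ≤ 2 ^ E.card := one_le_pow₀ (by norm_num)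
  have h4 : (X : ℝ) / (∏ ℓ ∈ E, (ℓ : ℝ)) * (2 ^ E.card * ∏ q ∈ primesUpTo z, (1 - (1 : ℝ) / q) +
        S ^ (m + 1) / (m + 1).factorial) ≤
      ((C1 + 1) * L2 ^ 2 * X / L1) * 2 ^ E.card / ∏ ℓ ∈ E, (ℓ : ℝ) := by
    calc (X : ℝ) / (∏ ℓ ∈ E, (ℓ : ℝ)) * (2 ^ E.card * ∏ q ∈ primesUpTo z, (1 - (1 : ℝ) / q) +
        S ^ (m + 1) / (m + 1).factorial)
        ≤ (X : ℝ) / (∏ ℓ ∈ E, (ℓ : ℝ)) * (2 ^ E.card * (C1 * L2 ^ 2 / L1) +
          2 ^ E.card * (L2 ^ 2 / L1)) := by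
          have h5 : S ^ (m + 1) / ((m + 1).factorial : ℝ) ≤ 2 ^ E.card * (L2 ^ 2 / L1) := by
            calc S ^ (m + 1) / ((m + 1).factorial : ℝ) ≤ 1 / L1 := hpow
              _ ≤ L2 ^ 2 / L1 := by
                  apply div_le_div_of_nonneg_right _ hL1pos.le
                  nlinarith
              _ ≤ 2 ^ E.card * (L2 ^ 2 / L1) := le_mul_of_one_le_left (by positivity) h2E
          gcongr
      _ = _ := by
          field_simp
  linarith

end Pool.Agent.Helper48.Cov
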