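import Pool.Agent.Helper48.CovScale2

/-!
# Combining the scales
-/

set_option autoImplicit false

namespace Pool.Agent.Helper48.Cov

open Finset

/-- elements of `V0` avoiding all classes of the list -/
def DD (V0 : Finset ℕ) (l : List ℕ) (a : ℕ → ℕ) : Finset ℕ := V0.filter (fun m => Avoid l {m} a)

lemma Av_card_DD (V0 : Finset ℕ) {l : List ℕ} (hl : ∀ ℓ ∈ l, 0 < ℓ) (hnd : l.Nodup) (a : ℕ → ℕ) :
    Av l (fun b => ((DD V0 l b).card : ℝ)) a = V0.card * sg l 1 := by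
  have h1 : ∀ b, ((DD V0 l b).card : ℝ) = ∑ m ∈ V0, ind l {m} b := by
    intro b
    unfold DD ind
    rw [← Finset.sum_filter, Finset.sum_const, nsmul_eq_mul, mul_one]
  rw [Av_congr h1, Av_sum]
  rw [Finset.sum_congr rfl (fun m _ => Av_ind hl hnd {m} a)]
  rw [Finset.sum_congr rfl (fun m _ => pr_singleton _ m)]
  rw [Finset.sum_const, nsmul_eq_mul]

lemma exp_neg_le {F c : ℝ} (hc : 0 < c) (Y : ℝ) (hY : c - F ≤ Y) (hF : 0 ≤ F) (hY0 : 0 ≤ Y) :
    Real.exp (-F) ≤ Real.exp (-(c / 2)) + (2 / c) * Y := by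
  by_cases h : Y ≤ c / 2
  · have h1 : c / 2 ≤ F := by linarith
    have h2 : Real.exp (-F) ≤ Real.exp (-(c / 2)) := Real.exp_le_exp.2 (by linarith)
    have : 0 ≤ (2 / c) * Y := by positivity
    linarith
  · push Not at h
    have h1 : Real.exp (-F) ≤ 1 := by
      rw [Real.exp_le_one_iff]; linarith
    have h2 : 1 ≤ (2 / c) * Y := by
      rw [div_mul_eq_mul_div, le_div_iff₀ hc]; linarith
    have := Real.exp_pos (-(c / 2))
    linarith

theorem combine (V0 : Finset ℕ) (l : List ℕ) (I : Finset ℕ) (Sc : ℕ → Scale)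
    (hV : ∀ i ∈ I, (Sc i).V0 = V0) (hl : ∀ i ∈ I, (Sc i).l1 ++ (Sc i).l2 = l)
    (hI : I.Nonempty) (hV0 : 0 < V0.card) (hP : ∀ i ∈ I, 0 < (Sc i).P.card) {ε : ℝ} (a : ℕ → ℕ)
    (h : ∀ i ∈ I, Av l (fun c => ∑ m ∈ (Sc i).D c, max ((Sc i).cbar - (Sc i).F m c) 0) a ≤
      3 * ε * ((Sc i).cbar * (Sc i).Db)) :
    Av l (fun c => ∑ m ∈ DD V0 l c, Real.exp (-∑ i ∈ I, (Sc i).F m c)) a ≤
      (Real.exp (-((∑ i ∈ I, (Sc i).cbar) / 2)) + 6 * ε) * (V0.card * sg l 1) := by
  have hD : ∀ i ∈ I, ∀ c, (Sc i).D c = DD V0 l c := by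
    intro i hi c
    unfold Scale.D DD
    rw [hV i hi, hl i hi]
  have hDb : ∀ i ∈ I, (Sc i).Db = V0.card * sg l 1 := by
    intro i hi
    unfold Scale.Db Scale.Mb sg
    rw [hV i hi, ← hl i hi, List.map_append, List.prod_append]
    ring
  have hlpos : ∀ ℓ ∈ l, 0 < ℓ := by
    obtain ⟨i, hi⟩ := hI
    rw [← hl i hi]
    exact (Sc i).hpos
  have hlnd : l.Nodup := by
    obtain ⟨i, hi⟩ := hI
    rw [← hl i hi]
    exact (Sc i).hnd
  have hDbpos : ∀ i ∈ I, 0 < (Sc i).Db := fun i hi => (Sc i).Db_pos (by rw [hV i hi]; exact hV0)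
  have hcb : ∀ i ∈ I, 0 < (Sc i).cbar := by
    intro i hi
    unfold Scale.cbar
    have h1 := hDbpos i hi
    have h2 := (Sc i).k_pos
    have h3 : (0 : ℝ) < (Sc i).P.card := by exact_mod_cast hP i hi
    positivity
  set c := ∑ i ∈ I, (Sc i).cbar with hc
  have hcpos : 0 < c := Finset.sum_pos hcb hI
  have hF0 : ∀ i ∈ I, ∀ m b, 0 ≤ (Sc i).F m b := by
    intro i _ m b
    unfold Scale.F
    exact Finset.sum_nonneg fun p _ => div_nonneg (hitI_nonneg _ _) (by positivity)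
  have hpw : ∀ b, ∑ m ∈ DD V0 l b, Real.exp (-∑ i ∈ I, (Sc i).F m b) ≤
      Real.exp (-(c / 2)) * ((DD V0 l b).card : ℝ) +
        (2 / c) * ∑ i ∈ I, ∑ m ∈ (Sc i).D b, max ((Sc i).cbar - (Sc i).F m b) 0 := by
    intro b
    have e1 : ∑ i ∈ I, ∑ m ∈ (Sc i).D b, max ((Sc i).cbar - (Sc i).F m b) 0 =
        ∑ m ∈ DD V0 l b, ∑ i ∈ I, max ((Sc i).cbar - (Sc i).F m b) 0 := by
      rw [Finset.sum_comm]
      exact Finset.sum_congr rfl fun i hi => by rw [hD i hi]
    rw [e1, mul_comm (Real.exp (-(c / 2))), ← nsmul_eq_mul, ← Finset.sum_const, Finset.mul_sum,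
      ← Finset.sum_add_distrib]
    apply Finset.sum_le_sum
    intro m _
    apply exp_neg_le hcpos
    · rw [hc, ← Finset.sum_sub_distrib]
      exact Finset.sum_le_sum fun i _ => le_max_left _ _
    · exact Finset.sum_nonneg fun i hi => hF0 i hi m b
    · exact Finset.sum_nonneg fun i _ => le_max_right _ _
  refine (Av_mono hpw a).trans ?_
  rw [Av_add, Av_smul, Av_smul, Av_sum, Av_card_DD V0 hlpos hlnd]
  have h1 : ∑ i ∈ I, Av l (fun b => ∑ m ∈ (Sc i).D b, max ((Sc i).cbar - (Sc i).F m b) 0) a ≤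
      3 * ε * (c * (V0.card * sg l 1)) := by
    refine (Finset.sum_le_sum h).trans (le_of_eq ?_)
    rw [hc, Finset.sum_mul, Finset.mul_sum]
    exact Finset.sum_congr rfl fun i hi => by rw [hDb i hi]
  calc Real.exp (-(c / 2)) * (V0.card * sg l 1) + (2 / c) *
        ∑ i ∈ I, Av l (fun b => ∑ m ∈ (Sc i).D b, max ((Sc i).cbar - (Sc i).F m b) 0) a
      ≤ Real.exp (-(c / 2)) * (V0.card * sg l 1) + (2 / c) * (3 * ε * (c * (V0.card * sg l 1))) := by
        gcongr
    _ = _ := by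
        field_simp
        ring

/-! ### Elements covered at most once by the random classes -/

/-- `m` lies in at most one of the classes -/
def AtMost1 (l : List ℕ) (m : ℕ) (a : ℕ → ℕ) : Prop :=
  (l.filter (fun ℓ => m % ℓ = a ℓ)).length ≤ 1

instance (l : List ℕ) (m : ℕ) (a : ℕ → ℕ) : Decidable (AtMost1 l m a) := by
  unfold AtMost1; infer_instance

noncomputable def am1 (l : List ℕ) (m : ℕ) (a : ℕ → ℕ) : ℝ := if AtMost1 l m a then 1 else 0

lemma am1_nonneg (l : List ℕ) (m : ℕ) (a : ℕ → ℕ) : 0 ≤ am1 l m a := by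
  unfold am1; split_ifs <;> norm_num

lemma am1_cons (ℓ : ℕ) (l : List ℕ) (m : ℕ) (a : ℕ → ℕ) :
    am1 (ℓ :: l) m a = (1 - ind [ℓ] {m} a) * ind l {m} a + ind [ℓ] {m} a * am1 l m a := by
  have h0 : Avoid l {m} a ↔ (l.filter (fun ℓ => m % ℓ = a ℓ)).length = 0 := by
    unfold Avoid
    rw [List.length_eq_zero_iff, List.filter_eq_nil_iff]
    simp only [mem_singleton, forall_eq, decide_eq_true_eq]
  have h1 : Avoid [ℓ] {m} a ↔ m % ℓ ≠ a ℓ := by
    unfold Avoid
    simp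
  unfold am1 ind
  by_cases h : m % ℓ = a ℓ
  · have h2 : ¬ Avoid [ℓ] {m} a := by rw [h1]; exact fun hc => hc h
    rw [if_neg h2]
    have e : ((ℓ :: l).filter (fun ℓ => m % ℓ = a ℓ)).length =
        (l.filter (fun ℓ => m % ℓ = a ℓ)).length + 1 := by
      rw [List.filter_cons_of_pos (by simpa using h), List.length_cons]
    by_cases h3 : (l.filter (fun ℓ => m % ℓ = a ℓ)).length = 0
    · have h4 : AtMost1 (ℓ :: l) m a := by unfold AtMost1; rw [e]; omega
      rw [if_pos (h0.2 h3), if_pos h4]; ring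
    · have h4 : ¬ AtMost1 (ℓ :: l) m a := by unfold AtMost1; rw [e]; omega
      rw [if_neg (fun hc => h3 (h0.1 hc)), if_neg h4]; ring
  · have h2 : Avoid [ℓ] {m} a := by rw [h1]; exact h
    rw [if_pos h2]
    have e : ((ℓ :: l).filter (fun ℓ => m % ℓ = a ℓ)).length =
        (l.filter (fun ℓ => m % ℓ = a ℓ)).length := by
      rw [List.filter_cons_of_neg (by simpa using h)]
    by_cases h3 : AtMost1 l m a
    · have h4 : AtMost1 (ℓ :: l) m a := by unfold AtMost1 at h3 ⊢; rw [e]; exact h3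
      rw [if_pos h3, if_pos h4]; ring
    · have h4 : ¬ AtMost1 (ℓ :: l) m a := by unfold AtMost1 at h3 ⊢; rw [e]; exact h3
      rw [if_neg h3, if_neg h4]; ring

theorem Av_am1_le {l : List ℕ} (hl : ∀ ℓ ∈ l, 2 ≤ ℓ) (hnd : l.Nodup) (m : ℕ) (a : ℕ → ℕ) :
    Av l (am1 l m) a ≤ sg l 1 * (1 + (l.map (fun ℓ : ℕ => 2 / (ℓ : ℝ))).sum) := by
  induction l generalizing a with
  | nil =>
    simp [Av_nil, am1, AtMost1, sg]
  | cons ℓ l ih =>
    have hℓ2 : 2 ≤ ℓ := hl ℓ List.mem_cons_self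
    have hℓ : (0 : ℝ) < ℓ := by have : 0 < ℓ := by omega
                                exact_mod_cast this
    have hℓ2' : (2 : ℝ) ≤ ℓ := by exact_mod_cast hℓ2
    have hl' : ∀ x ∈ l, 2 ≤ x := fun x hx => hl x (List.mem_cons_of_mem _ hx)
    have hl0 : ∀ x ∈ l, 0 < x := fun x hx => by have := hl' x hx; omega
    have hnd' := (List.nodup_cons.1 hnd).2
    have hℓl : ℓ ∉ l := (List.nodup_cons.1 hnd).1
    have hindep : Indep l (ind [ℓ] {m}) := by
      intro b c h
      rw [ind_single, ind_single, h ℓ hℓl]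
    have hindep' : Indep l (fun b => 1 - ind [ℓ] {m} b) := by
      intro b c h
      show 1 - ind [ℓ] {m} b = 1 - ind [ℓ] {m} c
      rw [hindep b c h]
    set q := sg l 1 * (1 + (l.map (fun ℓ : ℕ => 2 / (ℓ : ℝ))).sum) with hq
    have hs0 : 0 < sg l 1 := by
      apply sg_pos _ (by norm_num)
      intro x hx
      have := hl' x hx
      have : 1 < x := by omega
      exact_mod_cast this
    have hinner : ∀ r ∈ range ℓ, Av l (am1 (ℓ :: l) m) (Function.update a ℓ r) ≤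
        (1 - ind [ℓ] {m} (Function.update a ℓ r)) * sg l 1 +
          ind [ℓ] {m} (Function.update a ℓ r) * q := by
      intro r _
      rw [Av_congr (am1_cons ℓ l m), Av_add, Av_mul_indep hl0 hindep', Av_mul_indep hl0 hindep,
        Av_ind hl0 hnd', pr_singleton]
      have := ih hl' hnd' (Function.update a ℓ r)
      have h2 := ind_nonneg [ℓ] {m} (Function.update a ℓ r)
      have h3 := mul_le_mul_of_nonneg_left this h2
      linarith
    rw [Av_cons]
    have hsum : ∑ r ∈ range ℓ, ind [ℓ] {m} (Function.update a ℓ r) = ℓ - 1 := by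
      have h1 := Av_ind (l := [ℓ]) (by simpa using (by omega : 0 < ℓ)) (by simp) {m} a
      rw [Av_cons, pr_singleton] at h1
      have h2 : ∀ r ∈ range ℓ, Av [] (ind [ℓ] {m}) (Function.update a ℓ r) =
          ind [ℓ] {m} (Function.update a ℓ r) := fun r _ => rfl
      rw [Finset.sum_congr rfl h2] at h1
      unfold sg at h1
      simp only [List.map_cons, List.map_nil, List.prod_cons, List.prod_nil, mul_one] at h1
      field_simp at h1
      exact h1
    have h4 : ∑ r ∈ range ℓ, Av l (am1 (ℓ :: l) m) (Function.update a ℓ r) ≤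
        sg l 1 + (ℓ - 1) * q := by
      refine (Finset.sum_le_sum hinner).trans (le_of_eq ?_)
      rw [Finset.sum_add_distrib, ← Finset.sum_mul, ← Finset.sum_mul, Finset.sum_sub_distrib, hsum,
        Finset.sum_const, card_range, nsmul_eq_mul, mul_one]
      ring
    rw [div_le_iff₀ hℓ]
    refine h4.trans ?_
    have e : sg (ℓ :: l) 1 = (1 - 1 / (ℓ : ℝ)) * sg l 1 := by
      unfold sg; rw [List.map_cons, List.prod_cons]
    rw [e, List.map_cons, List.sum_cons, hq]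
    have e2 : (1 - 1 / (ℓ : ℝ)) * sg l 1 *
        (1 + (2 / (ℓ : ℝ) + (l.map (fun ℓ : ℕ => 2 / (ℓ : ℝ))).sum)) * ℓ =
        (ℓ - 1) * (sg l 1 * (1 + (l.map (fun ℓ : ℕ => 2 / (ℓ : ℝ))).sum)) +
          (ℓ - 1) * sg l 1 * (2 / ℓ) := by
      field_simp
      ring
    rw [e2]
    have h5 : sg l 1 ≤ (ℓ - 1) * sg l 1 * (2 / ℓ) := by
      have h6 : 1 ≤ ((ℓ : ℝ) - 1) * (2 / ℓ) := by
        rw [← mul_div_assoc, le_div_iff₀ hℓ]; linarith
      nlinarith
    linarith

end Pool.Agent.Helper48.Cov
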