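import Pool.Agent.Helper48.CovAv

/-!
# Survival probabilities of unions of blocks
-/

set_option autoImplicit false

namespace Pool.Agent.Helper48.Cov

open Finset

/-- product of `1 - k/ℓ` -/
noncomputable def sg (l : List ℕ) (k : ℝ) : ℝ := (l.map (fun ℓ : ℕ => 1 - k / (ℓ : ℝ))).prod

/-- number of congruent pairs -/
def cc (ℓ : ℕ) (S : Finset (ℕ × ℕ)) : ℕ := (S.filter (fun s => s.1 % ℓ = s.2 % ℓ)).card

/-- total weight of the moduli for which the pair is congruent -/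
noncomputable def gw (l : List ℕ) (s : ℕ × ℕ) : ℝ :=
  (l.map (fun ℓ => if s.1 % ℓ = s.2 % ℓ then (2 : ℝ) / ℓ else 0)).sum

lemma gw_nonneg (l : List ℕ) (s : ℕ × ℕ) : 0 ≤ gw l s := by
  unfold gw
  apply List.sum_nonneg
  intro x hx
  obtain ⟨ℓ, _, rfl⟩ := List.mem_map.1 hx
  split_ifs <;> positivity

lemma sum_gw (l : List ℕ) (S : Finset (ℕ × ℕ)) :
    ∑ s ∈ S, gw l s = (l.map (fun ℓ => (cc ℓ S : ℝ) * (2 / ℓ))).sum := by
  induction l with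
  | nil => simp [gw]
  | cons ℓ l ih =>
    have h1 : ∀ s, gw (ℓ :: l) s = (if s.1 % ℓ = s.2 % ℓ then (2 : ℝ) / ℓ else 0) + gw l s := by
      intro s; simp [gw]
    simp_rw [h1]
    rw [Finset.sum_add_distrib, ih, List.map_cons, List.sum_cons]
    congr 1
    rw [← Finset.sum_filter, Finset.sum_const, nsmul_eq_mul]
    rfl

lemma nr_union_ge (ℓ : ℕ) (T T' : Finset ℕ) :
    nr ℓ T + nr ℓ T' ≤ nr ℓ (T ∪ T') + cc ℓ (T ×ˢ T') := by
  unfold nr cc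
  rw [Finset.image_union]
  have h1 := Finset.card_union_add_card_inter (T.image (fun t => t % ℓ)) (T'.image (fun t => t % ℓ))
  have h2 : (T.image (fun t => t % ℓ) ∩ T'.image (fun t => t % ℓ)).card ≤
      ((T ×ˢ T').filter (fun s => s.1 % ℓ = s.2 % ℓ)).card := by
    have hsub : T.image (fun t => t % ℓ) ∩ T'.image (fun t => t % ℓ) ⊆
        ((T ×ˢ T').filter (fun s => s.1 % ℓ = s.2 % ℓ)).image (fun s => s.1 % ℓ) := by
      intro r hr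
      rw [Finset.mem_inter, Finset.mem_image, Finset.mem_image] at hr
      obtain ⟨⟨t, ht, h3⟩, t', ht', h4⟩ := hr
      rw [Finset.mem_image]
      exact ⟨(t, t'), by rw [Finset.mem_filter, Finset.mem_product]; exact ⟨⟨ht, ht'⟩, by
        simp only; omega⟩, h3⟩
    exact (Finset.card_le_card hsub).trans Finset.card_image_le
  omega

lemma nr_union_ge' (ℓ : ℕ) (T T' : Finset ℕ) (m : ℕ) :
    nr ℓ T + nr ℓ T' ≤ nr ℓ (T ∪ T') + 1 + cc ℓ ((T ×ˢ T').erase (m, m)) := by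
  have h1 := nr_union_ge ℓ T T'
  have h2 : cc ℓ (T ×ˢ T') ≤ 1 + cc ℓ ((T ×ˢ T').erase (m, m)) := by
    unfold cc
    have hsub : (T ×ˢ T').filter (fun s => s.1 % ℓ = s.2 % ℓ) ⊆
        insert (m, m) (((T ×ˢ T').erase (m, m)).filter (fun s => s.1 % ℓ = s.2 % ℓ)) := by
      intro s hs
      rw [Finset.mem_filter] at hs
      rw [Finset.mem_insert, Finset.mem_filter, Finset.mem_erase]
      by_cases h : s = (m, m)
      · left; exact h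
      · right; exact ⟨⟨h, hs.1⟩, hs.2⟩
    refine (Finset.card_le_card hsub).trans ((Finset.card_insert_le _ _).trans ?_)
    omega
  omega

lemma prod_map_le {l : List ℕ} {f g h : ℕ → ℝ} (hf : ∀ ℓ ∈ l, 0 ≤ f ℓ)
    (hg : ∀ ℓ ∈ l, 0 ≤ g ℓ)
    (hfg : ∀ ℓ ∈ l, f ℓ ≤ g ℓ * Real.exp (h ℓ)) :
    (l.map f).prod ≤ (l.map g).prod * Real.exp ((l.map h).sum) := by
  induction l with
  | nil => simp
  | cons ℓ l ih =>
    rw [List.map_cons, List.map_cons, List.map_cons, List.prod_cons, List.prod_cons, List.sum_cons,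
      Real.exp_add]
    have h1 := ih (fun x hx => hf x (List.mem_cons_of_mem _ hx))
      (fun x hx => hg x (List.mem_cons_of_mem _ hx))
      (fun x hx => hfg x (List.mem_cons_of_mem _ hx))
    have h2 : 0 ≤ (l.map f).prod := by
      apply List.prod_nonneg
      intro x hx
      obtain ⟨z, hz, rfl⟩ := List.mem_map.1 hx
      exact hf z (List.mem_cons_of_mem _ hz)
    have h3 : 0 ≤ (l.map g).prod := by
      apply List.prod_nonneg
      intro x hx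
      obtain ⟨z, hz, rfl⟩ := List.mem_map.1 hx
      exact hg z (List.mem_cons_of_mem _ hz)
    calc f ℓ * (l.map f).prod
        ≤ (g ℓ * Real.exp (h ℓ)) * ((l.map g).prod * Real.exp ((l.map h).sum)) :=
          mul_le_mul (hfg ℓ List.mem_cons_self) h1 h2
            (mul_nonneg (hg ℓ List.mem_cons_self) (Real.exp_pos _).le)
      _ = _ := by ring

lemma sg_sq (l : List ℕ) (k : ℝ) :
    sg l k ^ 2 = (l.map (fun ℓ : ℕ => (1 - k / (ℓ : ℝ)) ^ 2)).prod := by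
  unfold sg
  induction l with
  | nil => simp
  | cons ℓ l ih =>
    rw [List.map_cons, List.map_cons, List.prod_cons, List.prod_cons, mul_pow, ih]

lemma sg_pos {l : List ℕ} {k : ℝ} (h : ∀ ℓ ∈ l, k < (ℓ : ℝ)) (h0 : 0 ≤ k) : 0 < sg l k := by
  unfold sg
  apply List.prod_pos
  intro x hx
  obtain ⟨ℓ, hℓ, rfl⟩ := List.mem_map.1 hx
  have h1 := h ℓ hℓ
  have h2 : (0 : ℝ) < ℓ := h0.trans_lt h1
  rw [sub_pos, div_lt_one h2]
  exact h1

lemma nr_le_card (ℓ : ℕ) (T : Finset ℕ) : nr ℓ T ≤ T.card := Finset.card_image_le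

lemma nr_le (ℓ : ℕ) (hℓ : 0 < ℓ) (T : Finset ℕ) : nr ℓ T ≤ ℓ := by
  have hsub : T.image (fun t => t % ℓ) ⊆ range ℓ := by
    intro r hr
    obtain ⟨t, _, rfl⟩ := Finset.mem_image.1 hr
    simpa using Nat.mod_lt t hℓ
  have h := Finset.card_le_card hsub
  rw [card_range] at h
  exact h

lemma pr_eq_sg {l : List ℕ} {k : ℕ} {T : Finset ℕ} (h : ∀ ℓ ∈ l, nr ℓ T = k) :
    pr l T = sg l k := by
  unfold pr sg
  congr 1
  apply List.map_congr_left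
  intro ℓ hℓ
  rw [h ℓ hℓ]

lemma pr_nonneg {l : List ℕ} (hl : ∀ ℓ ∈ l, 0 < ℓ) (T : Finset ℕ) : 0 ≤ pr l T := by
  unfold pr
  apply List.prod_nonneg
  intro x hx
  obtain ⟨ℓ, hℓ, rfl⟩ := List.mem_map.1 hx
  have h1 : (0 : ℝ) < ℓ := by exact_mod_cast hl ℓ hℓ
  rw [sub_nonneg, div_le_one h1]
  exact_mod_cast nr_le ℓ (hl ℓ hℓ) T

theorem pr_union_le {l : List ℕ} {k : ℕ} (hk : 1 ≤ k) (hl : ∀ ℓ ∈ l, 4 * k ≤ ℓ)
    {T T' : Finset ℕ} (hT : ∀ ℓ ∈ l, nr ℓ T = k) (hT' : ∀ ℓ ∈ l, nr ℓ T' = k) :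
    pr l (T ∪ T') ≤ sg l k ^ 2 * Real.exp (∑ s ∈ T ×ˢ T', gw l s) := by
  rw [sg_sq, sum_gw]
  unfold pr
  apply prod_map_le
  · intro ℓ hℓ
    have h0 : 0 < ℓ := by have := hl ℓ hℓ; omega
    have h1 : (0 : ℝ) < ℓ := by exact_mod_cast h0
    rw [sub_nonneg, div_le_one h1]
    exact_mod_cast nr_le ℓ h0 _
  · intro ℓ _; positivity
  · intro ℓ hℓ
    have h0 : 0 < ℓ := by have := hl ℓ hℓ; omega
    have h1 : (0 : ℝ) < ℓ := by exact_mod_cast h0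
    have h2 := nr_union_ge ℓ T T'
    rw [hT ℓ hℓ, hT' ℓ hℓ] at h2
    have h3 : (k : ℝ) + k ≤ nr ℓ (T ∪ T') + cc ℓ (T ×ˢ T') := by exact_mod_cast h2
    have h4 : (4 : ℝ) * k ≤ ℓ := by exact_mod_cast hl ℓ hℓ
    have h5 : (k : ℝ) / ℓ ≤ 1 / 4 := by
      rw [div_le_div_iff₀ h1 (by norm_num)]; linarith
    have h6 : (0 : ℝ) ≤ (k : ℝ) / ℓ := by positivity
    have h7 : 1 / 2 ≤ (1 - (k : ℝ) / ℓ) ^ 2 := by nlinarith
    have h8 : 1 - (nr ℓ (T ∪ T') : ℝ) / ℓ ≤ (1 - (k : ℝ) / ℓ) ^ 2 + cc ℓ (T ×ˢ T') / ℓ := by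
      have : (k : ℝ) / ℓ + k / ℓ ≤ nr ℓ (T ∪ T') / ℓ + cc ℓ (T ×ˢ T') / ℓ := by
        rw [← add_div, ← add_div]
        exact div_le_div_of_nonneg_right h3 h1.le
      nlinarith [sq_nonneg ((k : ℝ) / ℓ)]
    have h9 := Real.add_one_le_exp ((cc ℓ (T ×ˢ T') : ℝ) * (2 / ℓ))
    have h10 : (0 : ℝ) ≤ (cc ℓ (T ×ˢ T') : ℝ) / ℓ := by positivity
    calc 1 - (nr ℓ (T ∪ T') : ℝ) / ℓ ≤ (1 - (k : ℝ) / ℓ) ^ 2 + cc ℓ (T ×ˢ T') / ℓ := h8
      _ ≤ (1 - (k : ℝ) / ℓ) ^ 2 + (1 - (k : ℝ) / ℓ) ^ 2 * (2 * ((cc ℓ (T ×ˢ T') : ℝ) / ℓ)) := by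
          nlinarith
      _ = (1 - (k : ℝ) / ℓ) ^ 2 * ((cc ℓ (T ×ˢ T') : ℝ) * (2 / ℓ) + 1) := by ring
      _ ≤ _ := by gcongr

theorem pr_union_le' {l : List ℕ} {k : ℕ} (hk : 1 ≤ k) (hl : ∀ ℓ ∈ l, 4 * k ≤ ℓ)
    {T T' : Finset ℕ} (hT : ∀ ℓ ∈ l, nr ℓ T = k) (hT' : ∀ ℓ ∈ l, nr ℓ T' = k)
    (m : ℕ) :
    pr l (T ∪ T') ≤ sg l k ^ 2 / sg l 1 *
      Real.exp (∑ s ∈ (T ×ˢ T').erase (m, m), gw l s) := by
  have hpos : 0 < sg l 1 := by
    apply sg_pos _ (by norm_num)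
    intro ℓ hℓ
    have h0 : 1 < ℓ := by have := hl ℓ hℓ; omega
    exact_mod_cast h0
  rw [div_mul_eq_mul_div, le_div_iff₀ hpos, sg_sq, sum_gw]
  have key : pr l (T ∪ T') * sg l 1 =
      (l.map (fun ℓ : ℕ => (1 - (nr ℓ (T ∪ T') : ℝ) / (ℓ : ℝ)) * (1 - 1 / (ℓ : ℝ)))).prod := by
    unfold pr sg
    rw [← List.prod_map_mul]
  rw [key]
  apply prod_map_le
  · intro ℓ hℓ
    have h00 : 1 < ℓ := by have := hl ℓ hℓ; omega
    have h0 : 0 < ℓ := by omega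
    have h1 : (0 : ℝ) < ℓ := by exact_mod_cast h0
    apply mul_nonneg
    · rw [sub_nonneg, div_le_one h1]
      exact_mod_cast nr_le ℓ h0 _
    · rw [sub_nonneg, div_le_one h1]
      exact_mod_cast h00.le
  · intro ℓ _; positivity
  · intro ℓ hℓ
    have h0 : 0 < ℓ := by have := hl ℓ hℓ; omega
    have h1 : (0 : ℝ) < ℓ := by exact_mod_cast h0
    have h2 := nr_union_ge' ℓ T T' m
    rw [hT ℓ hℓ, hT' ℓ hℓ] at h2
    set c := cc ℓ ((T ×ˢ T').erase (m, m)) with hc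
    have h3 : (k : ℝ) + k ≤ nr ℓ (T ∪ T') + 1 + c := by exact_mod_cast h2
    have h4 : (4 : ℝ) * k ≤ ℓ := by exact_mod_cast hl ℓ hℓ
    have hk1 : (1 : ℝ) ≤ k := by exact_mod_cast hk
    have h5 : (k : ℝ) / ℓ ≤ 1 / 4 := by
      rw [div_le_div_iff₀ h1 (by norm_num)]; linarith
    have h5' : (1 : ℝ) / ℓ ≤ 1 / 4 := by
      rw [div_le_div_iff₀ h1 (by norm_num)]; linarith
    have h6 : (0 : ℝ) ≤ (k : ℝ) / ℓ := by positivity
    have h6' : (0 : ℝ) < 1 / (ℓ : ℝ) := by positivity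
    have h7 : 1 / 2 ≤ (1 - (k : ℝ) / ℓ) ^ 2 := by nlinarith
    have h10 : (0 : ℝ) ≤ (c : ℝ) / ℓ := by positivity
    have h8 : 1 - (nr ℓ (T ∪ T') : ℝ) / ℓ ≤ 1 - 2 * ((k : ℝ) / ℓ) + 1 / ℓ + c / ℓ := by
      have : (k : ℝ) / ℓ + k / ℓ ≤ nr ℓ (T ∪ T') / ℓ + 1 / ℓ + c / ℓ := by
        rw [← add_div, ← add_div, ← add_div]
        exact div_le_div_of_nonneg_right h3 h1.le
      linarith
    have h9 := Real.add_one_le_exp ((c : ℝ) * (2 / ℓ))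
    have h11 : (1 : ℝ) / ℓ ≤ k / ℓ := div_le_div_of_nonneg_right hk1 h1.le
    calc (1 - (nr ℓ (T ∪ T') : ℝ) / ℓ) * (1 - 1 / ℓ)
        ≤ (1 - 2 * ((k : ℝ) / ℓ) + 1 / ℓ + c / ℓ) * (1 - 1 / ℓ) := by
          apply mul_le_mul_of_nonneg_right h8
          linarith
      _ ≤ (1 - (k : ℝ) / ℓ) ^ 2 + c / ℓ := by nlinarith
      _ ≤ (1 - (k : ℝ) / ℓ) ^ 2 + (1 - (k : ℝ) / ℓ) ^ 2 * (2 * ((c : ℝ) / ℓ)) := by
          nlinarith
      _ = (1 - (k : ℝ) / ℓ) ^ 2 * ((c : ℝ) * (2 / ℓ) + 1) := by ring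
      _ ≤ _ := by gcongr

/-! ### Convexity -/

lemma exp_sum_le {ι : Type*} (S : Finset ι) (hS : S.Nonempty) (g : ι → ℝ) :
    Real.exp (∑ s ∈ S, g s) ≤ (∑ s ∈ S, Real.exp (S.card * g s)) / S.card := by
  have hc : (0 : ℝ) < S.card := by exact_mod_cast hS.card_pos
  have h := convexOn_exp.map_sum_le (t := S) (w := fun _ => (1 : ℝ) / S.card)
    (p := fun s => S.card * g s) (fun _ _ => by positivity)
    (by rw [Finset.sum_const, nsmul_eq_mul]; field_simp) (fun _ _ => Set.mem_univ _)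
  have e1 : ∑ s ∈ S, ((1 : ℝ) / S.card) • ((S.card : ℝ) * g s) = ∑ s ∈ S, g s := by
    apply Finset.sum_congr rfl
    intro s _
    rw [smul_eq_mul]; field_simp
  rw [e1] at h
  refine h.trans_eq ?_
  rw [Finset.sum_div]
  apply Finset.sum_congr rfl
  intro s _
  rw [smul_eq_mul]; ring

/-- Jensen for a sum with one summand removed. -/
lemma exp_sum_erase_le {ι : Type*} [DecidableEq ι] (S : Finset ι) (m : ι) (hm : m ∈ S)
    (g : ι → ℝ) :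
    Real.exp (∑ s ∈ S.erase m, g s) ≤
      1 + (∑ s ∈ S.erase m, (Real.exp (S.card * g s) - 1)) / S.card := by
  have hc : (0 : ℝ) < S.card := by exact_mod_cast (Finset.card_pos.2 ⟨m, hm⟩)
  have h := exp_sum_le S ⟨m, hm⟩ (fun s => if s = m then 0 else g s)
  rw [← Finset.add_sum_erase _ _ hm, ← Finset.add_sum_erase _ _ hm] at h
  simp only [if_true, mul_zero, Real.exp_zero, zero_add] at h
  have e1 : ∑ s ∈ S.erase m, (if s = m then 0 else g s) = ∑ s ∈ S.erase m, g s :=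
    Finset.sum_congr rfl fun s hs => if_neg (Finset.ne_of_mem_erase hs)
  have e2 : ∑ s ∈ S.erase m, Real.exp (S.card * (if s = m then 0 else g s)) =
      ∑ s ∈ S.erase m, Real.exp (S.card * g s) :=
    Finset.sum_congr rfl fun s hs => by rw [if_neg (Finset.ne_of_mem_erase hs)]
  rw [e1, e2] at h
  refine h.trans_eq ?_
  rw [Finset.sum_sub_distrib, Finset.sum_const, nsmul_eq_mul, mul_one, Finset.card_erase_of_mem hm,
    Nat.cast_sub (Finset.card_pos.2 ⟨m, hm⟩)]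
  field_simp
  push_cast
  ring

end Pool.Agent.Helper48.Cov
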