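import Pool.Agent.Helper48.CovSmooth
import Pool.Agent.Helper48.CovSecond

/-!
# Counting lemmas
-/

set_option autoImplicit false

namespace Pool.Agent.Helper48.Cov

open Finset Pool.Agent.Helper44

/-! ### Lists of primes -/

/-- primes in `(a, b]` as a list -/
def lst (a b : ℕ) : List ℕ := (List.range' (a + 1) (b - a)).filter (fun p => p.Prime)

lemma mem_lst {a b p : ℕ} : p ∈ lst a b ↔ p.Prime ∧ a < p ∧ p ≤ b := by
  unfold lst
  rw [List.mem_filter, List.mem_range'_1]
  simp only [decide_eq_true_eq]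
  constructor
  · rintro ⟨h1, h2⟩; exact ⟨h2, by omega, by omega⟩
  · rintro ⟨h1, h2, h3⟩; exact ⟨by omega, h1⟩

lemma lst_nodup (a b : ℕ) : (lst a b).Nodup := (List.nodup_range' (step := 1)).filter _

lemma lst_append {a b c : ℕ} (hab : a ≤ b) (hbc : b ≤ c) : lst a b ++ lst b c = lst a c := by
  unfold lst
  rw [← List.filter_append]
  congr 1
  have h1 : b + 1 = a + 1 + (b - a) := by omega
  have h2 : c - a = (b - a) + (c - b) := by omega
  rw [h1, List.range'_append_1, h2]

/-- primes in `(a, b]` as a finset -/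
def pr2 (a b : ℕ) : Finset ℕ := (Finset.Ioc a b).filter Nat.Prime

lemma mem_pr2 {a b p : ℕ} : p ∈ pr2 a b ↔ p.Prime ∧ a < p ∧ p ≤ b := by
  unfold pr2; rw [mem_filter, mem_Ioc]; tauto

lemma lst_toFinset (a b : ℕ) : (lst a b).toFinset = pr2 a b := by
  ext p
  rw [List.mem_toFinset, mem_lst, mem_pr2]

lemma sum_lst (a b : ℕ) (f : ℕ → ℝ) : ((lst a b).map f).sum = ∑ p ∈ pr2 a b, f p := by
  rw [← lst_toFinset, List.sum_toFinset f (lst_nodup a b)]

lemma prod_lst (a b : ℕ) (f : ℕ → ℝ) : ((lst a b).map f).prod = ∏ p ∈ pr2 a b, f p := by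
  rw [← lst_toFinset, List.prod_toFinset f (lst_nodup a b)]

lemma sg_lst (a b : ℕ) (k : ℝ) : sg (lst a b) k = ∏ p ∈ pr2 a b, (1 - k / (p : ℝ)) := by
  unfold sg; rw [prod_lst]

lemma primesUpTo_nat (n : ℕ) : primesUpTo (n : ℝ) = pr2 0 n := by
  unfold primesUpTo pr2
  rw [Nat.floor_natCast]

/-- bounds for the sieve product -/
lemma sg_bounds : ∃ c C : ℝ, 0 < c ∧ 0 < C ∧ ∀ a b : ℕ, 2 ≤ a → a ≤ b →
    c * (Real.log a / Real.log b) ≤ sg (lst a b) 1 ∧
    sg (lst a b) 1 ≤ C * (Real.log a / Real.log b) := by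
  obtain ⟨c1, C1, hc1, hC1, hM⟩ := mertens_prod
  refine ⟨c1 / C1, C1 / c1, by positivity, by positivity, ?_⟩
  intro a b ha hab
  have hla : 0 < Real.log a := Real.log_pos (by exact_mod_cast (by omega : 1 < a))
  have hlb : 0 < Real.log b := Real.log_pos (by exact_mod_cast (by omega : 1 < b))
  have h1 := hM a (by exact_mod_cast ha)
  have h2 := hM b (by exact_mod_cast (by omega : 2 ≤ b))
  rw [primesUpTo_nat] at h1 h2
  have h3 : ∏ q ∈ pr2 0 b, (1 - (1 : ℝ) / q) =
      (∏ q ∈ pr2 0 a, (1 - (1 : ℝ) / q)) * sg (lst a b) 1 := by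
    rw [sg_lst, ← Finset.prod_union]
    · congr 1
      ext q
      simp only [mem_union, mem_pr2]
      constructor
      · rintro ⟨h4, h5, h6⟩
        by_cases h7 : q ≤ a
        · left; exact ⟨h4, h5, h7⟩
        · right; exact ⟨h4, by omega, h6⟩
      · rintro (⟨h4, h5, h6⟩ | ⟨h4, h5, h6⟩)
        · exact ⟨h4, h5, by omega⟩
        · exact ⟨h4, by omega, h6⟩
    · rw [Finset.disjoint_left]
      intro q h4 h5
      rw [mem_pr2] at h4 h5
      omega
  rw [h3] at h2
  set Pa := ∏ q ∈ pr2 0 a, (1 - (1 : ℝ) / q) with hPa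
  set s := sg (lst a b) 1 with hs
  have hPa0 : 0 < Pa := lt_of_lt_of_le (by positivity) h1.1
  constructor
  · have h4 : c1 / Real.log b ≤ (C1 / Real.log a) * s := by
      refine h2.1.trans ?_
      have hs0 : 0 ≤ s := by
        by_contra hneg
        push Not at hneg
        have h5 : 0 < c1 / Real.log b := by positivity
        have := h2.1
        nlinarith
      exact mul_le_mul_of_nonneg_right h1.2 hs0
    rw [div_mul_div_comm, div_le_iff₀ (by positivity)]
    rw [div_mul_eq_mul_div, div_le_div_iff₀ hlb hla] at h4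
    nlinarith
  · have h4 : (c1 / Real.log a) * s ≤ C1 / Real.log b := by
      refine le_trans ?_ h2.2
      have hs0 : 0 ≤ s := by
        by_contra hneg
        push Not at hneg
        have h5 : 0 < c1 / Real.log b := by positivity
        have := h2.1
        nlinarith
      exact mul_le_mul_of_nonneg_right h1.1 hs0
    rw [div_mul_div_comm, le_div_iff₀ (by positivity)]
    rw [div_mul_eq_mul_div, div_le_div_iff₀ hla hlb] at h4
    nlinarith

/-- sum of reciprocals of primes -/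
lemma sum_inv_pr2_le : ∃ C : ℝ, 0 < C ∧ ∀ a b : ℕ, 2 ≤ b →
    ∑ p ∈ pr2 a b, (1 : ℝ) / p ≤ Real.log (Real.log b) + C := by
  obtain ⟨C, hC, hS⟩ := sum_primesUpTo_bounds
  refine ⟨C, hC, ?_⟩
  intro a b hb
  have h1 := (abs_le.1 (hS b (by exact_mod_cast hb))).2
  rw [primesUpTo_nat] at h1
  have h2 : ∑ p ∈ pr2 a b, (1 : ℝ) / p ≤ ∑ p ∈ pr2 0 b, (1 : ℝ) / p := by
    apply Finset.sum_le_sum_of_subset_of_nonneg
    · intro p hp
      rw [mem_pr2] at hp ⊢
      exact ⟨hp.1, by omega, hp.2.2⟩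
    · intro p _ _; positivity
  linarith

lemma sum_inv_sq_pr2_le (a b : ℕ) (ha : 1 ≤ a) : ∑ p ∈ pr2 a b, ((1 : ℝ) / (p : ℝ) ^ 2) ≤ 1 / a := by
  have ha' : (0 : ℝ) < a := by exact_mod_cast ha
  by_cases hab : a ≤ b
  · calc ∑ p ∈ pr2 a b, ((1 : ℝ) / (p : ℝ) ^ 2) ≤ ∑ p ∈ Finset.Ioc a b, ((1 : ℝ) / (p : ℝ) ^ 2) := by
          apply Finset.sum_le_sum_of_subset_of_nonneg (Finset.filter_subset _ _)
          intro p _ _; positivity
      _ = ∑ p ∈ Finset.Ioc a b, ((p : ℝ) ^ 2)⁻¹ := by simp only [one_div]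
      _ ≤ (a : ℝ)⁻¹ - (b : ℝ)⁻¹ := sum_Ioc_inv_sq_le_sub (by omega) hab
      _ ≤ 1 / a := by
          have : 0 ≤ (b : ℝ)⁻¹ := by positivity
          rw [one_div]; linarith
  · have : pr2 a b = ∅ := by
      unfold pr2
      rw [Finset.Ioc_eq_empty (by omega), Finset.filter_empty]
    rw [this, Finset.sum_empty]
    positivity

/-! ### Chebyshev -/

/-- number of primes up to `n` -/
def pc (n : ℕ) : ℕ := (pr2 0 n).card

lemma pc_eq (n : ℕ) : pc n = Nat.primeCounting n := by
  unfold pc pr2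
  rw [Nat.primeCounting, Nat.primeCounting', Nat.count_eq_card_filter_range]
  congr 1
  ext p
  simp only [mem_filter, mem_Ioc, mem_range]
  constructor
  · rintro ⟨⟨_, h⟩, h2⟩; exact ⟨by omega, h2⟩
  · rintro ⟨h, h2⟩; exact ⟨⟨h2.pos, by omega⟩, h2⟩

lemma pc_le (n : ℕ) : pc n ≤ n := by
  unfold pc pr2
  refine (Finset.card_filter_le _ _).trans ?_
  rw [Nat.card_Ioc]; omega

lemma pc_upper {n : ℕ} (hn : 2 ≤ n) : (pc n : ℝ) ≤ 4 * (n / Real.log n) := by
  have hn' : (2 : ℝ) ≤ n := by exact_mod_cast hn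
  have h := Chebyshev.pi_le_log4_mul_div (x := n) (by linarith)
  rw [Nat.floor_natCast, ← pc_eq] at h
  have hlog : 0 < Real.log n := Real.log_pos (by linarith)
  have h1 : Real.log (Real.sqrt n) = Real.log n / 2 := by
    rw [Real.log_sqrt (by linarith)]
  rw [h1] at h
  have h2 : Real.log 4 ≤ 1.39 := by
    have : Real.log 4 = 2 * Real.log 2 := by
      rw [show (4 : ℝ) = 2 ^ 2 by norm_num, Real.log_pow]; push_cast; ring
    have := Real.log_two_lt_d9
    linarith
  have hsq : 0 < Real.sqrt n := Real.sqrt_pos.2 (by linarith)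
  have h3 : Real.sqrt n * Real.sqrt n = n := Real.mul_self_sqrt (by linarith)
  have h4 : Real.log n ≤ 1.2 * Real.sqrt n := by
    -- `log t ≤ t/e`-type bound at `t = sqrt n`
    have h5 : Real.log (Real.sqrt n / Real.exp 1) ≤ Real.sqrt n / Real.exp 1 - 1 :=
      Real.log_le_sub_one_of_pos (by positivity)
    rw [Real.log_div hsq.ne' (Real.exp_pos 1).ne', Real.log_exp, h1] at h5
    have h6 : Real.log n ≤ 2 * (Real.sqrt n / Real.exp 1) := by linarith
    have h7 := Real.exp_one_gt_d9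
    have h8 : Real.sqrt n / Real.exp 1 ≤ 0.6 * Real.sqrt n := by
      rw [div_le_iff₀ (Real.exp_pos 1)]
      nlinarith
    linarith
  have h5 : Real.sqrt n ≤ 1.2 * (n / Real.log n) := by
    rw [← mul_div_assoc, le_div_iff₀ hlog]
    nlinarith
  have h6 : Real.log 4 * n / (Real.log n / 2) ≤ 2.78 * (n / Real.log n) := by
    have e : Real.log 4 * n / (Real.log n / 2) = (2 * Real.log 4) * (n / Real.log n) := by
      field_simp
    rw [e]
    gcongr
    linarith
  linarith [div_pos (by linarith : (0 : ℝ) < n) hlog]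

lemma pc_window : ∃ n0 : ℕ, ∀ n : ℕ, n0 ≤ n →
    (pc (n / 4) : ℝ) + 1 / 4 * (n / Real.log n) ≤ pc n := by
  have h1 := Chebyshev.eventually_primeCounting_le (ε := 0.01) (by norm_num)
  have ht : Filter.Tendsto (fun n : ℕ => (n : ℝ) / 4) Filter.atTop Filter.atTop :=
    tendsto_natCast_atTop_atTop.atTop_div_const (by norm_num)
  have h1' := ht.eventually h1
  have hlog : Filter.Tendsto (fun n : ℕ => Real.log (n : ℝ)) Filter.atTop Filter.atTop :=
    Real.tendsto_log_atTop.comp tendsto_natCast_atTop_atTop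
  have h2 := hlog.eventually_ge_atTop 200
  have h3 : ∀ᶠ n : ℕ in Filter.atTop, Real.log ((n : ℝ) + 1) ≤ 0.01 * n := by
    have h4 := Real.isLittleO_log_id_atTop.bound (c := 0.005) (by norm_num)
    have ht2 : Filter.Tendsto (fun n : ℕ => (n : ℝ) + 1) Filter.atTop Filter.atTop :=
      tendsto_natCast_atTop_atTop.atTop_add tendsto_const_nhds
    filter_upwards [ht2.eventually h4, Filter.eventually_ge_atTop 1] with n hn hn1
    have hn1' : (1 : ℝ) ≤ n := by exact_mod_cast hn1
    simp only [id, Real.norm_eq_abs] at hn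
    rw [abs_of_nonneg (Real.log_nonneg (by linarith)), abs_of_nonneg (by linarith)] at hn
    linarith
  obtain ⟨n0, hn0⟩ := Filter.eventually_atTop.1 (h1'.and (h2.and h3))
  refine ⟨max n0 8, ?_⟩
  intro n hn
  obtain ⟨ha, hb, hc⟩ := hn0 n (le_trans (le_max_left _ _) hn)
  have hn8 : 8 ≤ n := le_trans (le_max_right _ _) hn
  have hn' : (8 : ℝ) ≤ n := by exact_mod_cast hn8
  have hlogn : 0 < Real.log n := by linarith
  have hfl : ⌊(n : ℝ) / 4⌋₊ = n / 4 := by
    have := Nat.floor_div_natCast (n : ℝ) 4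
    rw [Nat.floor_natCast] at this
    exact_mod_cast this
  rw [hfl, ← pc_eq] at ha
  have hge := Chebyshev.pi_ge n
  rw [← pc_eq] at hge
  have hlog4 : Real.log ((n : ℝ) / 4) = Real.log n - Real.log 4 := by
    rw [Real.log_div (by linarith) (by norm_num)]
  have hl4 : Real.log 4 = 2 * Real.log 2 := by
    rw [show (4 : ℝ) = 2 ^ 2 by norm_num, Real.log_pow]; push_cast; ring
  have hl2a := Real.log_two_lt_d9
  have hl2b := Real.log_two_gt_d9
  have h5 : 0.99 * Real.log n ≤ Real.log ((n : ℝ) / 4) := by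
    rw [hlog4]; linarith
  have h6 : (Real.log 4 + 0.01) * ((n : ℝ) / 4) / Real.log ((n : ℝ) / 4) ≤
      0.36 * (n / Real.log n) := by
    rw [div_le_iff₀ (by linarith)]
    have h7 : 0.36 * (n / Real.log n) * (0.99 * Real.log n) ≤
        0.36 * (n / Real.log n) * Real.log ((n : ℝ) / 4) := by
      apply mul_le_mul_of_nonneg_left h5
      positivity
    refine le_trans ?_ h7
    have e : 0.36 * ((n : ℝ) / Real.log n) * (0.99 * Real.log n) = 0.3564 * n := by
      field_simp; ring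
    rw [e]
    nlinarith
  have h7 : 0.68 * (n / Real.log n) ≤ (n * Real.log 2 - Real.log (n + 1)) / Real.log n := by
    rw [← mul_div_assoc]
    apply div_le_div_of_nonneg_right _ hlogn.le
    nlinarith
  have h8 : 0 < (n : ℝ) / Real.log n := by positivity
  linarith

end Pool.Agent.Helper48.Cov
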