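import Pool.Agent.Helper48.CovCount
import Pool.Agent.Helper44.Smooth

/-!
# The exceptional sets
-/

set_option autoImplicit false

namespace Pool.Agent.Helper48.Cov

open Finset Pool.Agent.Helper44

/-- medium primes -/
def Med (y R X q : ℕ) : Prop := q.Prime ∧ y < q ∧ 4 ^ R * q ≤ X

instance (y R X q : ℕ) : Decidable (Med y R X q) := by unfold Med; infer_instance

/-- integers `s q` with `q` medium and all prime factors of `s` in `(w, y]` -/
def VV (w y R X : ℕ) : Finset ℕ :=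
  (Finset.Ioc 0 X).filter (fun m => ∃ q ∈ m.primeFactors, Med y R X q ∧
    ∀ ℓ ∈ (m / q).primeFactors, w < ℓ ∧ ℓ ≤ y)

/-- integers up to `t` with all prime factors in `(w, y]` -/
def Rg (w y t : ℕ) : Finset ℕ :=
  (Finset.Ioc 0 t).filter (fun n => ∀ q ∈ n.primeFactors, w < q ∧ q ≤ y)

lemma mem_Rg {w y t n : ℕ} : n ∈ Rg w y t ↔ (0 < n ∧ n ≤ t) ∧ ∀ q ∈ n.primeFactors, w < q ∧ q ≤ y := by
  unfold Rg; rw [mem_filter, mem_Ioc]

lemma mem_VV {w y R X m : ℕ} : m ∈ VV w y R X ↔ ∃ s q, m = s * q ∧ 0 < s ∧ s * q ≤ X ∧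
    Med y R X q ∧ ∀ ℓ ∈ s.primeFactors, w < ℓ ∧ ℓ ≤ y := by
  unfold VV
  rw [mem_filter, mem_Ioc]
  constructor
  · rintro ⟨⟨h1, h2⟩, q, hq, hm, hs⟩
    have hqd := Nat.dvd_of_mem_primeFactors hq
    have e : m / q * q = m := Nat.div_mul_cancel hqd
    refine ⟨m / q, q, e.symm, ?_, by rw [e]; exact h2, hm, hs⟩
    rcases Nat.eq_zero_or_pos (m / q) with h | h
    · rw [h, zero_mul] at e; omega
    · exact h
  · rintro ⟨s, q, rfl, hs0, hX, hm, hs⟩
    have hq0 : 0 < q := hm.1.pos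
    refine ⟨⟨Nat.mul_pos hs0 hq0, hX⟩, q, ?_, hm, ?_⟩
    · rw [Nat.mem_primeFactors]
      exact ⟨hm.1, Dvd.intro_left _ rfl, (Nat.mul_pos hs0 hq0).ne'⟩
    · rw [Nat.mul_div_cancel _ hq0]; exact hs

lemma card_VV_le (w y R X : ℕ) : (VV w y R X).card ≤
    ∑ s ∈ (Rg w y X).filter (fun s => s * s ≤ X), pc (X / s) +
      ∑ q ∈ (pr2 0 X).filter (fun q => q * q ≤ X), (Sm y (X / q)).card := by
  classical
  have hsub : VV w y R X ⊆
      (((Rg w y X).filter (fun s => s * s ≤ X)).biUnion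
        (fun s => (pr2 0 (X / s)).image (fun q => s * q))) ∪
      (((pr2 0 X).filter (fun q => q * q ≤ X)).biUnion
        (fun q => (Sm y (X / q)).image (fun s => s * q))) := by
    intro m hm
    rw [mem_VV] at hm
    obtain ⟨s, q, rfl, hs0, hX, hmed, hs⟩ := hm
    have hq0 := hmed.1.pos
    rw [mem_union, mem_biUnion, mem_biUnion]
    by_cases h : s * s ≤ X
    · left
      refine ⟨s, ?_, ?_⟩
      · rw [mem_filter, mem_Rg]
        refine ⟨⟨⟨hs0, ?_⟩, hs⟩, h⟩
        nlinarith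
      · rw [mem_image]
        refine ⟨q, ?_, rfl⟩
        rw [mem_pr2]
        refine ⟨hmed.1, hq0, ?_⟩
        rw [Nat.le_div_iff_mul_le hs0, mul_comm]
        exact hX
    · right
      push Not at h
      have hqs : q < s := by
        by_contra hc
        push Not at hc
        nlinarith
      refine ⟨q, ?_, ?_⟩
      · rw [mem_filter, mem_pr2]
        refine ⟨⟨hmed.1, hq0, ?_⟩, ?_⟩ <;> nlinarith
      · rw [mem_image]
        refine ⟨s, ?_, rfl⟩
        rw [mem_Sm]
        refine ⟨⟨hs0, ?_⟩, fun ℓ hℓ => (hs ℓ hℓ).2⟩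
        rw [Nat.le_div_iff_mul_le hq0]
        exact hX
  refine (Finset.card_le_card hsub).trans ((Finset.card_union_le _ _).trans ?_)
  apply add_le_add
  · refine Finset.card_biUnion_le.trans (Finset.sum_le_sum fun s _ => ?_)
    exact Finset.card_image_le
  · refine Finset.card_biUnion_le.trans (Finset.sum_le_sum fun s _ => ?_)
    exact Finset.card_image_le

lemma card_VV_ge (w y R X : ℕ) (T : Finset ℕ)
    (hT : ∀ s ∈ T, 4 ^ R ≤ s ∧ ∀ ℓ ∈ s.primeFactors, w < ℓ ∧ ℓ ≤ y) :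
    ∑ s ∈ T, ((pc (X / s) : ℝ) - pc y) ≤ (VV w y R X).card := by
  classical
  have h1 : ∀ s ∈ T, ((pc (X / s) : ℝ) - pc y) ≤ ((pr2 y (X / s)).card : ℝ) := by
    intro s _
    have hsub : pr2 0 (X / s) ⊆ pr2 0 y ∪ pr2 y (X / s) := by
      intro p hp
      rw [mem_pr2] at hp
      rw [mem_union, mem_pr2, mem_pr2]
      by_cases h : p ≤ y
      · left; exact ⟨hp.1, hp.2.1, h⟩
      · right; exact ⟨hp.1, by omega, hp.2.2⟩
    have h2 := (Finset.card_le_card hsub).trans (Finset.card_union_le _ _)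
    have h3 : (pc (X / s) : ℝ) ≤ pc y + ((pr2 y (X / s)).card : ℝ) := by
      unfold pc
      exact_mod_cast h2
    linarith
  refine (Finset.sum_le_sum h1).trans ?_
  have h2 : ∑ s ∈ T, (pr2 y (X / s)).card = (T.sigma (fun s => pr2 y (X / s))).card := by
    rw [Finset.card_sigma]
  have h3 : (T.sigma (fun s => pr2 y (X / s))).card ≤ (VV w y R X).card := by
    apply Finset.card_le_card_of_injOn (fun x => x.1 * x.2)
    · rintro ⟨s, q⟩ hx
      simp only [Finset.mem_coe, mem_sigma, mem_pr2] at hx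
      obtain ⟨hs, hqp, hyq, hqX⟩ := hx
      have h4 := hT s hs
      have hs0 : 0 < s := lt_of_lt_of_le (by positivity) h4.1
      rw [Nat.le_div_iff_mul_le hs0] at hqX
      rw [Finset.mem_coe, mem_VV]
      refine ⟨s, q, rfl, hs0, by nlinarith, ⟨hqp, hyq, ?_⟩, h4.2⟩
      calc 4 ^ R * q ≤ s * q := Nat.mul_le_mul_right _ h4.1
        _ = q * s := mul_comm _ _
        _ ≤ X := hqX
    · rintro ⟨s, q⟩ hx ⟨s', q'⟩ hx' he
      simp only [Finset.mem_coe, mem_sigma, mem_pr2] at hx hx' he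
      obtain ⟨hs, hqp, hyq, hqX⟩ := hx
      obtain ⟨hs', hqp', hyq', hqX'⟩ := hx'
      have h4 := hT s hs
      have h4' := hT s' hs'
      have hs0 : 0 < s := lt_of_lt_of_le (by positivity) h4.1
      have hs0' : 0 < s' := lt_of_lt_of_le (by positivity) h4'.1
      have hqq : q = q' := by
        have h5 : q ∣ s' * q' := he ▸ Dvd.intro_left _ rfl
        rcases (Nat.Prime.dvd_mul hqp).1 h5 with h6 | h6
        · have := (h4'.2 q (by rw [Nat.mem_primeFactors]; exact ⟨hqp, h6, hs0'.ne'⟩)).2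
          omega
        · exact (Nat.prime_dvd_prime_iff_eq hqp hqp').1 h6
      subst hqq
      have hss : s = s' := Nat.eq_of_mul_eq_mul_right hqp.pos he
      subst hss
      rfl
  have h4 : ∑ s ∈ T, ((pr2 y (X / s)).card : ℝ) = ((∑ s ∈ T, (pr2 y (X / s)).card : ℕ) : ℝ) := by
    push_cast; rfl
  rw [h4, h2]
  exact_mod_cast h3

/-- integers without a medium prime factor -/
def E0 (y R X : ℕ) : Finset ℕ :=
  (Finset.Ioc 0 X).filter (fun m => ∀ q ∈ m.primeFactors, ¬ Med y R X q)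

lemma card_E0_le (y R X : ℕ) : (E0 y R X).card ≤ (Sm y X).card + pc X * 4 ^ R := by
  classical
  have hsub : E0 y R X ⊆ Sm y X ∪ ((pr2 0 X) ×ˢ (range (4 ^ R))).image (fun x => x.1 * x.2) := by
    intro m hm
    unfold E0 at hm
    rw [mem_filter, mem_Ioc] at hm
    rw [mem_union, mem_Sm, mem_image]
    by_cases h : ∀ q ∈ m.primeFactors, q ≤ y
    · left; exact ⟨hm.1, h⟩
    · right
      push Not at h
      obtain ⟨q, hq, hyq⟩ := h
      have hnm := hm.2 q hq
      unfold Med at hnm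
      have hqp := Nat.prime_of_mem_primeFactors hq
      have hqd := Nat.dvd_of_mem_primeFactors hq
      have h4 : X < 4 ^ R * q := by
        by_contra hc
        push Not at hc
        exact hnm ⟨hqp, hyq, hc⟩
      refine ⟨(q, m / q), ?_, Nat.mul_div_cancel' hqd⟩
      rw [mem_product, mem_pr2, mem_range]
      refine ⟨⟨hqp, hqp.pos, ?_⟩, ?_⟩
      · exact (Nat.le_of_dvd hm.1.1 hqd).trans hm.1.2
      · simp only
        rw [Nat.div_lt_iff_lt_mul hqp.pos]
        exact lt_of_le_of_lt hm.1.2 h4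
  refine (Finset.card_le_card hsub).trans ((Finset.card_union_le _ _).trans ?_)
  apply add_le_add le_rfl
  refine Finset.card_image_le.trans ?_
  rw [Finset.card_product, card_range]
  rfl

/-- integers divisible by the square of a prime above `y` -/
def Bad2 (y X : ℕ) : Finset ℕ :=
  (Finset.Ioc 0 X).filter (fun m => ∃ q ∈ m.primeFactors, y < q ∧ q * q ∣ m)

lemma card_Bad2_le {y X : ℕ} (hy : 1 ≤ y) : ((Bad2 y X).card : ℝ) ≤ X / y := by
  classical
  have hsub : Bad2 y X ⊆ (pr2 y X).biUnion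
      (fun q => (Finset.Ioc 0 X).filter (fun m => q * q ∣ m)) := by
    intro m hm
    unfold Bad2 at hm
    rw [mem_filter, mem_Ioc] at hm
    obtain ⟨h1, q, hq, hyq, hqq⟩ := hm
    rw [mem_biUnion]
    refine ⟨q, ?_, ?_⟩
    · rw [mem_pr2]
      exact ⟨Nat.prime_of_mem_primeFactors hq, hyq,
        (Nat.le_of_dvd h1.1 (Nat.dvd_of_mem_primeFactors hq)).trans h1.2⟩
    · rw [mem_filter, mem_Ioc]; exact ⟨h1, hqq⟩
  have h1 : (Bad2 y X).card ≤ ∑ q ∈ pr2 y X, X / (q * q) := by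
    refine (Finset.card_le_card hsub).trans (Finset.card_biUnion_le.trans ?_)
    apply Finset.sum_le_sum
    intro q _
    rw [Nat.Ioc_filter_dvd_card_eq_div]
  calc ((Bad2 y X).card : ℝ) ≤ ((∑ q ∈ pr2 y X, X / (q * q) : ℕ) : ℝ) := by exact_mod_cast h1
    _ = ∑ q ∈ pr2 y X, ((X / (q * q) : ℕ) : ℝ) := by push_cast; rfl
    _ ≤ ∑ q ∈ pr2 y X, (X : ℝ) * (1 / (q : ℝ) ^ 2) := by
        apply Finset.sum_le_sum
        intro q _
        refine Nat.cast_div_le.trans (le_of_eq ?_)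
        push_cast
        ring
    _ = X * ∑ q ∈ pr2 y X, (1 / (q : ℝ) ^ 2) := by rw [Finset.mul_sum]
    _ ≤ X * (1 / y) := by
        apply mul_le_mul_of_nonneg_left (sum_inv_sq_pr2_le y X hy) (by positivity)
    _ = _ := by ring

/-- the classification of an integer up to `X` -/
lemma classify {w y R X m : ℕ} (hwy : w ≤ y) (hy : 4 ^ R ≤ y) (hm0 : 0 < m) (hmX : m ≤ X) :
    m ∈ E0 y R X ∨ m ∈ Bad2 y X ∨
    (∃ q q' : ℕ, q ≠ q' ∧ q ∣ m ∧ q' ∣ m ∧ Med y R X q ∧ (Med y R X q' ∨ (q'.Prime ∧ q' ≤ w))) ∨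
    m ∈ VV w y R X := by
  by_cases h0 : m ∈ E0 y R X
  · left; exact h0
  right
  by_cases h1 : m ∈ Bad2 y X
  · left; exact h1
  right
  unfold E0 at h0
  rw [mem_filter, mem_Ioc] at h0
  push Not at h0
  obtain ⟨q, hq, hmed⟩ := h0 ⟨hm0, hmX⟩
  have hqp := hmed.1
  have hqd := Nat.dvd_of_mem_primeFactors hq
  by_cases h2 : ∃ q', q' ≠ q ∧ q' ∣ m ∧ (Med y R X q' ∨ (q'.Prime ∧ q' ≤ w))
  · left
    obtain ⟨q', h3, h4, h5⟩ := h2
    exact ⟨q, q', h3.symm, hqd, h4, hmed, h5⟩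
  right
  push Not at h2
  have hqq : ¬ q * q ∣ m := by
    intro hc
    apply h1
    unfold Bad2
    rw [mem_filter, mem_Ioc]
    exact ⟨⟨hm0, hmX⟩, q, hq, hmed.2.1, hc⟩
  obtain ⟨s, rfl⟩ := hqd
  have hs0 : 0 < s := Nat.pos_of_mul_pos_left hm0
  rw [mem_VV]
  refine ⟨s, q, mul_comm _ _, hs0, by rw [mul_comm]; exact hmX, hmed, ?_⟩
  intro ℓ hℓ
  have hℓp := Nat.prime_of_mem_primeFactors hℓ
  have hℓd := Nat.dvd_of_mem_primeFactors hℓ
  have hne : ℓ ≠ q := by
    rintro rfl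
    exact hqq (Nat.mul_dvd_mul_left _ hℓd)
  have h3 := h2 ℓ hne (hℓd.mul_left _)
  constructor
  · exact h3.2 hℓp
  · by_contra hc
    push Not at hc
    have h4 : X < 4 ^ R * ℓ := by
      by_contra hc2
      push Not at hc2
      exact h3.1 ⟨hℓp, hc, hc2⟩
    have h5 : ℓ * q ≤ X := by
      refine le_trans ?_ hmX
      rw [mul_comm]
      exact Nat.mul_le_mul_left _ (Nat.le_of_dvd hs0 hℓd)
    have h6 : y < q := hmed.2.1
    have h7 : 4 ^ R * ℓ ≤ q * ℓ := Nat.mul_le_mul_right _ (by omega)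
    nlinarith

/-! ### Sums of reciprocals -/

/-- Euler product bound for a set of primes. -/
lemma sum_inv_le (P : Finset ℕ) (hP : ∀ q ∈ P, q.Prime) (T : Finset ℕ)
    (hT : ∀ n ∈ T, n ≠ 0 ∧ n.primeFactors ⊆ P) :
    ∑ n ∈ T, (1 : ℝ) / n ≤ ∏ q ∈ P, (1 - (1 : ℝ) / q)⁻¹ := by
  classical
  set K : ℕ := T.sup id + 1 with hK
  have hfac : ∀ n ∈ T, ∀ q, n.factorization q < K := by
    intro n hn q
    have h1 : n.factorization q < n := Nat.factorization_lt q (hT n hn).1
    have h2 : n ≤ T.sup id := Finset.le_sup (f := id) hn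
    omega
  have h1 : ∀ n ∈ T, (1 : ℝ) / n = ∏ q ∈ P, ((1 : ℝ) / q) ^ (n.factorization q) := by
    intro n hn
    have hn0 := (hT n hn).1
    have e2 : ∏ q ∈ P, q ^ (n.factorization q) = n := by
      conv_rhs => rw [← Nat.prod_factorization_pow_eq_self hn0]
      rw [Finsupp.prod]
      symm
      apply Finset.prod_subset
      · intro q hq
        rw [Nat.support_factorization] at hq
        exact (hT n hn).2 hq
      · intro q _ hq
        rw [Finsupp.notMem_support_iff] at hq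
        rw [hq, pow_zero]
    conv_lhs => rw [← e2]
    push_cast
    rw [one_div, ← Finset.prod_inv_distrib]
    apply Finset.prod_congr rfl
    intro q _
    rw [one_div, inv_pow]
  rw [Finset.sum_congr rfl h1]
  refine (euler_bound P (fun _ => range K)
    (fun q a => ((1 : ℝ) / q) ^ a) (fun q a => by positivity) T ?_).trans ?_
  · intro n hn
    refine ⟨(hT n hn).1, (hT n hn).2, ?_⟩
    intro q _
    rw [mem_range]; exact hfac n hn q
  · apply Finset.prod_le_prod
    · intro q _; exact Finset.sum_nonneg fun a _ => by positivity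
    · intro q hq
      have h3 : (1 : ℝ) < q := by exact_mod_cast (hP q hq).one_lt
      have h2 : (1 : ℝ) / q < 1 := by rw [div_lt_one (by linarith)]; exact h3
      exact (Summable.sum_le_tsum _ (fun a _ => by positivity)
        (summable_geometric_of_lt_one (by positivity) h2)).trans_eq
        (tsum_geometric_of_lt_one (by positivity) h2)

lemma sum_inv_Rg_le (w y t : ℕ) : ∑ n ∈ Rg w y t, (1 : ℝ) / n ≤ (sg (lst w y) 1)⁻¹ := by
  rw [sg_lst, ← Finset.prod_inv_distrib]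
  apply sum_inv_le
  · intro q hq; exact (mem_pr2.1 hq).1
  · intro n hn
    rw [mem_Rg] at hn
    refine ⟨by omega, ?_⟩
    intro q hq
    rw [mem_pr2]
    exact ⟨Nat.prime_of_mem_primeFactors hq, (hn.2 q hq).1, (hn.2 q hq).2⟩

lemma sum_inv_Rg_ge : ∃ c : ℝ, 0 < c ∧ ∀ w y : ℕ, 2 ≤ w → w ≤ y →
    c * (Real.log y / Real.log w) ≤ ∑ n ∈ Rg w y y, (1 : ℝ) / n := by
  obtain ⟨c1, C1, hc1, hC1, hM⟩ := mertens_prod
  refine ⟨c1, hc1, ?_⟩
  intro w y hw hwy
  have hlw : 0 < Real.log w := Real.log_pos (by exact_mod_cast (by omega : 1 < w))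
  have h1 : Real.log y ≤ ∑ n ∈ Finset.Ioc 0 y, (1 : ℝ) / n := by
    have h2 := log_add_one_le_harmonic y
    have h3 : ((harmonic y : ℚ) : ℝ) = ∑ n ∈ Finset.Ioc 0 y, (1 : ℝ) / n := by
      rw [harmonic_eq_sum_Icc]
      push_cast
      apply Finset.sum_congr
      · ext n; simp only [mem_Icc, mem_Ioc]; omega
      · intro n _; rw [one_div]
    rw [h3] at h2
    refine le_trans ?_ h2
    apply Real.log_le_log
    · exact_mod_cast (by omega : 0 < y)
    · push_cast; linarith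
  -- decompose into smooth part and rough part
  have h2 : ∑ n ∈ Finset.Ioc 0 y, (1 : ℝ) / n ≤
      (∑ a ∈ Sm w y, (1 : ℝ) / a) * ∑ s ∈ Rg w y y, (1 : ℝ) / s := by
    rw [Finset.sum_mul_sum, ← Finset.sum_product']
    have e1 : ∑ n ∈ Finset.Ioc 0 y, (1 : ℝ) / n =
        ∑ x ∈ (Finset.Ioc 0 y).image (fun n => (sm w n, ro w n)),
          ((1 : ℝ) / x.1) * (1 / x.2) := by
      rw [Finset.sum_image]
      · apply Finset.sum_congr rfl
        intro n hn
        rw [mem_Ioc] at hn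
        have h3 := sm_mul_ro (y := w) (N := n) (by omega)
        conv_lhs => rw [← h3]
        push_cast
        rw [one_div_mul_one_div]
      · intro n hn n' hn' he
        rw [Finset.mem_coe, mem_Ioc] at hn hn'
        simp only [Prod.mk.injEq] at he
        rw [← sm_mul_ro (y := w) (N := n) (by omega), ← sm_mul_ro (y := w) (N := n') (by omega),
          he.1, he.2]
    rw [e1]
    apply Finset.sum_le_sum_of_subset_of_nonneg
    · intro x hx
      rw [mem_image] at hx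
      obtain ⟨n, hn, rfl⟩ := hx
      rw [mem_Ioc] at hn
      have h3 := sm_mul_ro (y := w) (N := n) (by omega)
      have h4 := sm_pos w n
      have h5 := ro_pos w n
      rw [mem_product, mem_Sm, mem_Rg]
      refine ⟨⟨⟨h4, ?_⟩, ?_⟩, ⟨h5, ?_⟩, ?_⟩
      · simp only; nlinarith
      · intro q hq
        exact (prime_dvd_sm (Nat.prime_of_mem_primeFactors hq) (Nat.dvd_of_mem_primeFactors hq)).1
      · simp only; nlinarith
      · intro q hq
        have h6 := prime_dvd_ro (Nat.prime_of_mem_primeFactors hq) (Nat.dvd_of_mem_primeFactors hq)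
        exact ⟨h6.1, (Nat.le_of_dvd hn.1 h6.2).trans hn.2⟩
    · intro x _ _; positivity
  have h3 : ∑ a ∈ Sm w y, (1 : ℝ) / a ≤ Real.log w / c1 := by
    have h4 := sum_inv_le (primesUpTo (w : ℝ))
      (fun q hq => ((mem_primesUpTo (by positivity)).1 hq).1) (Sm w y) (by
        intro n hn
        rw [mem_Sm] at hn
        refine ⟨by omega, ?_⟩
        intro q hq
        rw [mem_primesUpTo (by positivity)]
        exact ⟨Nat.prime_of_mem_primeFactors hq, by exact_mod_cast hn.2 q hq⟩)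
    refine h4.trans ?_
    rw [Finset.prod_inv_distrib]
    have h5 := (hM w (by exact_mod_cast hw)).1
    have h6 : 0 < c1 / Real.log w := by positivity
    calc (∏ q ∈ primesUpTo (w : ℝ), (1 - (1 : ℝ) / q))⁻¹ ≤ (c1 / Real.log w)⁻¹ :=
          inv_anti₀ h6 h5
      _ = _ := by rw [inv_div]
  have h4 : 0 ≤ ∑ s ∈ Rg w y y, (1 : ℝ) / s := Finset.sum_nonneg fun s _ => by positivity
  have h5 : Real.log y ≤ (Real.log w / c1) * ∑ s ∈ Rg w y y, (1 : ℝ) / s :=
    h1.trans (h2.trans (mul_le_mul_of_nonneg_right h3 h4))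
  rw [← mul_div_assoc, div_le_iff₀ hlw]
  rw [div_mul_eq_mul_div, le_div_iff₀ hc1] at h5
  linarith

end Pool.Agent.Helper48.Cov
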