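import Pool.Agent.Helper48.CovAsym
import Pool.Agent.Helper48.CovVV

/-!
# Basic facts about the parameters
-/

set_option autoImplicit false

namespace Pool.Agent.Helper48.Cov

open Finset Filter Pool.Agent.Helper44

lemma half_log {X s : ℕ} (hs : 1 ≤ s) (hss : s * s ≤ X) (hL : (4 : ℝ) ≤ Real.log X) (hX : 4 ≤ X) :
    2 ≤ X / s ∧ Real.log X / 4 ≤ Real.log ((X / s : ℕ) : ℝ) ∧ ((X / s : ℕ) : ℝ) ≤ (X : ℝ) / s := by
  have h1 : s ≤ X / s := (Nat.le_div_iff_mul_le hs).2 hss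
  have h2 : X < s * (X / s + 1) := by
    have h3 := Nat.div_add_mod X s
    have h4 := Nat.mod_lt X (by omega : 0 < s)
    calc X = s * (X / s) + X % s := h3.symm
      _ < s * (X / s) + s := by omega
      _ = _ := by ring
  set n := X / s with hn
  have h3 : X < 2 * (n * n) := by nlinarith
  have hn2 : 2 ≤ n := by
    by_contra hc
    push Not at hc
    have : n ≤ 1 := by omega
    nlinarith
  refine ⟨hn2, ?_, Nat.cast_div_le⟩
  have hn0 : (0 : ℝ) < n := by exact_mod_cast (by omega : 0 < n)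
  have hX0 : (0 : ℝ) < X := by exact_mod_cast (by omega : 0 < X)
  have h4 : (X : ℝ) ≤ 2 * (n * n) := by exact_mod_cast h3.le
  have h5 := Real.log_le_log hX0 h4
  rw [Real.log_mul (by norm_num) (by positivity), Real.log_mul hn0.ne' hn0.ne'] at h5
  have := Real.log_two_lt_d9
  linarith

lemma sg_nonneg_lst {a b : ℕ} (ha : 1 ≤ a) : 0 < sg (lst a b) 1 := by
  apply sg_pos _ (by norm_num)
  intro ℓ hℓ
  rw [mem_lst] at hℓ
  have : 1 < ℓ := by omega
  exact_mod_cast this

lemma w0_ge (X : ℕ) (h : 2 ≤ ii X) : 4 ≤ w0 X := by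
  unfold w0
  calc 4 = 4 ^ 1 := by norm_num
    _ ≤ 4 ^ (8 * ii X) := Nat.pow_le_pow_right (by norm_num) (by omega)

/-- the sieve factor -/
lemma sg_upper : ∃ C : ℝ, 0 < C ∧ ∀ A : ℝ, 1 ≤ A → ∀ X : ℕ, Good A 0 X →
    sg (lst (w0 X) (yy A X)) 1 ≤ C * (ii X * Real.log (RR X) / Real.log X) := by
  obtain ⟨c, C, hc, hC, hsg⟩ := sg_bounds
  refine ⟨C * 24, by positivity, ?_⟩
  intro A hA X h
  have h0 := w0_ge X h.hi2
  have h1 : w0 X ≤ yy A X := h.w_le_y h.ii_le
  have h2 := (hsg (w0 X) (yy A X) (by omega) h1).2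
  refine h2.trans ?_
  have h3 : Real.log (w0 X) ≤ 12 * ii X := log_w_le _
  have h4 := h.inv_logy hA
  have h5 := h.logy_pos
  have hL := h.L_pos
  have hR := h.logR_pos
  calc C * (Real.log (w0 X) / Real.log (yy A X)) =
        C * (Real.log (w0 X) * (1 / Real.log (yy A X))) := by ring
    _ ≤ C * ((12 * ii X) * (2 * Real.log (RR X) / Real.log X)) := by
        gcongr
    _ = _ := by ring

end Pool.Agent.Helper48.Cov
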