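import Pool.Agent.Helper48.CovScale2

/-!
# Sums of the correlation weights
-/

set_option autoImplicit false

namespace Pool.Agent.Helper48.Cov

open Finset

lemma exp_sub_one_le {x : ℝ} (h0 : 0 ≤ x) (h1 : x ≤ 1) : Real.exp x - 1 ≤ 2 * x := by
  have h := Real.abs_exp_sub_one_sub_id_le (x := x) (by rw [abs_of_nonneg h0]; exact h1)
  have h2 := le_abs_self (Real.exp x - 1 - x)
  nlinarith

lemma prod_one_add_le {ι : Type*} (s : Finset ι) (f : ι → ℝ) (hf : ∀ i ∈ s, 0 ≤ f i) :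
    ∏ i ∈ s, (1 + f i) ≤ Real.exp (∑ i ∈ s, f i) := by
  rw [Real.exp_sum]
  apply Finset.prod_le_prod
  · intro i hi
    have := hf i hi
    linarith
  · intro i _
    have := Real.add_one_le_exp (f i)
    linarith

/-- the weight of an integer -/
noncomputable def gs (L : Finset ℕ) (c : ℕ → ℝ) (d : ℤ) : ℝ :=
  ∑ ℓ ∈ L, if (ℓ : ℤ) ∣ d then c ℓ / ℓ else 0

lemma exp_gs (L : Finset ℕ) (c : ℕ → ℝ) (d : ℤ) :
    Real.exp (gs L c d) = ∏ ℓ ∈ L, (1 + if (ℓ : ℤ) ∣ d then (Real.exp (c ℓ / ℓ) - 1) else 0) := by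
  unfold gs
  rw [Real.exp_sum]
  apply Finset.prod_congr rfl
  intro ℓ _
  split_ifs <;> simp

lemma exp_gs_expand (L : Finset ℕ) (c : ℕ → ℝ) (d : ℤ) :
    Real.exp (gs L c d) - 1 = ∑ E ∈ L.powerset.erase ∅,
      if (∀ ℓ ∈ E, (ℓ : ℤ) ∣ d) then ∏ ℓ ∈ E, (Real.exp (c ℓ / ℓ) - 1) else 0 := by
  rw [exp_gs, Finset.prod_one_add]
  have h1 : ∀ E ∈ L.powerset, ∏ ℓ ∈ E, (if (ℓ : ℤ) ∣ d then (Real.exp (c ℓ / ℓ) - 1) else 0) =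
      if (∀ ℓ ∈ E, (ℓ : ℤ) ∣ d) then ∏ ℓ ∈ E, (Real.exp (c ℓ / ℓ) - 1) else 0 := by
    intro E _
    rw [Finset.prod_ite_zero]
  rw [Finset.sum_congr rfl h1, ← Finset.add_sum_erase _ _ (Finset.empty_mem_powerset L)]
  simp

lemma gs_nonneg {L : Finset ℕ} {c : ℕ → ℝ} (hc : ∀ ℓ ∈ L, 0 ≤ c ℓ) (d : ℤ) : 0 ≤ gs L c d := by
  unfold gs
  apply Finset.sum_nonneg
  intro ℓ hℓ
  have := hc ℓ hℓ
  split_ifs <;> positivity

lemma h_nonneg {L : Finset ℕ} {c : ℕ → ℝ} (hc : ∀ ℓ ∈ L, 0 ≤ c ℓ) :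
    ∀ ℓ ∈ L, 0 ≤ Real.exp (c ℓ / ℓ) - 1 := by
  intro ℓ hℓ
  have h1 := hc ℓ hℓ
  have h2 : 0 ≤ c ℓ / ℓ := by positivity
  have := Real.add_one_le_exp (c ℓ / ℓ)
  linarith

lemma h_le {L : Finset ℕ} {c : ℕ → ℝ} (hc : ∀ ℓ ∈ L, 0 ≤ c ℓ) (hc1 : ∀ ℓ ∈ L, c ℓ ≤ ℓ) :
    ∀ ℓ ∈ L, Real.exp (c ℓ / ℓ) - 1 ≤ 2 * (c ℓ / ℓ) := by
  intro ℓ hℓ
  apply exp_sub_one_le
  · have := hc ℓ hℓ; positivity
  · exact div_le_one_of_le₀ (hc1 ℓ hℓ) (by positivity)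

lemma prod_dvd_of_all {E : Finset ℕ} (hE : ∀ ℓ ∈ E, ℓ.Prime) {d : ℕ} (h : ∀ ℓ ∈ E, ℓ ∣ d) :
    ∏ ℓ ∈ E, ℓ ∣ d := by
  apply Finset.prod_primes_dvd
  · intro ℓ hℓ; exact (hE ℓ hℓ).prime
  · exact h

/-- First correlation sum. -/
lemma sum_exp_gs_le {L : Finset ℕ} (hL : ∀ ℓ ∈ L, ℓ.Prime) {c : ℕ → ℝ} (hc : ∀ ℓ ∈ L, 0 ≤ c ℓ)
    (hc1 : ∀ ℓ ∈ L, c ℓ ≤ ℓ) (hS : ∑ ℓ ∈ L, 2 * c ℓ / (ℓ : ℝ) ^ 2 ≤ 1) (X : ℕ) :
    ∑ d ∈ Finset.Ioc 0 X, (Real.exp (gs L c (d : ℕ)) - 1) ≤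
      X * (2 * ∑ ℓ ∈ L, 2 * c ℓ / (ℓ : ℝ) ^ 2) := by
  have hh := h_nonneg hc
  have hh2 := h_le hc hc1
  simp_rw [exp_gs_expand]
  rw [Finset.sum_comm]
  have h1 : ∀ E ∈ L.powerset.erase ∅, ∑ d ∈ Finset.Ioc 0 X,
      (if (∀ ℓ ∈ E, (ℓ : ℤ) ∣ ((d : ℕ) : ℤ)) then ∏ ℓ ∈ E, (Real.exp (c ℓ / ℓ) - 1) else 0) ≤
      X * ∏ ℓ ∈ E, ((Real.exp (c ℓ / ℓ) - 1) / ℓ) := by
    intro E hE
    have hEL : E ⊆ L := Finset.mem_powerset.1 (Finset.mem_of_mem_erase hE)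
    have hEp : ∀ ℓ ∈ E, ℓ.Prime := fun ℓ hℓ => hL ℓ (hEL hℓ)
    have hprod : 0 ≤ ∏ ℓ ∈ E, (Real.exp (c ℓ / ℓ) - 1) :=
      Finset.prod_nonneg fun ℓ hℓ => hh ℓ (hEL hℓ)
    rw [← Finset.sum_filter, Finset.sum_const, nsmul_eq_mul, Finset.prod_div_distrib]
    have hpos : (0 : ℝ) < ∏ ℓ ∈ E, (ℓ : ℝ) :=
      Finset.prod_pos fun ℓ hℓ => by exact_mod_cast (hEp ℓ hℓ).pos
    have hcard : (((Finset.Ioc 0 X).filter (fun d : ℕ => ∀ ℓ ∈ E, (ℓ : ℤ) ∣ (d : ℤ))).card : ℝ) ≤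
        X / ∏ ℓ ∈ E, (ℓ : ℝ) := by
      have hsub : (Finset.Ioc 0 X).filter (fun d : ℕ => ∀ ℓ ∈ E, (ℓ : ℤ) ∣ (d : ℤ)) ⊆
          (Finset.Ioc 0 X).filter (fun d : ℕ => (∏ ℓ ∈ E, ℓ) ∣ d) := by
        intro d hd
        rw [mem_filter] at hd ⊢
        refine ⟨hd.1, prod_dvd_of_all hEp fun ℓ hℓ => ?_⟩
        exact_mod_cast hd.2 ℓ hℓ
      have h2 := Finset.card_le_card hsub
      rw [Nat.Ioc_filter_dvd_card_eq_div] at h2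
      calc (((Finset.Ioc 0 X).filter (fun d : ℕ => ∀ ℓ ∈ E, (ℓ : ℤ) ∣ (d : ℤ))).card : ℝ)
          ≤ ((X / ∏ ℓ ∈ E, ℓ : ℕ) : ℝ) := by exact_mod_cast h2
        _ ≤ (X : ℝ) / ((∏ ℓ ∈ E, ℓ : ℕ) : ℝ) := Nat.cast_div_le
        _ = _ := by push_cast; rfl
    calc (((Finset.Ioc 0 X).filter (fun d : ℕ => ∀ ℓ ∈ E, (ℓ : ℤ) ∣ (d : ℤ))).card : ℝ) *
          ∏ ℓ ∈ E, (Real.exp (c ℓ / ℓ) - 1)
        ≤ (X / ∏ ℓ ∈ E, (ℓ : ℝ)) * ∏ ℓ ∈ E, (Real.exp (c ℓ / ℓ) - 1) := by gcongr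
      _ = _ := by ring
  refine (Finset.sum_le_sum h1).trans ?_
  rw [← Finset.mul_sum]
  apply mul_le_mul_of_nonneg_left _ (by positivity)
  have h2 : ∑ E ∈ L.powerset.erase ∅, ∏ ℓ ∈ E, ((Real.exp (c ℓ / ℓ) - 1) / ℓ) =
      ∏ ℓ ∈ L, (1 + (Real.exp (c ℓ / ℓ) - 1) / ℓ) - 1 := by
    rw [Finset.prod_one_add, ← Finset.add_sum_erase _ _ (Finset.empty_mem_powerset L)]
    simp
  rw [h2]
  have h3 : ∏ ℓ ∈ L, (1 + (Real.exp (c ℓ / ℓ) - 1) / ℓ) ≤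
      Real.exp (∑ ℓ ∈ L, (Real.exp (c ℓ / ℓ) - 1) / ℓ) := by
    apply prod_one_add_le
    intro ℓ hℓ
    have := hh ℓ hℓ
    positivity
  have h4 : ∑ ℓ ∈ L, (Real.exp (c ℓ / ℓ) - 1) / ℓ ≤ ∑ ℓ ∈ L, 2 * c ℓ / (ℓ : ℝ) ^ 2 := by
    apply Finset.sum_le_sum
    intro ℓ hℓ
    have h5 := hh2 ℓ hℓ
    have h6 : (0 : ℝ) < ℓ := by exact_mod_cast (hL ℓ hℓ).pos
    calc (Real.exp (c ℓ / ℓ) - 1) / ℓ ≤ (2 * (c ℓ / ℓ)) / ℓ := by gcongr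
      _ = _ := by field_simp
  have h5 : 0 ≤ ∑ ℓ ∈ L, (Real.exp (c ℓ / ℓ) - 1) / ℓ := by
    apply Finset.sum_nonneg
    intro ℓ hℓ
    have := hh ℓ hℓ
    positivity
  have h6 := exp_sub_one_le h5 (h4.trans hS)
  linarith

lemma sum_offdiag_le (V : Finset ℕ) (X : ℕ) (hV : ∀ t ∈ V, t ≤ X) (f : ℤ → ℝ)
    (hf : ∀ d, 0 ≤ f d) (hsymm : ∀ d, f (-d) = f d) :
    ∑ t ∈ V, ∑ t' ∈ V, (if t ≠ t' then f ((t : ℤ) - t') else 0) ≤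
      2 * V.card * ∑ d ∈ Finset.Ioc 0 X, f (d : ℕ) := by
  have h1 : ∀ t ∈ V, ∑ t' ∈ V, (if t ≠ t' then f ((t : ℤ) - t') else 0) ≤
      2 * ∑ d ∈ Finset.Ioc 0 X, f (d : ℕ) := by
    intro t ht
    have e1 : ∑ t' ∈ V, (if t ≠ t' then f ((t : ℤ) - t') else 0) =
        ∑ t' ∈ V.filter (fun t' => t' < t), f ((t : ℤ) - t') +
          ∑ t' ∈ V.filter (fun t' => t < t'), f ((t : ℤ) - t') := by
      rw [Finset.sum_filter, Finset.sum_filter, ← Finset.sum_add_distrib]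
      apply Finset.sum_congr rfl
      intro t' _
      rcases lt_trichotomy t t' with h | h | h
      · rw [if_pos h.ne, if_neg (by omega), if_pos h, zero_add]
      · subst h; simp
      · rw [if_pos h.ne', if_pos h, if_neg (by omega), add_zero]
    rw [e1, two_mul]
    apply add_le_add
    · have e2 : ∑ t' ∈ V.filter (fun t' => t' < t), f ((t : ℤ) - t') =
          ∑ d ∈ (V.filter (fun t' => t' < t)).image (fun t' => t - t'), f (d : ℕ) := by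
        rw [Finset.sum_image]
        · apply Finset.sum_congr rfl
          intro t' ht'
          rw [mem_filter] at ht'
          rw [Nat.cast_sub ht'.2.le]
        · intro x hx y hy hxy
          rw [Finset.mem_coe, mem_filter] at hx hy
          simp only at hxy
          omega
      rw [e2]
      apply Finset.sum_le_sum_of_subset_of_nonneg
      · intro d hd
        rw [mem_image] at hd
        obtain ⟨t', ht', rfl⟩ := hd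
        rw [mem_filter] at ht'
        rw [mem_Ioc]
        have := hV t ht
        omega
      · intro d _ _; exact hf _
    · have e2 : ∑ t' ∈ V.filter (fun t' => t < t'), f ((t : ℤ) - t') =
          ∑ d ∈ (V.filter (fun t' => t < t')).image (fun t' => t' - t), f (d : ℕ) := by
        rw [Finset.sum_image]
        · apply Finset.sum_congr rfl
          intro t' ht'
          rw [mem_filter] at ht'
          rw [Nat.cast_sub ht'.2.le, ← hsymm]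
          congr 1
          ring
        · intro x hx y hy hxy
          rw [Finset.mem_coe, mem_filter] at hx hy
          simp only at hxy
          omega
      rw [e2]
      apply Finset.sum_le_sum_of_subset_of_nonneg
      · intro d hd
        rw [mem_image] at hd
        obtain ⟨t', ht', rfl⟩ := hd
        rw [mem_filter] at ht'
        rw [mem_Ioc]
        have := hV t' ht'.1
        omega
      · intro d _ _; exact hf _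
  refine (Finset.sum_le_sum h1).trans (le_of_eq ?_)
  rw [Finset.sum_const, nsmul_eq_mul]
  ring

/-- Second correlation sum: prime pairs. -/
lemma sum_pair_gs_le {L : Finset ℕ} (hL : ∀ ℓ ∈ L, ℓ.Prime) {c : ℕ → ℝ} (hc : ∀ ℓ ∈ L, 0 ≤ c ℓ)
    (hc1 : ∀ ℓ ∈ L, c ℓ ≤ ℓ) (hS : ∑ ℓ ∈ L, 4 * c ℓ / (ℓ : ℝ) ^ 2 ≤ 1) (P : Finset ℕ)
    (hP : ∀ p ∈ P, p.Prime ∧ p ∉ L) (J : ℕ) (hJ : ∀ ℓ ∈ L, J < ℓ) {K1 K2 : ℝ} (hK1 : 0 ≤ K1)
    (hK2 : 0 ≤ K2)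
    (hN : ∀ E ⊆ L, ∀ r : ℕ, ((P.filter (fun p => p % (∏ ℓ ∈ E, ℓ) = r)).card : ℝ) ≤
      K1 * 2 ^ E.card / ∏ ℓ ∈ E, (ℓ : ℝ) + K2) {p : ℕ} (hp : p ∈ P) {j j' : ℤ}
    (hjj : (j, j') ∈ box J) :
    ∑ p' ∈ P, (if p ≠ p' then (Real.exp (gs L c (j * p - j' * p')) - 1) else 0) ≤
      K1 * (2 * ∑ ℓ ∈ L, 4 * c ℓ / (ℓ : ℝ) ^ 2) + K2 * Real.exp (∑ ℓ ∈ L, 2 * c ℓ / (ℓ : ℝ)) := by
  have hh := h_nonneg hc
  have hh2 := h_le hc hc1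
  unfold box at hjj
  rw [mem_erase, mem_product, mem_Icc, mem_Icc] at hjj
  obtain ⟨hne, hj, hj'⟩ := hjj
  simp only at hj hj'
  -- swap
  have h1 : ∑ p' ∈ P, (if p ≠ p' then (Real.exp (gs L c (j * p - j' * p')) - 1) else 0) ≤
      ∑ E ∈ L.powerset.erase ∅, ∑ p' ∈ P,
        (if (∀ ℓ ∈ E, (ℓ : ℤ) ∣ (j * p - j' * p')) then ∏ ℓ ∈ E, (Real.exp (c ℓ / ℓ) - 1) else 0) := by
    rw [Finset.sum_comm]
    apply Finset.sum_le_sum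
    intro p' _
    rw [← exp_gs_expand]
    split_ifs
    · exact le_rfl
    · have h2 := gs_nonneg hc (j * p - j' * p')
      have := Real.add_one_le_exp (gs L c (j * p - j' * p'))
      linarith
  refine h1.trans ?_
  have h2 : ∀ E ∈ L.powerset.erase ∅, ∑ p' ∈ P,
        (if (∀ ℓ ∈ E, (ℓ : ℤ) ∣ (j * p - j' * p')) then ∏ ℓ ∈ E, (Real.exp (c ℓ / ℓ) - 1) else 0) ≤
      K1 * ∏ ℓ ∈ E, (2 * (Real.exp (c ℓ / ℓ) - 1) / ℓ) + K2 * ∏ ℓ ∈ E, (Real.exp (c ℓ / ℓ) - 1) := by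
    intro E hE
    have hEne : E ≠ ∅ := Finset.ne_of_mem_erase hE
    have hEL : E ⊆ L := Finset.mem_powerset.1 (Finset.mem_of_mem_erase hE)
    have hEp : ∀ ℓ ∈ E, ℓ.Prime := fun ℓ hℓ => hL ℓ (hEL hℓ)
    have hprod : 0 ≤ ∏ ℓ ∈ E, (Real.exp (c ℓ / ℓ) - 1) :=
      Finset.prod_nonneg fun ℓ hℓ => hh ℓ (hEL hℓ)
    have hprod2 : 0 ≤ ∏ ℓ ∈ E, (2 * (Real.exp (c ℓ / ℓ) - 1) / ℓ) :=
      Finset.prod_nonneg fun ℓ hℓ => by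
        have := hh ℓ (hEL hℓ)
        positivity
    rw [← Finset.sum_filter, Finset.sum_const, nsmul_eq_mul]
    obtain ⟨ℓ0, hℓ0⟩ := Finset.nonempty_iff_ne_empty.2 hEne
    -- no common factor with the multipliers
    have hcop : ∀ ℓ ∈ E, ∀ i : ℤ, (-(J : ℤ) ≤ i ∧ i ≤ J) → (ℓ : ℤ) ∣ i → i = 0 := by
      intro ℓ hℓ i hi hdvd
      by_contra hi0
      have h3 := Int.le_of_dvd (abs_pos.2 hi0) ((dvd_abs _ _).2 hdvd)
      have h4 : |i| ≤ J := abs_le.2 hi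
      have h5 := hJ ℓ (hEL hℓ)
      omega
    have hprimeZ : ∀ ℓ ∈ E, Prime (ℓ : ℤ) := fun ℓ hℓ => Nat.prime_iff_prime_int.1 (hEp ℓ hℓ)
    have hnP : ∀ ℓ ∈ E, ∀ q ∈ P, ¬ (ℓ : ℤ) ∣ (q : ℤ) := by
      intro ℓ hℓ q hq hdvd
      have h3 : ℓ ∣ q := by exact_mod_cast hdvd
      have h4 := (Nat.prime_dvd_prime_iff_eq (hEp ℓ hℓ) (hP q hq).1).1 h3
      exact (hP q hq).2 (h4 ▸ hEL hℓ)
    by_cases hem : (P.filter (fun p' : ℕ => ∀ ℓ ∈ E, (ℓ : ℤ) ∣ (j * p - j' * (p' : ℤ)))).card = 0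
    · rw [hem]
      have : 0 ≤ K1 * ∏ ℓ ∈ E, (2 * (Real.exp (c ℓ / ℓ) - 1) / ℓ) := mul_nonneg hK1 hprod2
      have : 0 ≤ K2 * ∏ ℓ ∈ E, (Real.exp (c ℓ / ℓ) - 1) := mul_nonneg hK2 hprod
      simp only [Nat.cast_zero, zero_mul]
      linarith
    · obtain ⟨p0, hp0⟩ := Finset.card_pos.1 (Nat.pos_of_ne_zero hem)
      rw [mem_filter] at hp0
      -- `j'` is nonzero
      have hj'0 : j' ≠ 0 := by
        intro h0
        have h3 := hp0.2 ℓ0 hℓ0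
        rw [h0, zero_mul, sub_zero] at h3
        rcases (hprimeZ ℓ0 hℓ0).dvd_or_dvd h3 with h4 | h4
        · exact hne (by rw [hcop ℓ0 hℓ0 j hj h4, h0])
        · exact hnP ℓ0 hℓ0 p hp h4
      have hsub : P.filter (fun p' : ℕ => ∀ ℓ ∈ E, (ℓ : ℤ) ∣ (j * p - j' * (p' : ℤ))) ⊆
          P.filter (fun p' : ℕ => p' % (∏ ℓ ∈ E, ℓ) = p0 % (∏ ℓ ∈ E, ℓ)) := by
        intro p' hp'
        rw [mem_filter] at hp' ⊢
        refine ⟨hp'.1, ?_⟩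
        have h3 : ∀ ℓ ∈ E, (ℓ : ℤ) ∣ (p' : ℤ) - p0 := by
          intro ℓ hℓ
          have h4 := hp0.2 ℓ hℓ
          have h5 := hp'.2 ℓ hℓ
          have h6 : (ℓ : ℤ) ∣ j' * ((p' : ℤ) - p0) := by
            have := dvd_sub h4 h5
            have e : j * (p : ℤ) - j' * p0 - (j * p - j' * p') = j' * ((p' : ℤ) - p0) := by ring
            rwa [e] at this
          rcases (hprimeZ ℓ hℓ).dvd_or_dvd h6 with h7 | h7
          · exact absurd (hcop ℓ hℓ j' hj' h7) hj'0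
          · exact h7
        have h4 : ((∏ ℓ ∈ E, ℓ : ℕ) : ℤ) ∣ (p' : ℤ) - p0 := by
          rw [Int.natCast_dvd]
          apply prod_dvd_of_all hEp
          intro ℓ hℓ
          rw [← Int.natCast_dvd]
          exact h3 ℓ hℓ
        have h5 : p0 ≡ p' [MOD ∏ ℓ ∈ E, ℓ] := (Nat.modEq_iff_dvd).2 h4
        exact h5.symm
      have h3 : ((P.filter (fun p' : ℕ => ∀ ℓ ∈ E, (ℓ : ℤ) ∣ (j * p - j' * (p' : ℤ)))).card : ℝ) ≤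
          K1 * 2 ^ E.card / ∏ ℓ ∈ E, (ℓ : ℝ) + K2 :=
        le_trans (by exact_mod_cast Finset.card_le_card hsub) (hN E hEL _)
      calc _ ≤ (K1 * 2 ^ E.card / ∏ ℓ ∈ E, (ℓ : ℝ) + K2) * ∏ ℓ ∈ E, (Real.exp (c ℓ / ℓ) - 1) := by
            gcongr
        _ = _ := by
            rw [Finset.prod_div_distrib, Finset.prod_mul_distrib, Finset.prod_const]
            ring
  refine (Finset.sum_le_sum h2).trans ?_
  rw [Finset.sum_add_distrib, ← Finset.mul_sum, ← Finset.mul_sum]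
  apply add_le_add
  · apply mul_le_mul_of_nonneg_left _ hK1
    have h3 : ∑ E ∈ L.powerset.erase ∅, ∏ ℓ ∈ E, (2 * (Real.exp (c ℓ / ℓ) - 1) / ℓ) =
        ∏ ℓ ∈ L, (1 + 2 * (Real.exp (c ℓ / ℓ) - 1) / ℓ) - 1 := by
      rw [Finset.prod_one_add, ← Finset.add_sum_erase _ _ (Finset.empty_mem_powerset L)]
      simp
    rw [h3]
    have h4 : ∏ ℓ ∈ L, (1 + 2 * (Real.exp (c ℓ / ℓ) - 1) / ℓ) ≤
        Real.exp (∑ ℓ ∈ L, 2 * (Real.exp (c ℓ / ℓ) - 1) / ℓ) := by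
      apply prod_one_add_le
      intro ℓ hℓ
      have := hh ℓ hℓ
      positivity
    have h5 : ∑ ℓ ∈ L, 2 * (Real.exp (c ℓ / ℓ) - 1) / ℓ ≤ ∑ ℓ ∈ L, 4 * c ℓ / (ℓ : ℝ) ^ 2 := by
      apply Finset.sum_le_sum
      intro ℓ hℓ
      have h5 := hh2 ℓ hℓ
      have h6 : (0 : ℝ) < ℓ := by exact_mod_cast (hL ℓ hℓ).pos
      calc 2 * (Real.exp (c ℓ / ℓ) - 1) / ℓ ≤ 2 * (2 * (c ℓ / ℓ)) / ℓ := by gcongr
        _ = _ := by field_simp; ring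
    have h6 : 0 ≤ ∑ ℓ ∈ L, 2 * (Real.exp (c ℓ / ℓ) - 1) / ℓ := by
      apply Finset.sum_nonneg
      intro ℓ hℓ
      have := hh ℓ hℓ
      positivity
    have h7 := exp_sub_one_le h6 (h5.trans hS)
    linarith
  · apply mul_le_mul_of_nonneg_left _ hK2
    have h3 : ∑ E ∈ L.powerset.erase ∅, ∏ ℓ ∈ E, (Real.exp (c ℓ / ℓ) - 1) ≤
        ∑ E ∈ L.powerset, ∏ ℓ ∈ E, (Real.exp (c ℓ / ℓ) - 1) := by
      apply Finset.sum_le_sum_of_subset_of_nonneg (Finset.erase_subset _ _)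
      intro E hE _
      exact Finset.prod_nonneg fun ℓ hℓ => hh ℓ (Finset.mem_powerset.1 hE hℓ)
    rw [← Finset.prod_one_add] at h3
    refine h3.trans ((prod_one_add_le _ _ hh).trans ?_)
    apply Real.exp_le_exp.2
    apply Finset.sum_le_sum
    intro ℓ hℓ
    have h5 := hh2 ℓ hℓ
    calc Real.exp (c ℓ / ℓ) - 1 ≤ 2 * (c ℓ / ℓ) := h5
      _ = _ := by ring

end Pool.Agent.Helper48.Cov
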