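import Pool.Agent.Helper48.CovVV
import Pool.Agent.Helper48.CovG
import Pool.Agent.Helper48.CovBrun

/-!
# The concrete scales
-/

set_option autoImplicit false

namespace Pool.Agent.Helper48.Cov

open Finset Pool.Agent.Helper44

/-- primes of the scale `i` -/
def PP (X i : ℕ) : Finset ℕ := pr2 (X / 4 ^ (i + 1)) (X / 4 ^ i)

lemma mem_PP {X i p : ℕ} : p ∈ PP X i ↔ p.Prime ∧ X < 4 ^ (i + 1) * p ∧ 4 ^ i * p ≤ X := by
  unfold PP
  rw [mem_pr2, Nat.div_lt_iff_lt_mul (by positivity), Nat.le_div_iff_mul_le (by positivity),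
    mul_comm p, mul_comm p]

lemma crt_eq {X p l t t' : ℕ} (hc : p.Coprime l) (hX : X < p * l) (ht : t ≤ X) (ht' : t' ≤ X)
    (h1 : t % p = t' % p) (h2 : t % l = t' % l) : t = t' := by
  have h3 : t ≡ t' [MOD p * l] := (Nat.modEq_and_modEq_iff_modEq_mul hc).1 ⟨h1, h2⟩
  exact Nat.ModEq.eq_of_lt_of_lt h3 (lt_of_le_of_lt ht hX) (lt_of_le_of_lt ht' hX)

lemma VV_le {w y R X m : ℕ} (h : m ∈ VV w y R X) : m ≤ X := by
  unfold VV at h
  rw [mem_filter, mem_Ioc] at h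
  exact h.1.2

theorem exists_scale (w0 w y R X i k : ℕ) (hw0 : 4 ≤ w0) (hw0w : w0 ≤ w) (hwy : w ≤ y)
    (hJw : 4 ^ (i + 1) ≤ w) (hk : 1 ≤ k) (hkw : 4 * k ≤ w) (hiR : i < R) (hy : 4 ^ R * y < X) :
    ∃ S : Scale, S.V0 = VV w0 y R X ∧ S.l1 = lst w0 w ∧ S.l2 = lst w y ∧ S.P = PP X i ∧ S.k = k ∧
      S.J = 4 ^ (i + 1) := by
  classical
  have hpy : ∀ p ∈ PP X i, y < p := by
    intro p hp
    rw [mem_PP] at hp
    have h1 : 4 ^ (i + 1) ≤ 4 ^ R := Nat.pow_le_pow_right (by norm_num) hiR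
    by_contra hc
    push Not at hc
    have h2 : 4 ^ (i + 1) * p ≤ 4 ^ R * y := Nat.mul_le_mul h1 hc
    omega
  refine ⟨{ V0 := VV w0 y R X, l1 := lst w0 w, l2 := lst w y, P := PP X i, k := k,
            J := 4 ^ (i + 1),
            Bl := fun p V => if hp : 0 < p then (exists_blocks p k hp hk V).choose else ∅,
            hk := hk, hl1 := ?_, hl2 := ?_, hnd := ?_, hP := ?_, hBl := ?_, hdist := ?_, hJ := ?_,
            hshare := ?_ }, rfl, rfl, rfl, rfl, rfl, rfl⟩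
  · intro ℓ hℓ
    rw [mem_lst] at hℓ
    omega
  · intro ℓ hℓ
    rw [mem_lst] at hℓ
    omega
  · rw [lst_append hw0w hwy]
    exact lst_nodup _ _
  · intro p hp
    exact (mem_PP.1 hp).1.pos
  · intro p hp V
    have hp0 := (mem_PP.1 hp).1.pos
    simp only [dif_pos hp0]
    exact (exists_blocks p k hp0 hk V).choose_spec
  · intro p hp ℓ hℓ t ht t' ht' h1 h2
    have hpp := mem_PP.1 hp
    rw [mem_lst] at hℓ
    have hne : p ≠ ℓ := by
      have := hpy p hp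
      omega
    apply crt_eq ((Nat.coprime_primes hpp.1 hℓ.1).2 hne) _ (VV_le ht) (VV_le ht') h1 h2
    calc X < 4 ^ (i + 1) * p := hpp.2.1
      _ ≤ ℓ * p := Nat.mul_le_mul_right _ (by omega)
      _ = p * ℓ := mul_comm _ _
  · intro p hp t ht t' ht' h1
    have hpp := mem_PP.1 hp
    have hp0 := hpp.1.pos
    have h2 : (p : ℤ) ∣ (t : ℤ) - t' := (Nat.modEq_iff_dvd).1 (show t' ≡ t [MOD p] from h1.symm)
    obtain ⟨j, hj⟩ := h2
    refine ⟨j, ?_, by rw [hj]; ring⟩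
    have h3 : |(t : ℤ) - t'| ≤ X := by
      have := VV_le ht
      have := VV_le ht'
      rw [abs_le]
      constructor <;> omega
    rw [hj, abs_mul] at h3
    by_contra hc
    push Not at hc
    have h4 : (X : ℤ) < 4 ^ (i + 1) * p := by exact_mod_cast hpp.2.1
    have h5 : (0 : ℤ) < p := by exact_mod_cast hp0
    rw [abs_of_pos h5] at h3
    push_cast at hc
    nlinarith
  · intro p hp p' hp' hne t ht t' ht' h1 h2
    have hpp := mem_PP.1 hp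
    have hpp' := mem_PP.1 hp'
    apply crt_eq ((Nat.coprime_primes hpp.1 hpp'.1).2 hne) _ (VV_le ht) (VV_le ht') h1 h2
    have h3 := hpy p' hp'
    calc X < 4 ^ (i + 1) * p := hpp.2.1
      _ ≤ p' * p := Nat.mul_le_mul_right _ (by omega)
      _ = p * p' := mul_comm _ _

/-! ### Correlation hypotheses -/

lemma gz_lst (a b : ℕ) (d : ℤ) (c : ℝ) :
    c * gz (lst a b) d = gs (pr2 a b) (fun _ => 2 * c) d := by
  unfold gz gs
  rw [sum_lst, Finset.mul_sum]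
  apply Finset.sum_congr rfl
  intro ℓ _
  split_ifs
  · ring
  · ring

lemma pr2_union {a b c : ℕ} (hab : a ≤ b) (hbc : b ≤ c) : pr2 a c = pr2 a b ∪ pr2 b c := by
  ext q
  simp only [mem_union, mem_pr2]
  constructor
  · rintro ⟨h4, h5, h6⟩
    by_cases h7 : q ≤ b
    · left; exact ⟨h4, h5, h7⟩
    · right; exact ⟨h4, by omega, h6⟩
  · rintro (⟨h4, h5, h6⟩ | ⟨h4, h5, h6⟩)
    · exact ⟨h4, h5, by omega⟩
    · exact ⟨h4, by omega, h6⟩

lemma pr2_disjoint (a b c : ℕ) : Disjoint (pr2 a b) (pr2 b c) := by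
  rw [Finset.disjoint_left]
  intro q h4 h5
  rw [mem_pr2] at h4 h5
  omega

/-- First hypothesis of the scale theorem. -/
theorem H1_of (S : Scale) {w0 w y R X : ℕ} (hV : S.V0 = VV w0 y R X) (hl1 : S.l1 = lst w0 w)
    (hl2 : S.l2 = lst w y) (hw0 : 4 ≤ w0) (hw0w : w0 ≤ w) (hwy : w ≤ y)
    (hkw : 2 * S.k ^ 2 ≤ w) (hS : 4 / (w0 : ℝ) + 4 * (S.k : ℝ) ^ 2 / w ≤ 1)
    (hVpos : 0 < S.V0.card) :
    ∑ t ∈ S.V0, ∑ t' ∈ S.V0, (if t ≠ t' then
      Real.exp ((S.k : ℝ) ^ 2 * gw S.l2 (t, t')) * Real.exp (gw S.l1 (t, t')) else 0) ≤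
      (1 + 4 * X * (4 / (w0 : ℝ) + 4 * (S.k : ℝ) ^ 2 / w) / S.V0.card) * (S.V0.card : ℝ) ^ 2 := by
  set Sg : ℝ := 4 / (w0 : ℝ) + 4 * (S.k : ℝ) ^ 2 / w with hSg
  have hSg0 : 0 ≤ Sg := by positivity
  set c : ℕ → ℝ := fun ℓ => if ℓ ≤ w then 2 else 2 * (S.k : ℝ) ^ 2 with hc
  have hw0R : (0 : ℝ) < w0 := by exact_mod_cast (by omega : 0 < w0)
  have hwR : (0 : ℝ) < w := by exact_mod_cast (by omega : 0 < w)
  have hc0 : ∀ ℓ, 0 ≤ c ℓ := by
    intro ℓ; simp only [hc]; split_ifs <;> positivity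
  have hexp : ∀ t t' : ℕ, Real.exp ((S.k : ℝ) ^ 2 * gw S.l2 (t, t')) * Real.exp (gw S.l1 (t, t')) =
      Real.exp (gs (pr2 w0 y) c ((t : ℤ) - t')) := by
    intro t t'
    rw [← Real.exp_add, gw_eq_gz, gw_eq_gz, hl1, hl2, gz_lst, ← one_mul (gz (lst w0 w) _), gz_lst]
    congr 1
    unfold gs
    rw [pr2_union hw0w hwy, Finset.sum_union (pr2_disjoint _ _ _), add_comm]
    congr 1
    · apply Finset.sum_congr rfl
      intro ℓ hℓ
      rw [mem_pr2] at hℓ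
      simp only [hc]
      rw [if_pos hℓ.2.2]
      norm_num
    · apply Finset.sum_congr rfl
      intro ℓ hℓ
      rw [mem_pr2] at hℓ
      simp only [hc]
      rw [if_neg (by omega : ¬ ℓ ≤ w)]
  have hL : ∀ ℓ ∈ pr2 w0 y, ℓ.Prime := fun ℓ hℓ => (mem_pr2.1 hℓ).1
  have hcle : ∀ ℓ ∈ pr2 w0 y, c ℓ ≤ ℓ := by
    intro ℓ hℓ
    rw [mem_pr2] at hℓ
    simp only [hc]
    split_ifs with h
    · have : 2 ≤ ℓ := by omega
      exact_mod_cast this
    · have : 2 * S.k ^ 2 ≤ ℓ := by omega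
      exact_mod_cast this
  have hsum : ∑ ℓ ∈ pr2 w0 y, 2 * c ℓ / (ℓ : ℝ) ^ 2 ≤ Sg := by
    rw [pr2_union hw0w hwy, Finset.sum_union (pr2_disjoint _ _ _), hSg]
    apply add_le_add
    · calc ∑ ℓ ∈ pr2 w0 w, 2 * c ℓ / (ℓ : ℝ) ^ 2 = 4 * ∑ ℓ ∈ pr2 w0 w, (1 / (ℓ : ℝ) ^ 2) := by
            rw [Finset.mul_sum]
            apply Finset.sum_congr rfl
            intro ℓ hℓ
            rw [mem_pr2] at hℓ
            simp only [hc]
            rw [if_pos hℓ.2.2]; ring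
        _ ≤ 4 * (1 / (w0 : ℝ)) := by
            apply mul_le_mul_of_nonneg_left (sum_inv_sq_pr2_le w0 w (by omega)) (by norm_num)
        _ = _ := by ring
    · calc ∑ ℓ ∈ pr2 w y, 2 * c ℓ / (ℓ : ℝ) ^ 2 =
            (4 * (S.k : ℝ) ^ 2) * ∑ ℓ ∈ pr2 w y, (1 / (ℓ : ℝ) ^ 2) := by
            rw [Finset.mul_sum]
            apply Finset.sum_congr rfl
            intro ℓ hℓ
            rw [mem_pr2] at hℓ
            simp only [hc]
            rw [if_neg (by omega : ¬ ℓ ≤ w)]; ring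
        _ ≤ (4 * (S.k : ℝ) ^ 2) * (1 / (w : ℝ)) := by
            apply mul_le_mul_of_nonneg_left (sum_inv_sq_pr2_le w y (by omega)) (by positivity)
        _ = _ := by ring
  have h1 := sum_exp_gs_le hL (fun ℓ _ => hc0 ℓ) hcle (hsum.trans hS) X
  have h2 := sum_offdiag_le S.V0 X (by rw [hV]; exact fun t ht => VV_le ht)
    (fun d => Real.exp (gs (pr2 w0 y) c d) - 1) (by
      intro d
      have h3 := gs_nonneg (L := pr2 w0 y) (c := c) (fun ℓ _ => hc0 ℓ) d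
      have := Real.add_one_le_exp (gs (pr2 w0 y) c d)
      linarith) (by
      intro d
      simp only [gs, dvd_neg])
  have hVR : (0 : ℝ) < S.V0.card := by exact_mod_cast hVpos
  have h3 : ∀ t ∈ S.V0, ∀ t' ∈ S.V0, (if t ≠ t' then
      Real.exp ((S.k : ℝ) ^ 2 * gw S.l2 (t, t')) * Real.exp (gw S.l1 (t, t')) else 0) ≤
      1 + (if t ≠ t' then (Real.exp (gs (pr2 w0 y) c ((t : ℤ) - t')) - 1) else 0) := by
    intro t _ t' _
    split_ifs
    · rw [hexp]; linarith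
    · norm_num
  calc ∑ t ∈ S.V0, ∑ t' ∈ S.V0, (if t ≠ t' then
      Real.exp ((S.k : ℝ) ^ 2 * gw S.l2 (t, t')) * Real.exp (gw S.l1 (t, t')) else 0)
      ≤ ∑ t ∈ S.V0, ∑ t' ∈ S.V0,
        (1 + (if t ≠ t' then (Real.exp (gs (pr2 w0 y) c ((t : ℤ) - t')) - 1) else 0)) :=
        Finset.sum_le_sum fun t ht => Finset.sum_le_sum fun t' ht' => h3 t ht t' ht'
    _ = (S.V0.card : ℝ) ^ 2 + ∑ t ∈ S.V0, ∑ t' ∈ S.V0,
        (if t ≠ t' then (Real.exp (gs (pr2 w0 y) c ((t : ℤ) - t')) - 1) else 0) := by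
        simp_rw [Finset.sum_add_distrib]
        simp only [Finset.sum_const, nsmul_eq_mul, mul_one]
        ring
    _ ≤ (S.V0.card : ℝ) ^ 2 + 2 * S.V0.card * (X * (2 * Sg)) := by
        have h4 : 2 * (S.V0.card : ℝ) * ∑ d ∈ Finset.Ioc 0 X,
            (Real.exp (gs (pr2 w0 y) c ((d : ℕ) : ℤ)) - 1) ≤
            2 * S.V0.card * (X * (2 * Sg)) := by
          apply mul_le_mul_of_nonneg_left _ (by positivity)
          refine h1.trans ?_
          gcongr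
        linarith
    _ = _ := by
        field_simp
        ring

/-- Second hypothesis of the scale theorem. -/
theorem H2_of (S : Scale) {w y X i : ℕ} (hl2 : S.l2 = lst w y) (hP : S.P = PP X i)
    (hJ : S.J = 4 ^ (i + 1)) (hJw : 4 ^ (i + 1) ≤ w) (hkw : 2 * S.k ^ 2 ≤ w)
    (hpy : ∀ p ∈ PP X i, y < p)
    (hS : 8 * (S.k : ℝ) ^ 2 / w ≤ 1) {K1 K2 : ℝ} (hK1 : 0 ≤ K1) (hK2 : 0 ≤ K2)
    (hN : ∀ E : Finset ℕ, (∀ q ∈ E, q.Prime) → ∀ r : ℕ,
      (((Finset.Ioc 0 X).filter (fun p => p.Prime ∧ p % (∏ ℓ ∈ E, ℓ) = r)).card : ℝ) ≤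
      K1 * 2 ^ E.card / ∏ ℓ ∈ E, (ℓ : ℝ) + K2) :
    ∑ p ∈ S.P, ∑ p' ∈ S.P, (if p ≠ p' then S.cG p p' else 0) ≤
      S.P.card * ((box S.J).card * (K1 * (2 * (8 * (S.k : ℝ) ^ 2 / w)) +
        K2 * Real.exp (4 * (S.k : ℝ) ^ 2 * ∑ ℓ ∈ pr2 w y, (1 : ℝ) / ℓ))) := by
  have hw1 : 1 ≤ w := le_trans (Nat.one_le_pow _ _ (by norm_num)) hJw
  have hwR : (0 : ℝ) < w := by exact_mod_cast hw1
  set c : ℕ → ℝ := fun _ => 2 * (S.k : ℝ) ^ 2 with hc
  have hL : ∀ ℓ ∈ pr2 w y, ℓ.Prime := fun ℓ hℓ => (mem_pr2.1 hℓ).1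
  have hc0 : ∀ ℓ ∈ pr2 w y, 0 ≤ c ℓ := fun ℓ _ => by simp only [hc]; positivity
  have hcle : ∀ ℓ ∈ pr2 w y, c ℓ ≤ ℓ := by
    intro ℓ hℓ
    rw [mem_pr2] at hℓ
    simp only [hc]
    have : 2 * S.k ^ 2 ≤ ℓ := by omega
    exact_mod_cast this
  have hsum : ∑ ℓ ∈ pr2 w y, 4 * c ℓ / (ℓ : ℝ) ^ 2 ≤ 8 * (S.k : ℝ) ^ 2 / w := by
    calc ∑ ℓ ∈ pr2 w y, 4 * c ℓ / (ℓ : ℝ) ^ 2 =
          (8 * (S.k : ℝ) ^ 2) * ∑ ℓ ∈ pr2 w y, (1 / (ℓ : ℝ) ^ 2) := by
          rw [Finset.mul_sum]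
          apply Finset.sum_congr rfl
          intro ℓ _
          simp only [hc]; ring
      _ ≤ (8 * (S.k : ℝ) ^ 2) * (1 / (w : ℝ)) := by
          apply mul_le_mul_of_nonneg_left (sum_inv_sq_pr2_le w y hw1) (by positivity)
      _ = _ := by ring
  have h1 : ∀ p ∈ S.P, ∑ p' ∈ S.P, (if p ≠ p' then S.cG p p' else 0) ≤
      (box S.J).card * (K1 * (2 * (8 * (S.k : ℝ) ^ 2 / w)) +
        K2 * Real.exp (4 * (S.k : ℝ) ^ 2 * ∑ ℓ ∈ pr2 w y, (1 : ℝ) / ℓ)) := by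
    intro p hp
    have e1 : ∑ p' ∈ S.P, (if p ≠ p' then S.cG p p' else 0) =
        ∑ s ∈ box S.J, ∑ p' ∈ S.P,
          (if p ≠ p' then (Real.exp (gs (pr2 w y) c (s.1 * p - s.2 * p')) - 1) else 0) := by
      rw [Finset.sum_comm]
      apply Finset.sum_congr rfl
      intro p' _
      split_ifs
      · unfold Scale.cG
        apply Finset.sum_congr rfl
        intro s _
        rw [hl2, gz_lst]
      · simp
    rw [e1, ← nsmul_eq_mul, ← Finset.sum_const]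
    apply Finset.sum_le_sum
    rintro ⟨j, j'⟩ hs
    have h2 := sum_pair_gs_le hL hc0 hcle (hsum.trans hS) S.P (by
        intro q hq
        rw [hP] at hq
        refine ⟨(mem_PP.1 hq).1, ?_⟩
        rw [mem_pr2]
        have := hpy q hq
        omega) S.J (by
        intro ℓ hℓ
        rw [mem_pr2] at hℓ
        rw [hJ]
        omega) hK1 hK2 (by
        intro E hE r
        refine le_trans ?_ (hN E (fun q hq => hL q (hE hq)) r)
        have hsub : S.P.filter (fun p => p % (∏ ℓ ∈ E, ℓ) = r) ⊆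
            (Finset.Ioc 0 X).filter (fun p => p.Prime ∧ p % (∏ ℓ ∈ E, ℓ) = r) := by
          intro q hq
          rw [mem_filter, hP, mem_PP] at hq
          rw [mem_filter, mem_Ioc]
          refine ⟨⟨hq.1.1.pos, ?_⟩, hq.1.1, hq.2⟩
          calc q = 1 * q := (one_mul q).symm
            _ ≤ 4 ^ i * q := Nat.mul_le_mul_right _ (Nat.one_le_pow _ _ (by norm_num))
            _ ≤ X := hq.1.2.2
        exact_mod_cast Finset.card_le_card hsub) hp hs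
    refine h2.trans ?_
    apply add_le_add
    · apply mul_le_mul_of_nonneg_left _ hK1
      linarith
    · apply mul_le_mul_of_nonneg_left _ hK2
      apply Real.exp_le_exp.2
      rw [Finset.mul_sum]
      apply Finset.sum_le_sum
      intro ℓ _
      simp only [hc]
      apply le_of_eq; ring
  calc _ ≤ ∑ p ∈ S.P, ((box S.J).card * (K1 * (2 * (8 * (S.k : ℝ) ^ 2 / w)) +
        K2 * Real.exp (4 * (S.k : ℝ) ^ 2 * ∑ ℓ ∈ pr2 w y, (1 : ℝ) / ℓ)) : ℝ) :=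
        Finset.sum_le_sum h1
    _ = _ := by rw [Finset.sum_const, nsmul_eq_mul]

end Pool.Agent.Helper48.Cov
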