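import Pool.Agent.Helper48.CovFacts
import Pool.Agent.Helper48.CovPar

/-!
# Primes in windows, square factors and single primes
-/

set_option autoImplicit false

namespace Pool.Agent.Helper48.Cov

open Finset Filter Pool.Agent.Helper44

/-- lower bound for the number of primes in a window -/
lemma window_card : ∃ n0 : ℕ, ∀ X i : ℕ, n0 ≤ X / 4 ^ i → 2 ≤ X / 4 ^ i → 
    (X : ℝ) / (8 * 4 ^ i * Real.log X) ≤ ((PP X i).card : ℝ) := by
  obtain ⟨n1, hn1⟩ := pc_window
  refine ⟨n1, ?_⟩
  intro X i hn h2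
  have h3 := hn1 (X / 4 ^ i) hn
  set n := X / 4 ^ i with hndef
  have hnR : (2 : ℝ) ≤ n := by exact_mod_cast h2
  have hdiv : X / 4 ^ (i + 1) = n / 4 := by
    rw [hndef, Nat.div_div_eq_div_mul, pow_succ]
  have h4 : (pc n : ℝ) ≤ pc (n / 4) + ((PP X i).card : ℝ) := by
    have hsub : pr2 0 n ⊆ pr2 0 (n / 4) ∪ PP X i := by
      intro p hp
      rw [mem_pr2] at hp
      unfold PP
      rw [mem_union, mem_pr2, mem_pr2, hdiv]
      by_cases h : p ≤ n / 4
      · left; exact ⟨hp.1, hp.2.1, h⟩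
      · right; exact ⟨hp.1, by omega, hp.2.2⟩
    have h2 := (Finset.card_le_card hsub).trans (Finset.card_union_le _ _)
    unfold pc
    exact_mod_cast h2
  have h5 : (X : ℝ) ≤ 2 * 4 ^ i * n := by
    have h6 : X < 4 ^ i * (n + 1) := by
      have h3 := Nat.div_add_mod X (4 ^ i)
      have h4 := Nat.mod_lt X (by positivity : 0 < 4 ^ i)
      calc X = 4 ^ i * (X / 4 ^ i) + X % 4 ^ i := h3.symm
        _ < 4 ^ i * (X / 4 ^ i) + 4 ^ i := by omega
        _ = _ := by rw [← hndef]; ring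
    have h7 : (X : ℝ) ≤ 4 ^ i * (n + 1) := by exact_mod_cast h6.le
    have h8 : (0 : ℝ) < 4 ^ i := by positivity
    nlinarith
  have hlogn : 0 < Real.log n := Real.log_pos (by linarith)
  have hlogle : Real.log n ≤ Real.log X := by
    apply Real.log_le_log (by linarith)
    exact_mod_cast Nat.div_le_self X (4 ^ i)
  have hL : 0 < Real.log X := by linarith
  have h6 : (X : ℝ) / (8 * 4 ^ i * Real.log X) ≤ 1 / 4 * (n / Real.log n) := by
    calc (X : ℝ) / (8 * 4 ^ i * Real.log X) ≤ (2 * 4 ^ i * n) / (8 * 4 ^ i * Real.log X) := by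
          gcongr
      _ = 1 / 4 * (n / Real.log X) := by field_simp; ring
      _ ≤ _ := by gcongr
  linarith

theorem Bad2_small (A : ℝ) (ε : ℝ) (hε : 0 < ε) : ∃ n0 : ℕ, ∀ X : ℕ, Good A n0 X →
    ((Bad2 (yy A X) X).card : ℝ) ≤ ε * (X / Real.log X) := by
  obtain ⟨n1, hn1⟩ := exists_nat_ge (64 / ε)
  refine ⟨n1, ?_⟩
  intro X h
  have hLpos := h.L_pos
  have hypos := h.y_pos
  have hy7 := h.h7
  have hh2 := h.h2
  have hRge := h.RR_ge
  set L := Real.log (X : ℝ) with hLdef
  set R := RR X with hRdef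
  set y := yy A X with hydef
  have hyR : (0 : ℝ) < y := by exact_mod_cast hypos
  refine (card_Bad2_le (X := X) hypos).trans ?_
  have h1 : L ≤ ε * y := by
    have h2 : (n1 : ℝ) ≤ R := by exact_mod_cast hRge
    have h3 : (R : ℝ) ≤ 4 ^ R := by
      have : R < 4 ^ R := Nat.lt_pow_self (by norm_num)
      exact_mod_cast this.le
    have h4 : 64 ≤ ε * 4 ^ R := by
      have h5 : 64 / ε ≤ 4 ^ R := by linarith
      rwa [div_le_iff₀ hε, mul_comm] at h5
    have h5 : ((4 : ℝ) ^ R) * 64 ^ R ≤ 4 ^ (8 * R) := by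
      rw [← mul_pow, pow_mul]
      exact pow_le_pow_left₀ (by norm_num) (by norm_num) _
    have h6 : (4 : ℝ) ^ (8 * R) ≤ y := by exact_mod_cast hy7
    calc L ≤ 64 ^ (R + 1) := hh2.le
      _ = 64 * 64 ^ R := by ring
      _ ≤ (ε * 4 ^ R) * 64 ^ R := by gcongr
      _ = ε * (4 ^ R * 64 ^ R) := by ring
      _ ≤ ε * y := by gcongr; linarith
  rw [← mul_div_assoc, div_le_div_iff₀ hyR hLpos]
  have : (0 : ℝ) ≤ X := by positivity
  nlinarith

theorem singles_card (A : ℝ) (C0 : ℕ) (hC0 : 1 ≤ C0) : ∃ n0 : ℕ, ∀ N : ℕ,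
    Good A n0 (C0 * N) → ((C0 * N : ℕ) : ℝ) / (16 * C0 * Real.log ((C0 * N : ℕ) : ℝ)) ≤
      ((pr2 ((C0 * N) / 4 ^ ii (C0 * N)) N).card : ℝ) := by
  obtain ⟨n1, hn1⟩ := pc_window
  obtain ⟨n2, hn2⟩ := poly_le_four_pow (256 * C0) 0
  refine ⟨max (n1 * C0) (max n2 (4 * C0)), ?_⟩
  intro N h
  set X := C0 * N with hXdef
  have hL := h.L_ge
  have hLpos := h.L_pos
  have hXge := h.h8
  have hige := h.hi
  have hh1 := h.h1
  have hiile := h.ii_le
  set i := ii X with hidef
  set L := Real.log (X : ℝ) with hLdef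
  have hN4 : 4 ≤ N := by
    have h1 : 4 * C0 ≤ C0 * N := le_trans (le_trans (le_max_right _ _) (le_max_right _ _)) hXge
    nlinarith
  have hN1 : n1 ≤ N := by
    have h1 : n1 * C0 ≤ C0 * N := le_trans (le_max_left _ _) hXge
    nlinarith
  have hNR : (4 : ℝ) ≤ N := by exact_mod_cast hN4
  have hC0R : (1 : ℝ) ≤ C0 := by exact_mod_cast hC0
  have hXR : (X : ℝ) = C0 * N := by rw [hXdef]; push_cast; ring
  have hX0 : (0 : ℝ) < X := by rw [hXR]; positivity
  have h3 := hn1 N hN1
  have h4pos : (0 : ℝ) ≤ pc (N / 4) := by positivity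
  have hlogN : 0 < Real.log N := Real.log_pos (by linarith)
  have hlogNle : Real.log N ≤ L := by
    apply Real.log_le_log (by linarith)
    rw [hXR]; nlinarith
  -- the removed primes
  set m := X / 4 ^ i with hm
  have hsub : pr2 0 N ⊆ pr2 0 m ∪ pr2 m N := by
    intro p hp
    rw [mem_pr2] at hp
    rw [mem_union, mem_pr2, mem_pr2]
    by_cases h : p ≤ m
    · left; exact ⟨hp.1, hp.2.1, h⟩
    · right; exact ⟨hp.1, by omega, hp.2.2⟩
  have h5 : (pc N : ℝ) ≤ pc m + ((pr2 m N).card : ℝ) := by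
    have h2 := (Finset.card_le_card hsub).trans (Finset.card_union_le _ _)
    unfold pc
    exact_mod_cast h2
  have h6 : (1 / 4 : ℝ) * (N / L) ≤ pc N := by
    have : (N : ℝ) / L ≤ N / Real.log N := by gcongr
    linarith
  have h4i : (256 * C0 : ℝ) ≤ 4 ^ i := by
    have := hn2 i (le_trans (le_trans (le_max_left _ _) (le_max_right _ _)) hige)
    simpa using this
  have h4iL : (4 : ℝ) ^ i ≤ L := by
    calc (4 : ℝ) ^ i ≤ 64 ^ i := pow_le_pow_left₀ (by norm_num) (by norm_num) _
      _ ≤ 64 ^ RR X := pow_le_pow_right₀ (by norm_num) hiile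
      _ ≤ L := hh1
  -- `pc m` is small
  have h7 : (pc m : ℝ) ≤ 16 * (X / (4 ^ i * L)) := by
    have hm2 : 2 ≤ m := by
      rw [hm, Nat.le_div_iff_mul_le (by positivity)]
      have h8 : (2 : ℝ) * 4 ^ i ≤ X := by
        have h9 : 2 * L ≤ X := by
          have h10 := Real.quadratic_le_exp_of_nonneg hLpos.le
          rw [hLdef, Real.exp_log hX0, ← hLdef] at h10
          nlinarith
        linarith
      exact_mod_cast h8
    have h8 := pc_upper hm2
    have hm0 : (0 : ℝ) < m := by exact_mod_cast (by omega : 0 < m)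
    have h9 : (m : ℝ) ≤ X / 4 ^ i := by
      rw [hm]
      refine Nat.cast_div_le.trans (le_of_eq ?_)
      push_cast; rfl
    -- lower bound for `log m`
    have h10 : L / 4 ≤ Real.log m := by
      have h11 : (X : ℝ) ≤ 2 * 4 ^ i * m := by
        have h6 : X < 4 ^ i * (m + 1) := by
          have h3 := Nat.div_add_mod X (4 ^ i)
          have h4 := Nat.mod_lt X (by positivity : 0 < 4 ^ i)
          calc X = 4 ^ i * (X / 4 ^ i) + X % 4 ^ i := h3.symm
            _ < 4 ^ i * (X / 4 ^ i) + 4 ^ i := by omega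
            _ = _ := by rw [← hm]; ring
        have h7 : (X : ℝ) ≤ 4 ^ i * (m + 1) := by exact_mod_cast h6.le
        have h8 : (0 : ℝ) < 4 ^ i := by positivity
        have h9 : (1 : ℝ) ≤ m := by exact_mod_cast (by omega : 1 ≤ m)
        nlinarith
      have h12 : (X : ℝ) ≤ 2 * L * m := by
        refine h11.trans ?_
        gcongr
      have h13 := Real.log_le_log hX0 h12
      rw [Real.log_mul (by positivity) hm0.ne', Real.log_mul (by norm_num) hLpos.ne', ← hLdef] at h13
      have h14 : Real.log L ≤ L / 4 := by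
        have h15 := Real.log_le_sub_one_of_pos (show 0 < L / 16 by positivity)
        rw [Real.log_div hLpos.ne' (by norm_num)] at h15
        have h16 : Real.log 16 ≤ 3 := by
          have : Real.log 16 = 4 * Real.log 2 := by
            rw [show (16 : ℝ) = 2 ^ 4 by norm_num, Real.log_pow]; push_cast; ring
          have := Real.log_two_lt_d9
          linarith
        linarith
      have := Real.log_two_lt_d9
      linarith
    calc (pc m : ℝ) ≤ 4 * (m / Real.log m) := h8
      _ ≤ 4 * ((X / 4 ^ i) / (L / 4)) := by gcongr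
      _ = _ := by field_simp; ring
  have h8 : 16 * ((X : ℝ) / (4 ^ i * L)) ≤ (X / (16 * C0 * L)) := by
    rw [← mul_div_assoc, div_le_div_iff₀ (by positivity) (by positivity)]
    have h9 : 0 ≤ (X : ℝ) * L := by positivity
    nlinarith
  have h9 : (X : ℝ) / (16 * C0 * L) = (1 / 16) * (N / L) := by
    rw [hXR]; field_simp
  have h10 : 0 ≤ (N : ℝ) / L := by positivity
  rw [h9] at h8 ⊢
  linarith

end Pool.Agent.Helper48.Cov
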