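import Pool.Agent.Helper48.CovFacts
import Pool.Agent.Helper48.CovSmooth

/-!
# Integers without medium prime factors
-/

set_option autoImplicit false

namespace Pool.Agent.Helper48.Cov

open Finset Filter Pool.Agent.Helper44

theorem E0_small (A : ℝ) (hA : 1 ≤ A) (ε : ℝ) (hε : 0 < ε) : ∃ n0 : ℕ, ∀ X : ℕ, Good A n0 X →
    ((E0 (yy A X) (RR X) X).card : ℝ) * (sg (lst (w0 X) (yy A X)) 1 *
      (1 + ((lst (w0 X) (yy A X)).map (fun ℓ : ℕ => 2 / (ℓ : ℝ))).sum)) ≤ ε * (X / Real.log X) := by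
  obtain ⟨C, hC, y0, hy0, hsm⟩ := smooth_bound (16 * A) (by linarith)
  obtain ⟨C', hC', hrec⟩ := sum_inv_pr2_le
  obtain ⟨C'', hC'', hsgu⟩ := sg_upper
  set K : ℝ := C'' * (16 + C') with hK
  have hKpos : 0 < K := by positivity
  obtain ⟨n1, hn1⟩ := exists_nat_ge (2 * K * C / ε)
  obtain ⟨n2, hn2⟩ := poly_le_four_pow (8 * K / ε) 3
  refine ⟨max (max n1 y0) (max n2 4), ?_⟩
  intro X h
  have hL := h.L_ge
  have hLpos := h.L_pos
  have hX4 : 4 ≤ X := le_trans (le_trans (le_max_right _ _) (le_max_right _ _)) h.h8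
  have hXR : (0 : ℝ) < X := by exact_mod_cast (by omega : 0 < X)
  have hR := h.logR_pos
  have hRle := h.logR_le
  have hRge : max (max n1 y0) (max n2 4) ≤ RR X := h.RR_ge
  have hR4 := h.RR4
  have hy7 := h.h7
  have hh4 := h.h4
  have hh3 := h.h3
  have hh1 := h.h1
  have hlogy := h.logy_pos
  have hw04 := w0_ge X h.hi2
  have hwy : w0 X ≤ yy A X := h.w_le_y h.ii_le
  have hiR : (ii X : ℝ) ≤ RR X := by exact_mod_cast h.ii_le
  have hsgle := hsgu A hA X (h.mono (Nat.zero_le _))
  have hyX6 := h.h6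
  have hypos := h.y_pos
  set L := Real.log (X : ℝ) with hLdef
  set R := RR X with hRdef
  set y := yy A X with hydef
  have hRR : (4 : ℝ) ≤ R := by exact_mod_cast hR4
  have hyy0 : y0 ≤ y := by
    have h2 : y0 ≤ R := le_trans (le_trans (le_max_right _ _) (le_max_left _ _)) hRge
    have h3 : R < 4 ^ R := Nat.lt_pow_self (by norm_num)
    have h4 : 4 ^ R ≤ 4 ^ (8 * R) := Nat.pow_le_pow_right (by norm_num) (by omega)
    omega
  -- the count
  have hcard : ((E0 y R X).card : ℝ) ≤ C * X / R + 4 * (X / L) * 4 ^ R := by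
    have h1 : ((E0 y R X).card : ℝ) ≤ ((Sm y X).card : ℝ) + (pc X : ℝ) * 4 ^ R := by
      exact_mod_cast card_E0_le y R X
    have h2 := hsm y hyy0 X (by omega)
    have h3 := pc_upper (n := X) (by omega)
    have h4 : 16 * Real.log R ≤ 16 * A * Real.log X / Real.log y := by
      rw [le_div_iff₀ hlogy]
      rw [le_div_iff₀ (by linarith)] at hh4
      nlinarith
    have h5 : Real.exp (-(16 * A * Real.log X / Real.log y)) ≤ 1 / R := by
      calc Real.exp (-(16 * A * Real.log X / Real.log y)) ≤ Real.exp (-(1 * Real.log R)) := by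
            apply Real.exp_le_exp.2
            linarith
        _ = 1 / R := by rw [Real.exp_neg, one_mul, Real.exp_log (by linarith), one_div]
    calc ((E0 y R X).card : ℝ) ≤ ((Sm y X).card : ℝ) + (pc X : ℝ) * 4 ^ R := h1
      _ ≤ C * X * (1 / R) + 4 * (X / L) * 4 ^ R := by
          gcongr
          exact h2.trans (mul_le_mul_of_nonneg_left h5 (by positivity))
      _ = _ := by ring
  -- better decay for the smooth part
  have hcard2 : ((E0 y R X).card : ℝ) ≤ C * X / R ^ 4 + 4 * (X / L) * 4 ^ R := by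
    have h1 : ((E0 y R X).card : ℝ) ≤ ((Sm y X).card : ℝ) + (pc X : ℝ) * 4 ^ R := by
      exact_mod_cast card_E0_le y R X
    have h2 := hsm y hyy0 X (by omega)
    have h3 := pc_upper (n := X) (by omega)
    have h4 : 16 * Real.log R ≤ 16 * A * Real.log X / Real.log y := by
      rw [le_div_iff₀ hlogy]
      rw [le_div_iff₀ (by linarith)] at hh4
      nlinarith
    have h5 : Real.exp (-(16 * A * Real.log X / Real.log y)) ≤ 1 / R ^ 4 := by
      calc Real.exp (-(16 * A * Real.log X / Real.log y)) ≤ Real.exp (-(4 * Real.log R)) := by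
            apply Real.exp_le_exp.2
            linarith
        _ = 1 / R ^ 4 := by
            rw [Real.exp_neg, show 4 * Real.log (R : ℝ) = ((4 : ℕ) : ℝ) * Real.log R by norm_num,
              Real.exp_nat_mul, Real.exp_log (by linarith), one_div]
    calc ((E0 y R X).card : ℝ) ≤ ((Sm y X).card : ℝ) + (pc X : ℝ) * 4 ^ R := h1
      _ ≤ C * X * (1 / R ^ 4) + 4 * (X / L) * 4 ^ R := by
          gcongr
          exact h2.trans (mul_le_mul_of_nonneg_left h5 (by positivity))
      _ = _ := by ring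
  -- the probability
  have hsgle2 : sg (lst (w0 X) y) 1 ≤ C'' * ((R : ℝ) ^ 2 / L) := by
    refine hsgle.trans ?_
    apply mul_le_mul_of_nonneg_left _ hC''.le
    apply div_le_div_of_nonneg_right _ hLpos.le
    have : (0 : ℝ) ≤ ii X := by positivity
    nlinarith
  have hsum : 1 + ((lst (w0 X) y).map (fun ℓ : ℕ => 2 / (ℓ : ℝ))).sum ≤ (16 + C') * R := by
    rw [sum_lst]
    have h1 : ∑ p ∈ pr2 (w0 X) y, 2 / (p : ℝ) = 2 * ∑ p ∈ pr2 (w0 X) y, (1 : ℝ) / p := by
      rw [Finset.mul_sum]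
      exact Finset.sum_congr rfl fun p _ => by ring
    rw [h1]
    have h2 := hrec (w0 X) y (by omega)
    have hyX : y ≤ X := by
      refine le_trans ?_ hyX6
      exact Nat.le_self_pow (by norm_num) y
    have h3 : Real.log (Real.log y) ≤ Real.log L := by
      apply Real.log_le_log hlogy
      apply Real.log_le_log (by exact_mod_cast hypos)
      exact_mod_cast hyX
    nlinarith
  have hprob : sg (lst (w0 X) y) 1 * (1 + ((lst (w0 X) y).map (fun ℓ : ℕ => 2 / (ℓ : ℝ))).sum) ≤
      K * ((R : ℝ) ^ 3 / L) := by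
    have h0 : 0 ≤ 1 + ((lst (w0 X) y).map (fun ℓ : ℕ => 2 / (ℓ : ℝ))).sum := by
      rw [sum_lst]
      have : 0 ≤ ∑ p ∈ pr2 (w0 X) y, 2 / (p : ℝ) := Finset.sum_nonneg fun p _ => by positivity
      linarith
    calc _ ≤ (C'' * ((R : ℝ) ^ 2 / L)) * ((16 + C') * R) := by gcongr
      _ = _ := by rw [hK]; ring
  have h1R : (n1 : ℝ) ≤ R := by
    exact_mod_cast le_trans (le_trans (le_max_left _ _) (le_max_left _ _)) hRge
  have h2R := hn2 R (le_trans (le_trans (le_max_left _ _) (le_max_right _ _)) hRge)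
  calc ((E0 y R X).card : ℝ) * (sg (lst (w0 X) y) 1 *
      (1 + ((lst (w0 X) y).map (fun ℓ : ℕ => 2 / (ℓ : ℝ))).sum))
      ≤ (C * X / R ^ 4 + 4 * (X / L) * 4 ^ R) * (K * ((R : ℝ) ^ 3 / L)) := by
        apply mul_le_mul hcard2 hprob
        · apply mul_nonneg (sg_nonneg_lst (by omega)).le
          rw [sum_lst]
          have : 0 ≤ ∑ p ∈ pr2 (w0 X) y, 2 / (p : ℝ) := Finset.sum_nonneg fun p _ => by positivity
          linarith
        · positivity
    _ = (X / L) * (K * C / R) + (X / L) * (4 * K * R ^ 3 * 4 ^ R / L) := by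
        field_simp
    _ ≤ (X / L) * (ε / 2) + (X / L) * (ε / 2) := by
        have ha : K * C / R ≤ ε / 2 := by
          rw [div_le_div_iff₀ (by linarith) (by norm_num)]
          have h3 : 2 * K * C / ε ≤ R := by linarith
          rw [div_le_iff₀ hε] at h3
          linarith
        have hb : 4 * K * R ^ 3 * 4 ^ R / L ≤ ε / 2 := by
          rw [div_le_div_iff₀ hLpos (by norm_num)]
          have h3 : 8 * K * (R : ℝ) ^ 3 ≤ ε * 4 ^ R := by
            have h4 : 8 * K / ε * ((R : ℝ) + 1) ^ 3 ≤ 4 ^ R := h2R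
            rw [div_mul_eq_mul_div, div_le_iff₀ hε] at h4
            have h5 : (R : ℝ) ^ 3 ≤ ((R : ℝ) + 1) ^ 3 := by
              apply pow_le_pow_left₀ (by positivity); linarith
            have h6 : 8 * K * (R : ℝ) ^ 3 ≤ 8 * K * ((R : ℝ) + 1) ^ 3 := by gcongr
            linarith
          have h4 : (4 : ℝ) ^ R * 4 ^ R ≤ 64 ^ R := by
            rw [← mul_pow]
            exact pow_le_pow_left₀ (by norm_num) (by norm_num) _
          have h5 : (0 : ℝ) < 4 ^ R := by positivity
          calc 4 * K * R ^ 3 * 4 ^ R * 2 = (8 * K * (R : ℝ) ^ 3) * 4 ^ R := by ring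
            _ ≤ (ε * 4 ^ R) * 4 ^ R := by gcongr
            _ = ε * (4 ^ R * 4 ^ R) := by ring
            _ ≤ ε * 64 ^ R := by gcongr
            _ ≤ ε * L := by gcongr
        gcongr
    _ = _ := by ring

end Pool.Agent.Helper48.Cov
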