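import Pool.Agent.Helper48.CovFacts

/-!
# Lower bound for the main set
-/

set_option autoImplicit false

namespace Pool.Agent.Helper48.Cov

open Finset Filter Pool.Agent.Helper44

/-- Lower bound for the main set. -/
theorem V0_lower : ∃ c : ℝ, 0 < c ∧ ∀ A : ℝ, 1 ≤ A → ∃ n0 : ℕ, ∀ X : ℕ, Good A n0 X →
    c * (X / (ii X * Real.log (RR X))) ≤ ((VV (w0 X) (yy A X) (RR X) X).card : ℝ) := by
  obtain ⟨c1, hc1, hRg⟩ := sum_inv_Rg_ge
  obtain ⟨n1, hn1⟩ := pc_window
  refine ⟨c1 / 768, by positivity, ?_⟩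
  intro A hA
  obtain ⟨n2, hn2⟩ := poly_le_four_pow (200 / c1) 3
  refine ⟨max (max n1 n2) 4, ?_⟩
  intro X h
  have hL := h.L_ge
  have hLpos := h.L_pos
  have hX4 : 4 ≤ X := le_trans (le_max_right _ _) h.h8
  have hXR : (0 : ℝ) < X := by exact_mod_cast (by omega : 0 < X)
  have hR := h.logR_pos
  have hRle := h.logR_le
  have hRge : max (max n1 n2) 4 ≤ RR X := h.RR_ge
  have hR4 := h.RR4
  have hii2 : (2 : ℝ) ≤ ii X := by exact_mod_cast h.hi2
  have hiiR : (ii X : ℝ) ≤ RR X := by exact_mod_cast h.ii_le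
  have hy6 := h.h6
  have hypos := h.y_pos
  have hw0y : w0 X ≤ yy A X := h.w_le_y h.ii_le
  have h4R : 4 ^ RR X ≤ yy A X := by
    refine le_trans (Nat.pow_le_pow_right (by norm_num) (by omega)) h.h7
  have hlogyge := h.h5
  have hlw : Real.log (w0 X) ≤ 12 * ii X := log_w_le _
  have hw04 := w0_ge X h.hi2
  set L := Real.log (X : ℝ) with hLdef
  set R := RR X with hRdef
  set y := yy A X with hydef
  have hRR : (4 : ℝ) ≤ R := by exact_mod_cast hR4
  have hyR : (0 : ℝ) < y := by exact_mod_cast hypos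
  have hlwpos : 0 < Real.log (w0 X) := Real.log_pos (by exact_mod_cast (by omega : 1 < w0 X))
  -- the set of cofactors
  set T := (Rg (w0 X) y y).filter (fun s => 4 ^ R ≤ s) with hT
  have hge := card_VV_ge (w0 X) y R X T (by
    intro s hs
    rw [hT, mem_filter, mem_Rg] at hs
    exact ⟨hs.2, hs.1.2⟩)
  refine le_trans ?_ hge
  -- `y² L` is small compared with `X`
  have hyX : 32 * (y : ℝ) ^ 2 * L ≤ X := by
    have h1 : (y : ℝ) ^ 4 ≤ X := by exact_mod_cast hy6
    have h2 : (y : ℝ) ^ 2 ≤ Real.sqrt X := by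
      apply Real.le_sqrt_of_sq_le
      calc ((y : ℝ) ^ 2) ^ 2 = (y : ℝ) ^ 4 := by ring
        _ ≤ (X : ℝ) := h1
    have h3 : 32 * L ≤ Real.sqrt X := by
      -- `sqrt X = exp (L/2) ≥ (L/2)^2/2`
      have e : Real.sqrt X = Real.exp (L / 2) := by
        rw [Real.sqrt_eq_rpow, Real.rpow_def_of_pos hXR]
        congr 1
        rw [hLdef]; ring
      rw [e]
      have h4 := Real.quadratic_le_exp_of_nonneg (show 0 ≤ L / 2 by positivity)
      nlinarith
    have h4 : Real.sqrt X * Real.sqrt X = X := Real.mul_self_sqrt hXR.le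
    have h5 : 0 ≤ (y : ℝ) ^ 2 := by positivity
    have h6 : 0 ≤ Real.sqrt X := Real.sqrt_nonneg _
    calc 32 * (y : ℝ) ^ 2 * L = (y : ℝ) ^ 2 * (32 * L) := by ring
      _ ≤ Real.sqrt X * Real.sqrt X := by gcongr
      _ = X := h4
  have hterm : ∀ s ∈ T, (X / (16 * L)) * ((1 : ℝ) / s) ≤ (pc (X / s) : ℝ) - pc y := by
    intro s hs
    rw [hT, mem_filter, mem_Rg] at hs
    have hs0 : 0 < s := hs.1.1.1
    have hsy : s ≤ y := hs.1.1.2
    have hs0R : (0 : ℝ) < s := by exact_mod_cast hs0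
    have hsyR : (s : ℝ) ≤ y := by exact_mod_cast hsy
    have hy1 : (1 : ℝ) ≤ y := by exact_mod_cast hypos
    -- size of the quotient
    have h1 : y * y ≤ X := by
      calc y * y ≤ y ^ 4 := by
            have : y ^ 4 = (y * y) * (y * y) := by ring
            rw [this]
            exact Nat.le_mul_of_pos_left _ (Nat.mul_pos hypos hypos)
        _ ≤ X := hy6
    have h2 : y ≤ X / s := by
      rw [Nat.le_div_iff_mul_le hs0]
      exact (Nat.mul_le_mul_left _ hsy).trans h1
    have hn1y : n1 ≤ X / s := by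
      have h3 : n1 ≤ R := le_trans (le_trans (le_max_left _ _) (le_max_left _ _)) hRge
      have h4 : R < 4 ^ R := Nat.lt_pow_self (by norm_num)
      omega
    have h3 := hn1 (X / s) hn1y
    have h4 : (0 : ℝ) ≤ pc (X / s / 4) := by positivity
    have hsX : s ≤ X := le_trans hsy (le_trans (Nat.le_mul_self y) h1)
    have h5 : (X : ℝ) / (2 * s) ≤ ((X / s : ℕ) : ℝ) := by
      have h6 : X < s * (X / s + 1) := by
        have h3 := Nat.div_add_mod X s
        have h4 := Nat.mod_lt X hs0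
        calc X = s * (X / s) + X % s := h3.symm
          _ < s * (X / s) + s := by omega
          _ = _ := by ring
      have h7 : (X : ℝ) ≤ s * (((X / s : ℕ) : ℝ) + 1) := by exact_mod_cast h6.le
      have h8 : (1 : ℝ) ≤ ((X / s : ℕ) : ℝ) := by
        exact_mod_cast (by omega : 1 ≤ X / s)
      rw [div_le_iff₀ (by positivity)]
      nlinarith
    have hnpos : (0 : ℝ) < ((X / s : ℕ) : ℝ) := by
      exact_mod_cast (by omega : 0 < X / s)
    have h6 : Real.log ((X / s : ℕ) : ℝ) ≤ L := by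
      apply Real.log_le_log hnpos
      exact_mod_cast Nat.div_le_self X s
    have h7 : 0 < Real.log ((X / s : ℕ) : ℝ) := by
      apply Real.log_pos
      have : 4 ^ R ≤ X / s := le_trans h4R h2
      have h8 : 4 ^ 1 ≤ 4 ^ R := Nat.pow_le_pow_right (by norm_num) (by omega)
      exact_mod_cast (by omega : 1 < X / s)
    have h8 : (X : ℝ) / (2 * s) / L ≤ ((X / s : ℕ) : ℝ) / Real.log ((X / s : ℕ) : ℝ) := by
      gcongr
    have h9 : (pc y : ℝ) ≤ y := by exact_mod_cast pc_le y
    have h10 : (y : ℝ) ≤ X / (32 * L) * (1 / s) := by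
      rw [div_mul_div_comm, le_div_iff₀ (by positivity)]
      have : (y : ℝ) * (32 * L * s) ≤ y * (32 * L * y) := by gcongr
      nlinarith
    have e1 : (X : ℝ) / (2 * s) / L = 8 * (X / (16 * L) * (1 / s)) := by field_simp; ring
    have e2 : (X : ℝ) / (32 * L) * (1 / s) = (1 / 2) * (X / (16 * L) * (1 / s)) := by
      field_simp; ring
    rw [e1] at h8
    rw [e2] at h10
    have h11 : 0 ≤ (X : ℝ) / (16 * L) * (1 / s) := by positivity
    linarith
  have hsum : c1 * (Real.log y / Real.log (w0 X)) - (2 * R + 1) ≤ ∑ s ∈ T, (1 : ℝ) / s := by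
    have h1 := hRg (w0 X) y (by omega) hw0y
    have h2 : ∑ n ∈ Rg (w0 X) y y, (1 : ℝ) / n ≤ ∑ s ∈ T, (1 : ℝ) / s +
        ∑ n ∈ Finset.Ioc (0 : ℕ) (4 ^ R), (1 : ℝ) / n := by
      rw [← Finset.sum_filter_add_sum_filter_not (Rg (w0 X) y y) (fun s => 4 ^ R ≤ s)]
      apply add_le_add le_rfl
      apply Finset.sum_le_sum_of_subset_of_nonneg
      · intro n hn
        rw [mem_filter, mem_Rg] at hn
        rw [mem_Ioc]
        omega
      · intro n _ _; positivity
    have h3 : ∑ n ∈ Finset.Ioc (0 : ℕ) (4 ^ R), (1 : ℝ) / n ≤ 2 * R + 1 := by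
      have h4 := harmonic_le_one_add_log (4 ^ R)
      have h5 : ((harmonic (4 ^ R) : ℚ) : ℝ) = ∑ n ∈ Finset.Ioc (0 : ℕ) (4 ^ R), (1 : ℝ) / n := by
        rw [harmonic_eq_sum_Icc]
        push_cast
        apply Finset.sum_congr
        · ext n; simp only [mem_Icc, mem_Ioc]; omega
        · intro n _; rw [one_div]
      rw [h5] at h4
      push_cast at h4
      rw [Real.log_pow] at h4
      have := log_four_le
      nlinarith
    linarith
  -- main term dominates
  have hdom : 2 * (2 * (R : ℝ) + 1) ≤ c1 * (Real.log y / Real.log (w0 X)) := by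
    have h1 : L / (24 * R * R) ≤ Real.log y / Real.log (w0 X) := by
      rw [div_le_div_iff₀ (by positivity) hlwpos]
      have h2 : L / (2 * Real.log R) ≤ Real.log y := by
        refine le_trans ?_ hlogyge
        apply div_le_div_of_nonneg_right _ (by linarith)
        nlinarith
      rw [div_le_iff₀ (by linarith)] at h2
      have h3 : Real.log (w0 X) ≤ 12 * R := by linarith
      have h4 : 0 < Real.log y := h.logy_pos
      calc L * Real.log (w0 X) ≤ L * (12 * R) := by gcongr
        _ ≤ (Real.log y * (2 * Real.log R)) * (12 * R) := by gcongr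
        _ ≤ (Real.log y * (2 * R)) * (12 * R) := by gcongr
        _ = _ := by ring
    have h2 : 200 / c1 * ((R : ℝ) + 1) ^ 3 ≤ L := by
      refine (hn2 R (le_trans (le_trans (le_max_right _ _) (le_max_left _ _)) hRge)).trans ?_
      refine le_trans ?_ h.h1
      exact pow_le_pow_left₀ (by norm_num) (by norm_num) _
    have h3 : 2 * (2 * (R : ℝ) + 1) ≤ c1 * (L / (24 * R * R)) := by
      rw [div_mul_eq_mul_div, div_le_iff₀ hc1] at h2
      rw [← mul_div_assoc, le_div_iff₀ (by positivity)]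
      nlinarith [mul_pos (by linarith : (0 : ℝ) < R) (by linarith : (0 : ℝ) < R)]
    exact h3.trans (mul_le_mul_of_nonneg_left h1 hc1.le)
  have hfin : c1 / 2 * (Real.log y / Real.log (w0 X)) ≤ ∑ s ∈ T, (1 : ℝ) / s := by linarith
  have hfin2 : c1 / 48 * (L / (ii X * Real.log R)) ≤ ∑ s ∈ T, (1 : ℝ) / s := by
    refine le_trans ?_ hfin
    have h1 : L / (2 * Real.log R) ≤ Real.log y := by
      refine le_trans ?_ hlogyge
      apply div_le_div_of_nonneg_right _ (by linarith)
      nlinarith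
    have h2 : L / (2 * Real.log R) / (12 * ii X) ≤ Real.log y / Real.log (w0 X) := by
      have h4 : 0 < Real.log y := h.logy_pos
      gcongr
    calc c1 / 48 * (L / (ii X * Real.log R)) = c1 / 2 * (L / (2 * Real.log R) / (12 * ii X)) := by
          field_simp; ring
      _ ≤ _ := by gcongr
  calc c1 / 768 * (X / (ii X * Real.log R)) =
        (X / (16 * L)) * (c1 / 48 * (L / (ii X * Real.log R))) := by
        field_simp; ring
    _ ≤ (X / (16 * L)) * ∑ s ∈ T, (1 : ℝ) / s := by gcongr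
    _ = ∑ s ∈ T, (X / (16 * L)) * ((1 : ℝ) / s) := by rw [Finset.mul_sum]
    _ ≤ _ := Finset.sum_le_sum hterm

end Pool.Agent.Helper48.Cov
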