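import Pool.Agent.Helper48.CovFacts

/-!
# Upper bound for the main set
-/

set_option autoImplicit false

namespace Pool.Agent.Helper48.Cov

open Finset Filter Pool.Agent.Helper44

theorem V0_upper (A : ℝ) (hA : 1 ≤ A) : ∃ n0 : ℕ, ∀ X : ℕ, Good A n0 X →
    ((VV (w0 X) (yy A X) (RR X) X).card : ℝ) * sg (lst (w0 X) (yy A X)) 1 ≤
      20 * (X / Real.log X) := by
  obtain ⟨C, hC, y0, hy0, hsm⟩ := smooth_bound (16 * A) (by linarith)
  obtain ⟨C', hC', hrec⟩ := sum_inv_pr2_le
  obtain ⟨C'', hC'', hsgu⟩ := sg_upper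
  obtain ⟨n1, hn1⟩ := exists_nat_ge (C * C'' * (10 + C'))
  refine ⟨max (max n1 y0) 4, ?_⟩
  intro X h
  have hL := h.L_ge
  have hLpos := h.L_pos
  have hX4 : 4 ≤ X := le_trans (le_max_right _ _) h.h8
  have hXR : (0 : ℝ) < X := by exact_mod_cast (by omega : 0 < X)
  have hR := h.logR_pos
  have hRle := h.logR_le
  have hRge : max (max n1 y0) 4 ≤ RR X := h.RR_ge
  have hR4 := h.RR4
  have hy7 := h.h7
  set L := Real.log (X : ℝ) with hLdef
  set R := RR X with hRdef
  set y := yy A X with hydef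
  have hRR : (4 : ℝ) ≤ R := by exact_mod_cast hR4
  have hw01 : 1 ≤ w0 X := le_trans (by norm_num) (w0_ge X h.hi2)
  have hsg0 := sg_nonneg_lst (a := w0 X) (b := y) hw01
  set s1 := sg (lst (w0 X) y) 1 with hs1
  -- `y` is large
  have hyy0 : y0 ≤ y := by
    have h2 : y0 ≤ R := le_trans (le_trans (le_max_right _ _) (le_max_left _ _)) hRge
    have h3 : R < 4 ^ R := Nat.lt_pow_self (by norm_num)
    have h4 : 4 ^ R ≤ 4 ^ (8 * R) := Nat.pow_le_pow_right (by norm_num) (by omega)
    omega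
  have hcard := card_VV_le (w0 X) y R X
  have hcard' : ((VV (w0 X) y R X).card : ℝ) ≤
      ∑ s ∈ (Rg (w0 X) y X).filter (fun s => s * s ≤ X), (pc (X / s) : ℝ) +
      ∑ q ∈ (pr2 0 X).filter (fun q => q * q ≤ X), ((Sm y (X / q)).card : ℝ) := by
    exact_mod_cast hcard
  -- first sum
  have hA1 : ∑ s ∈ (Rg (w0 X) y X).filter (fun s => s * s ≤ X), (pc (X / s) : ℝ) ≤
      16 * (X / L) * s1⁻¹ := by
    calc ∑ s ∈ (Rg (w0 X) y X).filter (fun s => s * s ≤ X), (pc (X / s) : ℝ)
        ≤ ∑ s ∈ (Rg (w0 X) y X).filter (fun s => s * s ≤ X), 16 * (X / L) * ((1 : ℝ) / s) := by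
          apply Finset.sum_le_sum
          intro s hs
          rw [mem_filter, mem_Rg] at hs
          obtain ⟨h2, h3, h4⟩ := half_log (X := X) (s := s) hs.1.1.1 hs.2 (by linarith) hX4
          have h5 := pc_upper h2
          have hs0 : (0 : ℝ) < s := by exact_mod_cast hs.1.1.1
          have hn0 : (0 : ℝ) < ((X / s : ℕ) : ℝ) := by exact_mod_cast (by omega : 0 < X / s)
          calc (pc (X / s) : ℝ) ≤ 4 * (((X / s : ℕ) : ℝ) / Real.log ((X / s : ℕ) : ℝ)) := h5
            _ ≤ 4 * (((X : ℝ) / s) / (L / 4)) := by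
                gcongr
            _ = _ := by field_simp; ring
      _ ≤ ∑ s ∈ Rg (w0 X) y X, 16 * (X / L) * ((1 : ℝ) / s) := by
          apply Finset.sum_le_sum_of_subset_of_nonneg (Finset.filter_subset _ _)
          intro s _ _
          positivity
      _ = 16 * (X / L) * ∑ s ∈ Rg (w0 X) y X, (1 : ℝ) / s := by rw [Finset.mul_sum]
      _ ≤ 16 * (X / L) * s1⁻¹ := by
          apply mul_le_mul_of_nonneg_left (sum_inv_Rg_le _ _ _) (by positivity)
  -- second sum
  have hR4pow : Real.exp (-(4 * Real.log R)) = 1 / (R : ℝ) ^ 4 := by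
    rw [Real.exp_neg, show 4 * Real.log (R : ℝ) = ((4 : ℕ) : ℝ) * Real.log R by norm_num,
      Real.exp_nat_mul, Real.exp_log (by linarith), one_div]
  have hA2 : ∑ q ∈ (pr2 0 X).filter (fun q => q * q ≤ X), ((Sm y (X / q)).card : ℝ) ≤
      C * X * (1 / (R : ℝ) ^ 4) * (5 * (R + 1) + C') := by
    calc ∑ q ∈ (pr2 0 X).filter (fun q => q * q ≤ X), ((Sm y (X / q)).card : ℝ)
        ≤ ∑ q ∈ (pr2 0 X).filter (fun q => q * q ≤ X), C * X * (1 / (R : ℝ) ^ 4) * ((1 : ℝ) / q) := by
          apply Finset.sum_le_sum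
          intro q hq
          rw [mem_filter, mem_pr2] at hq
          obtain ⟨h2, h3, h4⟩ := half_log (X := X) (s := q) hq.1.1.one_lt.le hq.2 (by linarith) hX4
          have h5 := hsm y hyy0 (X / q) (by omega)
          have hq0 : (0 : ℝ) < q := by exact_mod_cast hq.1.1.pos
          have h6 : 4 * Real.log R ≤ 16 * A * Real.log ((X / q : ℕ) : ℝ) / Real.log y := by
            rw [le_div_iff₀ h.logy_pos]
            have h7 := h.h4
            rw [le_div_iff₀ (by linarith)] at h7
            have h8 : A * L ≤ 4 * A * Real.log ((X / q : ℕ) : ℝ) := by nlinarith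
            nlinarith
          calc ((Sm y (X / q)).card : ℝ) ≤ C * ((X / q : ℕ) : ℝ) *
                Real.exp (-(16 * A * Real.log ((X / q : ℕ) : ℝ) / Real.log y)) := h5
            _ ≤ C * ((X : ℝ) / q) * Real.exp (-(4 * Real.log R)) := by
                gcongr
            _ = _ := by rw [hR4pow]; ring
      _ ≤ ∑ q ∈ pr2 0 X, C * X * (1 / (R : ℝ) ^ 4) * ((1 : ℝ) / q) := by
          apply Finset.sum_le_sum_of_subset_of_nonneg (Finset.filter_subset _ _)
          intro s _ _
          positivity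
      _ = C * X * (1 / (R : ℝ) ^ 4) * ∑ q ∈ pr2 0 X, (1 : ℝ) / q := by rw [Finset.mul_sum]
      _ ≤ _ := by
          apply mul_le_mul_of_nonneg_left _ (by positivity)
          have h2 := hrec 0 X (by omega)
          have h3 := h.h3
          linarith
  have hsgle := hsgu A hA X (h.mono (Nat.zero_le _))
  rw [← hs1] at hsgle
  have hiR : (ii X : ℝ) ≤ R := by exact_mod_cast h.ii_le
  have hsgle2 : s1 ≤ C'' * ((R : ℝ) ^ 2 / L) := by
    refine hsgle.trans ?_
    apply mul_le_mul_of_nonneg_left _ hC''.le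
    apply div_le_div_of_nonneg_right _ hLpos.le
    have : (0 : ℝ) ≤ ii X := by positivity
    nlinarith
  calc ((VV (w0 X) y R X).card : ℝ) * s1
      ≤ (16 * (X / L) * s1⁻¹ + C * X * (1 / (R : ℝ) ^ 4) * (5 * (R + 1) + C')) * s1 := by
        apply mul_le_mul_of_nonneg_right _ hsg0.le
        linarith
    _ = 16 * (X / L) + (C * X * (1 / (R : ℝ) ^ 4) * (5 * (R + 1) + C')) * s1 := by
        field_simp
    _ ≤ 16 * (X / L) + (C * X * (1 / (R : ℝ) ^ 4) * (5 * (R + 1) + C')) *
        (C'' * ((R : ℝ) ^ 2 / L)) := by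
        gcongr
    _ = 16 * (X / L) + (X / L) * (C * C'' * (5 * (R + 1) + C') / R ^ 2) := by
        field_simp
    _ ≤ 16 * (X / L) + (X / L) * 1 := by
        gcongr
        rw [div_le_one (by positivity)]
        have h2 : (n1 : ℝ) ≤ R := by
          exact_mod_cast le_trans (le_trans (le_max_left _ _) (le_max_left _ _)) hRge
        have h3 : C * C'' * (5 * ((R : ℝ) + 1) + C') ≤ (C * C'' * (10 + C')) * R := by
          have : 0 < C * C'' := by positivity
          nlinarith [mul_pos this hC']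
        have h4 : (C * C'' * (10 + C')) * R ≤ R * R := by
          apply mul_le_mul_of_nonneg_right _ (by positivity)
          linarith
        nlinarith
    _ ≤ _ := by
        have : 0 ≤ (X : ℝ) / L := by positivity
        linarith

end Pool.Agent.Helper48.Cov
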