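import Pool.Agent.Helper48.CovPar
import Pool.Agent.Helper48.CovCombine

/-!
# Final assembly
-/

set_option autoImplicit false

namespace Pool.Agent.Helper48.Cov

open Finset Filter Pool.Agent.Helper44

/-- give two private elements to every member of `B` -/
lemma exists_singles (B : Finset ℕ) : ∀ T : Finset ℕ, 2 * B.card ≤ T.card →
    ∃ s : ℕ → ℕ, ∀ m ∈ B, 2 ≤ (T.filter (fun p => s p = m)).card := by
  classical
  induction B using Finset.induction_on with
  | empty => intro T _; exact ⟨fun _ => 0, fun m hm => absurd hm (by simp)⟩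
  | insert m B hm ih =>
    intro T hT
    rw [Finset.card_insert_of_notMem hm] at hT
    obtain ⟨U, hU, hUc⟩ := Finset.exists_subset_card_eq (show 2 ≤ T.card by omega)
    have h1 : (T \ U).card = T.card - 2 := by rw [card_sdiff_of_subset hU, hUc]
    obtain ⟨s, hs⟩ := ih (T \ U) (by omega)
    refine ⟨fun p => if p ∈ U then m else s p, ?_⟩
    intro m' hm'
    rcases mem_insert.1 hm' with rfl | hm'
    · calc 2 = U.card := hUc.symm
        _ ≤ _ := by
          apply Finset.card_le_card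
          intro p hp
          rw [mem_filter]
          exact ⟨hU hp, by simp [hp]⟩
    · refine (hs m' hm').trans (Finset.card_le_card ?_)
      intro p hp
      rw [mem_filter, Finset.mem_sdiff] at hp
      rw [mem_filter]
      exact ⟨hp.1.1, by simp [hp.1.2, hp.2]⟩

/-- the final assignment -/
noncomputable def asg (w y R j X : ℕ) (a : ℕ → ℕ) (ch : ℕ → Finset ℕ) (s : ℕ → ℕ) (p : ℕ) : ℕ :=
  if p ≤ w then 0 else if p ≤ y then a p else if 4 ^ R * p ≤ X then 0 else
    if 4 ^ j * p ≤ X then (if h : (ch p).Nonempty then h.choose else 0) else s p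

lemma two_cover {N m p q : ℕ} {b : ℕ → ℕ} (hp : p.Prime) (hq : q.Prime) (hpq : p ≠ q)
    (hpN : p ≤ N) (hqN : q ≤ N) (h1 : m ≡ b p [MOD p]) (h2 : m ≡ b q [MOD q]) :
    2 ≤ ((Finset.range (N + 1)).filter (fun p => p.Prime ∧ m ≡ b p [MOD p])).card := by
  classical
  apply Finset.one_lt_card.2
  refine ⟨p, ?_, q, ?_, hpq⟩
  · rw [mem_filter, mem_range]; exact ⟨by omega, hp, h1⟩
  · rw [mem_filter, mem_range]; exact ⟨by omega, hq, h2⟩

/-- the bad elements -/
def BadS (w y R X : ℕ) (P : Finset ℕ) (a : ℕ → ℕ) (ch : ℕ → Finset ℕ) : Finset ℕ :=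
  ((E0 y R X).filter (fun m => AtMost1 (lst w y) m a) ∪ Bad2 y X) ∪
    (DD (VV w y R X) (lst w y) a).filter (fun m => ∀ p ∈ P, m ∉ ch p)

lemma assemble {N X w y R j : ℕ} (a : ℕ → ℕ) (ch : ℕ → Finset ℕ) (s : ℕ → ℕ)
    (hwy : w ≤ y) (hyR : 4 ^ R ≤ y) (hyX : 4 ^ R * y < X) (hjR : j ≤ R) (hXN : X / 4 ^ j ≤ N)
    (hcls : ∀ p ∈ (Finset.Ico j R).biUnion (PP X), ∀ t ∈ ch p, ∀ t' ∈ ch p, t % p = t' % p)
    (hs : ∀ m ∈ BadS w y R X ((Finset.Ico j R).biUnion (PP X)) a ch,
      2 ≤ ((pr2 (X / 4 ^ j) N).filter (fun p => s p = m)).card) (m : ℕ) (hm0 : 1 ≤ m)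
    (hmX : m ≤ X) :
    2 ≤ ((Finset.range (N + 1)).filter
      (fun p => p.Prime ∧ m ≡ asg w y R j X a ch s p [MOD p])).card := by
  classical
  have h4 : 4 ^ j ≤ 4 ^ R := Nat.pow_le_pow_right (by norm_num) hjR
  have hyj : y ≤ X / 4 ^ j := by
    rw [Nat.le_div_iff_mul_le (by positivity)]
    calc y * 4 ^ j ≤ y * 4 ^ R := Nat.mul_le_mul_left _ h4
      _ = 4 ^ R * y := mul_comm _ _
      _ ≤ X := hyX.le
  -- the bad elements
  have hbad : m ∈ BadS w y R X ((Finset.Ico j R).biUnion (PP X)) a ch →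
      2 ≤ ((Finset.range (N + 1)).filter
      (fun p => p.Prime ∧ m ≡ asg w y R j X a ch s p [MOD p])).card := by
    intro hmB
    refine (hs m hmB).trans (Finset.card_le_card ?_)
    intro p hp
    rw [mem_filter, mem_pr2] at hp
    obtain ⟨⟨hpp, hp1, hp2⟩, hp3⟩ := hp
    rw [mem_filter, mem_range]
    have h1 : ¬ 4 ^ j * p ≤ X := by
      intro hc
      have : p ≤ X / 4 ^ j := (Nat.le_div_iff_mul_le (by positivity)).2 (by linarith)
      omega
    have h2 : ¬ 4 ^ R * p ≤ X := by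
      intro hc
      exact h1 (le_trans (Nat.mul_le_mul_right _ h4) hc)
    refine ⟨by omega, hpp, ?_⟩
    have e : asg w y R j X a ch s p = m := by
      unfold asg
      rw [if_neg (by omega), if_neg (by omega), if_neg h2, if_neg h1, hp3]
    rw [e]
  -- the medium primes
  have hmed : ∀ q, Med y R X q → q ∣ m → q ≤ N ∧ m ≡ asg w y R j X a ch s q [MOD q] := by
    intro q hq hqm
    obtain ⟨hqp, hyq, hqX⟩ := hq
    have e : asg w y R j X a ch s q = 0 := by
      unfold asg
      rw [if_neg (by omega), if_neg (by omega), if_pos hqX]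
    refine ⟨?_, ?_⟩
    · refine le_trans ?_ hXN
      rw [Nat.le_div_iff_mul_le (by positivity)]
      calc q * 4 ^ j ≤ q * 4 ^ R := Nat.mul_le_mul_left _ h4
        _ = 4 ^ R * q := mul_comm _ _
        _ ≤ X := hqX
    · rw [e]
      exact (Nat.modEq_zero_iff_dvd).2 hqm
  have hrand : ∀ ℓ ∈ lst w y, m % ℓ = a ℓ →
      ℓ.Prime ∧ ℓ ≤ y ∧ ℓ ≤ N ∧ m ≡ asg w y R j X a ch s ℓ [MOD ℓ] := by
    intro ℓ hℓ hmℓ
    rw [mem_lst] at hℓ
    have e : asg w y R j X a ch s ℓ = a ℓ := by
      unfold asg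
      rw [if_neg (by omega), if_pos hℓ.2.2]
    refine ⟨hℓ.1, hℓ.2.2, le_trans (le_trans hℓ.2.2 hyj) hXN, ?_⟩
    rw [e, ← hmℓ]
    exact (Nat.mod_modEq m ℓ).symm
  rcases classify hwy hyR hm0 hmX with h | h | h | h
  · by_cases h1 : AtMost1 (lst w y) m a
    · apply hbad
      unfold BadS
      rw [mem_union, mem_union]
      left; left
      rw [mem_filter]
      exact ⟨h, h1⟩
    · unfold AtMost1 at h1
      push Not at h1
      have hnd : ((lst w y).filter (fun ℓ => m % ℓ = a ℓ)).Nodup := (lst_nodup w y).filter _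
      have hc : 1 < ((lst w y).filter (fun ℓ => m % ℓ = a ℓ)).toFinset.card := by
        rw [List.toFinset_card_of_nodup hnd]; exact h1
      obtain ⟨ℓ, hℓ, ℓ', hℓ', hne⟩ := Finset.one_lt_card.1 hc
      rw [List.mem_toFinset, List.mem_filter] at hℓ hℓ'
      obtain ⟨h2, h3⟩ := hℓ
      obtain ⟨h4', h5⟩ := hℓ'
      have h3' : m % ℓ = a ℓ := by simpa using h3
      have h5' : m % ℓ' = a ℓ' := by simpa using h5
      obtain ⟨g1, _, g3, g4⟩ := hrand ℓ h2 h3'
      obtain ⟨k1, _, k3, k4⟩ := hrand ℓ' h4' h5'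
      exact two_cover g1 k1 hne g3 k3 g4 k4
  · apply hbad
    unfold BadS
    rw [mem_union, mem_union]
    left; right
    exact h
  · obtain ⟨q, q', hne, hqm, hq'm, hq, hq'⟩ := h
    obtain ⟨h1, h2⟩ := hmed q hq hqm
    rcases hq' with hq' | ⟨hq'p, hq'w⟩
    · obtain ⟨h3, h4'⟩ := hmed q' hq' hq'm
      exact two_cover hq.1 hq'.1 hne h1 h3 h2 h4'
    · have e : asg w y R j X a ch s q' = 0 := by
        unfold asg
        rw [if_pos hq'w]
      refine two_cover hq.1 hq'p hne h1 ?_ h2 ?_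
      · exact le_trans (le_trans (le_trans hq'w hwy) hyj) hXN
      · rw [e]; exact (Nat.modEq_zero_iff_dvd).2 hq'm
  · obtain ⟨s', q, hmsq, _, _, hq, _⟩ := mem_VV.1 h
    have hqm : q ∣ m := ⟨s', by rw [hmsq]; ring⟩
    obtain ⟨h1, h2⟩ := hmed q hq hqm
    by_cases h3 : ∃ ℓ ∈ lst w y, m % ℓ = a ℓ
    · obtain ⟨ℓ, hℓ, hmℓ⟩ := h3
      obtain ⟨g1, g2, g3, g4⟩ := hrand ℓ hℓ hmℓ
      refine two_cover hq.1 g1 ?_ h1 g3 h2 g4
      have := hq.2.1
      omega
    · push Not at h3
      have hD : m ∈ DD (VV w y R X) (lst w y) a := by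
        unfold DD
        rw [mem_filter]
        refine ⟨h, ?_⟩
        intro ℓ hℓ t ht
        rw [mem_singleton] at ht
        rw [ht]
        exact h3 ℓ hℓ
      by_cases h5 : ∃ p ∈ (Finset.Ico j R).biUnion (PP X), m ∈ ch p
      · obtain ⟨p, hp, hmp⟩ := h5
        have hp' := hp
        rw [mem_biUnion] at hp'
        obtain ⟨i, hi, hpi⟩ := hp'
        rw [mem_Ico] at hi
        rw [mem_PP] at hpi
        obtain ⟨hpp, hp1, hp2⟩ := hpi
        have hnR : ¬ 4 ^ R * p ≤ X := by
          intro hc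
          have h6 : 4 ^ (i + 1) ≤ 4 ^ R := Nat.pow_le_pow_right (by norm_num) hi.2
          have h7 : 4 ^ (i + 1) * p ≤ 4 ^ R * p := Nat.mul_le_mul_right _ h6
          omega
        have hpy : y < p := by
          by_contra hc
          push Not at hc
          exact hnR (le_trans (Nat.mul_le_mul_left _ hc) hyX.le)
        have hpj : 4 ^ j * p ≤ X :=
          le_trans (Nat.mul_le_mul_right _ (Nat.pow_le_pow_right (by norm_num) hi.1)) hp2
        have hne : (ch p).Nonempty := ⟨m, hmp⟩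
        have e : asg w y R j X a ch s p = hne.choose := by
          unfold asg
          rw [if_neg (by omega), if_neg (by omega), if_neg hnR, if_pos hpj, dif_pos hne]
        refine two_cover hq.1 hpp ?_ h1 ?_ h2 ?_
        · intro hc
          apply hnR
          rw [← hc]
          exact hq.2.2
        · refine le_trans ?_ hXN
          rw [Nat.le_div_iff_mul_le (by positivity)]
          linarith
        · rw [e]
          exact hcls p hp m hmp _ hne.choose_spec
      · push Not at h5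
        apply hbad
        unfold BadS
        rw [mem_union]
        right
        rw [mem_filter]
        exact ⟨hD, h5⟩

end Pool.Agent.Helper48.Cov
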