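import Pool.Agent.Helper48.CovStep

/-!
# All scales together
-/

set_option autoImplicit false

namespace Pool.Agent.Helper48.Cov

open Finset Filter Pool.Agent.Helper44

/-- pure arithmetic for the lower bound of the mean coverage -/
lemma num_cbar {P k Mb s2 X L κ A i lR Cs c4 : ℝ} (hX : 0 < X) (hL : 0 < L) (hκ : 0 < κ)
    (hA : 0 < A) (hi : 0 < i) (hlR : 0 < lR) (hCs : 0 < Cs) (hc4 : 0 < c4) (hMb : 0 < Mb)
    (hs2 : 0 < s2) (hP : X / (8 * c4 * L) ≤ P) (hk : κ * Mb * c4 / (2 * X) ≤ k)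
    (hs : s2 ≤ Cs * (24 * i * lR / (A * L))) :
    1 / (384 * Cs) * κ * A / (i * lR) ≤ P * k / (Mb * s2) := by
  have h1 : κ * Mb / (16 * L) ≤ P * k := by
    calc κ * Mb / (16 * L) = (X / (8 * c4 * L)) * (κ * Mb * c4 / (2 * X)) := by
          field_simp; ring
      _ ≤ P * k := by
          apply mul_le_mul hP hk (by positivity)
          exact le_trans (by positivity) hP
  rw [le_div_iff₀ (by positivity)]
  calc 1 / (384 * Cs) * κ * A / (i * lR) * (Mb * s2) ≤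
        1 / (384 * Cs) * κ * A / (i * lR) * (Mb * (Cs * (24 * i * lR / (A * L)))) := by
        gcongr
    _ = κ * Mb / (16 * L) := by field_simp; ring
    _ ≤ P * k := h1

/-- the mean coverage of a scale is large -/
theorem stepCbar : ∃ c : ℝ, 0 < c ∧ ∀ κ : ℝ, 0 < κ → κ ≤ 1 / 16 → ∀ A : ℝ, 1 ≤ A →
    ∃ n0 : ℕ, ∀ X : ℕ, Good A n0 X → ∀ i : ℕ, ii X ≤ i → i < RR X →
      ∀ S : Scale, S.V0 = VA A X → S.l1 = lst (w0 X) (wI i) → S.l2 = lst (wI i) (yy A X) →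
        S.P = PP X i → S.k = kI κ A X i →
        c * κ * A / (i * Real.log (RR X)) ≤ S.cbar := by
  obtain ⟨cs, Cs, hcs, hCs, hsg⟩ := sg_bounds
  obtain ⟨cv, cm, hcv, hcm, hM⟩ := stepM
  refine ⟨1 / (384 * Cs), by positivity, ?_⟩
  intro κ hκ hκ1 A hA
  obtain ⟨n1, hn1⟩ := stepK hκ hκ1 A hA
  obtain ⟨n2, hn2⟩ := stepP A hA
  obtain ⟨n3, hn3⟩ := hM A hA
  refine ⟨max (max n1 n2) n3, ?_⟩
  intro X h i hi hiR S hSV hSl1 hSl2 hSP hSk
  obtain ⟨_, _, _, hklb⟩ :=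
    hn1 X (h.mono (le_trans (le_max_left _ _) (le_max_left _ _))) i hi hiR
  obtain ⟨hPlow, _⟩ := hn2 X (h.mono (le_trans (le_max_right _ _) (le_max_left _ _))) i hi hiR
  obtain ⟨_, _, hMi⟩ := hn3 X (h.mono (le_max_right _ _))
  obtain ⟨hMb0, _, _⟩ := hMi i hi hiR
  have hXR : (0 : ℝ) < X := by exact_mod_cast h.X_pos
  have hL0 := h.L_pos
  have hR := h.logR_pos
  have hi0 : (0 : ℝ) < i := by exact_mod_cast (by have := h.hi2; omega : 0 < i)
  have hSMb : S.Mb = MbI A X i := by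
    unfold Scale.Mb MbI
    rw [hSV, hSl1]
  have hwI1 : 1 ≤ wI i := by unfold wI; exact Nat.one_le_pow _ _ (by norm_num)
  have hwI2 : 2 ≤ wI i := by
    have h1 := w0_ge X h.hi2
    have h2 := h.w0_le hi
    omega
  have hs2 : sg S.l2 1 ≤ Cs * (24 * i * Real.log (RR X) / (A * Real.log X)) := by
    rw [hSl2]
    refine (hsg (wI i) (yy A X) hwI2 (h.wI_le hiR)).2.trans ?_
    apply mul_le_mul_of_nonneg_left _ hCs.le
    have h1 : Real.log (wI i : ℝ) ≤ 12 * i := log_w_le _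
    have h2 := h.h5
    have h3 : (0 : ℝ) < A * Real.log X / (2 * Real.log (RR X)) := by positivity
    calc Real.log (wI i : ℝ) / Real.log (yy A X) ≤
          (12 * i) / (A * Real.log X / (2 * Real.log (RR X))) := by
          apply div_le_div₀ (by positivity) h1 h3 h2
      _ = 24 * i * Real.log (RR X) / (A * Real.log X) := by field_simp; ring
  unfold Scale.cbar Scale.Db
  rw [hSMb]
  apply num_cbar hXR hL0 hκ (by linarith) hi0 (by linarith) hCs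
    (show (0 : ℝ) < 4 ^ i by positivity) hMb0 S.sg2_pos _ _ hs2
  · rw [hSP]; exact hPlow
  · rw [hSk]; exact hklb

/-- everything about a scale -/
theorem scale_facts : ∃ c : ℝ, 0 < c ∧ ∀ ε : ℝ, 0 < ε → ε ≤ 1 → ∀ A : ℝ, 1 ≤ A →
    ∃ n0 : ℕ, ∀ X : ℕ, Good A n0 X → ∀ i : ℕ, ii X ≤ i → i < RR X →
      ∃ S : Scale, S.V0 = VA A X ∧ S.l1 ++ S.l2 = lst (w0 X) (yy A X) ∧ S.P = PP X i ∧
        0 < S.V0.card ∧ 0 < S.P.card ∧ c * ε ^ 3 * A / (i * Real.log (RR X)) ≤ S.cbar ∧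
        ∀ a : ℕ → ℕ, Av (S.l1 ++ S.l2) (fun c => ∑ m ∈ S.D c, max (S.cbar - S.F m c) 0) a ≤
          3 * ε * (S.cbar * S.Db) := by
  obtain ⟨c, hc, hcb⟩ := stepCbar
  obtain ⟨cv, cm, hcv, hcm, hM⟩ := stepM
  refine ⟨c / 16, by positivity, ?_⟩
  intro ε hε hε1 A hA
  have hε3 : ε ^ 3 ≤ 1 := pow_le_one₀ hε.le hε1
  have hε30 : 0 < ε ^ 3 := by positivity
  have hκ : 0 < ε ^ 3 / 16 := by positivity
  have hκ1 : ε ^ 3 / 16 ≤ 1 / 16 := by linarith
  have hη : 0 < ε ^ 3 / 4 := by positivity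
  have hη1 : ε ^ 3 / 4 ≤ 1 := by linarith
  obtain ⟨n1, hn1⟩ := hcb (ε ^ 3 / 16) hκ hκ1 A hA
  obtain ⟨n2, hn2⟩ := stepS hκ hκ1 A hA
  obtain ⟨n3, hn3⟩ := stepH1 hκ hκ1 hη hη1 A hA
  obtain ⟨n4, hn4⟩ := stepH2 hκ hκ1 hη A hA
  obtain ⟨n5, hn5⟩ := stepMu hκ hκ1 hη A hA
  obtain ⟨n6, hn6⟩ := stepP A hA
  obtain ⟨n7, hn7⟩ := hM A hA
  obtain ⟨n8, hn8⟩ := stepK hκ hκ1 A hA
  refine ⟨n1 + n2 + n3 + n4 + n5 + n6 + n7 + n8, ?_⟩
  intro X h i hi hiR
  obtain ⟨S, hSV, hSl1, hSl2, hSP, hSk, hSJ⟩ := hn2 X (h.mono (by omega)) i hi hiR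
  have hcbar := hn1 X (h.mono (by omega)) i hi hiR S hSV hSl1 hSl2 hSP hSk
  have hH1 := hn3 X (h.mono (by omega)) i hi hiR S hSV hSl1 hSl2 hSk
  have hH2 := hn4 X (h.mono (by omega)) i hi hiR S hSl2 hSP hSk hSJ
  obtain ⟨hmu, hmuW⟩ := hn5 X (h.mono (by omega)) i hi hiR S hSV hSl1 hSl2 hSP hSk
  obtain ⟨_, hPpos⟩ := hn6 X (h.mono (by omega)) i hi hiR
  obtain ⟨hVpos, _, hMi⟩ := hn7 X (h.mono (by omega))
  obtain ⟨hMb0, _, _⟩ := hMi i hi hiR
  obtain ⟨_, _, hkub, _⟩ := hn8 X (h.mono (by omega)) i hi hiR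
  have hXR : (0 : ℝ) < X := by exact_mod_cast h.X_pos
  have hSMb : S.Mb = MbI A X i := by
    unfold Scale.Mb MbI
    rw [hSV, hSl1]
  have hV : 0 < S.V0.card := by rw [hSV]; exact hVpos
  have hP : 0 < S.P.card := by rw [hSP]; exact hPpos
  have hκp : ∀ p ∈ S.P, (p : ℝ) * S.k ≤ (ε ^ 3 / 16) * S.Mb := by
    intro p hp
    rw [hSP, mem_PP] at hp
    have h1 : (4 : ℝ) ^ i * p ≤ X := by exact_mod_cast hp.2.2
    have hk0 : (0 : ℝ) ≤ (kI (ε ^ 3 / 16) A X i : ℝ) := by positivity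
    rw [hSk, hSMb]
    have h4 : (0 : ℝ) < 4 ^ i := by positivity
    calc (p : ℝ) * kI (ε ^ 3 / 16) A X i ≤
          (X / 4 ^ i) * ((ε ^ 3 / 16) * MbI A X i * 4 ^ i / X) := by
          apply mul_le_mul _ hkub hk0 (by positivity)
          rw [le_div_iff₀ h4]; linarith
      _ = (ε ^ 3 / 16) * MbI A X i := by field_simp
  refine ⟨S, hSV, ?_, hSP, hV, hP, ?_, ?_⟩
  · rw [hSl1, hSl2]
    exact lst_append (h.w0_le hi) (h.wI_le hiR)
  · refine le_trans (le_of_eq ?_) hcbar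
    ring
  · intro a
    exact S.scale_main hε hη.le hκp hV hP hH1 hH2 (by linarith) (by linarith) a

/-- the harmonic sum over the scales -/
lemma harmonic_scales {A : ℝ} {n0 X : ℕ} (h : Good A n0 X) :
    Real.log (RR X) / 2 ≤ ∑ i ∈ Finset.Ico (ii X) (RR X), (1 : ℝ) / i := by
  have h1 : ∑ i ∈ Finset.Ico (ii X) (RR X), (Real.log ((i + 1 : ℕ) : ℝ) - Real.log (i : ℝ)) =
      Real.log (RR X : ℝ) - Real.log (ii X : ℝ) :=
    Finset.sum_Ico_sub (fun i : ℕ => Real.log (i : ℝ)) h.ii_le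
  have h2 : ∑ i ∈ Finset.Ico (ii X) (RR X), (Real.log ((i + 1 : ℕ) : ℝ) - Real.log (i : ℝ)) ≤
      ∑ i ∈ Finset.Ico (ii X) (RR X), (1 : ℝ) / i := by
    apply Finset.sum_le_sum
    intro i hi
    rw [Finset.mem_Ico] at hi
    have hi0 : (0 : ℝ) < i := by exact_mod_cast (by have := h.hi2; omega : 0 < i)
    push_cast
    rw [← Real.log_div (by positivity) hi0.ne']
    have h3 := Real.log_le_sub_one_of_pos (show (0 : ℝ) < ((i : ℝ) + 1) / i by positivity)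
    refine h3.trans (le_of_eq ?_)
    field_simp
    ring
  have h4 : Real.log (ii X : ℝ) ≤ Real.log (RR X : ℝ) / 2 := by
    have hii : (0 : ℝ) < ii X := by exact_mod_cast (by have := h.hi2; omega : 0 < ii X)
    have h5 : ((ii X : ℝ)) ^ 2 ≤ RR X := by
      have := ii_sq_le X
      rw [sq]
      exact_mod_cast this
    have h6 := Real.log_le_log (by positivity) h5
    rw [Real.log_pow] at h6
    push_cast at h6
    linarith
  linarith

/-- the total mean coverage -/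
lemma sum_cbar_ge {A K : ℝ} {n0 X : ℕ} (h : Good A n0 X) (hK : 0 ≤ K) (f : ℕ → ℝ)
    (hf : ∀ i, ii X ≤ i → i < RR X → K / (i * Real.log (RR X)) ≤ f i) :
    K / 2 ≤ ∑ i ∈ Finset.Ico (ii X) (RR X), f i := by
  have hR := h.logR_pos
  calc K / 2 = (K / Real.log (RR X)) * (Real.log (RR X) / 2) := by field_simp
    _ ≤ (K / Real.log (RR X)) * ∑ i ∈ Finset.Ico (ii X) (RR X), (1 : ℝ) / i := by
        apply mul_le_mul_of_nonneg_left (harmonic_scales h) (by positivity)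
    _ = ∑ i ∈ Finset.Ico (ii X) (RR X), K / (i * Real.log (RR X)) := by
        rw [Finset.mul_sum]
        apply Finset.sum_congr rfl
        intro i hi
        rw [Finset.mem_Ico] at hi
        have hi0 : (0 : ℝ) < i := by exact_mod_cast (by have := h.hi2; omega : 0 < i)
        field_simp
    _ ≤ _ := by
        apply Finset.sum_le_sum
        intro i hi
        rw [Finset.mem_Ico] at hi
        exact hf i hi.1 hi.2

end Pool.Agent.Helper48.Cov
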