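import Pool.Agent.Helper48.CovFinal
import Pool.Agent.Helper48.CovScaleSum
import Pool.Agent.Helper48.CovFactsU
import Pool.Agent.Helper48.CovFactsE

/-!
# Main theorem
-/

set_option autoImplicit false

namespace Pool.Agent.Helper48.Cov

open Finset Filter Pool.Agent.Helper44

lemma log_idx {X i p : ℕ} (hp : p ∈ PP X i) : Nat.log 4 (X / p) = i := by
  rw [mem_PP] at hp
  obtain ⟨hpp, h1, h2⟩ := hp
  apply Nat.log_eq_of_pow_le_of_lt_pow
  · exact (Nat.le_div_iff_mul_le hpp.pos).2 h2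
  · exact (Nat.div_lt_iff_lt_mul hpp.pos).2 h1

lemma PP_disj {X i i' p : ℕ} (h : p ∈ PP X i) (h' : p ∈ PP X i') : i = i' := by
  rw [← log_idx h, log_idx h']

/-- a total family of scales -/
lemma exists_family {I : Finset ℕ} (hI : I.Nonempty) (Q : ℕ → Scale → Prop)
    (h : ∀ i ∈ I, ∃ S, Q i S) : ∃ Sc : ℕ → Scale, ∀ i ∈ I, Q i (Sc i) := by
  classical
  obtain ⟨i0, hi0⟩ := hI
  obtain ⟨S0, _⟩ := h i0 hi0
  have h1 : ∀ i, ∃ S, i ∈ I → Q i S := by
    intro i
    by_cases hi : i ∈ I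
    · obtain ⟨S, hS⟩ := h i hi
      exact ⟨S, fun _ => hS⟩
    · exact ⟨S0, fun hc => absurd hc hi⟩
  choose Sc hSc using h1
  exact ⟨Sc, hSc⟩

/-- the choice of blocks, given the random classes -/
lemma exists_choice (X : ℕ) (I : Finset ℕ) (Sc : ℕ → Scale) (hP : ∀ i ∈ I, (Sc i).P = PP X i)
    (a : ℕ → ℕ) (D : Finset ℕ) : ∃ ch : ℕ → Finset ℕ,
      (∀ p ∈ I.biUnion (PP X), ∀ t ∈ ch p, ∀ t' ∈ ch p, t % p = t' % p) ∧
      ((D.filter (fun m => ∀ p ∈ I.biUnion (PP X), m ∉ ch p)).card : ℝ) ≤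
        ∑ m ∈ D, Real.exp (-∑ i ∈ I, (Sc i).F m a) := by
  classical
  have hidx : ∀ i ∈ I, ∀ p ∈ PP X i, (Sc (Nat.log 4 (X / p))).Fam p a = (Sc i).Fam p a := by
    intro i _ p hp
    rw [log_idx hp]
  obtain ⟨ch, hch1, hch2⟩ := greedy_exp (I.biUnion (PP X))
    (fun p => (Sc (Nat.log 4 (X / p))).Fam p a) (by
      intro p hp T hT T' hT' hne
      rw [mem_biUnion] at hp
      obtain ⟨i, hi, hpi⟩ := hp
      have e : (Sc (Nat.log 4 (X / p))).Fam p a = (Sc i).Fam p a := hidx i hi p hpi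
      simp only [e] at hT hT'
      exact (Sc i).Fam_disj (by rw [hP i hi]; exact hpi) a T hT T' hT' hne) D
  refine ⟨ch, ?_, ?_⟩
  · intro p hp t ht t' ht'
    have hp' := hp
    rw [mem_biUnion] at hp'
    obtain ⟨i, hi, hpi⟩ := hp'
    rcases hch1 p hp with h | h
    · have h' : ch p ∈ (Sc i).Fam p a := by
        rw [← hidx i hi p hpi]; exact h
      unfold Scale.Fam at h'
      rw [mem_filter] at h'
      exact ((Sc i).hBl p (by rw [hP i hi]; exact hpi) _).cls (ch p) h'.1 t ht t' ht'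
    · rw [h] at ht
      exact absurd ht (by simp)
  · refine hch2.trans (le_of_eq ?_)
    apply Finset.sum_congr rfl
    intro m _
    congr 2
    rw [Finset.sum_biUnion]
    · apply Finset.sum_congr rfl
      intro i hi
      unfold Scale.F
      rw [hP i hi]
      apply Finset.sum_congr rfl
      intro p hp
      rw [hidx i hi p hp]
    · intro i hi i' hi' hne
      apply Finset.disjoint_left.2
      intro p hp hp'
      exact hne (PP_disj hp hp')

lemma card_BadS_le (w y R X : ℕ) (P : Finset ℕ) (a : ℕ → ℕ) (ch : ℕ → Finset ℕ) :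
    ((BadS w y R X P a ch).card : ℝ) ≤ ∑ m ∈ E0 y R X, am1 (lst w y) m a + (Bad2 y X).card +
      (((DD (VV w y R X) (lst w y) a).filter (fun m => ∀ p ∈ P, m ∉ ch p)).card : ℝ) := by
  classical
  have h1 : ((BadS w y R X P a ch).card : ℝ) ≤
      (((E0 y R X).filter (fun m => AtMost1 (lst w y) m a)).card + (Bad2 y X).card +
      ((DD (VV w y R X) (lst w y) a).filter (fun m => ∀ p ∈ P, m ∉ ch p)).card : ℕ) := by
    apply Nat.cast_le.2
    unfold BadS
    refine (Finset.card_union_le _ _).trans ?_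
    exact Nat.add_le_add_right (Finset.card_union_le _ _) _
  have h2 : (((E0 y R X).filter (fun m => AtMost1 (lst w y) m a)).card : ℝ) =
      ∑ m ∈ E0 y R X, am1 (lst w y) m a := by
    unfold am1
    rw [← Finset.sum_filter, Finset.sum_const, nsmul_eq_mul, mul_one]
  push_cast at h1
  rw [h2] at h1
  exact h1

theorem two_cover_main (C0 : ℕ) (hC0 : 1 ≤ C0) : ∃ N0 : ℕ, ∀ N ≥ N0, ∃ b : ℕ → ℕ,
    ∀ m : ℕ, 1 ≤ m → m ≤ C0 * N →
      2 ≤ ((Finset.range (N + 1)).filter (fun p => p.Prime ∧ m ≡ b p [MOD p])).card := by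
  classical
  obtain ⟨c, hc, hsf⟩ := scale_facts
  have hC0R : (1 : ℝ) ≤ C0 := by exact_mod_cast hC0
  obtain ⟨ε, hεdef⟩ : ∃ ε : ℝ, ε = 1 / (15360 * C0) := ⟨_, rfl⟩
  have hε : 0 < ε := by rw [hεdef]; positivity
  have hε1 : ε ≤ 1 := by
    rw [hεdef, div_le_one (by positivity)]; linarith
  obtain ⟨A, hAdef⟩ : ∃ A : ℝ, A = max 1 (4 * Real.log (2560 * C0) / (c * ε ^ 3)) := ⟨_, rfl⟩
  have hA : 1 ≤ A := by rw [hAdef]; exact le_max_left _ _
  have hK : 4 * Real.log (2560 * C0) ≤ c * ε ^ 3 * A := by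
    have h1 : 4 * Real.log (2560 * C0) / (c * ε ^ 3) ≤ A := by rw [hAdef]; exact le_max_right _ _
    rw [div_le_iff₀ (by positivity)] at h1
    linarith
  obtain ⟨n1, hn1⟩ := hsf ε hε hε1 A hA
  obtain ⟨n2, hn2⟩ := E0_small A hA (1 / (256 * C0)) (by positivity)
  obtain ⟨n3, hn3⟩ := Bad2_small A (1 / (256 * C0)) (by positivity)
  obtain ⟨n4, hn4⟩ := V0_upper A hA
  obtain ⟨n5, hn5⟩ := singles_card A C0 hC0
  obtain ⟨X0, hX0⟩ := eventually_atTop.1 (eventually_good A hA (n1 + n2 + n3 + n4 + n5 + C0))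
  refine ⟨X0, ?_⟩
  intro N hN
  obtain ⟨X, hX⟩ : ∃ X, X = C0 * N := ⟨_, rfl⟩
  have hXN : X0 ≤ X := by
    rw [hX]
    exact le_trans hN (Nat.le_mul_of_pos_left N hC0)
  have h := hX0 X hXN
  have hE0 := hn2 X (h.mono (by omega))
  have hB2 := hn3 X (h.mono (by omega))
  have hV := hn4 X (h.mono (by omega))
  have hT := hn5 N (by rw [← hX]; exact h.mono (by omega))
  rw [← hX] at hT ⊢
  have hfacts := hn1 X (h.mono (by omega))
  -- the scales
  have hiilt : ii X < RR X := by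
    have h1 := ii_sq_le X
    have h2 := h.hi2
    nlinarith
  have hIne : (Finset.Ico (ii X) (RR X)).Nonempty := ⟨ii X, by rw [mem_Ico]; omega⟩
  obtain ⟨Sc, hSc⟩ := exists_family hIne _ (fun i hi => by
    rw [mem_Ico] at hi
    exact hfacts i hi.1 hi.2)
  have hXR : (0 : ℝ) < X := by exact_mod_cast h.X_pos
  have hL0 := h.L_pos
  have hXL : 0 < (X : ℝ) / Real.log X := by positivity
  -- the total mean coverage
  have hcb : c * ε ^ 3 * A / 2 ≤ ∑ i ∈ Finset.Ico (ii X) (RR X), (Sc i).cbar := by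
    apply sum_cbar_ge h (by positivity)
    intro i h1 h2
    exact (hSc i (by rw [mem_Ico]; exact ⟨h1, h2⟩)).2.2.2.2.2.1
  have hexp : Real.exp (-((∑ i ∈ Finset.Ico (ii X) (RR X), (Sc i).cbar) / 2)) ≤
      1 / (2560 * C0) := by
    rw [← Real.exp_log (show (0 : ℝ) < 1 / (2560 * C0) by positivity)]
    apply Real.exp_le_exp.2
    rw [one_div, Real.log_inv]
    linarith
  -- choice of the random classes
  have hl0 : ∀ ℓ ∈ lst (w0 X) (yy A X), 0 < ℓ := fun ℓ hℓ => (mem_lst.1 hℓ).1.pos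
  have hl2 : ∀ ℓ ∈ lst (w0 X) (yy A X), 2 ≤ ℓ := fun ℓ hℓ => (mem_lst.1 hℓ).1.two_le
  have hnd := lst_nodup (w0 X) (yy A X)
  have hcomb := combine (VA A X) (lst (w0 X) (yy A X)) (Finset.Ico (ii X) (RR X)) Sc
    (fun i hi => (hSc i hi).1) (fun i hi => (hSc i hi).2.1) hIne
    (by
      have h1 := (hSc _ hIne.choose_spec).2.2.2.1
      rw [(hSc _ hIne.choose_spec).1] at h1
      exact h1)
    (fun i hi => (hSc i hi).2.2.2.2.1) (ε := ε) (fun _ => 0)
    (fun i hi => by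
      have h1 := (hSc i hi).2.2.2.2.2.2 (fun _ => 0)
      rw [(hSc i hi).2.1] at h1
      exact h1)
  obtain ⟨a, _, _, hcost⟩ := exists_le_Av hl0 hnd (fun b =>
    ∑ m ∈ E0 (yy A X) (RR X) X, am1 (lst (w0 X) (yy A X)) m b +
    ∑ m ∈ DD (VA A X) (lst (w0 X) (yy A X)) b,
      Real.exp (-∑ i ∈ Finset.Ico (ii X) (RR X), (Sc i).F m b)) (fun _ => 0)
  rw [Av_add, Av_sum] at hcost
  have hE0' : ∑ m ∈ E0 (yy A X) (RR X) X, Av (lst (w0 X) (yy A X))
      (am1 (lst (w0 X) (yy A X)) m) (fun _ => 0) ≤ 1 / (256 * C0) * (X / Real.log X) := by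
    refine le_trans ?_ hE0
    rw [← nsmul_eq_mul, ← Finset.sum_const]
    exact Finset.sum_le_sum fun m _ => Av_am1_le hl2 hnd m _
  have hcomb' : Av (lst (w0 X) (yy A X)) (fun b => ∑ m ∈ DD (VA A X) (lst (w0 X) (yy A X)) b,
      Real.exp (-∑ i ∈ Finset.Ico (ii X) (RR X), (Sc i).F m b)) (fun _ => 0) ≤
      (1 / (2560 * C0) + 6 * ε) * (20 * (X / Real.log X)) := by
    refine hcomb.trans ?_
    apply mul_le_mul _ hV _ (by positivity)
    · linarith
    · have := sg_nonneg_lst (a := w0 X) (b := yy A X) (by have := w0_ge X h.hi2; omega)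
      positivity
  -- the large primes
  obtain ⟨ch, hcls, hch⟩ := exists_choice X (Finset.Ico (ii X) (RR X)) Sc
    (fun i hi => (hSc i hi).2.2.1) a (DD (VA A X) (lst (w0 X) (yy A X)) a)
  have hbad := card_BadS_le (w0 X) (yy A X) (RR X) X ((Finset.Ico (ii X) (RR X)).biUnion (PP X)) a ch
  have hfin : 2 * ((BadS (w0 X) (yy A X) (RR X) X
      ((Finset.Ico (ii X) (RR X)).biUnion (PP X)) a ch).card : ℝ) ≤
      ((pr2 (X / 4 ^ ii X) N).card : ℝ) := by
    refine le_trans ?_ hT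
    have e : (X : ℝ) / (16 * C0 * Real.log X) = 1 / (16 * C0) * (X / Real.log X) := by
      field_simp
    rw [e]
    have h1 : ((BadS (w0 X) (yy A X) (RR X) X
      ((Finset.Ico (ii X) (RR X)).biUnion (PP X)) a ch).card : ℝ) ≤
      1 / (256 * C0) * (X / Real.log X) + (1 / (2560 * C0) + 6 * ε) * (20 * (X / Real.log X)) +
      1 / (256 * C0) * (X / Real.log X) := by
      unfold VA at hch hcost hcomb'
      linarith
    have h2 : 2 * (1 / (256 * C0) * (X / Real.log X) +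
      (1 / (2560 * C0) + 6 * ε) * (20 * (X / Real.log X)) +
      1 / (256 * C0) * (X / Real.log X)) ≤ 1 / (16 * C0) * (X / Real.log X) := by
      rw [hεdef]
      have h3 : 2 * (1 / (256 * (C0 : ℝ)) * (X / Real.log X) +
        (1 / (2560 * C0) + 6 * (1 / (15360 * C0))) * (20 * (X / Real.log X)) +
        1 / (256 * C0) * (X / Real.log X)) = (3 / 64) * ((1 / C0) * (X / Real.log X)) := by
        field_simp
        ring
      rw [h3]
      have h4 : 1 / (16 * (C0 : ℝ)) * (X / Real.log X) = (1 / 16) * ((1 / C0) * (X / Real.log X)) := by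
        field_simp
      rw [h4]
      have h5 : 0 ≤ (1 / (C0 : ℝ)) * (X / Real.log X) := by positivity
      linarith
    linarith
  obtain ⟨s, hs⟩ := exists_singles _ (pr2 (X / 4 ^ ii X) N) (by exact_mod_cast hfin)
  refine ⟨asg (w0 X) (yy A X) (RR X) (ii X) X a ch s, ?_⟩
  intro m hm0 hmX
  refine assemble a ch s (h.w_le_y h.ii_le) h.y_facts.1 h.y_facts.2.1 h.ii_le ?_ hcls hs m hm0 hmX
  -- `X / 4 ^ ii X ≤ N`
  have h1 : C0 ≤ 4 ^ ii X := by
    have h2 : C0 ≤ ii X := le_trans (by omega) h.hi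
    exact le_trans h2 (Nat.lt_pow_self (by norm_num)).le
  apply Nat.div_le_of_le_mul
  rw [hX]
  exact Nat.mul_le_mul_right _ (by rw [← hX]; exact h1)

end Pool.Agent.Helper48.Cov
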