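import Pool.Agent.Helper48.CovScale

/-!
# One scale: the coverage of a typical element
-/

set_option autoImplicit false

namespace Pool.Agent.Helper48.Cov

open Finset

/-- the box of pairs of multipliers without the origin -/
noncomputable def box (J : ℕ) : Finset (ℤ × ℤ) :=
  ((Finset.Icc (-(J : ℤ)) J) ×ˢ (Finset.Icc (-(J : ℤ)) J)).erase (0, 0)

namespace Scale

variable (S : Scale)

/-- correlation excess of two primes -/
noncomputable def cG (p p' : ℕ) : ℝ :=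
  ∑ s ∈ box S.J, (Real.exp ((S.k : ℝ) ^ 2 * gz S.l2 (s.1 * p - s.2 * p')) - 1)

lemma term_nonneg (d : ℤ) : 0 ≤ Real.exp ((S.k : ℝ) ^ 2 * gz S.l2 d) - 1 := by
  have h1 := gz_nonneg S.l2 d
  have h2 : 0 ≤ (S.k : ℝ) ^ 2 * gz S.l2 d := by positivity
  have := Real.add_one_le_exp ((S.k : ℝ) ^ 2 * gz S.l2 d)
  linarith

lemma cG_nonneg (p p' : ℕ) : 0 ≤ S.cG p p' := Finset.sum_nonneg fun _ _ => S.term_nonneg _

lemma pair_bound {p p' : ℕ} (hp : p ∈ S.P) (hp' : p' ∈ S.P) {b : ℕ → ℕ}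
    {T T' : Finset ℕ} (hT : T ∈ S.Bl p (S.Va b)) (hT' : T' ∈ S.Bl p' (S.Va b))
    {m : ℕ} (hm : m ∈ T) (hm' : m ∈ T') :
    pr S.l2 (T ∪ T') ≤ sg S.l2 S.k ^ 2 / sg S.l2 1 * (1 + S.cG p p') := by
  classical
  have hBl := S.hBl p hp (S.Va b)
  have hBl' := S.hBl p' hp' (S.Va b)
  have hsk := S.sgk_pos
  have hs1 := S.sg2_pos
  have hk := S.k_pos
  have hTc := hBl.card T hT
  have hTc' := hBl'.card T' hT'
  have h1 := pr_union_le' S.hk S.hl2 (S.nr_block hp hT) (S.nr_block hp' hT') m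
  have hmm : (m, m) ∈ T ×ˢ T' := by rw [mem_product]; exact ⟨hm, hm'⟩
  have h2 := exp_sum_erase_le (T ×ˢ T') (m, m) hmm (gw S.l2)
  have hcard : (((T ×ˢ T').card : ℕ) : ℝ) = (S.k : ℝ) ^ 2 := by
    rw [Finset.card_product, hTc, hTc']; push_cast; ring
  rw [hcard] at h2
  -- the multiplier map
  set φ : ℕ × ℕ → ℤ × ℤ := fun s => (((s.1 : ℤ) - m) / p, ((s.2 : ℤ) - m) / p') with hφ
  have hpp : (p : ℤ) ≠ 0 := by have := S.hP p hp; omega
  have hpp' : (p' : ℤ) ≠ 0 := by have := S.hP p' hp'; omega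
  have hV : ∀ t ∈ T, t ∈ S.V0 := fun t ht => S.Va_sub b (hBl.sub T hT ht)
  have hV' : ∀ t ∈ T', t ∈ S.V0 := fun t ht => S.Va_sub b (hBl'.sub T' hT' ht)
  have hj : ∀ t ∈ T, |((t : ℤ) - m) / p| ≤ S.J ∧ (t : ℤ) - m = ((t : ℤ) - m) / p * p := by
    intro t ht
    obtain ⟨j, hj1, hj2⟩ := S.hJ p hp t (hV t ht) m (hV m hm) (hBl.cls T hT t ht m hm)
    have : ((t : ℤ) - m) / p = j := by rw [hj2, Int.mul_ediv_cancel _ hpp]
    rw [this]; exact ⟨hj1, hj2⟩
  have hj' : ∀ t ∈ T', |((t : ℤ) - m) / p'| ≤ S.J ∧ (t : ℤ) - m = ((t : ℤ) - m) / p' * p' := by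
    intro t ht
    obtain ⟨j, hj1, hj2⟩ := S.hJ p' hp' t (hV' t ht) m (hV' m hm') (hBl'.cls T' hT' t ht m hm')
    have : ((t : ℤ) - m) / p' = j := by rw [hj2, Int.mul_ediv_cancel _ hpp']
    rw [this]; exact ⟨hj1, hj2⟩
  have h3 : ∑ s ∈ (T ×ˢ T').erase (m, m), (Real.exp ((S.k : ℝ) ^ 2 * gw S.l2 s) - 1) ≤
      S.cG p p' := by
    have e1 : ∀ s ∈ (T ×ˢ T').erase (m, m), (Real.exp ((S.k : ℝ) ^ 2 * gw S.l2 s) - 1) =
        (fun x : ℤ × ℤ => Real.exp ((S.k : ℝ) ^ 2 * gz S.l2 (x.1 * p - x.2 * p')) - 1) (φ s) := by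
      intro s hs
      have hs2 := Finset.mem_of_mem_erase hs
      rw [mem_product] at hs2
      have a1 := (hj s.1 hs2.1).2
      have a2 := (hj' s.2 hs2.2).2
      simp only [hφ]
      rw [gw_eq_gz, ← a1, ← a2]
      congr 4
      ring
    rw [Finset.sum_congr rfl e1]
    have hinj : Set.InjOn φ ((T ×ˢ T').erase (m, m) : Finset (ℕ × ℕ)) := by
      intro s hs s' hs' he
      have hs2 := Finset.mem_of_mem_erase (Finset.mem_coe.1 hs)
      have hs3 := Finset.mem_of_mem_erase (Finset.mem_coe.1 hs')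
      rw [mem_product] at hs2 hs3
      have a1 := (hj s.1 hs2.1).2
      have a2 := (hj' s.2 hs2.2).2
      have b1 := (hj s'.1 hs3.1).2
      have b2 := (hj' s'.2 hs3.2).2
      simp only [hφ, Prod.mk.injEq] at he
      rw [he.1] at a1
      rw [he.2] at a2
      ext
      · have : (s.1 : ℤ) = s'.1 := by linarith
        exact_mod_cast this
      · have : (s.2 : ℤ) = s'.2 := by linarith
        exact_mod_cast this
    rw [← Finset.sum_image (f := fun x : ℤ × ℤ =>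
      Real.exp ((S.k : ℝ) ^ 2 * gz S.l2 (x.1 * p - x.2 * p')) - 1) hinj]
    unfold cG
    apply Finset.sum_le_sum_of_subset_of_nonneg
    · intro x hx
      rw [mem_image] at hx
      obtain ⟨s, hs, rfl⟩ := hx
      have hs1 := Finset.ne_of_mem_erase hs
      have hs2 := Finset.mem_of_mem_erase hs
      rw [mem_product] at hs2
      have a1 := hj s.1 hs2.1
      have a2 := hj' s.2 hs2.2
      unfold box
      rw [mem_erase, mem_product, mem_Icc, mem_Icc]
      simp only [hφ]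
      refine ⟨?_, abs_le.1 a1.1, abs_le.1 a2.1⟩
      intro hz
      rw [Prod.mk.injEq] at hz
      apply hs1
      rw [hz.1] at a1
      rw [hz.2] at a2
      ext
      · have : (s.1 : ℤ) = m := by linarith [a1.2]
        simpa using this
      · have : (s.2 : ℤ) = m := by linarith [a2.2]
        simpa using this
    · intro x _ _
      exact S.term_nonneg _
  have h4 : (∑ s ∈ (T ×ˢ T').erase (m, m), (Real.exp ((S.k : ℝ) ^ 2 * gw S.l2 s) - 1)) /
      (S.k : ℝ) ^ 2 ≤ S.cG p p' := by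
    have hk1 : (1 : ℝ) ≤ (S.k : ℝ) ^ 2 := by
      have : (1 : ℝ) ≤ S.k := by exact_mod_cast S.hk
      nlinarith
    rw [div_le_iff₀ (by positivity)]
    have := S.cG_nonneg p p'
    nlinarith
  calc pr S.l2 (T ∪ T') ≤ sg S.l2 S.k ^ 2 / sg S.l2 1 *
        Real.exp (∑ s ∈ (T ×ˢ T').erase (m, m), gw S.l2 s) := h1
    _ ≤ sg S.l2 S.k ^ 2 / sg S.l2 1 * (1 + S.cG p p') := by
        apply mul_le_mul_of_nonneg_left _ (by positivity)
        linarith

/-- number of primes whose surviving blocks contain `m` -/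
noncomputable def W (m : ℕ) (a : ℕ → ℕ) : ℝ := ∑ p ∈ S.P, S.hs p m a

lemma hpos : ∀ ℓ ∈ S.l1 ++ S.l2, 0 < ℓ := by
  intro ℓ hℓ
  rcases List.mem_append.1 hℓ with h | h
  · exact S.hl1pos ℓ h
  · exact S.hl2pos ℓ h

lemma count_blocks_le {p : ℕ} (hp : p ∈ S.P) (b : ℕ → ℕ) (m : ℕ) :
    ∑ T ∈ S.Bl p (S.Va b), (if m ∈ T then (1 : ℝ) else 0) ≤ if m ∈ S.Va b then 1 else 0 := by
  have hBl := S.hBl p hp (S.Va b)
  rw [sum_mem_eq_hitI hBl.disj]
  unfold hitI
  split_ifs with h1 h2 h2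
  · exact le_rfl
  · obtain ⟨T, hT, hm⟩ := h1
    exact absurd (hBl.sub T hT hm) h2
  · norm_num
  · exact le_rfl

lemma Ehh_le {p p' : ℕ} (hp : p ∈ S.P) (hp' : p' ∈ S.P) (a : ℕ → ℕ) :
    Av (S.l1 ++ S.l2) (fun c => ∑ m ∈ S.V0, S.hs p m c * S.hs p' m c) a ≤
      sg S.l2 S.k ^ 2 / sg S.l2 1 * (1 + S.cG p p') * S.Mb := by
  classical
  rw [Av_append, Av_congr (fun b => S.Av_hh b)]
  have hsk := S.sgk_pos
  have hs1 := S.sg2_pos
  have hc := S.cG_nonneg p p'
  have h1 : ∀ b, ∑ m ∈ S.V0, ∑ T ∈ S.Bl p (S.Va b), ∑ T' ∈ S.Bl p' (S.Va b),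
        (if m ∈ T ∧ m ∈ T' then pr S.l2 (T ∪ T') else 0) ≤
      (sg S.l2 S.k ^ 2 / sg S.l2 1 * (1 + S.cG p p')) * ((S.Va b).card : ℝ) := by
    intro b
    calc ∑ m ∈ S.V0, ∑ T ∈ S.Bl p (S.Va b), ∑ T' ∈ S.Bl p' (S.Va b),
        (if m ∈ T ∧ m ∈ T' then pr S.l2 (T ∪ T') else 0)
        ≤ ∑ m ∈ S.V0, ∑ T ∈ S.Bl p (S.Va b), ∑ T' ∈ S.Bl p' (S.Va b),
          (sg S.l2 S.k ^ 2 / sg S.l2 1 * (1 + S.cG p p')) *
            ((if m ∈ T then (1 : ℝ) else 0) * (if m ∈ T' then (1 : ℝ) else 0)) := by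
          apply Finset.sum_le_sum; intro m _
          apply Finset.sum_le_sum; intro T hT
          apply Finset.sum_le_sum; intro T' hT'
          by_cases h2 : m ∈ T
          · by_cases h3 : m ∈ T'
            · rw [if_pos ⟨h2, h3⟩, if_pos h2, if_pos h3, mul_one, mul_one]
              exact S.pair_bound hp hp' hT hT' h2 h3
            · rw [if_neg (fun h => h3 h.2), if_neg h3]; simp
          · rw [if_neg (fun h => h2 h.1), if_neg h2]; simp
      _ = (sg S.l2 S.k ^ 2 / sg S.l2 1 * (1 + S.cG p p')) * ∑ m ∈ S.V0,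
          ((∑ T ∈ S.Bl p (S.Va b), (if m ∈ T then (1 : ℝ) else 0)) *
            (∑ T' ∈ S.Bl p' (S.Va b), (if m ∈ T' then (1 : ℝ) else 0))) := by
          rw [Finset.mul_sum]
          apply Finset.sum_congr rfl; intro m _
          rw [Finset.sum_mul_sum, Finset.mul_sum]
          apply Finset.sum_congr rfl; intro T _
          rw [Finset.mul_sum]
      _ ≤ (sg S.l2 S.k ^ 2 / sg S.l2 1 * (1 + S.cG p p')) * ∑ m ∈ S.V0,
          (if m ∈ S.Va b then (1 : ℝ) else 0) := by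
          apply mul_le_mul_of_nonneg_left _ (by positivity)
          apply Finset.sum_le_sum; intro m _
          have h2 := S.count_blocks_le hp b m
          have h3 := S.count_blocks_le hp' b m
          have h4 : 0 ≤ ∑ T ∈ S.Bl p (S.Va b), (if m ∈ T then (1 : ℝ) else 0) :=
            Finset.sum_nonneg fun T _ => by split_ifs <;> norm_num
          have h5 : 0 ≤ ∑ T ∈ S.Bl p' (S.Va b), (if m ∈ T then (1 : ℝ) else 0) :=
            Finset.sum_nonneg fun T _ => by split_ifs <;> norm_num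
          by_cases h6 : m ∈ S.Va b
          · rw [if_pos h6] at h2 h3 ⊢
            nlinarith
          · rw [if_neg h6] at h2 h3 ⊢
            nlinarith
      _ = _ := by
          congr 1
          rw [← Finset.sum_filter, Finset.sum_const, nsmul_eq_mul, mul_one]
          congr 2
          ext m
          rw [mem_filter]
          exact ⟨fun h => h.2, fun h => ⟨S.Va_sub b h, h⟩⟩
  refine (Av_mono h1 a).trans ?_
  rw [Av_smul, S.Av_card_Va]

lemma Ehh_diag {p : ℕ} (hp : p ∈ S.P) (a : ℕ → ℕ) :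
    Av (S.l1 ++ S.l2) (fun c => ∑ m ∈ S.V0, S.hs p m c * S.hs p m c) a ≤ S.k * S.mu := by
  have h1 : ∀ c, ∑ m ∈ S.V0, S.hs p m c * S.hs p m c = S.k * S.Z p c := by
    intro c
    rw [← S.sum_hs_V0 hp, ← S.sum_hs hp]
    apply Finset.sum_congr rfl
    intro m _
    rw [S.hs_eq hp]
    unfold hitI
    split_ifs <;> simp
  rw [Av_congr h1, Av_smul]
  exact mul_le_mul_of_nonneg_left (S.EZ_le hp a) S.k_pos.le

lemma Db_pos (hV : 0 < S.V0.card) : 0 < S.Db := by
  unfold Db Mb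
  have := S.sg1_pos
  have := S.sg2_pos
  have : (0 : ℝ) < S.V0.card := by exact_mod_cast hV
  positivity

lemma muW_pos (hP : 0 < S.P.card) : 0 < S.muW := by
  unfold muW
  have := S.sgk_pos
  have := S.sg2_pos
  have : (0 : ℝ) < S.P.card := by exact_mod_cast hP
  positivity

lemma muW_Db : S.muW * S.Db = S.P.card * (S.k * S.mu) := by
  unfold muW Db mu
  have := S.sg2_pos
  have := S.k_pos
  field_simp

theorem varW {κ η : ℝ} (hκ : ∀ p ∈ S.P, (p : ℝ) * S.k ≤ κ * S.Mb)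
    (hP : 0 < S.P.card) (hη : 0 ≤ η)
    (H2 : ∑ p ∈ S.P, ∑ p' ∈ S.P, (if p ≠ p' then S.cG p p' else 0) ≤ η * (S.P.card : ℝ) ^ 2)
    (a : ℕ → ℕ) :
    Av (S.l1 ++ S.l2) (fun c => ∑ m ∈ S.D c, (S.W m c - S.muW) ^ 2) a ≤
      S.muW ^ 2 * S.Db * (1 / S.muW + η + 2 * κ) := by
  have hmuW := S.muW_pos hP
  have hsk := S.sgk_pos
  have hs1 := S.sg2_pos
  have hMb : 0 ≤ S.Mb := by
    unfold Mb
    have := S.sg1_pos
    positivity
  have hpos := S.hpos
  have h1 : ∀ c, ∑ m ∈ S.D c, (S.W m c - S.muW) ^ 2 =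
      (∑ p ∈ S.P, ∑ p' ∈ S.P, ∑ m ∈ S.V0, S.hs p m c * S.hs p' m c) +
        ((-2 * S.muW * S.k) * (∑ p ∈ S.P, S.Z p c) + S.muW ^ 2 * ((S.D c).card : ℝ)) := by
    intro c
    have e1 : ∑ m ∈ S.D c, (S.W m c) ^ 2 =
        ∑ p ∈ S.P, ∑ p' ∈ S.P, ∑ m ∈ S.V0, S.hs p m c * S.hs p' m c := by
      have : ∀ m, S.W m c ^ 2 = ∑ p ∈ S.P, ∑ p' ∈ S.P, S.hs p m c * S.hs p' m c := by
        intro m; unfold W; rw [sq, Finset.sum_mul_sum]
      rw [Finset.sum_congr rfl (fun m _ => this m), Finset.sum_comm]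
      apply Finset.sum_congr rfl
      intro p hp
      rw [Finset.sum_comm]
      apply Finset.sum_congr rfl
      intro p' _
      exact S.sum_hs_V0 hp c
    have e2 : ∑ m ∈ S.D c, S.W m c = S.k * ∑ p ∈ S.P, S.Z p c := by
      unfold W
      rw [Finset.sum_comm, Finset.mul_sum]
      exact Finset.sum_congr rfl fun p hp => S.sum_hs hp c
    have e3 : ∀ m, (S.W m c - S.muW) ^ 2 = S.W m c ^ 2 + ((-2 * S.muW) * S.W m c + S.muW ^ 2) := by
      intro m; ring
    rw [Finset.sum_congr rfl (fun m _ => e3 m), Finset.sum_add_distrib, Finset.sum_add_distrib,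
      ← Finset.mul_sum, e1, e2, Finset.sum_const, nsmul_eq_mul]
    ring
  rw [Av_congr h1, Av_add, Av_add, Av_smul, Av_smul, S.Av_card_D, Av_sum, Av_sum]
  -- pairs
  have h2 : ∑ p ∈ S.P, Av (S.l1 ++ S.l2) (fun c => ∑ p' ∈ S.P, ∑ m ∈ S.V0,
      S.hs p m c * S.hs p' m c) a ≤ S.muW * S.Db + S.muW ^ 2 * S.Db * (1 + η) := by
    have h3 : ∀ p ∈ S.P, ∀ p' ∈ S.P, Av (S.l1 ++ S.l2) (fun c => ∑ m ∈ S.V0,
        S.hs p m c * S.hs p' m c) a ≤ (if p = p' then S.k * S.mu else 0) +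
          sg S.l2 S.k ^ 2 / sg S.l2 1 * S.Mb * (1 + if p ≠ p' then S.cG p p' else 0) := by
      intro p hp p' hp'
      by_cases he : p = p'
      · subst he
        rw [if_pos rfl, if_neg (by simp)]
        have h4 := S.Ehh_diag hp a
        have h5 : 0 ≤ sg S.l2 S.k ^ 2 / sg S.l2 1 * S.Mb * (1 + 0) := by positivity
        linarith
      · rw [if_neg he, if_pos he]
        have h4 := S.Ehh_le hp hp' a
        linarith
    calc _ ≤ ∑ p ∈ S.P, ∑ p' ∈ S.P, ((if p = p' then S.k * S.mu else 0) +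
          sg S.l2 S.k ^ 2 / sg S.l2 1 * S.Mb * (1 + if p ≠ p' then S.cG p p' else 0)) := by
          apply Finset.sum_le_sum
          intro p hp
          rw [Av_sum]
          exact Finset.sum_le_sum fun p' hp' => h3 p hp p' hp'
      _ = S.P.card * (S.k * S.mu) + sg S.l2 S.k ^ 2 / sg S.l2 1 * S.Mb *
          ((S.P.card : ℝ) ^ 2 + ∑ p ∈ S.P, ∑ p' ∈ S.P, (if p ≠ p' then S.cG p p' else 0)) := by
          simp_rw [Finset.sum_add_distrib]
          congr 1
          · rw [Finset.sum_congr rfl (fun p hp => by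
              rw [Finset.sum_ite_eq S.P p, if_pos hp]), Finset.sum_const, nsmul_eq_mul]
          · simp_rw [← Finset.mul_sum, Finset.sum_add_distrib]
            congr 1
            simp only [Finset.sum_const, nsmul_eq_mul, mul_one]
            ring
      _ ≤ S.P.card * (S.k * S.mu) + sg S.l2 S.k ^ 2 / sg S.l2 1 * S.Mb *
          ((S.P.card : ℝ) ^ 2 + η * (S.P.card : ℝ) ^ 2) := by
          gcongr
      _ = _ := by
          rw [S.muW_Db]
          congr 1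
          unfold muW Db
          field_simp
  have h3 : ∑ p ∈ S.P, S.mu * (1 - κ) ≤ ∑ p ∈ S.P, Av (S.l1 ++ S.l2) (fun c => S.Z p c) a :=
    Finset.sum_le_sum fun p hp => S.EZ_ge hp (hκ p hp) a
  rw [Finset.sum_const, nsmul_eq_mul] at h3
  have hk := S.k_pos
  have h4 : (-2 * S.muW * S.k) * ∑ p ∈ S.P, Av (S.l1 ++ S.l2) (fun c => S.Z p c) a ≤
      -2 * S.muW * (S.muW * S.Db * (1 - κ)) := by
    rw [S.muW_Db]
    have : 0 ≤ 2 * S.muW * S.k := by positivity
    nlinarith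
  have e : S.muW ^ 2 * S.Db * (1 / S.muW + η + 2 * κ) =
      S.muW * S.Db + S.muW ^ 2 * S.Db * (η + 2 * κ) := by
    field_simp
    ring
  rw [e]
  nlinarith

/-- the total coverage weight of `m` -/
noncomputable def F (m : ℕ) (a : ℕ → ℕ) : ℝ :=
  ∑ p ∈ S.P, hitI (S.Fam p a) m / (S.Fam p a).card

/-- the expected coverage weight -/
noncomputable def cbar : ℝ := S.P.card * S.k / S.Db

lemma F_pointwise {ε : ℝ} (hε : 0 < ε) (hV : 0 < S.V0.card) (m : ℕ) (a : ℕ → ℕ) :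
    max (S.cbar - S.F m a) 0 ≤ (1 / ((1 + ε) * S.mu)) * (|S.W m a - S.muW| + ε * S.muW +
      ∑ p ∈ S.P, (if (1 + ε) * S.mu < S.Z p a then S.hs p m a else 0)) := by
  have hmu := S.mu_pos hV
  have hDb := S.Db_pos hV
  have hB : 0 < (1 + ε) * S.mu := by positivity
  have hmuW : 0 ≤ S.muW := by
    unfold muW
    have := S.sgk_pos
    have := S.sg2_pos
    positivity
  have hF : (1 / ((1 + ε) * S.mu)) * (S.W m a -
      ∑ p ∈ S.P, (if (1 + ε) * S.mu < S.Z p a then S.hs p m a else 0)) ≤ S.F m a := by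
    unfold W F
    rw [← Finset.sum_sub_distrib, Finset.mul_sum]
    apply Finset.sum_le_sum
    intro p hp
    rw [← S.hs_eq hp]
    have h0 := S.hs_nonneg p m a
    have hZ := S.Z_eq p a
    split_ifs with h
    · rw [sub_self, mul_zero]
      positivity
    · rw [sub_zero]
      push Not at h
      rcases h0.eq_or_lt with h1 | h1
      · rw [← h1]; simp
      · have h2 : (0 : ℝ) < (S.Fam p a).card := by
          rw [S.hs_eq hp] at h1
          unfold hitI at h1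
          split_ifs at h1 with h3
          · obtain ⟨T, hT, _⟩ := h3
            exact_mod_cast Finset.card_pos.2 ⟨T, hT⟩
          · exact absurd h1 (lt_irrefl _)
        rw [hZ] at h
        rw [one_div, inv_mul_eq_div]
        exact div_le_div_of_nonneg_left h0 h2 h
  have hc : S.cbar = (1 / ((1 + ε) * S.mu)) * ((1 + ε) * S.muW) := by
    unfold cbar
    have h1 := S.muW_Db
    field_simp
    linarith
  apply max_le
  · have h1 : S.muW - S.W m a ≤ |S.W m a - S.muW| := by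
      rw [abs_sub_comm]; exact le_abs_self _
    calc S.cbar - S.F m a ≤ (1 / ((1 + ε) * S.mu)) * ((1 + ε) * S.muW) -
        (1 / ((1 + ε) * S.mu)) * (S.W m a -
      ∑ p ∈ S.P, (if (1 + ε) * S.mu < S.Z p a then S.hs p m a else 0)) := by
          rw [hc]; linarith
      _ = (1 / ((1 + ε) * S.mu)) * ((S.muW - S.W m a) + ε * S.muW +
      ∑ p ∈ S.P, (if (1 + ε) * S.mu < S.Z p a then S.hs p m a else 0)) := by ring
      _ ≤ _ := by gcongr
  · apply mul_nonneg (by positivity)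
    have : 0 ≤ ∑ p ∈ S.P, (if (1 + ε) * S.mu < S.Z p a then S.hs p m a else 0) :=
      Finset.sum_nonneg fun p _ => by
        split_ifs
        · exact S.hs_nonneg p m a
        · exact le_rfl
    have := abs_nonneg (S.W m a - S.muW)
    positivity

theorem scale_main {κ η ε : ℝ} (hε : 0 < ε) (hη : 0 ≤ η)
    (hκ : ∀ p ∈ S.P, (p : ℝ) * S.k ≤ κ * S.Mb)
    (hV : 0 < S.V0.card) (hP : 0 < S.P.card)
    (H1 : ∑ t ∈ S.V0, ∑ t' ∈ S.V0, (if t ≠ t' then
      Real.exp ((S.k : ℝ) ^ 2 * gw S.l2 (t, t')) * Real.exp (gw S.l1 (t, t')) else 0) ≤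
      (1 + η) * (S.V0.card : ℝ) ^ 2)
    (H2 : ∑ p ∈ S.P, ∑ p' ∈ S.P, (if p ≠ p' then S.cG p p' else 0) ≤ η * (S.P.card : ℝ) ^ 2)
    (h3 : 1 / S.mu + η + 2 * κ ≤ ε ^ 3) (h4 : 1 / S.muW + η + 2 * κ ≤ ε ^ 3) (a : ℕ → ℕ) :
    Av (S.l1 ++ S.l2) (fun c => ∑ m ∈ S.D c, max (S.cbar - S.F m c) 0) a ≤
      3 * ε * (S.cbar * S.Db) := by
  have hmu := S.mu_pos hV
  have hDb := S.Db_pos hV
  have hmuW := S.muW_pos hP
  have hk := S.k_pos
  have hB : 0 < (1 + ε) * S.mu := by positivity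
  have hpw : ∀ c, ∑ m ∈ S.D c, max (S.cbar - S.F m c) 0 ≤
      (1 / ((1 + ε) * S.mu)) * ((1 / (2 * ε * S.muW)) * (∑ m ∈ S.D c, (S.W m c - S.muW) ^ 2) +
        ((3 / 2 * ε * S.muW) * ((S.D c).card : ℝ) +
        (S.k * ((1 + ε) / (ε ^ 2 * S.mu))) * ∑ p ∈ S.P, (S.Z p c - S.mu) ^ 2)) := by
    intro c
    refine (Finset.sum_le_sum fun m _ => S.F_pointwise hε hV m c).trans ?_
    rw [← Finset.mul_sum]
    apply mul_le_mul_of_nonneg_left _ (by positivity)
    rw [Finset.sum_add_distrib, Finset.sum_add_distrib]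
    have e1 : ∑ m ∈ S.D c, |S.W m c - S.muW| ≤
        (1 / (2 * ε * S.muW)) * (∑ m ∈ S.D c, (S.W m c - S.muW) ^ 2) +
          (1 / 2 * ε * S.muW) * ((S.D c).card : ℝ) := by
      rw [Finset.mul_sum, mul_comm (1 / 2 * ε * S.muW), ← nsmul_eq_mul, ← Finset.sum_const,
        ← Finset.sum_add_distrib]
      apply Finset.sum_le_sum
      intro m _
      have h5 : 0 ≤ (|S.W m c - S.muW| - ε * S.muW) ^ 2 := sq_nonneg _
      have h6 : |S.W m c - S.muW| ^ 2 = (S.W m c - S.muW) ^ 2 := sq_abs _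
      have h7 : 0 < 2 * ε * S.muW := by positivity
      rw [one_div, inv_mul_eq_div, ← sub_le_iff_le_add, le_div_iff₀ h7, ← h6]
      nlinarith
    have e2 : ∑ m ∈ S.D c, ∑ p ∈ S.P, (if (1 + ε) * S.mu < S.Z p c then S.hs p m c else 0) ≤
        (S.k * ((1 + ε) / (ε ^ 2 * S.mu))) * ∑ p ∈ S.P, (S.Z p c - S.mu) ^ 2 := by
      rw [Finset.sum_comm, Finset.mul_sum]
      apply Finset.sum_le_sum
      intro p hp
      by_cases h : (1 + ε) * S.mu < S.Z p c
      · simp only [if_pos h]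
        rw [S.sum_hs hp, mul_assoc]
        apply mul_le_mul_of_nonneg_left _ hk.le
        have h5 : 0 < ε ^ 2 * S.mu := by positivity
        rw [div_mul_eq_mul_div, le_div_iff₀ h5]
        have h6 : 0 ≤ S.Z p c - (1 + ε) * S.mu := by linarith
        have h7 : ε * S.mu ≤ S.Z p c - S.mu := by linarith
        have h8 : ε * S.Z p c ≤ (1 + ε) * (S.Z p c - S.mu) := by nlinarith
        have h9 : 0 ≤ ε * S.mu := by positivity
        calc S.Z p c * (ε ^ 2 * S.mu) = (ε * S.Z p c) * (ε * S.mu) := by ring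
          _ ≤ ((1 + ε) * (S.Z p c - S.mu)) * (S.Z p c - S.mu) := by
              apply mul_le_mul h8 h7 h9
              have : 0 ≤ S.Z p c - S.mu := h9.trans h7
              positivity
          _ = _ := by ring
      · simp only [if_neg h]
        rw [Finset.sum_const_zero]
        positivity
    rw [Finset.sum_const, nsmul_eq_mul]
    nlinarith
  refine (Av_mono hpw a).trans ?_
  rw [Av_smul, Av_add, Av_smul, Av_add, Av_smul, Av_smul, Av_sum, S.Av_card_D]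
  have h5 := S.varW hκ hP hη H2 a
  have h6 : ∑ p ∈ S.P, Av (S.l1 ++ S.l2) (fun c => (S.Z p c - S.mu) ^ 2) a ≤
      S.P.card * (S.mu ^ 2 * ε ^ 3) := by
    rw [← nsmul_eq_mul, ← Finset.sum_const]
    apply Finset.sum_le_sum
    intro p hp
    refine (S.varZ hp (hκ p hp) hV H1 a).trans ?_
    apply mul_le_mul_of_nonneg_left h3 (by positivity)
  have h7 : Av (S.l1 ++ S.l2) (fun c => ∑ m ∈ S.D c, (S.W m c - S.muW) ^ 2) a ≤
      S.muW ^ 2 * S.Db * ε ^ 3 := h5.trans (mul_le_mul_of_nonneg_left h4 (by positivity))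
  have h8 : S.cbar = S.muW / S.mu := by
    unfold cbar
    have h1 := S.muW_Db
    field_simp
    linarith
  have hPc : (0 : ℝ) ≤ S.P.card := by positivity
  calc (1 / ((1 + ε) * S.mu)) * ((1 / (2 * ε * S.muW)) *
        Av (S.l1 ++ S.l2) (fun c => ∑ m ∈ S.D c, (S.W m c - S.muW) ^ 2) a +
        ((3 / 2 * ε * S.muW) * S.Db +
        (S.k * ((1 + ε) / (ε ^ 2 * S.mu))) *
          ∑ p ∈ S.P, Av (S.l1 ++ S.l2) (fun c => (S.Z p c - S.mu) ^ 2) a))
      ≤ (1 / ((1 + ε) * S.mu)) * ((1 / (2 * ε * S.muW)) * (S.muW ^ 2 * S.Db * ε ^ 3) +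
        ((3 / 2 * ε * S.muW) * S.Db +
        (S.k * ((1 + ε) / (ε ^ 2 * S.mu))) * (S.P.card * (S.mu ^ 2 * ε ^ 3)))) := by
        gcongr
    _ = (S.muW / S.mu * S.Db) * ((ε ^ 2 / 2 + 3 / 2 * ε) / (1 + ε)) +
        (S.P.card * (S.k * S.mu)) / S.mu * ε := by
        field_simp
        ring
    _ = (S.muW / S.mu * S.Db) * ((ε ^ 2 / 2 + 3 / 2 * ε) / (1 + ε) + ε) := by
        rw [← S.muW_Db]; ring
    _ ≤ (S.muW / S.mu * S.Db) * (3 * ε) := by
        apply mul_le_mul_of_nonneg_left _ (by positivity)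
        have : (ε ^ 2 / 2 + 3 / 2 * ε) / (1 + ε) ≤ 2 * ε := by
          rw [div_le_iff₀ (by linarith)]
          nlinarith
        linarith
    _ = _ := by rw [h8]; ring

end Scale

end Pool.Agent.Helper48.Cov
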