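import Pool.Agent.Helper48.CovCount
import Pool.Agent.Helper48.CovScale2

/-!
# Numerical lemmas
-/

set_option autoImplicit false

namespace Pool.Agent.Helper48.Cov

open Finset Filter Pool.Agent.Helper44

lemma sgk_lower (a b k : ℕ) (hk : 2 * k ≤ a) :
    Real.exp (-(2 * k * ∑ p ∈ pr2 a b, (1 : ℝ) / p)) ≤ sg (lst a b) k := by
  rw [sg_lst, Finset.mul_sum, ← Finset.sum_neg_distrib, Real.exp_sum]
  apply Finset.prod_le_prod
  · intro p _; positivity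
  · intro p hp
    rw [mem_pr2] at hp
    have hp0 : (0 : ℝ) < p := by exact_mod_cast hp.1.pos
    have h1 : (2 * k : ℝ) ≤ p := by exact_mod_cast (by omega : 2 * k ≤ p)
    have h2 : (k : ℝ) / p ≤ 1 / 2 := by
      rw [div_le_div_iff₀ hp0 (by norm_num)]; linarith
    have h3 := one_sub_ge_exp (x := (k : ℝ) / p) (by positivity) h2
    refine le_trans (le_of_eq ?_) h3
    congr 1
    ring

lemma sg_le_one {a b : ℕ} (ha : 1 ≤ a) : sg (lst a b) 1 ≤ 1 := by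
  rw [sg_lst]
  apply Finset.prod_le_one
  · intro p hp
    rw [mem_pr2] at hp
    have h1 : (1 : ℝ) ≤ p := by exact_mod_cast (by omega : 1 ≤ p)
    rw [sub_nonneg, div_le_one (by linarith)]; exact h1
  · intro p _
    have : (0 : ℝ) ≤ 1 / p := by positivity
    linarith

lemma box_card (J : ℕ) (hJ : 1 ≤ J) : ((box J).card : ℝ) ≤ 9 * (J : ℝ) ^ 2 := by
  unfold box
  have h1 : (((Finset.Icc (-(J : ℤ)) J) ×ˢ (Finset.Icc (-(J : ℤ)) J)).erase (0, 0)).card ≤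
      (2 * J + 1) * (2 * J + 1) := by
    refine (Finset.card_erase_le).trans ?_
    rw [Finset.card_product, Int.card_Icc]
    have : (J : ℤ) + 1 - -(J : ℤ) = ((2 * J + 1 : ℕ) : ℤ) := by push_cast; ring
    rw [this, Int.toNat_natCast]
  have h2 : ((((Finset.Icc (-(J : ℤ)) J) ×ˢ (Finset.Icc (-(J : ℤ)) J)).erase (0, 0)).card : ℝ) ≤
      (2 * J + 1) * (2 * J + 1) := by exact_mod_cast h1
  have h3 : (1 : ℝ) ≤ J := by exact_mod_cast hJ
  nlinarith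

lemma numA {κ cm Mb X r i q : ℝ} (hκ : 0 < κ) (hcm : 0 < cm) (hX : 0 < X) (hi : 2 ≤ i)
    (hr : 0 < r) (hri : r ≤ 2 * i) (hMb : cm * (X / (i * r)) ≤ Mb) (hq : 0 < q)
    (h : 8 / (κ * cm) * (i + 1) ^ 2 ≤ q) : 2 ≤ κ * Mb * q / X := by
  have hi0 : 0 < i := by linarith
  rw [le_div_iff₀ hX]
  have h2 : κ * (cm * (X / (i * r))) * q ≤ κ * Mb * q := by gcongr
  refine le_trans ?_ h2
  have h3 : 4 * i ^ 2 ≤ κ * cm * q := by
    rw [div_mul_eq_mul_div, div_le_iff₀ (by positivity)] at h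
    nlinarith
  have e : κ * (cm * (X / (i * r))) * q = X * (κ * cm * q / (i * r)) := by ring
  rw [e, mul_comm 2 X]
  apply mul_le_mul_of_nonneg_left _ hX.le
  rw [le_div_iff₀ (by positivity)]
  nlinarith

lemma numB1 {k : ℝ} {i j : ℕ} (hij : j ≤ i) (hk0 : 0 ≤ k) (hk : k ≤ 4 ^ i / 16) :
    4 / (4 : ℝ) ^ (8 * j) + 4 * k ^ 2 / 4 ^ (8 * i) ≤ 8 / 4 ^ (6 * j) := by
  have hk2 : k ^ 2 ≤ 16 ^ i / 256 := by
    calc k ^ 2 ≤ (4 ^ i / 16) ^ 2 := by gcongr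
      _ = 16 ^ i / 256 := by
          rw [div_pow, ← pow_mul, mul_comm i 2, pow_mul]; norm_num
  have h2 : 4 / (4 : ℝ) ^ (8 * j) ≤ 4 / 4 ^ (6 * j) := by
    apply div_le_div_of_nonneg_left (by norm_num) (by positivity)
    exact pow_le_pow_right₀ (by norm_num) (by omega)
  have h3 : 4 * k ^ 2 / (4 : ℝ) ^ (8 * i) ≤ 4 / 4 ^ (6 * j) := by
    rw [div_le_div_iff₀ (by positivity) (by positivity)]
    have e1 : (4 : ℝ) ^ (8 * i) = 4 ^ (6 * i) * 16 ^ i := by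
      rw [show (16 : ℝ) = 4 ^ 2 by norm_num, ← pow_mul, ← pow_add]
      congr 1; ring
    have h4 : (4 : ℝ) ^ (6 * j) ≤ 4 ^ (6 * i) := pow_le_pow_right₀ (by norm_num) (by omega)
    rw [e1]
    calc 4 * k ^ 2 * 4 ^ (6 * j) ≤ 4 * (16 ^ i / 256) * 4 ^ (6 * i) := by gcongr
      _ = (1 / 64) * (4 ^ (6 * i) * 16 ^ i) := by ring
      _ ≤ 4 * (4 ^ (6 * i) * 16 ^ i) := by
          have : (0 : ℝ) < 4 ^ (6 * i) * 16 ^ i := by positivity
          linarith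
  calc _ ≤ 4 / (4 : ℝ) ^ (6 * j) + 4 / 4 ^ (6 * j) := add_le_add h2 h3
    _ = _ := by ring

lemma numB {X V k cv η r : ℝ} {i j : ℕ} (hX : 0 < X) (hcv : 0 < cv) (hη : 0 < η) (hj : 1 ≤ j)
    (hij : j ≤ i) (hk0 : 0 ≤ k) (hk : k ≤ 4 ^ i / 16) (hr : 0 < r) (hrj : r ≤ 2 * j)
    (hV : cv * (X / (j * r)) ≤ V) (h : 256 / (cv * η) * ((j : ℝ) + 1) ^ 2 ≤ 4 ^ j) :
    4 * X * (4 / (4 : ℝ) ^ (8 * j) + 4 * k ^ 2 / 4 ^ (8 * i)) / V ≤ η := by
  have hj0 : (1 : ℝ) ≤ j := by exact_mod_cast hj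
  have hVpos : 0 < V := lt_of_lt_of_le (by positivity) hV
  rw [div_le_iff₀ hVpos]
  have h3 : 4 * X * (8 / 4 ^ (6 * j)) ≤ η * (cv * (X / (j * r))) := by
    have h4 : 64 * (j : ℝ) ^ 2 ≤ cv * η * 4 ^ (6 * j) := by
      rw [div_mul_eq_mul_div, div_le_iff₀ (by positivity)] at h
      have h5 : (4 : ℝ) ^ j ≤ 4 ^ (6 * j) := pow_le_pow_right₀ (by norm_num) (by omega)
      have h6 : 4 ^ j * (cv * η) ≤ cv * η * 4 ^ (6 * j) := by
        rw [mul_comm]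
        gcongr
      nlinarith
    have e1 : 4 * X * (8 / 4 ^ (6 * j)) = X * (32 / 4 ^ (6 * j)) := by ring
    have e2 : η * (cv * (X / (j * r))) = X * (cv * η / (j * r)) := by ring
    rw [e1, e2]
    apply mul_le_mul_of_nonneg_left _ hX.le
    rw [div_le_div_iff₀ (by positivity) (by positivity)]
    nlinarith
  calc 4 * X * (4 / (4 : ℝ) ^ (8 * j) + 4 * k ^ 2 / 4 ^ (8 * i)) ≤ 4 * X * (8 / 4 ^ (6 * j)) := by
        apply mul_le_mul_of_nonneg_left (numB1 hij hk0 hk) (by positivity)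
    _ ≤ η * (cv * (X / (j * r))) := h3
    _ ≤ η * V := by gcongr

lemma numS2 {k : ℝ} {i : ℕ} (hk0 : 0 ≤ k) (hk : k ≤ 4 ^ i / 16) :
    8 * k ^ 2 / (4 : ℝ) ^ (8 * i) ≤ 8 / 4 ^ (6 * i) := by
  have hk2 : k ^ 2 ≤ 16 ^ i / 256 := by
    calc k ^ 2 ≤ (4 ^ i / 16) ^ 2 := by gcongr
      _ = 16 ^ i / 256 := by
          rw [div_pow, ← pow_mul, mul_comm i 2, pow_mul]; norm_num
  rw [div_le_div_iff₀ (by positivity) (by positivity)]
  have e1 : (4 : ℝ) ^ (8 * i) = 4 ^ (6 * i) * 16 ^ i := by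
    rw [show (16 : ℝ) = 4 ^ 2 by norm_num, ← pow_mul, ← pow_add]
    congr 1; ring
  rw [e1]
  calc 8 * k ^ 2 * 4 ^ (6 * i) ≤ 8 * (16 ^ i / 256) * 4 ^ (6 * i) := by gcongr
    _ = (1 / 32) * (4 ^ (6 * i) * 16 ^ i) := by ring
    _ ≤ 8 * (4 ^ (6 * i) * 16 ^ i) := by
        have : (0 : ℝ) < 4 ^ (6 * i) * 16 ^ i := by positivity
        linarith

/-- first part of the second correlation bound -/
lemma numC {bx Cb l2 X L η s : ℝ} {i : ℕ} (hCb : 0 < Cb) (hX : 0 < X) (hL : 0 < L) (hη : 0 < η)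
    (hbx0 : 0 ≤ bx) (hbx : bx ≤ 144 * 16 ^ i) (hl20 : 0 ≤ l2) (hl2 : l2 ≤ 25 * ((i : ℝ) + 1) ^ 4)
    (hs : s ≤ 8 / 4 ^ (6 * i)) (hs0 : 0 ≤ s)
    (h : 1000000 * Cb / η * ((i : ℝ) + 1) ^ 4 ≤ 4 ^ i) :
    bx * (Cb * l2 * X / L * (2 * s)) ≤ (η / 2) * (X / (8 * 4 ^ i * L)) := by
  have h16 : (0 : ℝ) < 16 ^ i := by positivity
  have h3 : 57600 * Cb * ((i : ℝ) + 1) ^ 4 ≤ η / 16 * 4 ^ i := by
    rw [div_mul_eq_mul_div, div_le_iff₀ hη] at h
    have h0 : 0 < Cb * ((i : ℝ) + 1) ^ 4 := by positivity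
    nlinarith
  have h4 : (1 : ℝ) ≤ 4 ^ i := one_le_pow₀ (by norm_num)
  have h40 : (0 : ℝ) < 4 ^ i := by positivity
  calc bx * (Cb * l2 * X / L * (2 * s))
      ≤ (144 * 16 ^ i) * (Cb * (25 * ((i : ℝ) + 1) ^ 4) * X / L * (2 * (8 / 4 ^ (6 * i)))) := by
        gcongr
    _ = (X / L) * (57600 * Cb * ((i : ℝ) + 1) ^ 4 * (16 ^ i / 4 ^ (6 * i))) := by ring
    _ ≤ (X / L) * (η / 16 * (1 / 4 ^ i)) := by
        apply mul_le_mul_of_nonneg_left _ (by positivity)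
        have e1 : (4 : ℝ) ^ (6 * i) = 16 ^ i * 4 ^ i * (4 ^ i * 4 ^ i * 4 ^ i) := by
          rw [show (16 : ℝ) = 4 ^ 2 by norm_num, ← pow_mul, ← pow_add, ← pow_add, ← pow_add,
            ← pow_add]
          congr 1; ring
        rw [e1]
        have e2 : (16 : ℝ) ^ i / (16 ^ i * 4 ^ i * (4 ^ i * 4 ^ i * 4 ^ i)) =
            1 / 4 ^ i * (1 / (4 ^ i * 4 ^ i * 4 ^ i)) := by field_simp
        rw [e2]
        calc 57600 * Cb * ((i : ℝ) + 1) ^ 4 * (1 / 4 ^ i * (1 / (4 ^ i * 4 ^ i * 4 ^ i)))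
            ≤ (η / 16 * 4 ^ i) * (1 / 4 ^ i * (1 / (4 ^ i * 4 ^ i * 4 ^ i))) := by gcongr
          _ = η / 16 * (1 / (4 ^ i * 4 ^ i * 4 ^ i)) := by field_simp
          _ ≤ η / 16 * (1 / 4 ^ i) := by
              apply mul_le_mul_of_nonneg_left _ (by positivity)
              apply one_div_le_one_div_of_le (by positivity)
              nlinarith
    _ = _ := by field_simp; ring

/-- a convenient power saving -/
lemma numP {L η : ℝ} (hL : 4096 ≤ L) (hη : 0 < η) (h : 10000000 / η ≤ L) :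
    10000000 * L ^ 3 ≤ η * Real.exp (L / 4) := by
  have hL0 : 0 < L := by linarith
  have h3 : 10000000 / η * L ^ 3 ≤ L ^ 4 := by
    calc 10000000 / η * L ^ 3 ≤ L * L ^ 3 := by gcongr
      _ = L ^ 4 := by ring
  have h4 : L / 32 ≤ Real.exp (L / 32) := by
    have := Real.add_one_le_exp (L / 32)
    linarith
  have h5 : Real.exp (L / 4) = Real.exp (L / 32) ^ 8 := by
    rw [← Real.exp_nat_mul]; congr 1; push_cast; ring
  have h6 : L ≤ (L / 32) ^ 2 := by nlinarith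
  have h7 : L ^ 4 ≤ Real.exp (L / 4) := by
    rw [h5]
    calc L ^ 4 ≤ ((L / 32) ^ 2) ^ 4 := by gcongr
      _ = (L / 32) ^ 8 := by ring
      _ ≤ Real.exp (L / 32) ^ 8 := by gcongr
  have h8 := h3.trans h7
  rw [div_mul_eq_mul_div, div_le_iff₀ hη] at h8
  linarith

/-- second part of the second correlation bound -/
lemma numD {bx X L η u : ℝ} {i : ℕ} (hX : 0 < X) (hL : 4096 ≤ L) (hLX : Real.exp L = X)
    (hη : 0 < η) (hbx0 : 0 ≤ bx) (hbx : bx ≤ 144 * 16 ^ i) (hu : u ≤ L / 64)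
    (h64 : (64 : ℝ) ^ i ≤ L) (hP : 10000000 * L ^ 3 ≤ η * Real.exp (L / 4)) :
    bx * (X ^ (1 / 2 : ℝ) * Real.exp u) ≤ (η / 2) * (X / (8 * 4 ^ i * L)) := by
  have hL0 : 0 < L := by linarith
  have hX12 : X ^ (1 / 2 : ℝ) = Real.exp (L / 2) := by
    rw [← hLX, ← Real.exp_mul]; congr 1; ring
  rw [hX12, ← Real.exp_add]
  have h1 : Real.exp (L / 2 + u) ≤ Real.exp (3 / 4 * L) := by
    apply Real.exp_le_exp.2; linarith
  have h2 : X = Real.exp (L / 4) * Real.exp (3 / 4 * L) := by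
    rw [← hLX, ← Real.exp_add]; congr 1; ring
  have h3 : 144 * (16 : ℝ) ^ i * (16 * 4 ^ i * L) ≤ η * Real.exp (L / 4) := by
    refine le_trans ?_ hP
    have h5 : (16 : ℝ) ^ i * 4 ^ i = 64 ^ i := by rw [← mul_pow]; norm_num
    calc 144 * (16 : ℝ) ^ i * (16 * 4 ^ i * L) = 2304 * (16 ^ i * 4 ^ i) * L := by ring
      _ ≤ 2304 * L * L := by rw [h5]; gcongr
      _ ≤ 10000000 * L ^ 3 := by nlinarith [mul_pos hL0 hL0]
  have h30 : 0 < Real.exp (3 / 4 * L) := Real.exp_pos _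
  calc bx * Real.exp (L / 2 + u) ≤ (144 * 16 ^ i) * Real.exp (3 / 4 * L) := by gcongr
    _ ≤ (η / 2) * (X / (8 * 4 ^ i * L)) := by
        rw [← mul_div_assoc, le_div_iff₀ (by positivity)]
        calc (144 * 16 ^ i) * Real.exp (3 / 4 * L) * (8 * 4 ^ i * L)
            = (1 / 2) * ((144 * (16 : ℝ) ^ i * (16 * 4 ^ i * L)) * Real.exp (3 / 4 * L)) := by ring
          _ ≤ (1 / 2) * ((η * Real.exp (L / 4)) * Real.exp (3 / 4 * L)) := by gcongr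
          _ = (η / 2) * X := by rw [h2]; ring

/-- the mean number of surviving blocks is large -/
lemma numE {X L η mu q : ℝ} (hL : 4096 ≤ L) (hLX : Real.exp L = X) (hη : 0 < η)
    (hq0 : 0 < q) (hq : q ≤ 8 * L * L) (hmu : X / q * Real.exp (-(L / 64)) ≤ mu)
    (hP : 10000000 * L ^ 3 ≤ η * Real.exp (L / 4)) : 1 / mu ≤ η := by
  have hL0 : 0 < L := by linarith
  have hX : 0 < X := by rw [← hLX]; exact Real.exp_pos _
  have hmu0 : 0 < mu := lt_of_lt_of_le (by positivity) hmu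
  rw [div_le_iff₀ hmu0]
  refine le_trans ?_ (mul_le_mul_of_nonneg_left hmu hη.le)
  have e : η * (X / q * Real.exp (-(L / 64))) = η * (Real.exp (-(L / 64)) * X) / q := by ring
  rw [e, le_div_iff₀ hq0]
  have h1 : Real.exp (L / 4) ≤ Real.exp (-(L / 64)) * X := by
    rw [← hLX, ← Real.exp_add]
    apply Real.exp_le_exp.2; linarith
  have h3 : 8 * L * L ≤ 10000000 * L ^ 3 := by nlinarith [mul_pos hL0 hL0]
  have h4 : η * Real.exp (L / 4) ≤ η * (Real.exp (-(L / 64)) * X) := by gcongr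
  linarith

lemma numT {k T L R C' : ℝ} {i r : ℕ} (hk0 : 0 ≤ k) (hk : k ≤ 4 ^ i / 16) (hT0 : 0 ≤ T)
    (hT : T ≤ 5 * (R + 1) + C') (hir : i ≤ r) (h : 5 * (R + 1) + C' ≤ 4 ^ r)
    (hL : (64 : ℝ) ^ r ≤ L) : 4 * k ^ 2 * T ≤ L / 64 := by
  have hk2 : k ^ 2 ≤ 16 ^ i / 256 := by
    calc k ^ 2 ≤ (4 ^ i / 16) ^ 2 := by gcongr
      _ = 16 ^ i / 256 := by
          rw [div_pow, ← pow_mul, mul_comm i 2, pow_mul]; norm_num
  have h16 : (16 : ℝ) ^ i ≤ 16 ^ r := pow_le_pow_right₀ (by norm_num) hir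
  have e : (16 : ℝ) ^ r * 4 ^ r = 64 ^ r := by rw [← mul_pow]; norm_num
  calc 4 * k ^ 2 * T ≤ 4 * (16 ^ i / 256) * (4 ^ r) := by gcongr; exact hT.trans h
    _ ≤ 4 * (16 ^ r / 256) * 4 ^ r := by gcongr
    _ = (16 ^ r * 4 ^ r) / 64 := by ring
    _ ≤ L / 64 := by rw [e]; gcongr

end Pool.Agent.Helper48.Cov
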