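import Pool.Agent.Helper48.CovCount

/-!
# Integers with few prime factors (Hardy and Ramanujan, upper bound)
-/

set_option autoImplicit false

namespace Pool.Agent.Helper48.Cov

open Finset

/-- integers in `[1, x]` with exactly `k` distinct prime factors -/
def Wk (k x : ℕ) : Finset ℕ := (Finset.Ioc 0 x).filter (fun m => m.primeFactors.card = k)

lemma mem_Wk {k x m : ℕ} : m ∈ Wk k x ↔ (0 < m ∧ m ≤ x) ∧ m.primeFactors.card = k := by
  unfold Wk; rw [mem_filter, mem_Ioc]

/-- `max 1 (log log x)` -/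
noncomputable def LL (x : ℝ) : ℝ := max 1 (Real.log (Real.log x))

lemma one_le_LL (x : ℝ) : 1 ≤ LL x := le_max_left _ _

lemma LL_mono {x y : ℝ} (hx : 1 < x) (h : x ≤ y) : LL x ≤ LL y := by
  unfold LL
  have : 0 < Real.log x := Real.log_pos hx
  exact max_le_max le_rfl (Real.log_le_log this (Real.log_le_log (by linarith) h))

/-- the factor `m = p ^ a * n` with `p ^ a` small -/
lemma exists_small_component {k x m : ℕ} (hm : m ∈ Wk (k + 2) x) :
    ∃ p a : ℕ, p.Prime ∧ 1 ≤ a ∧ p ^ a ≤ Nat.sqrt x ∧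
      ∃ n ∈ Wk (k + 1) (x / p ^ a), m = p ^ a * n := by
  rw [mem_Wk] at hm
  obtain ⟨⟨h0, hx⟩, hc⟩ := hm
  have h1 : 1 < m.primeFactors.card := by omega
  obtain ⟨p, hp, q, hq, hpq⟩ := Finset.one_lt_card.1 h1
  have hpp := Nat.prime_of_mem_primeFactors hp
  have hqp := Nat.prime_of_mem_primeFactors hq
  have key : p ^ m.factorization p * q ^ m.factorization q ∣ m := by
    apply Nat.Coprime.mul_dvd_of_dvd_of_dvd
    · exact Nat.Coprime.pow _ _ ((Nat.coprime_primes hpp hqp).2 hpq)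
    · exact Nat.ordProj_dvd m p
    · exact Nat.ordProj_dvd m q
  have hle : p ^ m.factorization p * q ^ m.factorization q ≤ x :=
    (Nat.le_of_dvd h0 key).trans hx
  have hor : p ^ m.factorization p ≤ Nat.sqrt x ∨ q ^ m.factorization q ≤ Nat.sqrt x := by
    by_contra hneg
    push Not at hneg
    have h2 := Nat.lt_succ_sqrt x
    have h3 : (Nat.sqrt x + 1) * (Nat.sqrt x + 1) ≤
        p ^ m.factorization p * q ^ m.factorization q := Nat.mul_le_mul hneg.1 hneg.2
    have h4 : Nat.succ (Nat.sqrt x) = Nat.sqrt x + 1 := rfl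
    rw [h4] at h2
    omega
  have main : ∀ p ∈ m.primeFactors, p ^ m.factorization p ≤ Nat.sqrt x →
      ∃ p a : ℕ, p.Prime ∧ 1 ≤ a ∧ p ^ a ≤ Nat.sqrt x ∧
      ∃ n ∈ Wk (k + 1) (x / p ^ a), m = p ^ a * n := by
    intro p hp hps
    have hpp := Nat.prime_of_mem_primeFactors hp
    have hpd := Nat.dvd_of_mem_primeFactors hp
    refine ⟨p, m.factorization p, hpp, ?_, hps, m / p ^ m.factorization p, ?_, ?_⟩
    · exact hpp.factorization_pos_of_dvd h0.ne' hpd
    · rw [mem_Wk]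
      refine ⟨⟨Nat.ordCompl_pos p h0.ne', Nat.div_le_div_right hx⟩, ?_⟩
      have : (m / p ^ m.factorization p).primeFactors = m.primeFactors.erase p := by
        ext r
        rw [Finset.mem_erase, Nat.mem_primeFactors, Nat.mem_primeFactors]
        constructor
        · rintro ⟨hr, hrd, _⟩
          refine ⟨?_, hr, hrd.trans (Nat.ordCompl_dvd m p), h0.ne'⟩
          rintro rfl
          exact Nat.not_dvd_ordCompl hpp h0.ne' hrd
        · rintro ⟨hrp, hr, hrd, _⟩
          refine ⟨hr, ?_, (Nat.ordCompl_pos p h0.ne').ne'⟩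
          have h5 : p ^ m.factorization p * (m / p ^ m.factorization p) = m :=
            Nat.ordProj_mul_ordCompl_eq_self m p
          rw [← h5] at hrd
          rcases (Nat.Prime.dvd_mul hr).1 hrd with h6 | h6
          · exfalso
            have := hr.dvd_of_dvd_pow h6
            exact hrp ((Nat.prime_dvd_prime_iff_eq hr hpp).1 this)
          · exact h6
      rw [this, Finset.card_erase_of_mem hp]
      omega
    · exact (Nat.ordProj_mul_ordCompl_eq_self m p).symm
  rcases hor with h | h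
  · exact main p hp h
  · exact main q hq h

lemma card_Wk_succ_le (k x : ℕ) : (Wk (k + 2) x).card ≤
    ∑ p ∈ pr2 0 (Nat.sqrt x), ∑ a ∈ (Finset.Icc 1 (Nat.sqrt x)).filter (fun a => p ^ a ≤ Nat.sqrt x),
      (Wk (k + 1) (x / p ^ a)).card := by
  have hsub : Wk (k + 2) x ⊆ (pr2 0 (Nat.sqrt x)).biUnion (fun p =>
      ((Finset.Icc 1 (Nat.sqrt x)).filter (fun a => p ^ a ≤ Nat.sqrt x)).biUnion (fun a =>
        (Wk (k + 1) (x / p ^ a)).image (fun n => p ^ a * n))) := by
    intro m hm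
    obtain ⟨p, a, hp, ha, hpa, n, hn, hmn⟩ := exists_small_component hm
    rw [mem_biUnion]
    refine ⟨p, ?_, ?_⟩
    · rw [mem_pr2]
      exact ⟨hp, hp.pos, (Nat.le_self_pow (by omega) p).trans hpa⟩
    · rw [mem_biUnion]
      refine ⟨a, ?_, ?_⟩
      · rw [mem_filter, mem_Icc]
        exact ⟨⟨ha, (Nat.lt_pow_self hp.one_lt).le.trans hpa⟩, hpa⟩
      · rw [mem_image]
        exact ⟨n, hn, hmn.symm⟩
  refine (Finset.card_le_card hsub).trans ?_
  refine Finset.card_biUnion_le.trans ?_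
  refine Finset.sum_le_sum fun p _ => ?_
  refine Finset.card_biUnion_le.trans ?_
  exact Finset.sum_le_sum fun a _ => Finset.card_image_le

/-- prime powers -/
lemma card_W1_le (x : ℕ) (hx : 1 ≤ x) : ((Wk 1 x).card : ℝ) ≤
    pc x + Nat.sqrt x * Real.log x / Real.log 2 := by
  have hsub : Wk 1 x ⊆ pr2 0 x ∪ (pr2 0 (Nat.sqrt x)).biUnion (fun p =>
      (Finset.Icc 1 (Nat.log 2 x)).image (fun a => p ^ a)) := by
    intro m hm
    rw [mem_Wk] at hm
    obtain ⟨⟨h0, hx'⟩, hc⟩ := hm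
    obtain ⟨p, hp⟩ := Finset.card_eq_one.1 hc
    have hpm : p ∈ m.primeFactors := by rw [hp]; exact Finset.mem_singleton_self p
    have hpp := Nat.prime_of_mem_primeFactors hpm
    have hm : m = p ^ m.factorization p := by
      conv_lhs => rw [← Nat.prod_factorization_pow_eq_self h0.ne']
      rw [Finsupp.prod, Nat.support_factorization, hp, Finset.prod_singleton]
    rw [mem_union]
    have ha : 1 ≤ m.factorization p :=
      hpp.factorization_pos_of_dvd h0.ne' (Nat.dvd_of_mem_primeFactors hpm)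
    rcases Nat.eq_or_lt_of_le ha with h1 | h1
    · left
      rw [mem_pr2]
      rw [← h1, pow_one] at hm
      rw [hm]
      exact ⟨hpp, hpp.pos, hm ▸ hx'⟩
    · right
      rw [mem_biUnion]
      refine ⟨p, ?_, ?_⟩
      · rw [mem_pr2]
        refine ⟨hpp, hpp.pos, ?_⟩
        rw [Nat.le_sqrt]
        calc p * p = p ^ 2 := by ring
          _ ≤ p ^ m.factorization p := Nat.pow_le_pow_right hpp.pos h1
          _ = m := hm.symm
          _ ≤ x := hx'
      · rw [mem_image]
        refine ⟨m.factorization p, ?_, hm.symm⟩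
        rw [mem_Icc]
        refine ⟨ha, ?_⟩
        apply Nat.le_log_of_pow_le (by norm_num)
        calc 2 ^ m.factorization p ≤ p ^ m.factorization p := Nat.pow_le_pow_left hpp.two_le _
          _ = m := hm.symm
          _ ≤ x := hx'
  have h1 : (Wk 1 x).card ≤ (pr2 0 x).card + (Nat.sqrt x) * Nat.log 2 x := by
    refine (Finset.card_le_card hsub).trans ?_
    refine (Finset.card_union_le _ _).trans ?_
    gcongr
    refine Finset.card_biUnion_le.trans ?_
    calc ∑ p ∈ pr2 0 (Nat.sqrt x), ((Finset.Icc 1 (Nat.log 2 x)).image (fun a => p ^ a)).card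
        ≤ ∑ p ∈ pr2 0 (Nat.sqrt x), Nat.log 2 x := by
          refine Finset.sum_le_sum fun p _ => ?_
          refine Finset.card_image_le.trans ?_
          rw [Nat.card_Icc]; omega
      _ = (pr2 0 (Nat.sqrt x)).card * Nat.log 2 x := by rw [Finset.sum_const, smul_eq_mul]
      _ ≤ (Nat.sqrt x) * Nat.log 2 x := by
          gcongr
          exact pc_le _
  have h2 : ((Wk 1 x).card : ℝ) ≤ (pr2 0 x).card + (Nat.sqrt x : ℝ) * (Nat.log 2 x : ℝ) := by
    exact_mod_cast h1
  have h3 : (Nat.log 2 x : ℝ) ≤ Real.log x / Real.log 2 := by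
    have h4 : 2 ^ Nat.log 2 x ≤ x := Nat.pow_log_le_self 2 (by omega)
    have h5 : ((2 : ℝ)) ^ Nat.log 2 x ≤ x := by exact_mod_cast h4
    rw [le_div_iff₀ (Real.log_pos (by norm_num)), ← Real.log_pow]
    exact Real.log_le_log (by positivity) h5
  have h6 : (pc x : ℝ) = (pr2 0 x).card := rfl
  rw [h6]
  calc ((Wk 1 x).card : ℝ) ≤ (pr2 0 x).card + (Nat.sqrt x : ℝ) * (Nat.log 2 x : ℝ) := h2
    _ ≤ (pr2 0 x).card + (Nat.sqrt x : ℝ) * (Real.log x / Real.log 2) := by gcongr
    _ = _ := by ring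

lemma log_le_four_mul (x : ℝ) (hx : 1 ≤ x) : Real.log x * Real.log x ≤ 16 * Real.sqrt x := by
  have h0 : 0 ≤ Real.log x := Real.log_nonneg hx
  have hq : 0 < Real.sqrt (Real.sqrt x) := Real.sqrt_pos.2 (Real.sqrt_pos.2 (by linarith))
  have h1 : Real.log x = 4 * Real.log (Real.sqrt (Real.sqrt x)) := by
    rw [Real.log_sqrt (Real.sqrt_nonneg _), Real.log_sqrt (by linarith)]; ring
  have h2 : Real.log (Real.sqrt (Real.sqrt x)) ≤ Real.sqrt (Real.sqrt x) := by
    have := Real.log_le_sub_one_of_pos hq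
    linarith
  have h3 : Real.sqrt (Real.sqrt x) * Real.sqrt (Real.sqrt x) = Real.sqrt x :=
    Real.mul_self_sqrt (Real.sqrt_nonneg _)
  have h4 : Real.log x ≤ 4 * Real.sqrt (Real.sqrt x) := by linarith
  calc Real.log x * Real.log x ≤ (4 * Real.sqrt (Real.sqrt x)) * (4 * Real.sqrt (Real.sqrt x)) :=
        mul_le_mul h4 h4 h0 (by positivity)
    _ = 16 * (Real.sqrt (Real.sqrt x) * Real.sqrt (Real.sqrt x)) := by ring
    _ = _ := by rw [h3]

lemma card_Wk_le (k x : ℕ) : (Wk k x).card ≤ x := by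
  unfold Wk
  refine (Finset.card_filter_le _ _).trans ?_
  rw [Nat.card_Ioc]; omega

lemma sqrt_nat_le (x : ℕ) : (Nat.sqrt x : ℝ) ≤ Real.sqrt x := by
  apply Real.le_sqrt_of_sq_le
  have : Nat.sqrt x * Nat.sqrt x ≤ x := Nat.sqrt_le x
  have h : ((Nat.sqrt x : ℕ) : ℝ) * (Nat.sqrt x : ℕ) ≤ x := by exact_mod_cast this
  nlinarith

lemma W1_bound : ∃ A : ℝ, 0 < A ∧ ∀ x : ℕ, 2 ≤ x → ((Wk 1 x).card : ℝ) ≤ A * (x / Real.log x) := by
  have hl2 : 0 < Real.log 2 := Real.log_pos (by norm_num)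
  refine ⟨4 + 16 / Real.log 2, by positivity, ?_⟩
  intro x hx
  have hx' : (2 : ℝ) ≤ x := by exact_mod_cast hx
  have hlx : 0 < Real.log x := Real.log_pos (by linarith)
  have h1 := card_W1_le x (by omega)
  have h2 := pc_upper hx
  have h3 : (Nat.sqrt x : ℝ) * Real.log x / Real.log 2 ≤ 16 / Real.log 2 * (x / Real.log x) := by
    rw [div_mul_eq_mul_div]
    apply div_le_div_of_nonneg_right _ hl2.le
    rw [← mul_div_assoc, le_div_iff₀ hlx]
    have h4 := log_le_four_mul x (by linarith)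
    have h5 := sqrt_nat_le x
    have h6 : Real.sqrt x * Real.sqrt x = x := Real.mul_self_sqrt (by linarith)
    calc (Nat.sqrt x : ℝ) * Real.log x * Real.log x = (Nat.sqrt x : ℝ) * (Real.log x * Real.log x) := by
          ring
      _ ≤ Real.sqrt x * (16 * Real.sqrt x) := by gcongr
      _ = 16 * (Real.sqrt x * Real.sqrt x) := by ring
      _ = 16 * x := by rw [h6]
  calc ((Wk 1 x).card : ℝ) ≤ 4 * (x / Real.log x) + 16 / Real.log 2 * (x / Real.log x) := by linarith
    _ = _ := by ring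

lemma geom_le {p : ℕ} (hp : 2 ≤ p) (s : ℕ) (T : Finset ℕ) (hT : T ⊆ Finset.Icc 1 s) :
    ∑ a ∈ T, (1 : ℝ) / (p : ℝ) ^ a ≤ 2 * (1 / p) := by
  have hp' : (2 : ℝ) ≤ p := by exact_mod_cast hp
  have h1 : ∑ a ∈ T, (1 : ℝ) / (p : ℝ) ^ a ≤ ∑ a ∈ Finset.Icc 1 s, (1 : ℝ) / (p : ℝ) ^ a :=
    Finset.sum_le_sum_of_subset_of_nonneg hT fun a _ _ => by positivity
  have h2 : ∀ s : ℕ, ∑ a ∈ Finset.Icc 1 s, (1 : ℝ) / (p : ℝ) ^ a ≤ 2 * (1 / p) - 2 * (1 / p) * (1 / 2) ^ s := by
    intro s
    induction s with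
    | zero => simp
    | succ s ih =>
      rw [Finset.sum_Icc_succ_top (by omega)]
      have h3 : (1 : ℝ) / (p : ℝ) ^ (s + 1) ≤ (1 / p) * (1 / 2) ^ s := by
        have : (1 : ℝ) / (p : ℝ) ^ (s + 1) = (1 / p) * (1 / p) ^ s := by
          rw [one_div_pow, pow_succ]; field_simp
        rw [this]
        gcongr
      have h4 : 2 * (1 / (p : ℝ)) * (1 / 2) ^ (s + 1) = (1 / p) * (1 / 2) ^ s := by
        rw [pow_succ]; ring
      linarith
  have h5 := h2 s
  have h6 : 0 ≤ 2 * (1 / (p : ℝ)) * (1 / 2) ^ s := by positivity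
  linarith

theorem Wk_bound : ∀ k : ℕ, ∃ A : ℝ, 0 < A ∧ ∀ x : ℕ, 2 ≤ x →
    ((Wk (k + 1) x).card : ℝ) ≤ A * (x * LL x ^ k / Real.log x) := by
  obtain ⟨C, hC, hS⟩ := sum_inv_pr2_le
  intro k
  induction k with
  | zero =>
    obtain ⟨A, hA, h⟩ := W1_bound
    refine ⟨A, hA, fun x hx => ?_⟩
    simpa using h x hx
  | succ k ih =>
    obtain ⟨A, hA, h⟩ := ih
    refine ⟨8 * A * (1 + C) + 3, by positivity, ?_⟩
    intro x hx
    have hx' : (2 : ℝ) ≤ x := by exact_mod_cast hx
    have hlx : 0 < Real.log x := Real.log_pos (by linarith)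
    have hLx := one_le_LL x
    have hposm : 0 ≤ (x : ℝ) * LL x ^ (k + 1) / Real.log x := by positivity
    by_cases hx16 : x < 16
    · have h1 : ((Wk (k + 1 + 1) x).card : ℝ) ≤ x := by exact_mod_cast card_Wk_le _ _
      have h2 : Real.log x ≤ 3 := by
        have h3 : Real.log x ≤ Real.log 16 := Real.log_le_log (by linarith) (by exact_mod_cast hx16.le)
        have h4 : Real.log 16 = 4 * Real.log 2 := by
          rw [show (16 : ℝ) = 2 ^ 4 by norm_num, Real.log_pow]; push_cast; ring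
        have := Real.log_two_lt_d9
        linarith
      have h3 : (x : ℝ) ≤ 3 * (x * LL x ^ (k + 1) / Real.log x) := by
        rw [← mul_div_assoc, le_div_iff₀ hlx]
        have h4 : 1 ≤ LL x ^ (k + 1) := one_le_pow₀ hLx
        have h5 : (x : ℝ) * Real.log x ≤ x * 3 := by gcongr
        have h6 : (x : ℝ) * 3 ≤ 3 * (x * LL x ^ (k + 1)) := by nlinarith
        linarith
      have h4 : 0 ≤ 8 * A * (1 + C) * (x * LL x ^ (k + 1) / Real.log x) := by positivity
      calc ((Wk (k + 1 + 1) x).card : ℝ) ≤ 3 * (x * LL x ^ (k + 1) / Real.log x) := h1.trans h3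
        _ ≤ (8 * A * (1 + C) + 3) * (x * LL x ^ (k + 1) / Real.log x) := by
            rw [add_mul]; linarith
    push Not at hx16
    set s := Nat.sqrt x with hs
    have hs4 : 4 ≤ s := by
      rw [hs, Nat.le_sqrt]; omega
    have hss : s * s ≤ x := Nat.sqrt_le x
    have hsx : x < (s + 1) * (s + 1) := Nat.lt_succ_sqrt x
    have hs1 : (4 : ℝ) ≤ s := by exact_mod_cast hs4
    have hlog4 : Real.log x ≤ 4 * Real.log s := by
      have h1 : (x : ℝ) ≤ (s : ℝ) ^ 4 := by
        have h2 : x ≤ s ^ 4 := by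
          have : (s + 1) * (s + 1) ≤ s ^ 4 := by nlinarith [Nat.mul_le_mul hs4 hs4]
          omega
        exact_mod_cast h2
      have h3 := Real.log_le_log (by linarith) h1
      rw [Real.log_pow] at h3
      exact_mod_cast h3
    have hterm : ∀ p ∈ pr2 0 s, ∀ a ∈ (Finset.Icc 1 s).filter (fun a => p ^ a ≤ s),
        ((Wk (k + 1) (x / p ^ a)).card : ℝ) ≤
          (A * (x * LL x ^ k * 4 / Real.log x)) * (1 / (p : ℝ) ^ a) := by
      intro p hp a ha
      rw [mem_pr2] at hp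
      rw [mem_filter] at ha
      have hpa0 : 0 < p ^ a := pow_pos hp.1.pos a
      have hy : s ≤ x / p ^ a := by
        rw [Nat.le_div_iff_mul_le hpa0]
        exact (Nat.mul_le_mul_left s ha.2).trans hss
      have hy2 : 2 ≤ x / p ^ a := by omega
      have hb := h (x / p ^ a) hy2
      have hyR : (((x / p ^ a : ℕ)) : ℝ) ≤ (x : ℝ) * (1 / (p : ℝ) ^ a) := by
        have := @Nat.cast_div_le ℝ _ _ _ x (p ^ a)
        rw [Nat.cast_pow] at this
        rw [mul_one_div]; exact this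
      have hy4 : (4 : ℝ) ≤ ((x / p ^ a : ℕ) : ℝ) := by exact_mod_cast hs4.trans hy
      have hyx : ((x / p ^ a : ℕ) : ℝ) ≤ x := by exact_mod_cast Nat.div_le_self _ _
      have hLL : LL ((x / p ^ a : ℕ) : ℝ) ≤ LL x := LL_mono (by linarith) hyx
      have hLL0 : 0 ≤ LL ((x / p ^ a : ℕ) : ℝ) := le_trans zero_le_one (one_le_LL _)
      have hlogy : Real.log x / 4 ≤ Real.log ((x / p ^ a : ℕ) : ℝ) := by
        have h1 : Real.log s ≤ Real.log ((x / p ^ a : ℕ) : ℝ) :=
          Real.log_le_log (by linarith) (by exact_mod_cast hy)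
        linarith
      have hlogy0 : 0 < Real.log x / 4 := by positivity
      calc ((Wk (k + 1) (x / p ^ a)).card : ℝ)
          ≤ A * (((x / p ^ a : ℕ) : ℝ) * LL ((x / p ^ a : ℕ) : ℝ) ^ k /
            Real.log ((x / p ^ a : ℕ) : ℝ)) := hb
        _ ≤ A * (((x : ℝ) * (1 / (p : ℝ) ^ a)) * LL x ^ k / (Real.log x / 4)) := by
            gcongr
        _ = _ := by field_simp
    have hc := card_Wk_succ_le k x
    have hsum : ((Wk (k + 2) x).card : ℝ) ≤
        ∑ p ∈ pr2 0 s, ∑ a ∈ (Finset.Icc 1 s).filter (fun a => p ^ a ≤ s),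
          ((Wk (k + 1) (x / p ^ a)).card : ℝ) := by
      rw [← hs] at hc
      exact_mod_cast hc
    have hB : 0 ≤ A * (x * LL x ^ k * 4 / Real.log x) := by
      have := le_trans zero_le_one hLx
      positivity
    have hsl : (2 : ℕ) ≤ s := by omega
    have h7 := hS 0 s hsl
    have h8 : Real.log (Real.log s) ≤ LL x := by
      refine le_trans ?_ (le_max_right _ _)
      have hsx' : (s : ℝ) ≤ x := by exact_mod_cast (Nat.sqrt_le_self x)
      exact Real.log_le_log (Real.log_pos (by linarith)) (Real.log_le_log (by linarith) hsx')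
    calc ((Wk (k + 1 + 1) x).card : ℝ)
        ≤ ∑ p ∈ pr2 0 s, ∑ a ∈ (Finset.Icc 1 s).filter (fun a => p ^ a ≤ s),
          ((Wk (k + 1) (x / p ^ a)).card : ℝ) := hsum
      _ ≤ ∑ p ∈ pr2 0 s, ∑ a ∈ (Finset.Icc 1 s).filter (fun a => p ^ a ≤ s),
          (A * (x * LL x ^ k * 4 / Real.log x)) * (1 / (p : ℝ) ^ a) :=
          Finset.sum_le_sum fun p hp => Finset.sum_le_sum fun a ha => hterm p hp a ha
      _ = (A * (x * LL x ^ k * 4 / Real.log x)) * ∑ p ∈ pr2 0 s,
          ∑ a ∈ (Finset.Icc 1 s).filter (fun a => p ^ a ≤ s), (1 / (p : ℝ) ^ a) := by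
          rw [Finset.mul_sum]
          exact Finset.sum_congr rfl fun p _ => by rw [Finset.mul_sum]
      _ ≤ (A * (x * LL x ^ k * 4 / Real.log x)) * ∑ p ∈ pr2 0 s, 2 * (1 / (p : ℝ)) := by
          gcongr with p hp
          rw [mem_pr2] at hp
          exact geom_le hp.1.two_le s _ (Finset.filter_subset _ _)
      _ = (A * (x * LL x ^ k * 4 / Real.log x)) * (2 * ∑ p ∈ pr2 0 s, (1 / (p : ℝ))) := by
          rw [← Finset.mul_sum _ _ (2 : ℝ)]
      _ ≤ (A * (x * LL x ^ k * 4 / Real.log x)) * (2 * ((1 + C) * LL x)) := by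
          gcongr
          have : C * 1 ≤ C * LL x := by gcongr
          linarith
      _ = 8 * A * (1 + C) * (x * LL x ^ (k + 1) / Real.log x) := by
          rw [pow_succ]; ring
      _ ≤ (8 * A * (1 + C) + 3) * (x * LL x ^ (k + 1) / Real.log x) := by
          rw [add_mul]; linarith

end Pool.Agent.Helper48.Cov
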