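import Pool.Agent.Helper48.CovOmega

/-!
# Covering `r` times
-/

set_option autoImplicit false

namespace Pool.Agent.Helper48.Cov

open Finset Filter

/-- integers in `[1, M]` with fewer than `r` prime factors -/
def Def (r M : ℕ) : Finset ℕ := (Finset.Ioc 0 M).filter (fun m => m.primeFactors.card < r)

lemma mem_Def {r M m : ℕ} : m ∈ Def r M ↔ (0 < m ∧ m ≤ M) ∧ m.primeFactors.card < r := by
  unfold Def; rw [mem_filter, mem_Ioc]

lemma card_Def_le (r M : ℕ) : (Def r M).card ≤ M := by
  unfold Def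
  refine (Finset.card_filter_le _ _).trans ?_
  rw [Nat.card_Ioc]; omega

lemma Def_bound (r : ℕ) (hr : 2 ≤ r) : ∃ A : ℝ, 0 < A ∧ ∀ M : ℕ, 2 ≤ M →
    ((Def r M).card : ℝ) ≤ 1 + A * (M * LL M ^ (r - 2) / Real.log M) := by
  choose A hA h using Wk_bound
  refine ⟨1 + ∑ k ∈ Finset.range (r - 1), A k, ?_, ?_⟩
  · have : 0 ≤ ∑ k ∈ Finset.range (r - 1), A k := Finset.sum_nonneg fun k _ => (hA k).le
    linarith
  · intro M hM
    have hM' : (2 : ℝ) ≤ M := by exact_mod_cast hM
    have hlM : 0 < Real.log M := Real.log_pos (by linarith)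
    have hL := one_le_LL (M : ℝ)
    have hsub : Def r M ⊆ {1} ∪ (Finset.range (r - 1)).biUnion (fun k => Wk (k + 1) M) := by
      intro m hm
      rw [mem_Def] at hm
      rw [mem_union, mem_singleton, mem_biUnion]
      rcases Nat.eq_zero_or_pos m.primeFactors.card with h0 | h0
      · left
        rw [Finset.card_eq_zero, Nat.primeFactors_eq_empty] at h0
        omega
      · right
        refine ⟨m.primeFactors.card - 1, ?_, ?_⟩
        · rw [mem_range]; omega
        · rw [mem_Wk]
          exact ⟨hm.1, by omega⟩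
    have h1 : (Def r M).card ≤ 1 + ∑ k ∈ Finset.range (r - 1), (Wk (k + 1) M).card := by
      refine (Finset.card_le_card hsub).trans ?_
      refine (Finset.card_union_le _ _).trans ?_
      rw [Finset.card_singleton]
      gcongr
      exact Finset.card_biUnion_le
    have h2 : ((Def r M).card : ℝ) ≤ 1 + ∑ k ∈ Finset.range (r - 1), ((Wk (k + 1) M).card : ℝ) := by
      exact_mod_cast h1
    have h3 : ∑ k ∈ Finset.range (r - 1), ((Wk (k + 1) M).card : ℝ) ≤
        ∑ k ∈ Finset.range (r - 1), A k * (M * LL M ^ (r - 2) / Real.log M) := by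
      refine Finset.sum_le_sum fun k hk => ?_
      rw [mem_range] at hk
      refine (h k M hM).trans ?_
      have := (hA k).le
      gcongr
      omega
    rw [← Finset.sum_mul] at h3
    have h4 : 0 ≤ (M : ℝ) * LL M ^ (r - 2) / Real.log M := by positivity
    rw [add_mul]
    linarith

/-- the combinatorial part -/
lemma assign (r M N : ℕ) (hM : M ≤ N / 4)
    (hc : (Def r M).card * r ≤ (pr2 (N / 4) N).card) :
    ∃ a : ℕ → ℕ, ∀ m : ℕ, 1 ≤ m → m ≤ M →
      r ≤ ((Finset.range (N + 1)).filter (fun p => p.Prime ∧ m ≡ a p [MOD p])).card := by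
  classical
  set T := Def r M ×ˢ Finset.range r with hT
  set P := pr2 (N / 4) N with hP
  have hcard : Fintype.card {x // x ∈ T} ≤ Fintype.card {x // x ∈ P} := by
    rw [Fintype.card_coe, Fintype.card_coe, hT, Finset.card_product, Finset.card_range]
    exact hc
  obtain ⟨f⟩ := Function.Embedding.nonempty_of_card_le hcard
  set a : ℕ → ℕ := fun p => if h : ∃ t : {x // x ∈ T}, (f t : ℕ) = p then h.choose.1.1 else 0 with ha
  refine ⟨a, fun m hm1 hmM => ?_⟩
  by_cases hmD : m.primeFactors.card < r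
  · have hmem : m ∈ Def r M := by rw [mem_Def]; exact ⟨⟨hm1, hmM⟩, hmD⟩
    have hT' : ∀ i : {x // x ∈ Finset.range r}, (m, i.1) ∈ T := fun i => by
      rw [hT, Finset.mem_product]; exact ⟨hmem, i.2⟩
    have hinj : Set.InjOn (fun i : {x // x ∈ Finset.range r} => (f ⟨(m, i.1), hT' i⟩ : ℕ))
        ((Finset.univ : Finset {x // x ∈ Finset.range r}) : Set {x // x ∈ Finset.range r}) := by
      intro i _ j _ hij
      have h1 : f ⟨(m, i.1), hT' i⟩ = f ⟨(m, j.1), hT' j⟩ := Subtype.ext hij
      have h2 := f.injective h1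
      have h3 : (m, i.1) = (m, j.1) := congrArg Subtype.val h2
      exact Subtype.ext (congrArg Prod.snd h3)
    have hcard2 : r = ((Finset.univ : Finset {x // x ∈ Finset.range r}).image
        (fun i : {x // x ∈ Finset.range r} => (f ⟨(m, i.1), hT' i⟩ : ℕ))).card := by
      rw [Finset.card_image_of_injOn hinj, Finset.card_univ, Fintype.card_coe, Finset.card_range]
    rw [hcard2]
    apply Finset.card_le_card
    intro p hp
    rw [mem_image] at hp
    obtain ⟨i, _, hi⟩ := hp
    have hpP : p ∈ P := by rw [← hi]; exact (f ⟨(m, i.1), hT' i⟩).2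
    rw [hP, mem_pr2] at hpP
    rw [mem_filter, mem_range]
    refine ⟨by omega, hpP.1, ?_⟩
    have hex : ∃ t : {x // x ∈ T}, (f t : ℕ) = p := ⟨_, hi⟩
    have h1 : a p = hex.choose.1.1 := by rw [ha]; exact dif_pos hex
    have h2 := hex.choose_spec
    have h3 : hex.choose = ⟨(m, i.1), hT' i⟩ := by
      apply f.injective
      apply Subtype.ext
      rw [h2, hi]
    rw [h1, h3]
  · push Not at hmD
    refine hmD.trans (Finset.card_le_card ?_)
    intro p hp
    have hpp := Nat.prime_of_mem_primeFactors hp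
    have hpd := Nat.dvd_of_mem_primeFactors hp
    have hpm : p ≤ m := Nat.le_of_dvd hm1 hpd
    have hpN : p ≤ N / 4 := hpm.trans (hmM.trans hM)
    rw [mem_filter, mem_range]
    refine ⟨by have := Nat.div_le_self N 4; omega, hpp, ?_⟩
    have hnex : ¬ ∃ t : {x // x ∈ T}, (f t : ℕ) = p := by
      rintro ⟨t, ht⟩
      have := (f t).2
      rw [ht, hP, mem_pr2] at this
      omega
    have h1 : a p = 0 := by rw [ha]; exact dif_neg hnex
    rw [h1]
    exact (Nat.modEq_zero_iff_dvd).2 hpd

theorem r_cover (r : ℕ) (hr : 2 ≤ r) : ∃ c : ℝ, 0 < c ∧ ∃ N₀ : ℕ, ∀ N : ℕ, N₀ ≤ N →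
    ∃ a : ℕ → ℕ, ∀ m : ℕ, 1 ≤ m → (m : ℝ) ≤ c * N / Real.log (Real.log N) ^ (r - 2) →
      r ≤ ((Finset.range (N + 1)).filter (fun p => p.Prime ∧ m ≡ a p [MOD p])).card := by
  obtain ⟨A, hA, hD⟩ := Def_bound r hr
  obtain ⟨n0, hw⟩ := pc_window
  have hr' : (2 : ℝ) ≤ r := by exact_mod_cast hr
  set c : ℝ := min (1 / 4) (1 / (16 * r * A)) with hc
  have hcpos : 0 < c := by rw [hc]; positivity
  have hc4 : c ≤ 1 / 4 := min_le_left _ _
  have hcA : 2 * r * A * c ≤ 1 / 8 := by
    have h1 : c ≤ 1 / (16 * r * A) := min_le_right _ _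
    have h2 : 2 * r * A * c ≤ 2 * r * A * (1 / (16 * r * A)) := by gcongr
    have h3 : 2 * r * A * (1 / (16 * r * A)) = 1 / 8 := by field_simp; norm_num
    linarith
  have hlogt : Tendsto (fun n : ℕ => Real.log (n : ℝ)) atTop atTop :=
    Real.tendsto_log_atTop.comp tendsto_natCast_atTop_atTop
  have e1 : ∀ᶠ N : ℕ in atTop, 1 ≤ Real.log (Real.log N) :=
    (Real.tendsto_log_atTop.comp hlogt).eventually_ge_atTop 1
  have e2 : ∀ᶠ N : ℕ in atTop, 64 * (r : ℝ) ≤ Real.log N := hlogt.eventually_ge_atTop _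
  have e3 : ∀ᶠ N : ℕ in atTop, 4 * (r : ℝ) * Real.log N ≤ Real.sqrt N := by
    have h1 := (isLittleO_log_rpow_atTop (r := 1 / 2) (by norm_num)).bound
      (c := 1 / (4 * r)) (by positivity)
    filter_upwards [tendsto_natCast_atTop_atTop.eventually h1, eventually_ge_atTop 1] with N hN hN1
    have hN' : (1 : ℝ) ≤ N := by exact_mod_cast hN1
    rw [← Real.sqrt_eq_rpow, Real.norm_of_nonneg (Real.log_nonneg hN'),
      Real.norm_of_nonneg (Real.sqrt_nonneg _)] at hN
    have h2 : 4 * (r : ℝ) * Real.log N ≤ 4 * r * (1 / (4 * r) * Real.sqrt N) := by gcongr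
    have h3 : 4 * (r : ℝ) * (1 / (4 * r) * Real.sqrt N) = Real.sqrt N := by field_simp
    linarith
  obtain ⟨N₁, hN₁⟩ := eventually_atTop.1 (e1.and (e2.and e3))
  refine ⟨c, hcpos, max N₁ (max n0 16), ?_⟩
  intro N hN
  obtain ⟨h1, h2, h3⟩ := hN₁ N (le_trans (le_max_left _ _) hN)
  have hNn0 : n0 ≤ N := le_trans (le_trans (le_max_left _ _) (le_max_right _ _)) hN
  have hN16 : 16 ≤ N := le_trans (le_trans (le_max_right _ _) (le_max_right _ _)) hN
  have hN' : (16 : ℝ) ≤ N := by exact_mod_cast hN16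
  have hlN : 0 < Real.log N := by linarith
  set ell := Real.log (Real.log N) with hell
  have hellr : 1 ≤ ell ^ (r - 2) := one_le_pow₀ h1
  set M := ⌊c * N / ell ^ (r - 2)⌋₊ with hMdef
  have hMle : (M : ℝ) ≤ c * N / ell ^ (r - 2) := Nat.floor_le (by positivity)
  have hMle2 : (M : ℝ) ≤ N / 4 := by
    have h4 : c * N / ell ^ (r - 2) ≤ c * N := div_le_self (by positivity) hellr
    nlinarith
  have hM4 : M ≤ N / 4 := by
    rw [Nat.le_div_iff_mul_le (by norm_num)]
    have : (M : ℝ) * 4 ≤ N := by linarith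
    exact_mod_cast this
  have hwin := hw N hNn0
  have hPc : (1 / 4 : ℝ) * (N / Real.log N) ≤ ((pr2 (N / 4) N).card : ℝ) := by
    have h4 : (pr2 0 N).card ≤ (pr2 0 (N / 4)).card + (pr2 (N / 4) N).card := by
      refine (Finset.card_le_card ?_).trans (Finset.card_union_le _ _)
      intro p hp
      rw [mem_pr2] at hp
      rw [mem_union, mem_pr2, mem_pr2]
      rcases le_or_gt p (N / 4) with h5 | h5
      · left; exact ⟨hp.1, hp.2.1, h5⟩
      · right; exact ⟨hp.1, h5, hp.2.2⟩
    have h5 : (pc N : ℝ) ≤ pc (N / 4) + ((pr2 (N / 4) N).card : ℝ) := by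
      unfold pc; exact_mod_cast h4
    linarith
  have hsq : Real.sqrt N * Real.sqrt N = N := Real.mul_self_sqrt (by linarith)
  have hsqpos : 0 < Real.sqrt N := Real.sqrt_pos.2 (by linarith)
  have hrs : (r : ℝ) * Real.sqrt N ≤ (1 / 4) * (N / Real.log N) := by
    rw [← mul_div_assoc, le_div_iff₀ hlN]
    have h4 : (4 * (r : ℝ) * Real.log N) * Real.sqrt N ≤ Real.sqrt N * Real.sqrt N := by gcongr
    rw [hsq] at h4
    linarith
  have hneed : ((Def r M).card : ℝ) * r ≤ ((pr2 (N / 4) N).card : ℝ) := by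
    refine le_trans ?_ hPc
    by_cases hMs : (M : ℝ) ≤ Real.sqrt N
    · have h4 : ((Def r M).card : ℝ) ≤ M := by exact_mod_cast card_Def_le r M
      calc ((Def r M).card : ℝ) * r ≤ Real.sqrt N * r := by gcongr; linarith
        _ = r * Real.sqrt N := by ring
        _ ≤ _ := hrs
    · push Not at hMs
      have hM2 : (2 : ℝ) ≤ M := by
        have h4 : (4 : ℝ) ≤ Real.sqrt N := by
          apply Real.le_sqrt_of_sq_le; linarith
        linarith
      have hM2' : 2 ≤ M := by exact_mod_cast hM2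
      have h4 := hD M hM2'
      have h5 : Real.log N / 2 ≤ Real.log M := by
        have h6 := Real.log_le_log hsqpos hMs.le
        rw [Real.log_sqrt (by linarith)] at h6
        exact h6
      have h6 : LL M ≤ ell := by
        have h7 : LL (M : ℝ) ≤ LL N := LL_mono (by linarith) (by linarith)
        have h8 : LL (N : ℝ) = ell := max_eq_right h1
        linarith
      have h7 : 0 ≤ LL (M : ℝ) := le_trans zero_le_one (one_le_LL _)
      have h8 : (M : ℝ) * LL M ^ (r - 2) / Real.log M ≤ 2 * c * (N / Real.log N) := by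
        calc (M : ℝ) * LL M ^ (r - 2) / Real.log M
            ≤ (c * N / ell ^ (r - 2)) * ell ^ (r - 2) / (Real.log N / 2) := by gcongr
          _ = 2 * c * (N / Real.log N) := by
              have : ell ^ (r - 2) ≠ 0 := by positivity
              field_simp
      have h9 : ((Def r M).card : ℝ) * r ≤ (1 + A * (2 * c * (N / Real.log N))) * r := by
        have : ((Def r M).card : ℝ) ≤ 1 + A * (2 * c * (N / Real.log N)) :=
          h4.trans (by gcongr)
        gcongr
      have h10 : (1 + A * (2 * c * (N / Real.log N))) * r =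
          r + (2 * r * A * c) * (N / Real.log N) := by ring
      have h11 : (2 * r * A * c) * ((N : ℝ) / Real.log N) ≤ 1 / 8 * (N / Real.log N) := by
        gcongr
      have h12 : (r : ℝ) ≤ 1 / 8 * (N / Real.log N) := by
        have h13 : (r : ℝ) * 4 ≤ (r : ℝ) * Real.sqrt N := by
          gcongr
          apply Real.le_sqrt_of_sq_le; linarith
        linarith
      rw [h10] at h9
      linarith
  obtain ⟨a, ha⟩ := assign r M N hM4 (by exact_mod_cast hneed)
  refine ⟨a, fun m hm1 hm => ha m hm1 ?_⟩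
  exact Nat.le_floor hm

end Pool.Agent.Helper48.Cov
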