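import Pool.Agent.Helper48.CovSecond
import Pool.Agent.Helper48.CovBlocks

/-!
# One scale: first and second moments
-/

set_option autoImplicit false

namespace Pool.Agent.Helper48.Cov

open Finset

/-! ### More on averages -/

lemma Av_congr_of {l : List ℕ} {F G : (ℕ → ℕ) → ℝ} {a : ℕ → ℕ}
    (h : ∀ b : ℕ → ℕ, (∀ i, i ∉ l → b i = a i) → F b = G b) : Av l F a = Av l G a := by
  induction l generalizing a with
  | nil => exact h a (fun _ _ => rfl)
  | cons ℓ l ih =>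
    rw [Av_cons, Av_cons]
    congr 1
    apply Finset.sum_congr rfl
    intro r _
    apply ih
    intro b hb
    apply h
    intro i hi
    rw [List.mem_cons, not_or] at hi
    rw [hb i hi.2, Function.update_of_ne hi.1]

lemma Av_mono_of {l : List ℕ} {F G : (ℕ → ℕ) → ℝ} {a : ℕ → ℕ}
    (h : ∀ b : ℕ → ℕ, (∀ i, i ∉ l → b i = a i) → F b ≤ G b) : Av l F a ≤ Av l G a := by
  induction l generalizing a with
  | nil => exact h a (fun _ _ => rfl)
  | cons ℓ l ih =>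
    rw [Av_cons, Av_cons]
    apply div_le_div_of_nonneg_right _ (by positivity)
    apply Finset.sum_le_sum
    intro r _
    apply ih
    intro b hb
    apply h
    intro i hi
    rw [List.mem_cons, not_or] at hi
    rw [hb i hi.2, Function.update_of_ne hi.1]

lemma ind_mul_ind (l : List ℕ) (T T' : Finset ℕ) (a : ℕ → ℕ) :
    ind l T a * ind l T' a = ind l (T ∪ T') a := by
  have key : Avoid l (T ∪ T') a ↔ Avoid l T a ∧ Avoid l T' a := by
    constructor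
    · intro hc
      exact ⟨fun ℓ hℓ t ht => hc ℓ hℓ t (mem_union_left _ ht),
        fun ℓ hℓ t ht => hc ℓ hℓ t (mem_union_right _ ht)⟩
    · rintro ⟨h1, h2⟩ ℓ hℓ t ht
      rcases mem_union.1 ht with ht | ht
      · exact h1 ℓ hℓ t ht
      · exact h2 ℓ hℓ t ht
  unfold ind
  by_cases h1 : Avoid l T a <;> by_cases h2 : Avoid l T' a <;> simp [key, h1, h2]

lemma avoid_append (l1 l2 : List ℕ) (T : Finset ℕ) (a : ℕ → ℕ) :
    Avoid (l1 ++ l2) T a ↔ Avoid l1 T a ∧ Avoid l2 T a := by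
  constructor
  · intro h
    exact ⟨fun ℓ hℓ => h ℓ (List.mem_append_left _ hℓ), fun ℓ hℓ => h ℓ (List.mem_append_right _ hℓ)⟩
  · rintro ⟨h1, h2⟩ ℓ hℓ
    rcases List.mem_append.1 hℓ with h | h
    · exact h1 ℓ h
    · exact h2 ℓ h

lemma avoid_subset {l : List ℕ} {T T' : Finset ℕ} {a : ℕ → ℕ} (h : T ⊆ T') (h' : Avoid l T' a) :
    Avoid l T a := fun ℓ hℓ t ht => h' ℓ hℓ t (h ht)

lemma avoid_iff_singletons (l : List ℕ) (T : Finset ℕ) (a : ℕ → ℕ) :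
    Avoid l T a ↔ ∀ t ∈ T, Avoid l {t} a := by
  constructor
  · intro h t ht ℓ hℓ s hs
    rw [mem_singleton] at hs
    subst hs
    exact h ℓ hℓ s ht
  · intro h ℓ hℓ t ht
    exact h t ht ℓ hℓ t (mem_singleton_self _)

lemma nr_singleton (ℓ m : ℕ) : nr ℓ {m} = 1 := by
  unfold nr; simp

lemma pr_singleton (l : List ℕ) (m : ℕ) : pr l {m} = sg l 1 := by
  have := pr_eq_sg (l := l) (k := 1) (T := {m}) (fun ℓ _ => nr_singleton ℓ m)
  rw [this]; norm_num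

lemma nr_eq_card {ℓ : ℕ} {T : Finset ℕ}
    (h : ∀ t ∈ T, ∀ t' ∈ T, t % ℓ = t' % ℓ → t = t') : nr ℓ T = T.card :=
  Finset.card_image_of_injOn fun t ht t' ht' he => h t ht t' ht' he

lemma sum_blocks_le {p k : ℕ} {V : Finset ℕ} {B : Finset (Finset ℕ)} (hB : IsBlocks p k V B)
    {h : ℕ → ℝ} (hh : ∀ t ∈ V, 0 ≤ h t) : ∑ T ∈ B, ∑ t ∈ T, h t ≤ ∑ t ∈ V, h t := by
  classical
  have hbu : ∑ T ∈ B, ∑ t ∈ T, h t = ∑ t ∈ B.biUnion id, h t := by
    rw [Finset.sum_biUnion]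
    · rfl
    · intro T hT T' hT' hne
      exact hB.disj T hT T' hT' hne
  rw [hbu]
  apply Finset.sum_le_sum_of_subset_of_nonneg
  · intro t ht
    rw [mem_biUnion] at ht
    obtain ⟨T, hT, htT⟩ := ht
    exact hB.sub T hT htT
  · intro t ht _
    exact hh t ht

lemma card_blocks_le {p k : ℕ} {V : Finset ℕ} {B : Finset (Finset ℕ)} (hB : IsBlocks p k V B) :
    (B.card : ℝ) * k ≤ V.card := by
  have h := sum_blocks_le hB (h := fun _ => (1 : ℝ)) (fun _ _ => by norm_num)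
  simp only [Finset.sum_const, nsmul_eq_mul, mul_one] at h
  have e : ∑ T ∈ B, (T.card : ℝ) = B.card * k := by
    rw [Finset.sum_congr rfl (fun T hT => by rw [hB.card T hT])]
    rw [Finset.sum_const, nsmul_eq_mul]
  rwa [e] at h

/-- total weight of the moduli dividing the integer `d` -/
noncomputable def gz (l : List ℕ) (d : ℤ) : ℝ :=
  (l.map (fun ℓ : ℕ => if (ℓ : ℤ) ∣ d then (2 : ℝ) / (ℓ : ℝ) else 0)).sum

lemma gz_nonneg (l : List ℕ) (d : ℤ) : 0 ≤ gz l d := by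
  unfold gz
  apply List.sum_nonneg
  intro x hx
  obtain ⟨ℓ, _, rfl⟩ := List.mem_map.1 hx
  split_ifs <;> positivity

lemma gw_eq_gz (l : List ℕ) (s : ℕ × ℕ) : gw l s = gz l ((s.1 : ℤ) - s.2) := by
  unfold gw gz
  congr 1
  apply List.map_congr_left
  intro ℓ _
  congr 1
  rw [eq_iff_iff]
  constructor
  · intro h
    have h1 : s.2 ≡ s.1 [MOD ℓ] := h.symm
    have := (Nat.modEq_iff_dvd).1 h1
    exact this
  · intro h
    have : s.2 ≡ s.1 [MOD ℓ] := (Nat.modEq_iff_dvd).2 h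
    exact this.symm

/-- the data of one scale -/
structure Scale where
  V0 : Finset ℕ
  l1 : List ℕ
  l2 : List ℕ
  P : Finset ℕ
  k : ℕ
  J : ℕ
  Bl : ℕ → Finset ℕ → Finset (Finset ℕ)
  hk : 1 ≤ k
  hl1 : ∀ ℓ ∈ l1, 4 ≤ ℓ
  hl2 : ∀ ℓ ∈ l2, 4 * k ≤ ℓ
  hnd : (l1 ++ l2).Nodup
  hP : ∀ p ∈ P, 0 < p
  hBl : ∀ p ∈ P, ∀ V : Finset ℕ, IsBlocks p k V (Bl p V)
  hdist : ∀ p ∈ P, ∀ ℓ ∈ l2, ∀ t ∈ V0, ∀ t' ∈ V0, t % p = t' % p → t % ℓ = t' % ℓ → t = t'
  hJ : ∀ p ∈ P, ∀ t ∈ V0, ∀ t' ∈ V0, t % p = t' % p → ∃ j : ℤ, |j| ≤ J ∧ (t : ℤ) - t' = j * p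
  hshare : ∀ p ∈ P, ∀ p' ∈ P, p ≠ p' → ∀ t ∈ V0, ∀ t' ∈ V0, t % p = t' % p → t % p' = t' % p' →
    t = t'

namespace Scale

variable (S : Scale)

/-- elements surviving the first list -/
def Va (a : ℕ → ℕ) : Finset ℕ := S.V0.filter (fun m => Avoid S.l1 {m} a)

/-- surviving blocks -/
def Fam (p : ℕ) (a : ℕ → ℕ) : Finset (Finset ℕ) :=
  (S.Bl p (S.Va a)).filter (fun T => Avoid S.l2 T a)

/-- surviving elements -/
def D (a : ℕ → ℕ) : Finset ℕ := S.V0.filter (fun m => Avoid (S.l1 ++ S.l2) {m} a)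

/-- number of surviving blocks -/
noncomputable def Z (p : ℕ) (a : ℕ → ℕ) : ℝ := ∑ T ∈ S.Bl p (S.Va a), ind S.l2 T a

/-- indicator that `m` is in a surviving block -/
noncomputable def hs (p m : ℕ) (a : ℕ → ℕ) : ℝ :=
  ∑ T ∈ S.Bl p (S.Va a), (if m ∈ T then ind S.l2 T a else 0)

noncomputable def Mb : ℝ := S.V0.card * sg S.l1 1
noncomputable def Db : ℝ := S.Mb * sg S.l2 1
noncomputable def mu : ℝ := S.Mb * sg S.l2 S.k / S.k
noncomputable def muW : ℝ := S.P.card * sg S.l2 S.k / sg S.l2 1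

lemma hl1pos : ∀ ℓ ∈ S.l1, 0 < ℓ := fun ℓ hℓ => by have := S.hl1 ℓ hℓ; omega

lemma hl2pos : ∀ ℓ ∈ S.l2, 0 < ℓ := fun ℓ hℓ => by have := S.hl2 ℓ hℓ; have := S.hk; omega

lemma nd1 : S.l1.Nodup := (List.nodup_append.1 S.hnd).1

lemma nd2 : S.l2.Nodup := (List.nodup_append.1 S.hnd).2.1

lemma sg1_pos : 0 < sg S.l1 1 := by
  apply sg_pos _ (by norm_num)
  intro ℓ hℓ
  have := S.hl1 ℓ hℓ
  have : 1 < ℓ := by omega
  exact_mod_cast this

lemma sg2_pos : 0 < sg S.l2 1 := by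
  apply sg_pos _ (by norm_num)
  intro ℓ hℓ
  have := S.hl2 ℓ hℓ
  have := S.hk
  have : 1 < ℓ := by omega
  exact_mod_cast this

lemma sgk_pos : 0 < sg S.l2 S.k := by
  apply sg_pos _ (by positivity)
  intro ℓ hℓ
  have := S.hl2 ℓ hℓ
  have := S.hk
  have : S.k < ℓ := by omega
  exact_mod_cast this

lemma k_pos : (0 : ℝ) < S.k := by exact_mod_cast S.hk

lemma Va_sub (a : ℕ → ℕ) : S.Va a ⊆ S.V0 := filter_subset _ _

lemma Va_congr {a b : ℕ → ℕ} (h : ∀ i, i ∉ S.l2 → b i = a i) : S.Va b = S.Va a := by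
  unfold Va
  apply Finset.filter_congr
  intro m _
  unfold Avoid
  constructor
  · intro h1 ℓ hℓ t ht
    have h2 : ℓ ∉ S.l2 := fun hc => (List.nodup_append.1 S.hnd).2.2 ℓ hℓ ℓ hc rfl
    rw [← h ℓ h2]
    exact h1 ℓ hℓ t ht
  · intro h1 ℓ hℓ t ht
    have h2 : ℓ ∉ S.l2 := fun hc => (List.nodup_append.1 S.hnd).2.2 ℓ hℓ ℓ hc rfl
    rw [h ℓ h2]
    exact h1 ℓ hℓ t ht

lemma Z_eq (p : ℕ) (a : ℕ → ℕ) : S.Z p a = (S.Fam p a).card := by
  unfold Z Fam ind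
  rw [← Finset.sum_filter, Finset.sum_const, nsmul_eq_mul, mul_one]

lemma Fam_disj {p : ℕ} (hp : p ∈ S.P) (a : ℕ → ℕ) :
    ∀ T ∈ S.Fam p a, ∀ T' ∈ S.Fam p a, T ≠ T' → Disjoint T T' := by
  intro T hT T' hT' hne
  unfold Fam at hT hT'
  rw [mem_filter] at hT hT'
  exact (S.hBl p hp _).disj T hT.1 T' hT'.1 hne

lemma hs_eq {p : ℕ} (hp : p ∈ S.P) (m : ℕ) (a : ℕ → ℕ) : S.hs p m a = hitI (S.Fam p a) m := by
  rw [← sum_mem_eq_hitI (S.Fam_disj hp a) m]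
  unfold hs Fam
  rw [Finset.sum_filter]
  apply Finset.sum_congr rfl
  intro T _
  unfold ind
  split_ifs <;> rfl

lemma Fam_sub {p : ℕ} (hp : p ∈ S.P) {a : ℕ → ℕ} {T : Finset ℕ} (hT : T ∈ S.Fam p a) :
    T ⊆ S.D a := by
  unfold Fam at hT
  rw [mem_filter] at hT
  intro t ht
  have h1 := (S.hBl p hp _).sub T hT.1 ht
  unfold Va at h1
  rw [mem_filter] at h1
  unfold D
  rw [mem_filter, avoid_append]
  exact ⟨h1.1, h1.2, (avoid_iff_singletons _ _ _).1 hT.2 t ht⟩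

lemma hs_nonneg (p m : ℕ) (a : ℕ → ℕ) : 0 ≤ S.hs p m a := by
  unfold hs
  apply Finset.sum_nonneg
  intro T _
  split_ifs
  · exact ind_nonneg _ _ _
  · exact le_rfl

lemma hs_eq_zero {p : ℕ} (hp : p ∈ S.P) {m : ℕ} {a : ℕ → ℕ} (hm : m ∉ S.D a) :
    S.hs p m a = 0 := by
  rw [S.hs_eq hp]
  unfold hitI
  rw [if_neg]
  rintro ⟨T, hT, hmT⟩
  exact hm (S.Fam_sub hp hT hmT)

lemma sum_hs {p : ℕ} (hp : p ∈ S.P) (a : ℕ → ℕ) : ∑ m ∈ S.D a, S.hs p m a = S.k * S.Z p a := by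
  have e1 : ∑ m ∈ S.D a, S.hs p m a = ∑ m ∈ S.D a, ∑ T ∈ S.Fam p a, (if m ∈ T then (1 : ℝ) else 0) := by
    apply Finset.sum_congr rfl
    intro m _
    rw [S.hs_eq hp, sum_mem_eq_hitI (S.Fam_disj hp a)]
  rw [e1, Finset.sum_comm]
  have e2 : ∀ T ∈ S.Fam p a, ∑ m ∈ S.D a, (if m ∈ T then (1 : ℝ) else 0) = S.k := by
    intro T hT
    rw [← Finset.sum_filter, Finset.sum_const, nsmul_eq_mul, mul_one]
    have : (S.D a).filter (fun m => m ∈ T) = T := by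
      ext m
      rw [mem_filter]
      exact ⟨fun h => h.2, fun h => ⟨S.Fam_sub hp hT h, h⟩⟩
    rw [this]
    unfold Fam at hT
    rw [mem_filter] at hT
    rw [(S.hBl p hp _).card T hT.1]
  rw [Finset.sum_congr rfl e2, Finset.sum_const, nsmul_eq_mul, S.Z_eq]
  ring

lemma sum_hs_V0 {p p' : ℕ} (hp : p ∈ S.P) (a : ℕ → ℕ) :
    ∑ m ∈ S.D a, S.hs p m a * S.hs p' m a = ∑ m ∈ S.V0, S.hs p m a * S.hs p' m a := by
  apply Finset.sum_subset (filter_subset _ _)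
  intro m _ hm
  rw [S.hs_eq_zero hp hm, zero_mul]

/-! ### Averages over the first list -/

lemma Av_card_Va (a : ℕ → ℕ) : Av S.l1 (fun b => ((S.Va b).card : ℝ)) a = S.Mb := by
  have h1 : ∀ b, ((S.Va b).card : ℝ) = ∑ m ∈ S.V0, ind S.l1 {m} b := by
    intro b
    unfold Va ind
    rw [← Finset.sum_filter, Finset.sum_const, nsmul_eq_mul, mul_one]
  rw [Av_congr h1, Av_sum]
  rw [Finset.sum_congr rfl (fun m _ => Av_ind S.hl1pos S.nd1 {m} a)]
  rw [Finset.sum_congr rfl (fun m _ => pr_singleton S.l1 m)]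
  rw [Finset.sum_const, nsmul_eq_mul]
  rfl

lemma Av_card_D (a : ℕ → ℕ) : Av (S.l1 ++ S.l2) (fun b => ((S.D b).card : ℝ)) a = S.Db := by
  have h1 : ∀ b, ((S.D b).card : ℝ) = ∑ m ∈ S.V0, ind (S.l1 ++ S.l2) {m} b := by
    intro b
    unfold D ind
    rw [← Finset.sum_filter, Finset.sum_const, nsmul_eq_mul, mul_one]
  have hpos : ∀ ℓ ∈ S.l1 ++ S.l2, 0 < ℓ := by
    intro ℓ hℓ
    rcases List.mem_append.1 hℓ with h | h
    · exact S.hl1pos ℓ h
    · exact S.hl2pos ℓ h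
  rw [Av_congr h1, Av_sum]
  rw [Finset.sum_congr rfl (fun m _ => Av_ind hpos S.hnd {m} a)]
  rw [Finset.sum_congr rfl (fun m _ => pr_singleton _ m)]
  rw [Finset.sum_const, nsmul_eq_mul]
  unfold Db Mb sg
  rw [List.map_append, List.prod_append]
  ring

lemma Av_pair {t t' : ℕ} (a : ℕ → ℕ) :
    Av S.l1 (ind S.l1 ({t} ∪ {t'})) a ≤ sg S.l1 1 ^ 2 * Real.exp (gw S.l1 (t, t')) := by
  rw [Av_ind S.hl1pos S.nd1]
  have h := pr_union_le (l := S.l1) (k := 1) le_rfl (by simpa using S.hl1) (T := {t}) (T' := {t'})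
    (fun ℓ _ => nr_singleton ℓ t) (fun ℓ _ => nr_singleton ℓ t')
  simpa using h

/-! ### Averages over the second list -/

lemma nr_block {p : ℕ} (hp : p ∈ S.P) {a : ℕ → ℕ} {T : Finset ℕ} (hT : T ∈ S.Bl p (S.Va a)) :
    ∀ ℓ ∈ S.l2, nr ℓ T = S.k := by
  intro ℓ hℓ
  have hB := S.hBl p hp (S.Va a)
  rw [← hB.card T hT]
  apply nr_eq_card
  intro t ht t' ht' he
  exact S.hdist p hp ℓ hℓ t (S.Va_sub a (hB.sub T hT ht)) t' (S.Va_sub a (hB.sub T hT ht'))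
    (hB.cls T hT t ht t' ht') he

lemma Av_Z {p : ℕ} (hp : p ∈ S.P) (b : ℕ → ℕ) :
    Av S.l2 (fun c => S.Z p c) b = (S.Bl p (S.Va b)).card * sg S.l2 S.k := by
  have h1 : Av S.l2 (fun c => S.Z p c) b =
      Av S.l2 (fun c => ∑ T ∈ S.Bl p (S.Va b), ind S.l2 T c) b := by
    apply Av_congr_of
    intro c hc
    unfold Z
    rw [S.Va_congr hc]
  rw [h1, Av_sum]
  rw [Finset.sum_congr rfl (fun T hT => by
    rw [Av_ind S.hl2pos S.nd2, pr_eq_sg (S.nr_block hp hT)])]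
  rw [Finset.sum_const, nsmul_eq_mul]

lemma Av_ZZ {p : ℕ} (b : ℕ → ℕ) :
    Av S.l2 (fun c => S.Z p c ^ 2) b =
      ∑ T ∈ S.Bl p (S.Va b), ∑ T' ∈ S.Bl p (S.Va b), pr S.l2 (T ∪ T') := by
  have h1 : Av S.l2 (fun c => S.Z p c ^ 2) b =
      Av S.l2 (fun c => ∑ T ∈ S.Bl p (S.Va b), ∑ T' ∈ S.Bl p (S.Va b), ind S.l2 (T ∪ T') c) b := by
    apply Av_congr_of
    intro c hc
    unfold Z
    rw [S.Va_congr hc, sq, Finset.sum_mul_sum]
    simp_rw [ind_mul_ind]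
  rw [h1, Av_sum]
  apply Finset.sum_congr rfl
  intro T _
  rw [Av_sum]
  apply Finset.sum_congr rfl
  intro T' _
  rw [Av_ind S.hl2pos S.nd2]

lemma Av_hh {p p' : ℕ} (b : ℕ → ℕ) :
    Av S.l2 (fun c => ∑ m ∈ S.V0, S.hs p m c * S.hs p' m c) b =
      ∑ m ∈ S.V0, ∑ T ∈ S.Bl p (S.Va b), ∑ T' ∈ S.Bl p' (S.Va b),
        (if m ∈ T ∧ m ∈ T' then pr S.l2 (T ∪ T') else 0) := by
  have h1 : Av S.l2 (fun c => ∑ m ∈ S.V0, S.hs p m c * S.hs p' m c) b =
      Av S.l2 (fun c => ∑ m ∈ S.V0, ∑ T ∈ S.Bl p (S.Va b), ∑ T' ∈ S.Bl p' (S.Va b),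
        ((if m ∈ T ∧ m ∈ T' then 1 else 0) * ind S.l2 (T ∪ T') c)) b := by
    apply Av_congr_of
    intro c hc
    apply Finset.sum_congr rfl
    intro m _
    unfold hs
    rw [S.Va_congr hc, Finset.sum_mul_sum]
    apply Finset.sum_congr rfl
    intro T _
    apply Finset.sum_congr rfl
    intro T' _
    rw [← ind_mul_ind]
    by_cases h1 : m ∈ T <;> by_cases h2 : m ∈ T' <;> simp [h1, h2]
  rw [h1, Av_sum]
  apply Finset.sum_congr rfl
  intro m _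
  rw [Av_sum]
  apply Finset.sum_congr rfl
  intro T _
  rw [Av_sum]
  apply Finset.sum_congr rfl
  intro T' _
  rw [Av_smul, Av_ind S.hl2pos S.nd2]
  split_ifs <;> simp

/-! ### Moments of `Z` -/

lemma mu_pos (h : 0 < S.V0.card) : 0 < S.mu := by
  unfold mu Mb
  have := S.sg1_pos
  have := S.sgk_pos
  have := S.k_pos
  have : (0 : ℝ) < S.V0.card := by exact_mod_cast h
  positivity

lemma EZ_le {p : ℕ} (hp : p ∈ S.P) (a : ℕ → ℕ) :
    Av (S.l1 ++ S.l2) (fun c => S.Z p c) a ≤ S.mu := by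
  rw [Av_append, Av_congr (fun b => S.Av_Z hp b)]
  have h1 : ∀ b, ((S.Bl p (S.Va b)).card : ℝ) * sg S.l2 S.k ≤
      (sg S.l2 S.k / S.k) * ((S.Va b).card : ℝ) := by
    intro b
    have h2 := card_blocks_le (S.hBl p hp (S.Va b))
    have h3 := S.sgk_pos
    have h4 := S.k_pos
    rw [div_mul_eq_mul_div, le_div_iff₀ h4]
    nlinarith
  refine (Av_mono h1 a).trans ?_
  rw [Av_smul, S.Av_card_Va]
  unfold mu
  apply le_of_eq; ring

lemma EZ_ge {p : ℕ} (hp : p ∈ S.P) {κ : ℝ} (hκ : (p : ℝ) * S.k ≤ κ * S.Mb) (a : ℕ → ℕ) :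
    S.mu * (1 - κ) ≤ Av (S.l1 ++ S.l2) (fun c => S.Z p c) a := by
  rw [Av_append, Av_congr (fun b => S.Av_Z hp b)]
  have h1 : ∀ b, (sg S.l2 S.k / S.k) * (((S.Va b).card : ℝ) - κ * S.Mb) ≤
      ((S.Bl p (S.Va b)).card : ℝ) * sg S.l2 S.k := by
    intro b
    have h2 := (S.hBl p hp (S.Va b)).big
    have h2' : ((S.Va b).card : ℝ) ≤ (S.Bl p (S.Va b)).card * S.k + p * S.k := by exact_mod_cast h2
    have h3 := S.sgk_pos
    have h4 := S.k_pos
    rw [div_mul_eq_mul_div, div_le_iff₀ h4]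
    have : ((S.Va b).card : ℝ) - κ * S.Mb ≤ (S.Bl p (S.Va b)).card * S.k := by linarith
    nlinarith
  refine le_trans ?_ (Av_mono h1 a)
  rw [Av_smul, Av_sub, S.Av_card_Va, Av_const S.hl1pos]
  unfold mu
  apply le_of_eq; ring

lemma EZZ_le {p : ℕ} (hp : p ∈ S.P) {η : ℝ}
    (H1 : ∑ t ∈ S.V0, ∑ t' ∈ S.V0, (if t ≠ t' then
      Real.exp ((S.k : ℝ) ^ 2 * gw S.l2 (t, t')) * Real.exp (gw S.l1 (t, t')) else 0) ≤
      (1 + η) * (S.V0.card : ℝ) ^ 2) (a : ℕ → ℕ) :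
    Av (S.l1 ++ S.l2) (fun c => S.Z p c ^ 2) a ≤ S.mu + (1 + η) * S.mu ^ 2 := by
  classical
  rw [Av_append]
  have hsk := S.sgk_pos
  have hk := S.k_pos
  -- pointwise bound for the inner average
  have hin : ∀ b, Av S.l2 (fun c => S.Z p c ^ 2) b ≤
      Av S.l2 (fun c => S.Z p c) b + (sg S.l2 S.k ^ 2 / (S.k : ℝ) ^ 2) *
        ∑ t ∈ S.V0, ∑ t' ∈ S.V0, ((if t ≠ t' then
          Real.exp ((S.k : ℝ) ^ 2 * gw S.l2 (t, t')) else 0) * ind S.l1 ({t} ∪ {t'}) b) := by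
    intro b
    rw [S.Av_ZZ b, S.Av_Z hp b]
    set B := S.Bl p (S.Va b) with hB
    have hBl := S.hBl p hp (S.Va b)
    rw [← hB] at hBl
    set f : ℕ → ℕ → ℝ := fun t t' => if t ≠ t' then Real.exp ((S.k : ℝ) ^ 2 * gw S.l2 (t, t')) else 0
      with hf
    have hf0 : ∀ t t', 0 ≤ f t t' := by
      intro t t'; simp only [hf]; split_ifs; exacts [(Real.exp_pos _).le, le_rfl]
    -- each pair of blocks
    have hpair : ∀ T ∈ B, ∀ T' ∈ B, pr S.l2 (T ∪ T') ≤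
        (if T = T' then sg S.l2 S.k else 0) +
          (sg S.l2 S.k ^ 2 / (S.k : ℝ) ^ 2) * ∑ t ∈ T, ∑ t' ∈ T', f t t' := by
      intro T hT T' hT'
      by_cases he : T = T'
      · subst he
        rw [if_pos rfl, Finset.union_self, pr_eq_sg (S.nr_block hp hT)]
        have : 0 ≤ (sg S.l2 S.k ^ 2 / (S.k : ℝ) ^ 2) * ∑ t ∈ T, ∑ t' ∈ T, f t t' :=
          mul_nonneg (by positivity) (Finset.sum_nonneg fun t _ => Finset.sum_nonneg fun t' _ => hf0 _ _)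
        linarith
      · rw [if_neg he, zero_add]
        have h1 := pr_union_le S.hk S.hl2 (S.nr_block hp hT) (S.nr_block hp hT')
        have hTc := hBl.card T hT
        have hTc' := hBl.card T' hT'
        have hne : (T ×ˢ T').Nonempty := by
          rw [← Finset.card_pos, Finset.card_product, hTc, hTc']
          have := S.hk
          positivity
        have h2 := exp_sum_le (T ×ˢ T') hne (gw S.l2)
        have hcard : (((T ×ˢ T').card : ℕ) : ℝ) = (S.k : ℝ) ^ 2 := by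
          rw [Finset.card_product, hTc, hTc']; push_cast; ring
        rw [hcard] at h2
        have h3 : ∑ s ∈ T ×ˢ T', Real.exp ((S.k : ℝ) ^ 2 * gw S.l2 s) =
            ∑ t ∈ T, ∑ t' ∈ T', f t t' := by
          rw [Finset.sum_product]
          apply Finset.sum_congr rfl
          intro t ht
          apply Finset.sum_congr rfl
          intro t' ht'
          simp only [hf]
          rw [if_pos]
          rintro rfl
          exact Finset.disjoint_left.1 (hBl.disj T hT T' hT' he) ht ht'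
        rw [h3] at h2
        calc pr S.l2 (T ∪ T') ≤ sg S.l2 S.k ^ 2 * Real.exp (∑ s ∈ T ×ˢ T', gw S.l2 s) := h1
          _ ≤ sg S.l2 S.k ^ 2 * ((∑ t ∈ T, ∑ t' ∈ T', f t t') / (S.k : ℝ) ^ 2) := by gcongr
          _ = _ := by ring
    calc ∑ T ∈ B, ∑ T' ∈ B, pr S.l2 (T ∪ T')
        ≤ ∑ T ∈ B, ∑ T' ∈ B, ((if T = T' then sg S.l2 S.k else 0) +
          (sg S.l2 S.k ^ 2 / (S.k : ℝ) ^ 2) * ∑ t ∈ T, ∑ t' ∈ T', f t t') :=
          Finset.sum_le_sum fun T hT => Finset.sum_le_sum fun T' hT' => hpair T hT T' hT'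
      _ = B.card * sg S.l2 S.k + (sg S.l2 S.k ^ 2 / (S.k : ℝ) ^ 2) *
          ∑ T ∈ B, ∑ t ∈ T, ∑ T' ∈ B, ∑ t' ∈ T', f t t' := by
          simp_rw [Finset.sum_add_distrib]
          congr 1
          · rw [Finset.sum_congr rfl (fun T hT => by
              rw [Finset.sum_ite_eq B T, if_pos hT]), Finset.sum_const, nsmul_eq_mul]
          · rw [Finset.mul_sum]
            apply Finset.sum_congr rfl
            intro T _
            rw [← Finset.mul_sum]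
            congr 1
            rw [Finset.sum_comm]
      _ ≤ B.card * sg S.l2 S.k + (sg S.l2 S.k ^ 2 / (S.k : ℝ) ^ 2) *
          ∑ t ∈ S.Va b, ∑ t' ∈ S.Va b, f t t' := by
          apply add_le_add le_rfl
          apply mul_le_mul_of_nonneg_left _ (by positivity)
          refine le_trans (Finset.sum_le_sum fun T hT => Finset.sum_le_sum fun t ht =>
            sum_blocks_le hBl (fun t' _ => hf0 t t')) ?_
          exact sum_blocks_le hBl (fun t _ => Finset.sum_nonneg fun t' _ => hf0 t t')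
      _ = _ := by
          congr 2
          unfold Va
          rw [Finset.sum_filter]
          apply Finset.sum_congr rfl
          intro t _
          rw [Finset.sum_filter]
          by_cases h1 : Avoid S.l1 {t} b
          · rw [if_pos h1]
            apply Finset.sum_congr rfl
            intro t' _
            rw [← ind_mul_ind]
            unfold ind
            rw [if_pos h1]
            simp only [hf]
            split_ifs <;> simp_all
          · rw [if_neg h1]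
            symm
            apply Finset.sum_eq_zero
            intro t' _
            rw [← ind_mul_ind]
            unfold ind
            rw [if_neg h1]; simp
  refine (Av_mono hin a).trans ?_
  rw [Av_add, Av_smul, Av_sum]
  have h1 : Av S.l1 (fun b => Av S.l2 (fun c => S.Z p c) b) a ≤ S.mu := by
    rw [← Av_append]; exact S.EZ_le hp a
  have h2 : ∑ t ∈ S.V0, Av S.l1 (fun b => ∑ t' ∈ S.V0, ((if t ≠ t' then
          Real.exp ((S.k : ℝ) ^ 2 * gw S.l2 (t, t')) else 0) * ind S.l1 ({t} ∪ {t'}) b)) a ≤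
      sg S.l1 1 ^ 2 * ((1 + η) * (S.V0.card : ℝ) ^ 2) := by
    have h3 : ∀ t t', Av S.l1 (fun b => (if t ≠ t' then
          Real.exp ((S.k : ℝ) ^ 2 * gw S.l2 (t, t')) else 0) * ind S.l1 ({t} ∪ {t'}) b) a ≤
        sg S.l1 1 ^ 2 * (if t ≠ t' then
          Real.exp ((S.k : ℝ) ^ 2 * gw S.l2 (t, t')) * Real.exp (gw S.l1 (t, t')) else 0) := by
      intro t t'
      rw [Av_smul]
      split_ifs with hne
      · have h4 := S.Av_pair (t := t) (t' := t') a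
        calc Real.exp ((S.k : ℝ) ^ 2 * gw S.l2 (t, t')) * Av S.l1 (ind S.l1 ({t} ∪ {t'})) a
            ≤ Real.exp ((S.k : ℝ) ^ 2 * gw S.l2 (t, t')) *
              (sg S.l1 1 ^ 2 * Real.exp (gw S.l1 (t, t'))) := by gcongr
          _ = _ := by ring
      · simp
    calc _ ≤ ∑ t ∈ S.V0, ∑ t' ∈ S.V0, sg S.l1 1 ^ 2 * (if t ≠ t' then
          Real.exp ((S.k : ℝ) ^ 2 * gw S.l2 (t, t')) * Real.exp (gw S.l1 (t, t')) else 0) := by
          apply Finset.sum_le_sum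
          intro t _
          rw [Av_sum]
          exact Finset.sum_le_sum fun t' _ => h3 t t'
      _ = sg S.l1 1 ^ 2 * ∑ t ∈ S.V0, ∑ t' ∈ S.V0, (if t ≠ t' then
          Real.exp ((S.k : ℝ) ^ 2 * gw S.l2 (t, t')) * Real.exp (gw S.l1 (t, t')) else 0) := by
          rw [Finset.mul_sum]
          apply Finset.sum_congr rfl
          intro t _
          rw [Finset.mul_sum]
      _ ≤ _ := by gcongr
  have h5 : (sg S.l2 S.k ^ 2 / (S.k : ℝ) ^ 2) * (sg S.l1 1 ^ 2 * ((1 + η) * (S.V0.card : ℝ) ^ 2)) =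
      (1 + η) * S.mu ^ 2 := by
    unfold mu Mb
    field_simp
  rw [← h5]
  apply add_le_add h1
  apply mul_le_mul_of_nonneg_left h2 (by positivity)

/-- variance bound for the number of surviving blocks -/
theorem varZ {p : ℕ} (hp : p ∈ S.P) {κ η : ℝ} (hκ : (p : ℝ) * S.k ≤ κ * S.Mb)
    (hV : 0 < S.V0.card)
    (H1 : ∑ t ∈ S.V0, ∑ t' ∈ S.V0, (if t ≠ t' then
      Real.exp ((S.k : ℝ) ^ 2 * gw S.l2 (t, t')) * Real.exp (gw S.l1 (t, t')) else 0) ≤
      (1 + η) * (S.V0.card : ℝ) ^ 2) (a : ℕ → ℕ) :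
    Av (S.l1 ++ S.l2) (fun c => (S.Z p c - S.mu) ^ 2) a ≤ S.mu ^ 2 * (1 / S.mu + η + 2 * κ) := by
  have hmu := S.mu_pos hV
  have hpos : ∀ ℓ ∈ S.l1 ++ S.l2, 0 < ℓ := by
    intro ℓ hℓ
    rcases List.mem_append.1 hℓ with h | h
    · exact S.hl1pos ℓ h
    · exact S.hl2pos ℓ h
  have h1 : ∀ c, (S.Z p c - S.mu) ^ 2 = S.Z p c ^ 2 + ((-2 * S.mu) * S.Z p c + S.mu ^ 2) := by
    intro c; ring
  rw [Av_congr h1, Av_add, Av_add, Av_smul, Av_const hpos]
  have h2 := S.EZZ_le hp H1 a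
  have h3 := S.EZ_ge hp hκ a
  have e : S.mu ^ 2 * (1 / S.mu + η + 2 * κ) = S.mu + S.mu ^ 2 * (η + 2 * κ) := by
    field_simp
    ring
  rw [e]
  nlinarith

end Scale

end Pool.Agent.Helper48.Cov
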