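import Pool.Agent.Helper48.CovNum
import Pool.Agent.Helper48.CovFactsL
import Pool.Agent.Helper48.CovFacts2

/-!
# Verification of the hypotheses of the scale theorem, step by step
-/

set_option autoImplicit false

namespace Pool.Agent.Helper48.Cov

open Finset Filter Pool.Agent.Helper44

def wI (i : ℕ) : ℕ := 4 ^ (8 * i)

noncomputable def VA (A : ℝ) (X : ℕ) : Finset ℕ := VV (w0 X) (yy A X) (RR X) X

noncomputable def MbI (A : ℝ) (X i : ℕ) : ℝ := (VA A X).card * sg (lst (w0 X) (wI i)) 1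

noncomputable def kI (κ A : ℝ) (X i : ℕ) : ℕ := ⌊κ * MbI A X i * 4 ^ i / X⌋₊

lemma Good.logR_le_ii {A : ℝ} {n0 X : ℕ} (h : Good A n0 X) : Real.log (RR X) ≤ 2 * ii X := by
  have hRlt := RR_lt X
  have hR4 := h.RR4
  have hRR : (4 : ℝ) ≤ RR X := by exact_mod_cast hR4
  have h0 : (RR X : ℝ) < (ii X + 1) * (ii X + 1) := by exact_mod_cast hRlt
  have h1 : Real.log (RR X) ≤ Real.log (((ii X : ℝ) + 1) ^ 2) := by
    apply Real.log_le_log (by linarith)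
    nlinarith
  rw [Real.log_pow] at h1
  have h2 := Real.log_le_sub_one_of_pos (show (0 : ℝ) < (ii X : ℝ) + 1 by positivity)
  push_cast at h1
  linarith

lemma Good.w0_le {A : ℝ} {n0 X i : ℕ} (_h : Good A n0 X) (hi : ii X ≤ i) : w0 X ≤ wI i :=
  Nat.pow_le_pow_right (by norm_num) (by omega)

lemma Good.wI_le {A : ℝ} {n0 X i : ℕ} (h : Good A n0 X) (hi : i < RR X) : wI i ≤ yy A X :=
  h.w_le_y hi.le

lemma Good.exp_L {A : ℝ} {n0 X : ℕ} (h : Good A n0 X) : Real.exp (Real.log X) = X :=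
  Real.exp_log (by exact_mod_cast h.X_pos)

theorem stepM : ∃ cv cm : ℝ, 0 < cv ∧ 0 < cm ∧ ∀ A : ℝ, 1 ≤ A → ∃ n0 : ℕ, ∀ X : ℕ, Good A n0 X →
    0 < (VA A X).card ∧ cv * (X / (ii X * Real.log (RR X))) ≤ (VA A X).card ∧
    ∀ i : ℕ, ii X ≤ i → i < RR X → 0 < MbI A X i ∧
      cm * (X / (i * Real.log (RR X))) ≤ MbI A X i ∧ MbI A X i ≤ X := by
  obtain ⟨cs, Cs, hcs, hCs, hsg⟩ := sg_bounds
  obtain ⟨cv, hcv, hV0⟩ := V0_lower
  refine ⟨cv, cv * cs * (11 / 12), hcv, by positivity, ?_⟩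
  intro A hA
  obtain ⟨nv, hV0⟩ := hV0 A hA
  refine ⟨nv, ?_⟩
  intro X h
  have hVlow : cv * (X / (ii X * Real.log (RR X))) ≤ (VA A X).card := hV0 X h
  have hR := h.logR_pos
  have hXR : (0 : ℝ) < X := by exact_mod_cast h.X_pos
  have hii0 : (0 : ℝ) < ii X := by exact_mod_cast (by have := h.hi2; omega : 0 < ii X)
  have hVpos : (0 : ℝ) < (VA A X).card := lt_of_lt_of_le (by positivity) hVlow
  refine ⟨by exact_mod_cast hVpos, hVlow, ?_⟩
  intro i hi hiR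
  have hw04 := w0_ge X h.hi2
  have hw0w := h.w0_le hi
  have hs1b := hsg (w0 X) (wI i) (by omega) hw0w
  have hs1pos : 0 < sg (lst (w0 X) (wI i)) 1 := sg_nonneg_lst (by omega)
  have hs1le : sg (lst (w0 X) (wI i)) 1 ≤ 1 := sg_le_one (by omega)
  have hlogw0 : 11 * (ii X : ℝ) ≤ Real.log (w0 X) := log_w_ge _
  have hlogw : Real.log (wI i : ℝ) ≤ 12 * i := log_w_le _
  have hlogwge : 11 * (i : ℝ) ≤ Real.log (wI i : ℝ) := log_w_ge _
  have hi0 : (0 : ℝ) < i := by exact_mod_cast (by have := h.hi2; omega : 0 < i)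
  have hVX : ((VA A X).card : ℝ) ≤ X := by
    have : (VA A X).card ≤ X := by
      unfold VA VV
      refine (Finset.card_filter_le _ _).trans ?_
      rw [Nat.card_Ioc]; omega
    exact_mod_cast this
  unfold MbI
  refine ⟨by positivity, ?_, ?_⟩
  · have h1 : cs * (11 / 12 * (ii X / i)) ≤ sg (lst (w0 X) (wI i)) 1 := by
      refine le_trans ?_ hs1b.1
      apply mul_le_mul_of_nonneg_left _ hcs.le
      rw [← mul_div_assoc, div_le_div_iff₀ hi0 (by linarith)]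
      nlinarith
    calc cv * cs * (11 / 12) * (X / (i * Real.log (RR X))) =
          (cv * (X / (ii X * Real.log (RR X)))) * (cs * (11 / 12 * (ii X / i))) := by
          field_simp
      _ ≤ _ := by gcongr
  · calc ((VA A X).card : ℝ) * sg (lst (w0 X) (wI i)) 1 ≤ X * 1 := by gcongr
      _ = X := mul_one _

theorem stepK {κ : ℝ} (hκ : 0 < κ) (hκ1 : κ ≤ 1 / 16) : ∀ A : ℝ, 1 ≤ A →
    ∃ n0 : ℕ, ∀ X : ℕ, Good A n0 X → ∀ i : ℕ, ii X ≤ i → i < RR X →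
      1 ≤ kI κ A X i ∧ 16 * kI κ A X i ≤ 4 ^ i ∧
      (kI κ A X i : ℝ) ≤ κ * MbI A X i * 4 ^ i / X ∧
      κ * MbI A X i * 4 ^ i / (2 * X) ≤ (kI κ A X i : ℝ) := by
  obtain ⟨cv, cm, hcv, hcm, hM⟩ := stepM
  intro A hA
  obtain ⟨n1, hn1⟩ := hM A hA
  obtain ⟨m1, hm1⟩ := poly_le_four_pow (8 / (κ * cm)) 2
  refine ⟨max n1 m1, ?_⟩
  intro X h i hi hiR
  obtain ⟨_, _, hMi⟩ := hn1 X (h.mono (le_max_left _ _))
  obtain ⟨hMb0, hMb1, hMb2⟩ := hMi i hi hiR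
  have hXR : (0 : ℝ) < X := by exact_mod_cast h.X_pos
  have hR := h.logR_pos
  have hRii := h.logR_le_ii
  have hi2 : (2 : ℝ) ≤ i := by exact_mod_cast (by have := h.hi2; omega : 2 ≤ i)
  have hii : (ii X : ℝ) ≤ i := by exact_mod_cast hi
  have hmi : m1 ≤ i := le_trans (le_trans (le_max_right _ _) h.hi) hi
  have h2 := numA hκ hcm hXR hi2 (by linarith) (by linarith) hMb1 (by positivity) (hm1 i hmi)
  have hkub : (kI κ A X i : ℝ) ≤ κ * MbI A X i * 4 ^ i / X := Nat.floor_le (by positivity)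
  have hklb : κ * MbI A X i * 4 ^ i / (2 * X) ≤ (kI κ A X i : ℝ) := by
    have h1 : κ * MbI A X i * 4 ^ i / X < kI κ A X i + 1 := Nat.lt_floor_add_one _
    have e : κ * MbI A X i * 4 ^ i / (2 * X) = (κ * MbI A X i * 4 ^ i / X) / 2 := by field_simp
    rw [e]; linarith
  refine ⟨?_, ?_, hkub, hklb⟩
  · have h1 : (1 : ℝ) ≤ kI κ A X i := by
      have e : κ * MbI A X i * 4 ^ i / (2 * X) = (κ * MbI A X i * 4 ^ i / X) / 2 := by field_simp
      rw [e] at hklb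
      linarith
    exact_mod_cast h1
  · have h3 : (kI κ A X i : ℝ) ≤ 4 ^ i / 16 := by
      refine hkub.trans ?_
      rw [div_le_iff₀ hXR]
      calc κ * MbI A X i * 4 ^ i ≤ (1 / 16) * X * 4 ^ i := by gcongr
        _ = _ := by ring
    have h4 : (16 : ℝ) * kI κ A X i ≤ 4 ^ i := by linarith
    exact_mod_cast h4

lemma wI_big (i k : ℕ) (hi : 1 ≤ i) (hk : 16 * k ≤ 4 ^ i) :
    4 ^ (i + 1) ≤ wI i ∧ 4 * k ≤ wI i ∧ 2 * k ^ 2 ≤ wI i ∧ 2 * k ≤ wI i := by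
  have hwbig : 4 ^ i * 4 ^ (i + 1) ≤ wI i := by
    unfold wI
    rw [← pow_add]
    exact Nat.pow_le_pow_right (by norm_num) (by omega)
  have h4i1 : 1 ≤ 4 ^ i := Nat.one_le_pow _ _ (by norm_num)
  have h2 : 4 ^ (i + 1) = 4 * 4 ^ i := by rw [pow_succ]; ring
  have h3 : 4 ^ (i + 1) ≤ wI i := le_trans (Nat.le_mul_of_pos_left _ (by omega)) hwbig
  refine ⟨h3, by omega, ?_, by omega⟩
  nlinarith

lemma Good.y_facts {A : ℝ} {n0 X : ℕ} (h : Good A n0 X) :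
    4 ^ RR X ≤ yy A X ∧ 4 ^ RR X * yy A X < X ∧ yy A X ≤ X := by
  have hR4 := h.RR4
  have h4Ry : 4 ^ RR X ≤ yy A X :=
    le_trans (Nat.pow_le_pow_right (by norm_num) (by omega)) h.h7
  have hy16 : 16 ≤ yy A X := by
    have : 4 ^ 2 ≤ 4 ^ RR X := Nat.pow_le_pow_right (by norm_num) (by omega)
    omega
  have hy6 := h.h6
  refine ⟨h4Ry, ?_, le_trans (Nat.le_self_pow (by norm_num) _) hy6⟩
  have h1 : 4 ^ RR X * yy A X ≤ yy A X * yy A X := Nat.mul_le_mul_right _ h4Ry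
  have h2 : yy A X * yy A X < (yy A X) ^ 4 := by
    have : (yy A X) ^ 4 = (yy A X * yy A X) * (yy A X * yy A X) := by ring
    rw [this]
    have h3 : 1 < yy A X * yy A X := by nlinarith
    have h4 : 0 < yy A X * yy A X := by positivity
    nlinarith
  omega

/-- existence of the scale -/
theorem stepS {κ : ℝ} (hκ : 0 < κ) (hκ1 : κ ≤ 1 / 16) : ∀ A : ℝ, 1 ≤ A →
    ∃ n0 : ℕ, ∀ X : ℕ, Good A n0 X → ∀ i : ℕ, ii X ≤ i → i < RR X →
      ∃ S : Scale, S.V0 = VA A X ∧ S.l1 = lst (w0 X) (wI i) ∧ S.l2 = lst (wI i) (yy A X) ∧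
        S.P = PP X i ∧ S.k = kI κ A X i ∧ S.J = 4 ^ (i + 1) := by
  intro A hA
  obtain ⟨n1, hn1⟩ := stepK hκ hκ1 A hA
  refine ⟨n1, ?_⟩
  intro X h i hi hiR
  obtain ⟨hk1, hk16, _, _⟩ := hn1 X h i hi hiR
  obtain ⟨h1, h2, _, _⟩ := wI_big i _ (by have := h.hi2; omega) hk16
  exact exists_scale (w0 X) (wI i) (yy A X) (RR X) X i (kI κ A X i) (w0_ge X h.hi2) (h.w0_le hi)
    (h.wI_le hiR) h1 hk1 h2 hiR h.y_facts.2.1

lemma Good.PP_gt {A : ℝ} {n0 X i : ℕ} (h : Good A n0 X) (hiR : i < RR X) :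
    ∀ p ∈ PP X i, yy A X < p := by
  intro p hp
  rw [mem_PP] at hp
  have h1 : 4 ^ (i + 1) ≤ 4 ^ RR X := Nat.pow_le_pow_right (by norm_num) hiR
  have h3 := h.y_facts.2.1
  by_contra hc
  push Not at hc
  have h2 : 4 ^ (i + 1) * p ≤ 4 ^ RR X * yy A X := Nat.mul_le_mul h1 hc
  omega

theorem stepP : ∀ A : ℝ, 1 ≤ A → ∃ n0 : ℕ, ∀ X : ℕ, Good A n0 X → ∀ i : ℕ, ii X ≤ i → i < RR X →
    (X : ℝ) / (8 * 4 ^ i * Real.log X) ≤ ((PP X i).card : ℝ) ∧ 0 < (PP X i).card := by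
  obtain ⟨nw, hwin⟩ := window_card
  intro A _
  refine ⟨nw, ?_⟩
  intro X h i hi hiR
  have hXi : nw ≤ X / 4 ^ i ∧ 2 ≤ X / 4 ^ i := by
    have h4RyX := h.y_facts.2.1
    have h4Ry := h.y_facts.1
    have h1 : yy A X ≤ X / 4 ^ i := by
      rw [Nat.le_div_iff_mul_le (by positivity)]
      have h2 : 4 ^ i ≤ 4 ^ RR X := Nat.pow_le_pow_right (by norm_num) hiR.le
      calc yy A X * 4 ^ i ≤ yy A X * 4 ^ RR X := Nat.mul_le_mul_left _ h2
        _ = 4 ^ RR X * yy A X := mul_comm _ _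
        _ ≤ X := h4RyX.le
    have h2 : nw ≤ i := le_trans h.hi hi
    have h3 : i < 4 ^ i := Nat.lt_pow_self (by norm_num)
    have h4 : 4 ^ i ≤ 4 ^ RR X := Nat.pow_le_pow_right (by norm_num) hiR.le
    have h5 := h.hi2
    refine ⟨by omega, by omega⟩
  have hP := hwin X i hXi.1 hXi.2
  refine ⟨hP, ?_⟩
  have hXR : (0 : ℝ) < X := by exact_mod_cast h.X_pos
  have hL := h.L_pos
  have : (0 : ℝ) < ((PP X i).card : ℝ) := lt_of_lt_of_le (by positivity) hP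
  exact_mod_cast this

/-- the exponent in the correlation bounds -/
theorem stepT {κ : ℝ} (hκ : 0 < κ) (hκ1 : κ ≤ 1 / 16) : ∀ A : ℝ, 1 ≤ A →
    ∃ n0 : ℕ, ∀ X : ℕ, Good A n0 X → ∀ i : ℕ, ii X ≤ i → i < RR X →
      4 * (kI κ A X i : ℝ) ^ 2 * ∑ p ∈ pr2 (wI i) (yy A X), (1 : ℝ) / p ≤ Real.log X / 64 := by
  obtain ⟨C', hC', hrec⟩ := sum_inv_pr2_le
  intro A hA
  obtain ⟨n1, hn1⟩ := stepK hκ hκ1 A hA
  obtain ⟨m4, hm4⟩ := poly_le_four_pow (5 + C') 1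
  refine ⟨max n1 m4, ?_⟩
  intro X h i hi hiR
  obtain ⟨hk1, hk16, _, _⟩ := hn1 X (h.mono (le_max_left _ _)) i hi hiR
  have hk : (kI κ A X i : ℝ) ≤ 4 ^ i / 16 := by
    have h4 : (16 : ℝ) * kI κ A X i ≤ 4 ^ i := by exact_mod_cast hk16
    linarith
  have hmR : m4 ≤ RR X := le_trans (le_max_right _ _) h.RR_ge
  have h1 := hm4 (RR X) hmR
  rw [pow_one] at h1
  have hR0 : (0 : ℝ) ≤ RR X := by positivity
  have h2 : 5 * ((RR X : ℝ) + 1) + C' ≤ 4 ^ RR X := by nlinarith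
  have hlogy := h.logy_pos
  have hy : 2 ≤ yy A X := by
    have h3 := h.y_facts.1
    have h4 : 4 ^ 1 ≤ 4 ^ RR X := Nat.pow_le_pow_right (by norm_num) (by have := h.RR4; omega)
    omega
  have hT : ∑ p ∈ pr2 (wI i) (yy A X), (1 : ℝ) / p ≤ 5 * ((RR X : ℝ) + 1) + C' := by
    have h1 := hrec (wI i) (yy A X) hy
    have h3 : Real.log (Real.log (yy A X)) ≤ Real.log (Real.log X) := by
      apply Real.log_le_log hlogy
      apply Real.log_le_log (by exact_mod_cast h.y_pos)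
      exact_mod_cast h.y_facts.2.2
    have h4 := h.h3
    linarith
  exact numT (by positivity) hk (Finset.sum_nonneg fun p _ => by positivity) hT hiR.le h2 h.h1

/-- first correlation hypothesis -/
theorem stepH1 {κ η : ℝ} (hκ : 0 < κ) (hκ1 : κ ≤ 1 / 16) (hη : 0 < η) (hη1 : η ≤ 1) :
    ∀ A : ℝ, 1 ≤ A → ∃ n0 : ℕ, ∀ X : ℕ, Good A n0 X → ∀ i : ℕ, ii X ≤ i → i < RR X →
      ∀ S : Scale, S.V0 = VA A X → S.l1 = lst (w0 X) (wI i) → S.l2 = lst (wI i) (yy A X) →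
        S.k = kI κ A X i →
    ∑ t ∈ S.V0, ∑ t' ∈ S.V0, (if t ≠ t' then
      Real.exp ((S.k : ℝ) ^ 2 * gw S.l2 (t, t')) * Real.exp (gw S.l1 (t, t')) else 0) ≤
      (1 + η) * (S.V0.card : ℝ) ^ 2 := by
  obtain ⟨cv, cm, hcv, hcm, hM⟩ := stepM
  intro A hA
  obtain ⟨n1, hn1⟩ := stepK hκ hκ1 A hA
  obtain ⟨n2, hn2⟩ := hM A hA
  obtain ⟨m2, hm2⟩ := poly_le_four_pow (256 / (cv * η)) 2
  refine ⟨max (max n1 n2) m2, ?_⟩
  intro X h i hi hiR S hSV hSl1 hSl2 hSk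
  obtain ⟨hk1, hk16, _, _⟩ :=
    hn1 X (h.mono (le_trans (le_max_left _ _) (le_max_left _ _))) i hi hiR
  obtain ⟨hVpos, hVlow, _⟩ := hn2 X (h.mono (le_trans (le_max_right _ _) (le_max_left _ _)))
  have hk : (kI κ A X i : ℝ) ≤ 4 ^ i / 16 := by
    have h4 : (16 : ℝ) * kI κ A X i ≤ 4 ^ i := by exact_mod_cast hk16
    linarith
  have hXR : (0 : ℝ) < X := by exact_mod_cast h.X_pos
  have hR := h.logR_pos
  have hrat := numB (X := (X : ℝ)) (V := ((VA A X).card : ℝ)) (k := (kI κ A X i : ℝ)) (i := i)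
    (j := ii X) hXR hcv hη (by have := h.hi2; omega) hi (by positivity) hk (by linarith)
    h.logR_le_ii hVlow (hm2 (ii X) (le_trans (le_max_right _ _) h.hi))
  have hw0 : ((w0 X : ℕ) : ℝ) = 4 ^ (8 * ii X) := by unfold w0; push_cast; rfl
  have hw : ((wI i : ℕ) : ℝ) = 4 ^ (8 * i) := by unfold wI; push_cast; rfl
  rw [← hw0, ← hw] at hrat
  obtain ⟨_, _, hkw2, _⟩ := wI_big i _ (by have := h.hi2; omega) hk16
  have hone : 4 / (w0 X : ℝ) + 4 * (S.k : ℝ) ^ 2 / (wI i : ℕ) ≤ 1 := by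
    rw [hSk, hw0, hw]
    refine (numB1 hi (by positivity) hk).trans ?_
    rw [div_le_one (by positivity)]
    calc (8 : ℝ) ≤ 4 ^ 2 := by norm_num
      _ ≤ 4 ^ (6 * ii X) := pow_le_pow_right₀ (by norm_num) (by have := h.hi2; omega)
  refine (H1_of S hSV hSl1 hSl2 (w0_ge X h.hi2) (h.w0_le hi) (h.wI_le hiR)
    (by rw [hSk]; exact hkw2) hone (by rw [hSV]; exact hVpos)).trans ?_
  apply mul_le_mul_of_nonneg_right _ (by positivity)
  rw [hSk, hSV]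
  linarith

/-- second correlation hypothesis -/
theorem stepH2 {κ η : ℝ} (hκ : 0 < κ) (hκ1 : κ ≤ 1 / 16) (hη : 0 < η) :
    ∀ A : ℝ, 1 ≤ A → ∃ n0 : ℕ, ∀ X : ℕ, Good A n0 X → ∀ i : ℕ, ii X ≤ i → i < RR X →
      ∀ S : Scale, S.l2 = lst (wI i) (yy A X) → S.P = PP X i →
        S.k = kI κ A X i → S.J = 4 ^ (i + 1) →
    ∑ p ∈ S.P, ∑ p' ∈ S.P, (if p ≠ p' then S.cG p p' else 0) ≤ η * (S.P.card : ℝ) ^ 2 := by
  obtain ⟨Cb, hCb, Xb, hbrun⟩ := prime_class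
  intro A hA
  obtain ⟨n1, hn1⟩ := stepK hκ hκ1 A hA
  obtain ⟨n2, hn2⟩ := stepP A hA
  obtain ⟨n3, hn3⟩ := stepT hκ hκ1 A hA
  obtain ⟨m3, hm3⟩ := poly_le_four_pow (1000000 * Cb / η) 4
  obtain ⟨m5, hm5⟩ := poly_le_four_pow (10000000 / η) 0
  refine ⟨max (max (max n1 n2) n3) (max (max m3 m5) Xb), ?_⟩
  intro X h i hi hiR S hSl2 hSP hSk hSJ
  have hle : ∀ n, n ≤ max (max n1 n2) n3 → Good A n X := fun n hn =>
    h.mono (le_trans hn (le_max_left _ _))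
  obtain ⟨hk1, hk16, _, _⟩ :=
    hn1 X (hle n1 (le_trans (le_max_left _ _) (le_max_left _ _))) i hi hiR
  obtain ⟨hPlow, _⟩ := hn2 X (hle n2 (le_trans (le_max_right _ _) (le_max_left _ _))) i hi hiR
  have hT := hn3 X (hle n3 (le_max_right _ _)) i hi hiR
  have hk : (kI κ A X i : ℝ) ≤ 4 ^ i / 16 := by
    have h4 : (16 : ℝ) * kI κ A X i ≤ 4 ^ i := by exact_mod_cast hk16
    linarith
  have hXR : (0 : ℝ) < X := by exact_mod_cast h.X_pos
  have hL := h.L_ge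
  have hL0 := h.L_pos
  have hw : ((wI i : ℕ) : ℝ) = 4 ^ (8 * i) := by unfold wI; push_cast; rfl
  have hw0 : (0 : ℝ) < (wI i : ℕ) := by rw [hw]; positivity
  obtain ⟨hJw, _, hkw2, _⟩ := wI_big i _ (by have := h.hi2; omega) hk16
  have hS2 : 8 * (S.k : ℝ) ^ 2 / (wI i : ℕ) ≤ 8 / 4 ^ (6 * i) := by
    rw [hSk, hw]
    exact numS2 (by positivity) hk
  have hS2one : 8 * (S.k : ℝ) ^ 2 / (wI i : ℕ) ≤ 1 := by
    refine hS2.trans ?_
    rw [div_le_one (by positivity)]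
    calc (8 : ℝ) ≤ 4 ^ 2 := by norm_num
      _ ≤ 4 ^ (6 * i) := pow_le_pow_right₀ (by norm_num) (by have := h.hi2; omega)
  have hXXb : Xb ≤ X := le_trans (le_trans (le_max_right _ _) (le_max_right _ _)) h.h8
  have H2 := H2_of S hSl2 hSP hSJ hJw (by rw [hSk]; exact hkw2) (h.PP_gt hiR) hS2one
    (K1 := Cb * (Real.log (Real.log X)) ^ 2 * X / Real.log X) (K2 := (X : ℝ) ^ (1 / 2 : ℝ))
    (by positivity) (by positivity) (hbrun X hXXb)
  refine H2.trans ?_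
  have e0 : η * (S.P.card : ℝ) ^ 2 = S.P.card * (η * S.P.card) := by ring
  rw [e0]
  apply mul_le_mul_of_nonneg_left _ (by positivity)
  rw [hSP]
  have hJR : (S.J : ℝ) ^ 2 = 16 * 16 ^ i := by
    rw [hSJ]
    push_cast
    rw [← pow_mul, mul_comm (i + 1) 2, pow_mul, pow_succ]
    norm_num
    ring
  have hboxle : ((box S.J).card : ℝ) ≤ 144 * 16 ^ i := by
    have h1 := box_card S.J (by rw [hSJ]; exact Nat.one_le_pow _ _ (by norm_num))
    rw [hJR] at h1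
    linarith
  have hl2 : (Real.log (Real.log X)) ^ 2 ≤ 25 * ((i : ℝ) + 1) ^ 4 := by
    have hlogL0 : 0 ≤ Real.log (Real.log X) := Real.log_nonneg (by linarith)
    have h3 : Real.log (Real.log X) ≤ 5 * ((i : ℝ) + 1) ^ 2 := by
      have : (RR X : ℝ) + 1 ≤ ((i : ℝ) + 1) ^ 2 := by
        have h0 : RR X + 1 ≤ (ii X + 1) * (ii X + 1) := RR_lt X
        have h0' : (RR X : ℝ) + 1 ≤ (ii X + 1) * (ii X + 1) := by exact_mod_cast h0
        have h0'' : (ii X : ℝ) ≤ i := by exact_mod_cast hi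
        have h0''' : (0 : ℝ) ≤ ii X := by positivity
        nlinarith
      have := h.h3
      linarith
    calc (Real.log (Real.log X)) ^ 2 ≤ (5 * ((i : ℝ) + 1) ^ 2) ^ 2 := by gcongr
      _ = _ := by ring
  have hA1 := numC (bx := ((box S.J).card : ℝ)) (l2 := (Real.log (Real.log X)) ^ 2)
    (s := 8 * (S.k : ℝ) ^ 2 / (wI i : ℕ)) (i := i) hCb hXR hL0 hη (by positivity) hboxle
    (by positivity) hl2 hS2 (by positivity)
    (hm3 i (le_trans (le_trans (le_trans (le_max_left _ _) (le_max_left _ _))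
      (le_max_right _ _)) (h.hi.trans hi)))
  have h5 := hm5 (RR X) (le_trans (le_trans (le_trans (le_max_right _ _) (le_max_left _ _))
      (le_max_right _ _)) h.RR_ge)
  rw [pow_zero, mul_one] at h5
  have h4RL : (4 : ℝ) ^ RR X ≤ Real.log X :=
    le_trans (pow_le_pow_left₀ (by norm_num) (by norm_num) _) h.h1
  have hP := numP hL hη (h5.trans h4RL)
  have h64 : (64 : ℝ) ^ i ≤ Real.log X :=
    le_trans (pow_le_pow_right₀ (by norm_num) hiR.le) h.h1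
  have hA2 := numD (bx := ((box S.J).card : ℝ)) (X := (X : ℝ)) (L := Real.log X) (η := η)
    (u := 4 * (S.k : ℝ) ^ 2 * ∑ ℓ ∈ pr2 (wI i) (yy A X), (1 : ℝ) / ℓ) (i := i) hXR hL
    h.exp_L hη (by positivity) hboxle (by rw [hSk]; exact hT) h64 hP
  calc ((box S.J).card : ℝ) * (Cb * (Real.log (Real.log X)) ^ 2 * X / Real.log X *
        (2 * (8 * (S.k : ℝ) ^ 2 / (wI i : ℕ))) +
      (X : ℝ) ^ (1 / 2 : ℝ) * Real.exp (4 * (S.k : ℝ) ^ 2 * ∑ ℓ ∈ pr2 (wI i) (yy A X), (1 : ℝ) / ℓ))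
      = ((box S.J).card : ℝ) * (Cb * (Real.log (Real.log X)) ^ 2 * X / Real.log X *
        (2 * (8 * (S.k : ℝ) ^ 2 / (wI i : ℕ)))) +
      ((box S.J).card : ℝ) * ((X : ℝ) ^ (1 / 2 : ℝ) *
        Real.exp (4 * (S.k : ℝ) ^ 2 * ∑ ℓ ∈ pr2 (wI i) (yy A X), (1 : ℝ) / ℓ)) := by ring
    _ ≤ (η / 2) * (X / (8 * 4 ^ i * Real.log X)) + (η / 2) * (X / (8 * 4 ^ i * Real.log X)) :=
      add_le_add hA1 hA2
    _ = η * (X / (8 * 4 ^ i * Real.log X)) := by ring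
    _ ≤ η * ((PP X i).card : ℝ) := by gcongr

/-- the means are large -/
theorem stepMu {κ η : ℝ} (hκ : 0 < κ) (hκ1 : κ ≤ 1 / 16) (hη : 0 < η) :
    ∀ A : ℝ, 1 ≤ A → ∃ n0 : ℕ, ∀ X : ℕ, Good A n0 X → ∀ i : ℕ, ii X ≤ i → i < RR X →
      ∀ S : Scale, S.V0 = VA A X → S.l1 = lst (w0 X) (wI i) → S.l2 = lst (wI i) (yy A X) →
        S.P = PP X i → S.k = kI κ A X i → 1 / S.mu ≤ η ∧ 1 / S.muW ≤ η := by
  intro A hA
  obtain ⟨n1, hn1⟩ := stepK hκ hκ1 A hA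
  obtain ⟨n2, hn2⟩ := stepP A hA
  obtain ⟨n3, hn3⟩ := stepT hκ hκ1 A hA
  obtain ⟨m5, hm5⟩ := poly_le_four_pow (10000000 / η) 0
  refine ⟨max (max (max n1 n2) n3) m5, ?_⟩
  intro X h i hi hiR S hSV hSl1 hSl2 hSP hSk
  have hle : ∀ n, n ≤ max (max n1 n2) n3 → Good A n X := fun n hn =>
    h.mono (le_trans hn (le_max_left _ _))
  obtain ⟨hk1, hk16, hkub, _⟩ :=
    hn1 X (hle n1 (le_trans (le_max_left _ _) (le_max_left _ _))) i hi hiR
  obtain ⟨hPlow, _⟩ := hn2 X (hle n2 (le_trans (le_max_right _ _) (le_max_left _ _))) i hi hiR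
  have hT := hn3 X (hle n3 (le_max_right _ _)) i hi hiR
  have hXR : (0 : ℝ) < X := by exact_mod_cast h.X_pos
  have hL := h.L_ge
  have hL0 := h.L_pos
  have h5 := hm5 (RR X) (le_trans (le_max_right _ _) h.RR_ge)
  rw [pow_zero, mul_one] at h5
  have h4RL : (4 : ℝ) ^ RR X ≤ Real.log X :=
    le_trans (pow_le_pow_left₀ (by norm_num) (by norm_num) _) h.h1
  have h4iL : (4 : ℝ) ^ i ≤ Real.log X :=
    le_trans (pow_le_pow_right₀ (by norm_num) hiR.le) h4RL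
  have hP := numP hL hη (h5.trans h4RL)
  obtain ⟨_, _, _, hkw⟩ := wI_big i _ (by have := h.hi2; omega) hk16
  have hkR : (1 : ℝ) ≤ kI κ A X i := by exact_mod_cast hk1
  have hT0 : 0 ≤ ∑ p ∈ pr2 (wI i) (yy A X), (1 : ℝ) / p := Finset.sum_nonneg fun p _ => by positivity
  have hsgk : Real.exp (-(Real.log X / 64)) ≤ sg S.l2 S.k := by
    rw [hSl2, hSk]
    have h1 := sgk_lower (wI i) (yy A X) (kI κ A X i) hkw
    refine le_trans ?_ h1
    apply Real.exp_le_exp.2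
    have h2 : 2 * (kI κ A X i : ℝ) * ∑ p ∈ pr2 (wI i) (yy A X), (1 : ℝ) / p ≤
        4 * (kI κ A X i : ℝ) ^ 2 * ∑ p ∈ pr2 (wI i) (yy A X), (1 : ℝ) / p := by
      apply mul_le_mul_of_nonneg_right _ hT0
      nlinarith
    linarith
  have hsgk0 := S.sgk_pos
  have h4i0 : (0 : ℝ) < 4 ^ i := by positivity
  have hSMb : S.Mb = MbI A X i := by
    unfold Scale.Mb MbI
    rw [hSV, hSl1]
  constructor
  · apply numE (X := (X : ℝ)) hL h.exp_L hη h4i0 (by nlinarith) _ hP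
    unfold Scale.mu
    rw [le_div_iff₀ (by rw [hSk]; linarith), hSMb]
    have h2 : (X : ℝ) / 4 ^ i * S.k ≤ MbI A X i := by
      rw [hSk, div_mul_eq_mul_div, div_le_iff₀ h4i0]
      rw [le_div_iff₀ hXR] at hkub
      have hMb0 : 0 ≤ MbI A X i := by
        unfold MbI
        have : 0 < sg (lst (w0 X) (wI i)) 1 :=
          sg_nonneg_lst (by have := w0_ge X h.hi2; omega)
        positivity
      have h3 : κ * MbI A X i * 4 ^ i ≤ 1 * MbI A X i * 4 ^ i := by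
        gcongr
        linarith
      linarith
    calc X / 4 ^ i * Real.exp (-(Real.log X / 64)) * S.k =
          (X / 4 ^ i * S.k) * Real.exp (-(Real.log X / 64)) := by ring
      _ ≤ MbI A X i * sg S.l2 S.k := by
          apply mul_le_mul h2 hsgk (Real.exp_pos _).le
          exact le_trans (by positivity) h2
  · apply numE (X := (X : ℝ)) (q := 8 * 4 ^ i * Real.log X) hL h.exp_L hη (by positivity)
      (by gcongr) _ hP
    unfold Scale.muW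
    have h2 : sg S.l2 1 ≤ 1 := by
      rw [hSl2]
      exact sg_le_one (by unfold wI; exact Nat.one_le_pow _ _ (by norm_num))
    have h3 := S.sg2_pos
    rw [le_div_iff₀ h3, hSP]
    calc X / (8 * 4 ^ i * Real.log X) * Real.exp (-(Real.log X / 64)) * sg S.l2 1 ≤
          ((PP X i).card : ℝ) * sg S.l2 S.k * 1 := by gcongr
      _ = _ := mul_one _

end Pool.Agent.Helper48.Cov
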